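import Mathlib

set_option autoImplicit false

namespace Pool.Agent.Lib.MP_23eee6_gt

open Matrix

abbrev SL2 := Matrix.SpecialLinearGroup (Fin 2) ℝ

variable {ι : Type}

def bar (a : ι × Bool) : ι × Bool := (a.1, !a.2)

@[simp] lemma bar_fst (a : ι × Bool) : (bar a).1 = a.1 := rfl
@[simp] lemma bar_bar (a : ι × Bool) : bar (bar a) = a := by
  cases a; simp [bar]

def sg (a : ι × Bool) : ℝ := if a.2 then 1 else -1

lemma sg_sq (a : ι × Bool) : sg a * sg a = 1 := by
  unfold sg; split_ifs <;> norm_num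

lemma abs_sg (a : ι × Bool) : |sg a| = 1 := by
  unfold sg; split_ifs <;> norm_num

lemma sg_ne (a : ι × Bool) : sg a ≠ 0 := by
  unfold sg; split_ifs <;> norm_num

noncomputable def mat (x y r : ℝ) (hr : 0 < r) : SL2 :=
  ⟨!![x / r, (-r ^ 2 - x * y) / r; 1 / r, -y / r], by
    rw [Matrix.det_fin_two_of]; field_simp; ring⟩

noncomputable def rho (c : ι × Bool → ℝ) (r : ι → ℝ) (hr : ∀ k, 0 < r k) : FreeGroup ι →* SL2 :=
  FreeGroup.lift fun k => mat (c (k, true)) (c (k, false)) (r k) (hr k)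

def lt (a : ι × Bool) : FreeGroup ι := FreeGroup.mk [a]

lemma mk_cons (a : ι × Bool) (L : List (ι × Bool)) :
    FreeGroup.mk (a :: L) = lt a * FreeGroup.mk L := by
  rw [lt, FreeGroup.mul_mk]; rfl

lemma lt_bar (a : ι × Bool) : lt (bar a) = (lt a)⁻¹ := by
  rw [lt, lt, FreeGroup.inv_mk]; simp [FreeGroup.invRev, bar]

variable (c : ι × Bool → ℝ) (r : ι → ℝ) (hr : ∀ k, 0 < r k)

lemma rho_lt (a : ι × Bool) :
    ((rho c r hr (lt a) : SL2) : Matrix (Fin 2) (Fin 2) ℝ) =
      !![sg a * (c a / r a.1), sg a * ((-r a.1 ^ 2 - c a * c (bar a)) / r a.1);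
        sg a * (1 / r a.1), sg a * (-c (bar a) / r a.1)] := by
  obtain ⟨k, b⟩ := a
  cases b
  · have h1 : lt (k, false) = (FreeGroup.of k)⁻¹ := by
      have := lt_bar (k, true)
      simpa [bar, lt, FreeGroup.of] using this
    rw [h1, map_inv, rho, FreeGroup.lift_apply_of, Matrix.SpecialLinearGroup.coe_inv]
    simp only [mat, Matrix.adjugate_fin_two_of, sg, bar]
    ext i j
    fin_cases i <;> fin_cases j <;> simp <;> ring
  · have h1 : lt (k, true) = FreeGroup.of k := rfl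
    rw [h1, rho, FreeGroup.lift_apply_of]
    simp [mat, sg, bar]

def act (M : SL2) (p : ℝ × ℝ) : ℝ × ℝ :=
  ((M : Matrix (Fin 2) (Fin 2) ℝ) 0 0 * p.1 + (M : Matrix (Fin 2) (Fin 2) ℝ) 0 1 * p.2,
    (M : Matrix (Fin 2) (Fin 2) ℝ) 1 0 * p.1 + (M : Matrix (Fin 2) (Fin 2) ℝ) 1 1 * p.2)

lemma act_mul (M N : SL2) (p : ℝ × ℝ) : act (M * N) p = act M (act N p) := by
  simp only [act, Matrix.SpecialLinearGroup.coe_mul, Matrix.mul_apply, Fin.sum_univ_two]
  ext <;> simp only <;> ring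

lemma act_one (p : ℝ × ℝ) : act 1 p = p := by
  simp [act]

def dt (p q : ℝ × ℝ) : ℝ := p.1 * q.2 - p.2 * q.1

lemma det_entries (M : SL2) :
    (M : Matrix (Fin 2) (Fin 2) ℝ) 0 0 * (M : Matrix (Fin 2) (Fin 2) ℝ) 1 1 -
      (M : Matrix (Fin 2) (Fin 2) ℝ) 0 1 * (M : Matrix (Fin 2) (Fin 2) ℝ) 1 0 = 1 := by
  have := M.det_coe
  rwa [Matrix.det_fin_two] at this

lemma dt_act (M : SL2) (p q : ℝ × ℝ) : dt (act M p) (act M q) = dt p q := by
  have h := det_entries M
  simp only [dt, act]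
  linear_combination (p.1 * q.2 - p.2 * q.1) * h

lemma act_lt (a : ι × Bool) (p : ℝ × ℝ) :
    act (rho c r hr (lt a)) p =
      (sg a * ((c a * (p.1 - c (bar a) * p.2) - r a.1 ^ 2 * p.2) / r a.1),
        sg a * ((p.1 - c (bar a) * p.2) / r a.1)) := by
  have := (hr a.1).ne'
  simp only [act, rho_lt]
  ext
  · simp; field_simp; ring
  · simp; field_simp; ring

/-- ping-pong on the first column -/
lemma first_col (hr1 : ∀ k, r k ≤ 1)
    (hsep : ∀ a b : ι × Bool, a ≠ b → r a.1 + r b.1 ≤ |c a - c b|) :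
    ∀ (L : List (ι × Bool)) (a : ι × Bool), FreeGroup.IsReduced (a :: L) →
      1 ≤ |(act (rho c r hr (FreeGroup.mk (a :: L))) (1, 0)).2| ∧
      |(act (rho c r hr (FreeGroup.mk (a :: L))) (1, 0)).1 -
        c a * (act (rho c r hr (FreeGroup.mk (a :: L))) (1, 0)).2| ≤
        r a.1 * |(act (rho c r hr (FreeGroup.mk (a :: L))) (1, 0)).2| := by
  intro L
  induction L with
  | nil =>
    intro a _
    have h0 := hr a.1
    have h1 := hr1 a.1
    change 1 ≤ |(act (rho c r hr (lt a)) (1, 0)).2| ∧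
      |(act (rho c r hr (lt a)) (1, 0)).1 - c a * (act (rho c r hr (lt a)) (1, 0)).2| ≤
        r a.1 * |(act (rho c r hr (lt a)) (1, 0)).2|
    rw [act_lt]
    simp only [mul_zero, sub_zero, mul_one]
    constructor
    · rw [abs_mul, abs_sg, one_mul, abs_of_pos (by positivity), le_div_iff₀ h0]; linarith
    · have : sg a * (c a / r a.1) - c a * (sg a * (1 / r a.1)) = 0 := by ring
      rw [this, abs_zero]; positivity
  | cons b L ih =>
    intro a hred
    rw [FreeGroup.isReduced_cons_cons] at hred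
    obtain ⟨h1, h2⟩ := ih b hred.2
    have hne : bar a ≠ b := by
      intro h
      have h3 := hred.1 (by rw [← h]; rfl)
      rw [← h] at h3
      simp [bar] at h3
    rw [mk_cons a, map_mul, act_mul, act_lt]
    set p := act (rho c r hr (FreeGroup.mk (b :: L))) (1, 0) with hp
    have h0 := hr a.1
    have hs := hsep _ _ hne
    simp only [bar_fst] at hs
    have key : r a.1 * |p.2| ≤ |p.1 - c (bar a) * p.2| := by
      have e : p.1 - c (bar a) * p.2 = (p.1 - c b * p.2) - (c (bar a) - c b) * p.2 := by ring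
      have t := abs_sub_abs_le_abs_sub ((c (bar a) - c b) * p.2) (p.1 - c b * p.2)
      rw [abs_sub_comm ((c (bar a) - c b) * p.2), ← e, abs_mul] at t
      have : (r a.1 + r b.1) * |p.2| ≤ |c (bar a) - c b| * |p.2| :=
        mul_le_mul_of_nonneg_right hs (abs_nonneg _)
      nlinarith
    have k2 : |p.2| ≤ |sg a * ((p.1 - c (bar a) * p.2) / r a.1)| := by
      rw [abs_mul, abs_sg, one_mul, abs_div, abs_of_pos h0, le_div_iff₀ h0]; linarith
    refine ⟨le_trans h1 k2, ?_⟩
    have e : sg a * ((c a * (p.1 - c (bar a) * p.2) - r a.1 ^ 2 * p.2) / r a.1) -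
        c a * (sg a * ((p.1 - c (bar a) * p.2) / r a.1)) = -(sg a * (r a.1 * p.2)) := by
      field_simp; ring
    simp only
    rw [e, abs_neg, abs_mul, abs_sg, one_mul, abs_mul, abs_of_pos h0]
    exact mul_le_mul_of_nonneg_left k2 h0.le

lemma entry_ge (hr1 : ∀ k, r k ≤ 1)
    (hsep : ∀ a b : ι × Bool, a ≠ b → r a.1 + r b.1 ≤ |c a - c b|)
    (w : FreeGroup ι) (hw : w ≠ 1) :
    1 ≤ |((rho c r hr w : SL2) : Matrix (Fin 2) (Fin 2) ℝ) 1 0| := by
  classical
  have h1 : w.toWord ≠ [] := by rwa [Ne, FreeGroup.toWord_eq_nil_iff]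
  obtain ⟨a, L, hL⟩ := List.exists_cons_of_ne_nil h1
  have h2 : FreeGroup.IsReduced (a :: L) := hL ▸ FreeGroup.isReduced_toWord
  have h3 := (first_col c r hr hr1 hsep L a h2).1
  rw [← hL, FreeGroup.mk_toWord] at h3
  simpa [act] using h3

lemma rho_injective (hr1 : ∀ k, r k ≤ 1)
    (hsep : ∀ a b : ι × Bool, a ≠ b → r a.1 + r b.1 ≤ |c a - c b|) :
    Function.Injective (rho c r hr) := by
  rw [injective_iff_map_eq_one]
  intro w hw
  by_contra hne
  have := entry_ge c r hr hr1 hsep w hne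
  rw [hw] at this
  simp at this
  linarith

lemma free_not_fg [Infinite ι] : ¬ (⊤ : Subgroup (FreeGroup ι)).FG := by
  classical
  rintro ⟨S, hS⟩
  let T : Finset ι := S.biUnion fun w => (w.toWord.map Prod.fst).toFinset
  obtain ⟨k, hk⟩ := Infinite.exists_notMem_finset T
  let φ : FreeGroup ι →* Multiplicative ℤ :=
    FreeGroup.lift fun j => if j = k then Multiplicative.ofAdd 1 else 1
  have h1 : ∀ w ∈ S, φ w = 1 := by
    intro w hw
    rw [← FreeGroup.mk_toWord (x := w), FreeGroup.lift_mk]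
    apply List.prod_eq_one
    intro x hx
    rw [List.mem_map] at hx
    obtain ⟨y, hy, rfl⟩ := hx
    have : y.1 ≠ k := by
      intro h
      apply hk
      simp only [T, Finset.mem_biUnion, List.mem_toFinset, List.mem_map]
      exact ⟨w, hw, y, hy, h⟩
    cases y.2 <;> simp [this]
  have h2 : Subgroup.closure (S : Set (FreeGroup ι)) ≤ φ.ker := by
    rw [Subgroup.closure_le]
    intro w hw
    exact h1 w hw
  rw [hS] at h2
  have h3 : φ (FreeGroup.of k) = 1 := h2 (Subgroup.mem_top _)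
  simp [φ] at h3

lemma range_not_fg [Infinite ι] (hr1 : ∀ k, r k ≤ 1)
    (hsep : ∀ a b : ι × Bool, a ≠ b → r a.1 + r b.1 ≤ |c a - c b|) :
    ¬ (rho c r hr).range.FG := by
  intro h
  apply free_not_fg (ι := ι)
  rw [← Group.fg_iff_subgroup_fg] at h
  rw [← Group.fg_def]
  let e := MonoidHom.ofInjective (rho_injective c r hr hr1 hsep)
  exact Group.fg_of_surjective (f := e.symm.toMonoidHom) e.symm.surjective

end Pool.Agent.Lib.MP_23eee6_gt
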