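import Pool.Agent.Lib.MP_23eee6_gt.Basic

set_option autoImplicit false

namespace Pool.Agent.Lib.MP_23eee6_gt

structure Sys (ι : Type) where
  c : ι × Bool → ℝ
  r : ι → ℝ
  H : ℝ → ℝ
  r_pos : ∀ k, 0 < r k
  r_le : ∀ k, r k ≤ 1
  sep : ∀ a b : ι × Bool, a ≠ b →
    r a.1 + r b.1 + 2000000 * min (r a.1) (r b.1) ≤ |c a - c b|
  dense : ∀ x η : ℝ, 0 < η → ∃ (y : ℝ) (a : ι × Bool), |y - x| < η ∧ |y - c a| < r a.1
  H_lo : ∀ x y : ℝ, x ≤ y → (y - x) / 2 ≤ H y - H x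
  H_hi : ∀ x y : ℝ, x ≤ y → H y - H x ≤ y - x
  H_gap : ∀ (a : ι × Bool) (x : ℝ), |x - c a| ≤ r a.1 → H x = H (c a) + (x - c a)
  H_ne : ∃ x y : ℝ, (∀ a : ι × Bool, r a.1 ≤ |x - c a|) ∧ (∀ a : ι × Bool, r a.1 ≤ |y - c a|) ∧
    H y - H x ≠ y - x

namespace Sys

variable {ι : Type} (S : Sys ι)

def InC (x : ℝ) : Prop := ∀ a : ι × Bool, S.r a.1 ≤ |x - S.c a|

def c' (a : ι × Bool) : ℝ := S.H (S.c a)

lemma sep0 (a b : ι × Bool) (h : a ≠ b) : S.r a.1 + S.r b.1 ≤ |S.c a - S.c b| := by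
  have := S.sep a b h
  have h1 : 0 < min (S.r a.1) (S.r b.1) := lt_min (S.r_pos _) (S.r_pos _)
  linarith

lemma H_mono : Monotone S.H := by
  intro x y h
  have := S.H_lo x y h
  linarith

lemma gap_unique {a b : ι × Bool} {x : ℝ} (ha : |x - S.c a| < S.r a.1)
    (hb : |x - S.c b| ≤ S.r b.1) : a = b := by
  by_contra h
  have h1 := S.sep0 a b h
  have h2 : |S.c a - S.c b| ≤ |x - S.c b| + |x - S.c a| := by
    have := abs_sub (x - S.c b) (x - S.c a)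
    rwa [show x - S.c b - (x - S.c a) = S.c a - S.c b by ring] at this
  linarith

lemma inC_of_abs_eq {a : ι × Bool} {x : ℝ} (h : |x - S.c a| = S.r a.1) : S.InC x := by
  intro b
  by_contra hb
  push Not at hb
  have := S.gap_unique hb h.le
  subst this
  linarith

lemma inC_right (a : ι × Bool) : S.InC (S.c a + S.r a.1) :=
  S.inC_of_abs_eq (a := a) (by simp [abs_of_pos (S.r_pos _)])

lemma inC_left (a : ι × Bool) : S.InC (S.c a - S.r a.1) :=
  S.inC_of_abs_eq (a := a) (by simp [abs_of_pos (S.r_pos _)])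

lemma H_right (a : ι × Bool) : S.H (S.c a + S.r a.1) = S.c' a + S.r a.1 := by
  rw [S.H_gap a _ (by simp [abs_of_pos (S.r_pos _)])]; simp [c']

lemma H_left (a : ι × Bool) : S.H (S.c a - S.r a.1) = S.c' a - S.r a.1 := by
  rw [S.H_gap a _ (by simp [abs_of_pos (S.r_pos _)])]; simp [c']; ring

lemma sep_lt {a b : ι × Bool} (h : a ≠ b) (hab : S.c a ≤ S.c b) :
    S.c a + S.r a.1 ≤ S.c b - S.r b.1 := by
  have := S.sep0 a b h
  rw [abs_of_nonpos (by linarith)] at this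
  linarith

lemma sep0' (a b : ι × Bool) (h : a ≠ b) : S.r a.1 + S.r b.1 ≤ |S.c' a - S.c' b| := by
  rcases le_total (S.c a) (S.c b) with hab | hab
  · have h1 := S.H_mono (S.sep_lt h hab)
    rw [H_right, H_left] at h1
    rw [abs_sub_comm]
    exact le_trans (by linarith) (le_abs_self _)
  · have h1 := S.H_mono (S.sep_lt h.symm hab)
    rw [H_right, H_left] at h1
    exact le_trans (by linarith) (le_abs_self _)

lemma c'_shr (a b : ι × Bool) (h : S.c a ≤ S.c b) :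
    0 ≤ S.c' b - S.c' a ∧ S.c' b - S.c' a ≤ S.c b - S.c a :=
  ⟨sub_nonneg.2 (S.H_mono h), S.H_hi _ _ h⟩

lemma inC_or (x : ℝ) : S.InC x ∨ ∃ a : ι × Bool, |x - S.c a| < S.r a.1 := by
  by_cases h : S.InC x
  · exact Or.inl h
  · right; unfold InC at h; push Not at h; exact h

lemma glue (ψ : ℝ → ℝ) (h1 : ∀ x, S.InC x → ψ x = S.H x)
    (h2 : ∀ (a : ι × Bool) x, |x - S.c a| < S.r a.1 →
      S.c' a - S.r a.1 ≤ ψ x ∧ ψ x ≤ S.c' a + S.r a.1)
    (h3 : ∀ (a : ι × Bool) x y, |x - S.c a| < S.r a.1 → |y - S.c a| < S.r a.1 → x ≤ y →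
      ψ x ≤ ψ y) : Monotone ψ := by
  intro x y hxy
  rcases S.inC_or x with hx | ⟨a, ha⟩ <;> rcases S.inC_or y with hy | ⟨b, hb⟩
  · rw [h1 x hx, h1 y hy]; exact S.H_mono hxy
  · have h4 : x ≤ S.c b - S.r b.1 := by
      have := hx b
      rw [abs_lt] at hb
      rcases le_abs.1 this with h | h <;> linarith
    rw [h1 x hx]
    have := S.H_mono h4
    rw [H_left] at this
    exact this.trans (h2 b y hb).1
  · have h4 : S.c a + S.r a.1 ≤ y := by
      have := hy a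
      rw [abs_lt] at ha
      rcases le_abs.1 this with h | h <;> linarith
    rw [h1 y hy]
    have := S.H_mono h4
    rw [H_right] at this
    exact (h2 a x ha).2.trans this
  · by_cases hab : a = b
    · subst hab; exact h3 a x y ha hb hxy
    · have h4 : S.c a + S.r a.1 ≤ S.c b - S.r b.1 := by
        rcases le_total (S.c a) (S.c b) with h | h
        · exact S.sep_lt hab h
        · have := S.sep_lt (Ne.symm hab) h
          rw [abs_lt] at ha hb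
          linarith
      have := S.H_mono h4
      rw [H_right, H_left] at this
      exact (h2 a x ha).2.trans (this.trans (h2 b y hb).1)

def K (φ : ℝ → ℝ) : Prop := Monotone φ ∧ ∀ x, S.InC x → φ x = S.H x

lemma K_right {φ : ℝ → ℝ} (h : S.K φ) (b : ι × Bool) {y : ℝ} (hy : S.c b + S.r b.1 ≤ y) :
    S.r b.1 ≤ φ y - S.c' b := by
  have := h.1 hy
  rw [h.2 _ (S.inC_right b), H_right] at this
  linarith

lemma K_left {φ : ℝ → ℝ} (h : S.K φ) (b : ι × Bool) {y : ℝ} (hy : y ≤ S.c b - S.r b.1) :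
    φ y - S.c' b ≤ -S.r b.1 := by
  have := h.1 hy
  rw [h.2 _ (S.inC_left b), H_left] at this
  linarith

noncomputable def loc (φ : ℝ → ℝ) (a : ι × Bool) (x : ℝ) : ℝ :=
  S.c' a - S.r a.1 ^ 2 / (φ (S.c (bar a) - S.r a.1 ^ 2 / (x - S.c a)) - S.c' (bar a))

open Classical in
noncomputable def T (φ : ℝ → ℝ) (x : ℝ) : ℝ :=
  if h : ∃ a : ι × Bool, |x - S.c a| < S.r a.1 then
    (if x = S.c h.choose then S.c' h.choose else S.loc φ h.choose x)
  else S.H x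

lemma T_C (φ : ℝ → ℝ) {x : ℝ} (hx : S.InC x) : S.T φ x = S.H x := by
  unfold T
  rw [dif_neg]
  rintro ⟨a, ha⟩
  exact absurd (hx a) (not_le.2 ha)

lemma T_gap (φ : ℝ → ℝ) {a : ι × Bool} {x : ℝ} (ha : |x - S.c a| < S.r a.1) (hx : x ≠ S.c a) :
    S.T φ x = S.loc φ a x := by
  have h : ∃ a : ι × Bool, |x - S.c a| < S.r a.1 := ⟨a, ha⟩
  have e : h.choose = a := S.gap_unique h.choose_spec ha.le
  unfold T
  rw [dif_pos h, e, if_neg hx]

lemma T_center (φ : ℝ → ℝ) (a : ι × Bool) : S.T φ (S.c a) = S.c' a := by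
  have ha : |S.c a - S.c a| < S.r a.1 := by simp [S.r_pos]
  have h : ∃ b : ι × Bool, |S.c a - S.c b| < S.r b.1 := ⟨a, ha⟩
  have e : h.choose = a := S.gap_unique h.choose_spec ha.le
  unfold T
  rw [dif_pos h, e, if_pos rfl]

lemma img_right (a : ι × Bool) {x : ℝ} (h1 : S.c a - S.r a.1 ≤ x) (h2 : x < S.c a) :
    S.c (bar a) + S.r (bar a).1 ≤ S.c (bar a) - S.r a.1 ^ 2 / (x - S.c a) := by
  have h0 := S.r_pos a.1
  have : S.r a.1 ≤ S.r a.1 ^ 2 / (S.c a - x) := by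
    rw [le_div_iff₀ (by linarith)]; nlinarith
  have e : S.r a.1 ^ 2 / (x - S.c a) = -(S.r a.1 ^ 2 / (S.c a - x)) := by
    rw [← div_neg, neg_sub]
  simp only [bar_fst]
  linarith

lemma img_left (a : ι × Bool) {x : ℝ} (h1 : x ≤ S.c a + S.r a.1) (h2 : S.c a < x) :
    S.c (bar a) - S.r a.1 ^ 2 / (x - S.c a) ≤ S.c (bar a) - S.r (bar a).1 := by
  have h0 := S.r_pos a.1
  have : S.r a.1 ≤ S.r a.1 ^ 2 / (x - S.c a) := by
    rw [le_div_iff₀ (by linarith)]; nlinarith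
  simp only [bar_fst]
  linarith

lemma div_anti_pos {ρ u v : ℝ} (hρ : 0 < ρ) (hu : ρ ≤ u) (huv : u ≤ v) :
    0 < ρ ^ 2 / v ∧ ρ ^ 2 / v ≤ ρ ^ 2 / u ∧ ρ ^ 2 / u ≤ ρ := by
  refine ⟨by have : 0 < v := by linarith
             positivity, div_le_div_of_nonneg_left (by positivity) (by linarith) huv, ?_⟩
  rw [div_le_iff₀ (by linarith)]; nlinarith

lemma div_anti_neg {ρ u v : ℝ} (hρ : 0 < ρ) (hv : v ≤ -ρ) (huv : u ≤ v) :
    ρ ^ 2 / u < 0 ∧ ρ ^ 2 / v ≤ ρ ^ 2 / u ∧ -ρ ≤ ρ ^ 2 / v := by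
  obtain ⟨h1, h2, h3⟩ := div_anti_pos (u := -v) (v := -u) hρ (by linarith) (by linarith)
  rw [div_neg] at h1 h3
  rw [div_neg, div_neg] at h2
  refine ⟨by linarith, by linarith, by linarith⟩

lemma T_left {φ ψ : ℝ → ℝ} (hφ : S.K φ) (hle : φ ≤ ψ) (a : ι × Bool) {x y : ℝ}
    (h1 : S.c a - S.r a.1 < x) (hxy : x ≤ y) (h2 : y < S.c a) :
    S.c' a - S.r a.1 ≤ S.T φ x ∧ S.T φ x ≤ S.T ψ y ∧ S.T ψ y < S.c' a := by
  have h0 := S.r_pos a.1
  rw [S.T_gap φ (a := a) (by rw [abs_lt]; constructor <;> linarith) (by linarith),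
    S.T_gap ψ (a := a) (by rw [abs_lt]; constructor <;> linarith) (by linarith)]
  unfold loc
  have e1 := S.K_right hφ (bar a) (S.img_right a h1.le (by linarith))
  have e2 : S.c (bar a) - S.r a.1 ^ 2 / (x - S.c a) ≤ S.c (bar a) - S.r a.1 ^ 2 / (y - S.c a) := by
    have : S.r a.1 ^ 2 / (S.c a - x) ≤ S.r a.1 ^ 2 / (S.c a - y) :=
      div_le_div_of_nonneg_left (by positivity) (by linarith) (by linarith)
    rw [← neg_sub (S.c a) x, ← neg_sub (S.c a) y, div_neg, div_neg]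
    linarith
  have e3 := (hφ.1 e2).trans (hle _)
  obtain ⟨k1, k2, k3⟩ := div_anti_pos h0 e1 (sub_le_sub_right e3 (S.c' (bar a)))
  refine ⟨by linarith, by linarith, by linarith⟩

lemma T_right {φ ψ : ℝ → ℝ} (hφ : S.K φ) (hψ : S.K ψ) (hle : φ ≤ ψ) (a : ι × Bool) {x y : ℝ}
    (h1 : S.c a < x) (hxy : x ≤ y) (h2 : y < S.c a + S.r a.1) :
    S.c' a < S.T φ x ∧ S.T φ x ≤ S.T ψ y ∧ S.T ψ y ≤ S.c' a + S.r a.1 := by
  have h0 := S.r_pos a.1
  rw [S.T_gap φ (a := a) (by rw [abs_lt]; constructor <;> linarith) (by linarith),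
    S.T_gap ψ (a := a) (by rw [abs_lt]; constructor <;> linarith) (by linarith)]
  unfold loc
  have e1 := S.K_left hψ (bar a) (S.img_left a h2.le (by linarith))
  have e2 : S.c (bar a) - S.r a.1 ^ 2 / (x - S.c a) ≤ S.c (bar a) - S.r a.1 ^ 2 / (y - S.c a) := by
    have : S.r a.1 ^ 2 / (y - S.c a) ≤ S.r a.1 ^ 2 / (x - S.c a) :=
      div_le_div_of_nonneg_left (by positivity) (by linarith) (by linarith)
    linarith
  have e3 := (hφ.1 e2).trans (hle _)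
  obtain ⟨k1, k2, k3⟩ := div_anti_neg h0 e1 (sub_le_sub_right e3 (S.c' (bar a)))
  refine ⟨by linarith, by linarith, by linarith⟩

lemma T_gap_le {φ ψ : ℝ → ℝ} (hφ : S.K φ) (hψ : S.K ψ) (hle : φ ≤ ψ) (a : ι × Bool) {x y : ℝ}
    (h1 : |x - S.c a| < S.r a.1) (h2 : |y - S.c a| < S.r a.1) (hxy : x ≤ y) :
    S.c' a - S.r a.1 ≤ S.T φ x ∧ S.T φ x ≤ S.T ψ y ∧ S.T ψ y ≤ S.c' a + S.r a.1 := by
  have h0 := S.r_pos a.1
  rw [abs_lt] at h1 h2
  rcases lt_trichotomy x (S.c a) with hx | hx | hx <;>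
    rcases lt_trichotomy y (S.c a) with hy | hy | hy
  · obtain ⟨k1, k2, k3⟩ := S.T_left hφ hle a (by linarith) hxy hy
    exact ⟨k1, k2, by linarith⟩
  · obtain ⟨k1, k2, k3⟩ := S.T_left hφ le_rfl a (by linarith) le_rfl hx
    rw [hy, T_center]
    exact ⟨k1, k3.le, by linarith⟩
  · obtain ⟨k1, k2, k3⟩ := S.T_left hφ le_rfl a (by linarith) le_rfl hx
    obtain ⟨k4, k5, k6⟩ := S.T_right hψ hψ le_rfl a hy le_rfl (by linarith)
    exact ⟨k1, by linarith, k6⟩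
  · linarith
  · rw [hx, hy, T_center, T_center]
    exact ⟨by linarith, le_rfl, by linarith⟩
  · obtain ⟨k4, k5, k6⟩ := S.T_right hψ hψ le_rfl a hy le_rfl (by linarith)
    rw [hx, T_center]
    exact ⟨by linarith, k4.le, k6⟩
  · linarith
  · linarith
  · obtain ⟨k4, k5, k6⟩ := S.T_right hφ hψ hle a hx hxy (by linarith)
    exact ⟨by linarith, k5, k6⟩

lemma T_K {φ : ℝ → ℝ} (hφ : S.K φ) : S.K (S.T φ) := by
  refine ⟨S.glue _ (fun x hx => S.T_C φ hx) (fun a x hx => ?_) (fun a x y hx hy hxy => ?_),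
    fun x hx => S.T_C φ hx⟩
  · obtain ⟨k1, _, k3⟩ := S.T_gap_le hφ hφ le_rfl a hx hx le_rfl
    exact ⟨k1, k3⟩
  · exact (S.T_gap_le hφ hφ le_rfl a hx hy hxy).2.1

lemma T_mono {φ ψ : ℝ → ℝ} (hφ : S.K φ) (hψ : S.K ψ) (hle : φ ≤ ψ) : S.T φ ≤ S.T ψ := by
  intro x
  rcases S.inC_or x with hx | ⟨a, ha⟩
  · rw [S.T_C φ hx, S.T_C ψ hx]
  · exact (S.T_gap_le hφ hψ hle a ha ha le_rfl).2.1

open Classical in
noncomputable def L0 (x : ℝ) : ℝ :=
  if h : ∃ a : ι × Bool, |x - S.c a| < S.r a.1 then S.c' h.choose - S.r h.choose.1 else S.H x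

lemma L0_C {x : ℝ} (hx : S.InC x) : S.L0 x = S.H x := by
  unfold L0
  rw [dif_neg]
  rintro ⟨a, ha⟩
  exact absurd (hx a) (not_le.2 ha)

lemma L0_gap {a : ι × Bool} {x : ℝ} (ha : |x - S.c a| < S.r a.1) :
    S.L0 x = S.c' a - S.r a.1 := by
  have h : ∃ a : ι × Bool, |x - S.c a| < S.r a.1 := ⟨a, ha⟩
  have e : h.choose = a := S.gap_unique h.choose_spec ha.le
  unfold L0
  rw [dif_pos h, e]

lemma L0_K : S.K S.L0 := by
  refine ⟨S.glue _ (fun x hx => S.L0_C hx) (fun a x hx => ?_) (fun a x y hx hy _ => ?_),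
    fun x hx => S.L0_C hx⟩
  · rw [S.L0_gap hx]; have := S.r_pos a.1; constructor <;> linarith
  · rw [S.L0_gap hx, S.L0_gap hy]

lemma L0_le {φ : ℝ → ℝ} (hφ : S.K φ) : S.L0 ≤ φ := by
  intro x
  rcases S.inC_or x with hx | ⟨a, ha⟩
  · rw [S.L0_C hx, hφ.2 x hx]
  · rw [S.L0_gap ha, ← H_left, ← hφ.2 _ (S.inC_left a)]
    apply hφ.1
    rw [abs_lt] at ha; linarith

lemma K_le {φ : ℝ → ℝ} (hφ : S.K φ) (x : ℝ) : φ x ≤ S.H (x + 2) := by
  rcases S.inC_or x with hx | ⟨a, ha⟩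
  · rw [hφ.2 x hx]; exact S.H_mono (by linarith)
  · rw [abs_lt] at ha
    have h1 : φ x ≤ φ (S.c a + S.r a.1) := hφ.1 (by linarith)
    rw [hφ.2 _ (S.inC_right a)] at h1
    have := S.r_le a.1
    exact h1.trans (S.H_mono (by linarith))

lemma le_K {φ : ℝ → ℝ} (hφ : S.K φ) (x : ℝ) : S.H (x - 2) ≤ φ x := by
  rcases S.inC_or x with hx | ⟨a, ha⟩
  · rw [hφ.2 x hx]; exact S.H_mono (by linarith)
  · rw [abs_lt] at ha
    have h1 : φ (S.c a - S.r a.1) ≤ φ x := hφ.1 (by linarith)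
    rw [hφ.2 _ (S.inC_left a)] at h1
    have := S.r_le a.1
    exact (S.H_mono (by linarith)).trans h1

noncomputable def h (x : ℝ) : ℝ := sSup {y | ∃ φ, S.K φ ∧ φ ≤ S.T φ ∧ φ x = y}

lemma le_h {φ : ℝ → ℝ} (h1 : S.K φ) (h2 : φ ≤ S.T φ) : φ ≤ S.h := by
  intro x
  apply le_csSup
  · refine ⟨S.H (x + 2), ?_⟩
    rintro y ⟨ψ, k1, _, rfl⟩
    exact S.K_le k1 x
  · exact ⟨φ, h1, h2, rfl⟩

lemma h_le {x z : ℝ} (hz : ∀ φ, S.K φ → φ ≤ S.T φ → φ x ≤ z) : S.h x ≤ z := by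
  apply csSup_le
  · exact ⟨_, S.L0, S.L0_K, S.L0_le (S.T_K S.L0_K), rfl⟩
  · rintro y ⟨ψ, k1, k2, rfl⟩
    exact hz ψ k1 k2

lemma h_K : S.K S.h := by
  constructor
  · intro x y hxy
    exact S.h_le fun φ k1 k2 => (k1.1 hxy).trans (S.le_h k1 k2 y)
  · intro x hx
    apply le_antisymm
    · exact S.h_le fun φ k1 _ => (k1.2 x hx).le
    · rw [← S.L0_C hx]
      exact S.le_h S.L0_K (S.L0_le (S.T_K S.L0_K)) x

lemma h_fix : S.T S.h = S.h := by
  have h1 : S.h ≤ S.T S.h := fun x =>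
    S.h_le fun φ k1 k2 => (k2 x).trans (S.T_mono k1 S.h_K (S.le_h k1 k2) x)
  exact le_antisymm (S.le_h (S.T_K S.h_K) (S.T_mono S.h_K (S.T_K S.h_K) h1)) h1

lemma h_center (a : ι × Bool) : S.h (S.c a) = S.c' a := by
  rw [← S.h_fix, T_center]

lemma h_ne_of_out (b : ι × Bool) {y : ℝ} (hy : S.r b.1 ≤ |y - S.c b|) :
    S.h y - S.c' b ≠ 0 := by
  have h0 := S.r_pos b.1
  rcases le_abs.1 hy with h | h
  · have := S.K_right S.h_K b (y := y) (by linarith); linarith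
  · have := S.K_left S.h_K b (y := y) (by linarith); linarith

lemma h_equiv (a : ι × Bool) {x : ℝ} (hx : x ≠ S.c (bar a)) :
    S.h x - S.c' (bar a) ≠ 0 ∧
      S.h (S.c a - S.r a.1 ^ 2 / (x - S.c (bar a))) =
        S.c' a - S.r a.1 ^ 2 / (S.h x - S.c' (bar a)) := by
  have h0 := S.r_pos a.1
  have hx' : x - S.c (bar a) ≠ 0 := sub_ne_zero.2 hx
  have habs : |S.c a - S.r a.1 ^ 2 / (x - S.c (bar a)) - S.c a| =
      S.r a.1 ^ 2 / |x - S.c (bar a)| := by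
    rw [sub_sub_cancel_left, abs_neg, abs_div, abs_of_pos (by positivity)]
  have hpos : 0 < |x - S.c (bar a)| := abs_pos.2 hx'
  rcases lt_trichotomy (|x - S.c (bar a)|) (S.r a.1) with h | h | h
  · have e := S.T_gap S.h (a := bar a) h hx
    rw [S.h_fix] at e
    unfold loc at e
    simp only [bar_bar, bar_fst] at e
    have hne := S.h_ne_of_out a (y := S.c a - S.r a.1 ^ 2 / (x - S.c (bar a))) (by
      rw [habs, le_div_iff₀ hpos]; nlinarith)
    set z := S.h (S.c a - S.r a.1 ^ 2 / (x - S.c (bar a)))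
    have e2 : S.h x - S.c' (bar a) = -(S.r a.1 ^ 2 / (z - S.c' a)) := by rw [e]; ring
    refine ⟨by rw [e2]; exact neg_ne_zero.2 (div_ne_zero (by positivity) hne), ?_⟩
    rw [e2]; field_simp; ring
  · have hC : S.InC x := S.inC_of_abs_eq (a := bar a) h
    have h2 : |S.c a - S.r a.1 ^ 2 / (x - S.c (bar a)) - S.c a| = S.r a.1 := by
      rw [habs, h]; field_simp
    have hC2 := S.inC_of_abs_eq h2
    have e1 : S.h x - S.c' (bar a) = x - S.c (bar a) := by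
      rw [S.h_K.2 x hC, S.H_gap (bar a) x h.le]; simp [c']
    rw [e1, S.h_K.2 _ hC2, S.H_gap a _ h2.le]
    refine ⟨hx', ?_⟩
    simp [c']; ring
  · refine ⟨S.h_ne_of_out (bar a) h.le, ?_⟩
    have h2 : |S.c a - S.r a.1 ^ 2 / (x - S.c (bar a)) - S.c a| < S.r a.1 := by
      rw [habs, div_lt_iff₀ hpos]; nlinarith
    have h3 : S.c a - S.r a.1 ^ 2 / (x - S.c (bar a)) ≠ S.c a := by
      intro h4
      have : S.r a.1 ^ 2 / (x - S.c (bar a)) = 0 := by linarith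
      exact div_ne_zero (by positivity) hx' this
    have e := S.T_gap S.h h2 h3
    rw [S.h_fix] at e
    rw [e]
    unfold loc
    congr 4
    field_simp; ring

def Rel (p q : ℝ × ℝ) : Prop :=
  (p.2 = 0 ∧ q.2 = 0 ∧ p.1 ≠ 0 ∧ q.1 ≠ 0) ∨ (p.2 ≠ 0 ∧ q.2 ≠ 0 ∧ q.1 / q.2 = S.h (p.1 / p.2))

noncomputable def ρ : FreeGroup ι →* SL2 := rho S.c S.r S.r_pos
noncomputable def ρ' : FreeGroup ι →* SL2 := rho S.c' S.r S.r_pos

lemma rel_lt (a : ι × Bool) {p q : ℝ × ℝ} (h : S.Rel p q) :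
    S.Rel (act (S.ρ (lt a)) p) (act (S.ρ' (lt a)) q) := by
  have h0 := (S.r_pos a.1).ne'
  have hs := sg_ne a
  unfold ρ ρ'
  rw [act_lt, act_lt]
  rcases h with ⟨h1, h2, h3, h4⟩ | ⟨h1, h2, h3⟩
  · right
    simp only [h1, h2, mul_zero, sub_zero]
    refine ⟨by positivity, by positivity, ?_⟩
    have e1 : sg a * (S.c a * p.1 / S.r a.1) / (sg a * (p.1 / S.r a.1)) = S.c a := by field_simp
    rw [e1, h_center]; field_simp
  · by_cases hx : p.1 / p.2 = S.c (bar a)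
    · left
      have e1 : p.1 - S.c (bar a) * p.2 = 0 := by rw [← hx]; field_simp; ring
      have e2 : q.1 - S.c' (bar a) * q.2 = 0 := by
        rw [← S.h_center, ← hx, ← h3]; field_simp; ring
      simp only [e1, e2, mul_zero, zero_div, zero_sub, true_and]
      constructor <;> simp [h0, hs, h1, h2]
    · right
      obtain ⟨k1, k2⟩ := S.h_equiv a hx
      rw [← h3] at k1 k2
      have e1 : p.1 - S.c (bar a) * p.2 ≠ 0 := by
        intro h; apply hx; field_simp; linarith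
      have e2 : q.1 - S.c' (bar a) * q.2 ≠ 0 := by
        intro h; apply k1; field_simp; linarith
      refine ⟨by positivity, by positivity, ?_⟩
      have e3 : sg a * ((S.c a * (p.1 - S.c (bar a) * p.2) - S.r a.1 ^ 2 * p.2) / S.r a.1) /
          (sg a * ((p.1 - S.c (bar a) * p.2) / S.r a.1)) =
          S.c a - S.r a.1 ^ 2 / (p.1 / p.2 - S.c (bar a)) := by
        have : p.1 / p.2 - S.c (bar a) = (p.1 - S.c (bar a) * p.2) / p.2 := by field_simp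
        rw [this]; field_simp
      simp only
      rw [e3, k2]
      have : q.1 / q.2 - S.c' (bar a) = (q.1 - S.c' (bar a) * q.2) / q.2 := by field_simp
      rw [this]; field_simp

lemma rel_rho (w : FreeGroup ι) {p q : ℝ × ℝ} (h : S.Rel p q) :
    S.Rel (act (S.ρ w) p) (act (S.ρ' w) q) := by
  obtain ⟨L⟩ := w
  change S.Rel (act (S.ρ (FreeGroup.mk L)) p) (act (S.ρ' (FreeGroup.mk L)) q)
  induction L with
  | nil =>
    have : (FreeGroup.mk ([] : List (ι × Bool))) = 1 := rfl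
    simpa [this, act_one] using h
  | cons a L ih =>
    rw [mk_cons, map_mul, map_mul, act_mul, act_mul]
    exact S.rel_lt a ih

end Sys

end Pool.Agent.Lib.MP_23eee6_gt
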