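import Pool.Agent.Lib.MP_23eee6_gt.Fix

set_option autoImplicit false

namespace Pool.Agent.Lib.MP_23eee6_gt

open MeasureTheory Set

def BB (n : ℕ) : ℕ := 2 ^ (n + 23)

def PP : ℕ → ℕ
  | 0 => 1
  | n + 1 => PP n * BB n

lemma BB_ge (n : ℕ) : (8388608 : ℝ) ≤ BB n := by
  have : 2 ^ 23 ≤ BB n := Nat.pow_le_pow_right (by norm_num) (by omega)
  exact_mod_cast this

lemma PP_pos (n : ℕ) : 0 < PP n := by
  induction n with
  | zero => simp [PP]
  | succ n ih => exact Nat.mul_pos ih (by unfold BB; positivity)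

lemma PP_posR (n : ℕ) : (0 : ℝ) < PP n := by exact_mod_cast PP_pos n

lemma PP_ge (n : ℕ) : (n : ℝ) + 1 ≤ PP n := by
  induction n with
  | zero => simp [PP]
  | succ n ih =>
    have := BB_ge n
    have h0 : (0 : ℝ) ≤ n := Nat.cast_nonneg n
    simp only [PP]; push_cast; nlinarith

lemma PP_dvd {n n' : ℕ} (h : n' ≤ n) : ∃ q : ℕ, PP n = PP n' * q := by
  induction h with
  | refl => exact ⟨1, by simp⟩
  | step _ ih =>
    obtain ⟨q, hq⟩ := ih
    exact ⟨q * BB _, by rw [PP, hq, mul_assoc]⟩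

noncomputable def cen (n : ℕ) (m : ℤ) : ℝ := (2 * m + 1) / (2 * PP n)

noncomputable def rad (n : ℕ) : ℝ := 1 / PP (n + 1)

lemma rad_pos (n : ℕ) : 0 < rad n := by have := PP_posR (n + 1); unfold rad; positivity

lemma rad_mul (n : ℕ) : rad n * BB n = 1 / PP n := by
  have := PP_posR n
  have := BB_ge n
  unfold rad; simp only [PP]; push_cast; field_simp

lemma rad_le (n : ℕ) : 4194304 * rad n ≤ 1 / (2 * PP n) := by
  have h1 := rad_mul n
  have h2 := BB_ge n
  have h3 := rad_pos n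
  have : (1 : ℝ) / (2 * PP n) = 1 / PP n / 2 := by field_simp
  rw [this]; nlinarith

lemma rad_le_one (n : ℕ) : rad n ≤ 1 := by
  have := PP_ge (n + 1)
  have h0 : (0 : ℝ) ≤ (n + 1 : ℕ) := Nat.cast_nonneg _
  unfold rad
  rw [div_le_one (PP_posR _)]; linarith

lemma cen_neg (n : ℕ) (m : ℤ) : cen n (-m - 1) = -cen n m := by
  unfold cen; push_cast; ring

lemma grid {n n' : ℕ} (h : n' < n) (m m' : ℤ) : ∃ (j : ℤ) (q : ℕ),
    cen n m - cen n' m' = (2 * j + 1 : ℤ) / (2 * PP n) ∧ rad n' = (2 * q : ℤ) / (2 * PP n) := by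
  obtain ⟨q, hq⟩ := PP_dvd (n' := n' + 1) (n := n) h
  have h1 := PP_posR n'
  have h2 := PP_posR n
  have hq0 : (q : ℝ) ≠ 0 := by
    intro h0
    have : q = 0 := by exact_mod_cast h0
    have h3 := PP_pos n
    rw [hq, this] at h3; simp at h3
  have hq' : (PP n : ℝ) = PP n' * (2 * 2 ^ (n' + 22)) * q := by
    rw [hq]; simp only [PP, BB]; push_cast; ring
  refine ⟨m - (2 * m' + 1) * 2 ^ (n' + 22) * q, q, ?_, ?_⟩
  · unfold cen; rw [hq']; push_cast; field_simp; ring
  · unfold rad; rw [hq']; simp only [PP, BB]; push_cast; field_simp; ring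

lemma grid_out {n n' : ℕ} (h : n' < n) (m m' : ℤ) (h1 : rad n' ≤ |cen n m - cen n' m'|) :
    rad n' + 1 / (2 * PP n) ≤ |cen n m - cen n' m'| := by
  obtain ⟨j, q, e1, e2⟩ := grid h m m'
  have h2 : (0 : ℝ) < 2 * PP n := by have := PP_posR n; positivity
  rw [e1, e2, abs_div, abs_of_pos h2] at h1 ⊢
  rw [div_le_div_iff_of_pos_right h2, ← Int.cast_abs, Int.cast_le] at h1
  rw [← add_div, div_le_div_iff_of_pos_right h2, ← Int.cast_abs]
  have : 2 * (q : ℤ) + 1 ≤ |2 * j + 1| := by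
    rcases abs_cases (2 * j + 1) with h | h <;> omega
  exact_mod_cast this

lemma grid_in {n n' : ℕ} (h : n' < n) (m m' : ℤ) (h1 : |cen n m - cen n' m'| < rad n') :
    |cen n m - cen n' m'| + 1 / (2 * PP n) ≤ rad n' := by
  obtain ⟨j, q, e1, e2⟩ := grid h m m'
  have h2 : (0 : ℝ) < 2 * PP n := by have := PP_posR n; positivity
  rw [e1, e2, abs_div, abs_of_pos h2] at h1 ⊢
  rw [div_lt_div_iff_of_pos_right h2, ← Int.cast_abs, Int.cast_lt] at h1
  rw [← add_div, div_le_div_iff_of_pos_right h2, ← Int.cast_abs]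
  have : |2 * j + 1| + 1 ≤ 2 * (q : ℤ) := by
    rcases abs_cases (2 * j + 1) with h | h <;> omega
  exact_mod_cast this

def Acc (n : ℕ) (y : ℝ) : Prop := ∀ n' < n, ∀ m' : ℤ, rad n' ≤ |y - cen n' m'|

lemma acc_neg {n : ℕ} {y : ℝ} (h : Acc n y) : Acc n (-y) := by
  intro n' hn m'
  have := h n' hn (-m' - 1)
  rw [cen_neg] at this
  rwa [← abs_neg, show -(-y - cen n' m') = y - -cen n' m' by ring]

def II : Type := {k : ℕ × ℕ // Acc k.1 (cen k.1 k.2)}

instance : Infinite II :=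
  Infinite.of_injective (fun m : ℕ => (⟨(0, m), fun _ h => absurd h (Nat.not_lt_zero _)⟩ : II))
    (fun a b h => by simpa using congrArg (fun k : II => k.1.2) h)

def idx (a : II × Bool) : ℤ := if a.2 then a.1.1.2 else -a.1.1.2 - 1

noncomputable def cc (a : II × Bool) : ℝ := cen a.1.1.1 (idx a)

noncomputable def rr (k : II) : ℝ := rad k.1.1

lemma acc_cc (a : II × Bool) : Acc a.1.1.1 (cc a) := by
  unfold cc idx
  split_ifs
  · exact a.1.2
  · rw [cen_neg]; exact acc_neg a.1.2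

lemma exists_letter {n : ℕ} {m : ℤ} (h : Acc n (cen n m)) :
    ∃ a : II × Bool, a.1.1.1 = n ∧ idx a = m := by
  rcases le_or_gt 0 m with hm | hm
  · refine ⟨(⟨(n, m.toNat), by simpa [Int.toNat_of_nonneg hm] using h⟩, true), rfl, ?_⟩
    simp [idx, Int.toNat_of_nonneg hm]
  · have e : ((-m - 1).toNat : ℤ) = -m - 1 := Int.toNat_of_nonneg (by omega)
    refine ⟨(⟨(n, (-m - 1).toNat), by
      simp only [e, cen_neg]; exact acc_neg h⟩, false), rfl, ?_⟩
    simp only [idx, Bool.false_eq_true, if_false, e]; ring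

lemma letter_ext {a b : II × Bool} (h1 : a.1.1.1 = b.1.1.1) (h2 : idx a = idx b) : a = b := by
  obtain ⟨⟨⟨n, m⟩, hn⟩, s⟩ := a
  obtain ⟨⟨⟨n', m'⟩, hn'⟩, s'⟩ := b
  simp only at h1
  subst h1
  cases s <;> cases s' <;> simp only [idx, Bool.false_eq_true, if_false, if_true] at h2
  · have : m = m' := by omega
    subst this; rfl
  · omega
  · omega
  · have : m = m' := by omega
    subst this; rfl

lemma cc_sep (a b : II × Bool) (h : a ≠ b) :
    rr a.1 + rr b.1 + 2000000 * min (rr a.1) (rr b.1) ≤ |cc a - cc b| := by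
  have key : ∀ a b : II × Bool, b.1.1.1 < a.1.1.1 →
      rr a.1 + rr b.1 + 2000000 * min (rr a.1) (rr b.1) ≤ |cc a - cc b| := by
    intro a b hlt
    have h1 := grid_out hlt (idx a) (idx b) (acc_cc a _ hlt _)
    have h2 := rad_le a.1.1.1
    have h3 := min_le_left (rr a.1) (rr b.1)
    have h4 := rad_pos a.1.1.1
    unfold rr cc at *
    linarith
  rcases lt_trichotomy a.1.1.1 b.1.1.1 with h1 | h1 | h1
  · have := key b a h1
    rw [abs_sub_comm, min_comm] at this
    linarith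
  · have h2 : idx a ≠ idx b := fun e => h (letter_ext h1 e)
    have h3 := rad_le a.1.1.1
    have h4 := rad_pos a.1.1.1
    have h5 := PP_posR a.1.1.1
    unfold rr cc
    rw [← h1, min_self]
    have e : cen a.1.1.1 (idx a) - cen a.1.1.1 (idx b) =
        ((idx a - idx b : ℤ) : ℝ) * (2 * (1 / (2 * PP a.1.1.1))) := by
      unfold cen; push_cast; field_simp; ring
    have h6 : (1 : ℝ) ≤ |((idx a - idx b : ℤ) : ℝ)| := by
      rw [← Int.cast_abs]
      exact_mod_cast Int.one_le_abs (sub_ne_zero.2 h2)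
    rw [e, abs_mul, abs_of_pos (by positivity : (0 : ℝ) < 2 * (1 / (2 * PP a.1.1.1)))]
    have h7 : (0 : ℝ) < 1 / (2 * PP a.1.1.1) := by positivity
    nlinarith
  · exact key a b h1

lemma cand_cover : ∀ (n : ℕ) (m : ℤ) (y : ℝ), |y - cen n m| < rad n →
    ∃ a : II × Bool, |y - cc a| < rr a.1 := by
  intro n
  induction n using Nat.strong_induction_on with
  | _ n ih =>
    intro m y hy
    by_cases h : Acc n (cen n m)
    · obtain ⟨a, h1, h2⟩ := exists_letter h
      exact ⟨a, by unfold cc rr; rw [h1, h2]; exact hy⟩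
    · unfold Acc at h
      push Not at h
      obtain ⟨n', hn, m', h1⟩ := h
      have h2 := grid_in hn m m' h1
      have h3 := rad_le n
      have h4 := rad_pos n
      apply ih n' hn m'
      have := abs_add_le (y - cen n m) (cen n m - cen n' m')
      rw [sub_add_sub_cancel] at this
      linarith

lemma cc_dense (x η : ℝ) (hη : 0 < η) :
    ∃ (y : ℝ) (a : II × Bool), |y - x| < η ∧ |y - cc a| < rr a.1 := by
  obtain ⟨n, hn⟩ := exists_nat_ge (1 / η)
  have h1 := PP_ge n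
  have h2 := PP_posR n
  obtain ⟨a, ha⟩ := cand_cover n ⌊x * PP n⌋ (cen n ⌊x * PP n⌋) (by simp [rad_pos])
  refine ⟨_, a, ?_, ha⟩
  have h3 := Int.floor_le (x * PP n)
  have h4 := Int.lt_floor_add_one (x * PP n)
  have e : cen n ⌊x * PP n⌋ - x = ((⌊x * PP n⌋ : ℝ) + 1 / 2 - x * PP n) / PP n := by
    unfold cen; field_simp
  rw [e, abs_div, abs_of_pos h2, div_lt_iff₀ h2]
  rw [div_le_iff₀ hη] at hn
  have h5 : |(⌊x * PP n⌋ : ℝ) + 1 / 2 - x * PP n| ≤ 1 / 2 := by
    rw [abs_le]; constructor <;> linarith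
  nlinarith

def UU : Set ℝ := ⋃ a : II × Bool, Ioo (cc a - rr a.1) (cc a + rr a.1)

lemma UU_meas : MeasurableSet UU := (isOpen_iUnion fun _ => isOpen_Ioo).measurableSet

noncomputable def ff : ℝ → ℝ := UU.indicator fun _ => 1

lemma ff_int (x y : ℝ) : IntervalIntegrable ff volume x y := by
  rw [intervalIntegrable_iff]
  exact (intervalIntegrable_iff.1 (intervalIntegrable_const (c := (1 : ℝ)))).indicator UU_meas

noncomputable def HH (x : ℝ) : ℝ := (x + ∫ t in (0 : ℝ)..x, ff t) / 2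

lemma HH_sub (x y : ℝ) : HH y - HH x = (y - x + ∫ t in x..y, ff t) / 2 := by
  have := intervalIntegral.integral_interval_sub_left (ff_int 0 y) (ff_int 0 x)
  unfold HH; rw [← this]; ring

lemma ff_eq {x y : ℝ} (h : x ≤ y) : ∫ t in x..y, ff t = (volume (Ioc x y ∩ UU)).toReal := by
  rw [intervalIntegral.integral_of_le h, ff, setIntegral_indicator UU_meas]
  simp [Measure.real]

lemma ff_nonneg {x y : ℝ} (h : x ≤ y) : 0 ≤ ∫ t in x..y, ff t := by
  rw [ff_eq h]; exact ENNReal.toReal_nonneg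

lemma ff_le {x y : ℝ} (h : x ≤ y) : ∫ t in x..y, ff t ≤ y - x := by
  rw [ff_eq h]
  apply ENNReal.toReal_le_of_le_ofReal (by linarith)
  rw [← Real.volume_Ioc]
  exact measure_mono inter_subset_left

lemma ff_gap (a : II × Bool) {x y : ℝ} (h : x ≤ y) (h1 : cc a - rr a.1 ≤ x)
    (h2 : y ≤ cc a + rr a.1) : ∫ t in x..y, ff t = y - x := by
  apply le_antisymm (ff_le h)
  rw [ff_eq h]
  have k1 : Ioo x y ⊆ Ioc x y ∩ UU := by
    intro t ht
    refine ⟨Ioo_subset_Ioc_self ht, mem_iUnion.2 ⟨a, ?_⟩⟩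
    exact ⟨by linarith [ht.1], by linarith [ht.2]⟩
  have k2 := measure_mono (μ := volume) k1
  rw [Real.volume_Ioo] at k2
  have k3 : volume (Ioc x y ∩ UU) ≠ ⊤ :=
    ne_top_of_le_ne_top (by simp) (measure_mono inter_subset_left)
  exact (ENNReal.ofReal_le_iff_le_toReal k3).1 k2

lemma int_out (a : II × Bool) (z : ℤ) : rr a.1 ≤ |(z : ℝ) - cc a| := by
  have h1 := rad_le a.1.1.1
  have h2 := rad_pos a.1.1.1
  have h3 := PP_posR a.1.1.1
  unfold rr cc
  have e : (z : ℝ) - cen a.1.1.1 (idx a) =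
      ((2 * (z * PP a.1.1.1 - idx a) - 1 : ℤ) : ℝ) * (1 / (2 * PP a.1.1.1)) := by
    unfold cen; push_cast; field_simp; ring
  have h6 : (1 : ℝ) ≤ |((2 * (z * PP a.1.1.1 - idx a) - 1 : ℤ) : ℝ)| := by
    rw [← Int.cast_abs]
    exact_mod_cast Int.one_le_abs (by omega)
  have h7 : (0 : ℝ) < 1 / (2 * PP a.1.1.1) := by positivity
  rw [e, abs_mul, abs_of_pos h7]
  nlinarith

lemma vol_small : volume (Ioc (0 : ℝ) 1 ∩ UU) ≤ ENNReal.ofReal (1 / 2) := by
  have h1 : Ioc (0 : ℝ) 1 ∩ UU ⊆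
      ⋃ n : ℕ, ⋃ m ∈ Finset.range (PP n), Ioo (cen n m - rad n) (cen n m + rad n) := by
    rintro y ⟨⟨hy0, hy1⟩, hy⟩
    obtain ⟨a, ha1, ha2⟩ := mem_iUnion.1 hy
    unfold cc rr at ha1 ha2
    set n := a.1.1.1
    set m := idx a
    have k1 := rad_le n
    have k2 := rad_pos n
    have k3 := PP_posR n
    have k4 : cen n m = (2 * m + 1) * (1 / (2 * PP n)) := by unfold cen; ring
    have k5 : (1 : ℝ) = (2 * PP n) * (1 / (2 * PP n)) := by field_simp
    have k6 : (0 : ℝ) < 1 / (2 * PP n) := by positivity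
    have m0 : 0 ≤ m := by
      by_contra hneg
      have : (m : ℝ) ≤ -1 := by exact_mod_cast (by omega : m ≤ -1)
      nlinarith
    have m1 : m < PP n := by
      by_contra hneg
      have : (PP n : ℝ) ≤ m := by exact_mod_cast (by omega : (PP n : ℤ) ≤ m)
      nlinarith
    refine mem_iUnion.2 ⟨n, mem_iUnion₂.2 ⟨m.toNat, Finset.mem_range.2 (by omega), ?_⟩⟩
    rw [Int.toNat_of_nonneg m0]
    exact ⟨ha1, ha2⟩
  refine (measure_mono h1).trans ((measure_iUnion_le _).trans ?_)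
  have h2 : ∀ n : ℕ, volume (⋃ m ∈ Finset.range (PP n),
      Ioo (cen n m - rad n) (cen n m + rad n)) ≤ ENNReal.ofReal (1 / 2 / 2 / 2 ^ n) := by
    intro n
    refine (measure_biUnion_finset_le _ _).trans ?_
    simp only [Real.volume_Ioo, add_sub_sub_cancel, Finset.sum_const, Finset.card_range,
      nsmul_eq_mul]
    rw [← ENNReal.ofReal_natCast, ← ENNReal.ofReal_mul (Nat.cast_nonneg _)]
    apply ENNReal.ofReal_le_ofReal
    have k3 := PP_posR n
    have e : (PP n : ℝ) * (rad n + rad n) = 2 / 2 ^ 23 / 2 ^ n := by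
      unfold rad; simp only [PP, BB]; push_cast; field_simp; ring
    rw [e]
    apply div_le_div_of_nonneg_right (by norm_num) (by positivity)
  refine (ENNReal.tsum_le_tsum h2).trans ?_
  rw [← ENNReal.ofReal_tsum_of_nonneg (fun n => by positivity) (summable_geometric_two' _),
    tsum_geometric_two']

noncomputable def sys : Sys II where
  c := cc
  r := rr
  H := HH
  r_pos k := rad_pos _
  r_le k := rad_le_one _
  sep := cc_sep
  dense := cc_dense
  H_lo x y h := by rw [HH_sub]; linarith [ff_nonneg h]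
  H_hi x y h := by rw [HH_sub]; linarith [ff_le h]
  H_gap a x h := by
    rw [abs_le] at h
    have h0 : 0 < rr a.1 := rad_pos _
    rcases le_total x (cc a) with h1 | h1
    · have := HH_sub x (cc a)
      rw [ff_gap a h1 (by linarith) (by linarith)] at this
      linarith
    · have := HH_sub (cc a) x
      rw [ff_gap a h1 (by linarith) (by linarith)] at this
      linarith
  H_ne := by
    refine ⟨0, 1, fun a => by simpa using int_out a 0, fun a => by simpa using int_out a 1, ?_⟩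
    rw [HH_sub, ff_eq zero_le_one]
    have := ENNReal.toReal_le_of_le_ofReal (by norm_num) vol_small
    linarith

end Pool.Agent.Lib.MP_23eee6_gt
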