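import Pool.Agent.Lib.MP_23eee6_gt.Fix

set_option autoImplicit false

namespace Pool.Agent.Lib.MP_23eee6_gt

noncomputable def Qf (u v : ℝ) (p : ℝ × ℝ) : ℝ := ((p.1 - u * p.2) ^ 2 + v ^ 2 * p.2 ^ 2) / v

lemma Qf_nonneg {u v : ℝ} (hv : 0 < v) (p : ℝ × ℝ) : 0 ≤ Qf u v p := by
  unfold Qf; positivity

lemma Qf_mul {u v : ℝ} (hv : 0 < v) (p q : ℝ × ℝ) :
    Qf u v p * Qf u v q =
      (((p.1 - u * p.2) * (q.1 - u * q.2) + v ^ 2 * p.2 * q.2) / v) ^ 2 + dt p q ^ 2 := by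
  unfold Qf dt; field_simp; ring

lemma dt_sq_le {u v : ℝ} (hv : 0 < v) (p q : ℝ × ℝ) : dt p q ^ 2 ≤ Qf u v p * Qf u v q := by
  rw [Qf_mul hv]; nlinarith [sq_nonneg (((p.1 - u * p.2) * (q.1 - u * q.2) + v ^ 2 * p.2 * q.2) / v)]

lemma Qf_cmp {u v u1 v1 : ℝ} (hv : 0 < v) (hv1 : 0 < v1) (p : ℝ × ℝ) :
    Qf u1 v1 p ≤ ((u - u1) ^ 2 + v ^ 2 + v1 ^ 2) / (v * v1) * Qf u v p := by
  have e : ((u - u1) ^ 2 + v ^ 2 + v1 ^ 2) / (v * v1) * Qf u v p - Qf u1 v1 p =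
      (v1 ^ 2 * (p.1 - u * p.2) ^ 2 + ((u - u1) * (p.1 - u * p.2) - v ^ 2 * p.2) ^ 2) /
        (v ^ 2 * v1) := by
    unfold Qf; field_simp; ring
  have : 0 ≤ (v1 ^ 2 * (p.1 - u * p.2) ^ 2 + ((u - u1) * (p.1 - u * p.2) - v ^ 2 * p.2) ^ 2) /
        (v ^ 2 * v1) := by positivity
  linarith

lemma Qf_lt {ι : Type} (c : ι × Bool → ℝ) (r : ι → ℝ) (hr : ∀ k, 0 < r k) (a : ι × Bool)
    {u v : ℝ} (hv : 0 < v) (p : ℝ × ℝ) :
    Qf u v p = Qf (c (bar a) - r a.1 ^ 2 * (u - c a) / ((u - c a) ^ 2 + v ^ 2))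
      (r a.1 ^ 2 * v / ((u - c a) ^ 2 + v ^ 2)) (act (rho c r hr (lt (bar a))) p) := by
  rw [act_lt]
  have h0 := hr a.1
  have h1 : 0 < (u - c a) ^ 2 + v ^ 2 := by positivity
  have hs := sg_sq (bar a)
  simp only [bar_bar, bar_fst, Qf]
  set s := sg (bar a)
  set R := (u - c a) ^ 2 + v ^ 2 with hR
  have e1 : s * ((c (bar a) * (p.1 - c a * p.2) - r a.1 ^ 2 * p.2) / r a.1) -
      (c (bar a) - r a.1 ^ 2 * (u - c a) / R) * (s * ((p.1 - c a * p.2) / r a.1)) =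
      s * (r a.1 * ((u - c a) * (p.1 - c a * p.2) - R * p.2) / R) := by
    field_simp; ring
  rw [e1, mul_pow, mul_pow, sq s, hs]
  field_simp
  rw [hR]; ring

lemma le_of_sq_le' {x g : ℝ} (hg : 0 ≤ g) (h : x ^ 2 ≤ g ^ 2) : x ≤ g :=
  (abs_le_of_sq_le_sq' h hg).2

namespace Sys

variable {ι : Type} (S : Sys ι)

lemma sep_sq (a b : ι × Bool) (h : a ≠ b) :
    S.r a.1 ^ 2 + S.r b.1 ^ 2 + 2 * 2000000 * (S.r a.1 * S.r b.1) ≤ (S.c a - S.c b) ^ 2 := by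
  have h1 := S.sep a b h
  have ha := S.r_pos a.1
  have hb := S.r_pos b.1
  rw [← sq_abs (S.c a - S.c b)]
  rcases le_total (S.r a.1) (S.r b.1) with h2 | h2
  · rw [min_eq_left h2] at h1
    have := pow_le_pow_left₀ (by positivity) h1 2
    nlinarith [mul_pos ha hb, sq_nonneg (S.r a.1)]
  · rw [min_eq_right h2] at h1
    have := pow_le_pow_left₀ (by positivity) h1 2
    nlinarith [mul_pos ha hb, sq_nonneg (S.r b.1)]

def Far (u v s : ℝ) (a : ι × Bool) : Prop :=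
  2 * S.r a.1 * v * s ≤ (u - S.c a) ^ 2 + v ^ 2 - S.r a.1 ^ 2

lemma far_of_below {u v : ℝ} {a b : ι × Bool} (hab : a ≠ b)
    (h : (u - S.c b) ^ 2 + v ^ 2 ≤ S.r b.1 ^ 2) : S.Far u v 1999999 a := by
  have h1 := S.sep_sq a b hab
  have ha := S.r_pos a.1
  have hb := S.r_pos b.1
  unfold Far
  set ra := S.r a.1
  set rb := S.r b.1
  obtain ⟨D, hD⟩ : ∃ D, D = S.c b - S.c a := ⟨_, rfl⟩
  obtain ⟨ξ, hξ⟩ : ∃ ξ, ξ = u - S.c b := ⟨_, rfl⟩
  have e1 : (S.c a - S.c b) ^ 2 = D ^ 2 := by rw [hD]; ring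
  have e2 : u - S.c a = ξ + D := by rw [hD, hξ]; ring
  rw [e1] at h1
  rw [← hξ] at h
  rw [e2]
  obtain ⟨P, hP⟩ : ∃ P, P = ξ ^ 2 + v ^ 2 := ⟨_, rfl⟩
  have hP0 : 0 ≤ P := by rw [hP]; positivity
  rw [← hP] at h
  have hW : 2 * 2000000 * (ra * rb) ≤ D ^ 2 - ra ^ 2 - P := by linarith
  have hW0 : 0 ≤ 2 * 2000000 * (ra * rb) := by positivity
  have hW2 := pow_le_pow_left₀ hW0 hW 2
  have hG : 0 ≤ D ^ 2 + P - ra ^ 2 := by linarith
  have k1 : (2 * ra * v * 1999999 - 2 * ξ * D) ^ 2 ≤ 4 * P * (D ^ 2 + ra ^ 2 * 1999999 ^ 2) := by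
    rw [hP]; nlinarith [sq_nonneg (ξ * (ra * 1999999) + v * D)]
  have k2 : ra ^ 2 * P ≤ ra ^ 2 * rb ^ 2 := mul_le_mul_of_nonneg_left h (by positivity)
  have k3 : 0 ≤ ra ^ 2 * P := by positivity
  have k4 : 4 * P * (D ^ 2 + ra ^ 2 * 1999999 ^ 2) ≤ (D ^ 2 + P - ra ^ 2) ^ 2 := by
    nlinarith
  have k5 := le_of_sq_le' hG (k1.trans k4)
  nlinarith

lemma exists_inC_ge (y : ℝ) : ∃ z, S.InC z ∧ y ≤ z := by
  rcases S.inC_or y with h | ⟨a, ha⟩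
  · exact ⟨y, h, le_rfl⟩
  · rw [abs_lt] at ha
    exact ⟨_, S.inC_right a, by linarith⟩

lemma approx {u v s : ℝ} (hv : 0 < v) (hs : 0 < s) (p : ℝ × ℝ)
    (h : p.2 ≠ 0 → ∀ b : ι × Bool, |p.1 / p.2 - S.c b| < S.r b.1 → S.Far u v s b) :
    ∃ y, S.InC y ∧ dt p (y, 1) ^ 2 ≤ 1 / s ^ 2 * (Qf u v p * Qf u v (y, 1)) := by
  by_cases h2 : p.2 = 0
  · obtain ⟨y, hy, hy2⟩ := S.exists_inC_ge (u + s * v)
    refine ⟨y, hy, ?_⟩
    rw [Qf_mul hv, one_div, inv_mul_eq_div, le_div_iff₀ (by positivity)]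
    simp only [dt, h2, mul_zero, sub_zero, mul_one, zero_mul, add_zero]
    have h3 : s ≤ (y - u) / v := by rw [le_div_iff₀ hv]; linarith
    have h4 := pow_le_pow_left₀ hs.le h3 2
    have e : (p.1 * (y - u) / v) ^ 2 = p.1 ^ 2 * ((y - u) / v) ^ 2 := by ring
    rw [e]
    nlinarith [sq_nonneg p.1, mul_le_mul_of_nonneg_left h4 (sq_nonneg p.1)]
  · rcases S.inC_or (p.1 / p.2) with hC | ⟨b, hb⟩
    · refine ⟨_, hC, ?_⟩
      have : dt p (p.1 / p.2, 1) = 0 := by unfold dt; field_simp; ring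
      rw [this]
      have := Qf_nonneg (u := u) hv p
      have := Qf_nonneg (u := u) hv (p.1 / p.2, 1)
      rw [zero_pow two_ne_zero]
      positivity
    · refine ⟨_, S.inC_right b, ?_⟩
      have hF := h h2 b hb
      unfold Far at hF
      have h0 := S.r_pos b.1
      obtain ⟨y, hy⟩ : ∃ y, y = p.1 / p.2 := ⟨_, rfl⟩
      have e1 : p.1 = y * p.2 := by rw [hy]; field_simp
      rw [← hy, abs_lt] at hb
      rw [Qf_mul hv, one_div, inv_mul_eq_div, le_div_iff₀ (by positivity)]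
      simp only [dt, e1, mul_one]
      set e := S.c b + S.r b.1 with he
      have k1 : s * v * (e - y) ≤ (y - u) * (e - u) + v ^ 2 := by
        have a1 : 0 ≤ (e - u) ^ 2 + v ^ 2 := by positivity
        have a2 : 0 ≤ (u - S.c b) ^ 2 + v ^ 2 - S.r b.1 ^ 2 - 2 * S.r b.1 * v * s := by linarith
        have a3 : 2 * S.r b.1 * ((y - u) * (e - u) + v ^ 2 - s * v * (e - y)) =
            (y - S.c b + S.r b.1) * ((e - u) ^ 2 + v ^ 2) +
            (e - y) * ((u - S.c b) ^ 2 + v ^ 2 - S.r b.1 ^ 2 - 2 * S.r b.1 * v * s) := by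
          rw [he]; ring
        have a4 : 0 ≤ 2 * S.r b.1 * ((y - u) * (e - u) + v ^ 2 - s * v * (e - y)) := by
          rw [a3]
          apply add_nonneg (mul_nonneg (by linarith) a1) (mul_nonneg (by rw [he]; linarith) a2)
        have := nonneg_of_mul_nonneg_right a4 (by positivity)
        linarith
      have k2 : s * (e - y) ≤ ((y - u) * (e - u) + v ^ 2) / v := by
        rw [le_div_iff₀ hv]; linarith
      have k3 := pow_le_pow_left₀ (mul_nonneg hs.le (by rw [he]; linarith)) k2 2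
      have e2 : (((y * p.2 - u * p.2) * (e - u) + v ^ 2 * p.2) / v) ^ 2 =
          p.2 ^ 2 * (((y - u) * (e - u) + v ^ 2) / v) ^ 2 := by ring
      rw [e2]
      have k4 := mul_le_mul_of_nonneg_left k3 (sq_nonneg p.2)
      nlinarith [sq_nonneg (y * p.2 - p.2 * e)]

def nsq (p : ℝ × ℝ) : ℝ := p.1 ^ 2 + p.2 ^ 2

def Lim (p : ℝ × ℝ) : Prop := ∀ η : ℝ, 0 < η → ∃ w : FreeGroup ι,
  dt p (act (S.ρ w) (1, 0)) ^ 2 + dt p (act (S.ρ w) (0, 1)) ^ 2 ≤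
    η * (nsq (act (S.ρ w) (1, 0)) + nsq (act (S.ρ w) (0, 1)))

lemma nsq_le (M : SL2) : ∃ F : ℝ, 0 < F ∧ ∀ x, nsq x ≤ F * nsq (act M x) := by
  have h := det_entries M
  set a := (M : Matrix (Fin 2) (Fin 2) ℝ) 0 0
  set b := (M : Matrix (Fin 2) (Fin 2) ℝ) 0 1
  set c := (M : Matrix (Fin 2) (Fin 2) ℝ) 1 0
  set d := (M : Matrix (Fin 2) (Fin 2) ℝ) 1 1
  refine ⟨a ^ 2 + b ^ 2 + c ^ 2 + d ^ 2 + 1, by positivity, fun x => ?_⟩
  have e1 : x.1 = d * (a * x.1 + b * x.2) - b * (c * x.1 + d * x.2) := by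
    linear_combination (-x.1) * h
  have e2 : x.2 = a * (c * x.1 + d * x.2) - c * (a * x.1 + b * x.2) := by
    linear_combination (-x.2) * h
  change x.1 ^ 2 + x.2 ^ 2 ≤ _ * ((a * x.1 + b * x.2) ^ 2 + (c * x.1 + d * x.2) ^ 2)
  generalize a * x.1 + b * x.2 = y1 at *
  generalize c * x.1 + d * x.2 = y2 at *
  rw [e1, e2]
  nlinarith [sq_nonneg (b * y1 + d * y2), sq_nonneg (a * y1 + c * y2), sq_nonneg y1, sq_nonneg y2]

lemma lim_act (w0 : FreeGroup ι) {p : ℝ × ℝ} (h : S.Lim p) : S.Lim (act (S.ρ w0) p) := by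
  intro η hη
  obtain ⟨F, hF, h1⟩ := nsq_le (S.ρ w0)
  obtain ⟨w, hw⟩ := h (η / F) (by positivity)
  refine ⟨w0 * w, ?_⟩
  rw [map_mul, act_mul, act_mul, dt_act, dt_act]
  refine hw.trans ?_
  rw [div_mul_eq_mul_div, div_le_iff₀ hF, mul_assoc]
  apply mul_le_mul_of_nonneg_left _ hη.le
  have := h1 (act (S.ρ w) (1, 0))
  have := h1 (act (S.ρ w) (0, 1))
  nlinarith

lemma center_near {y : ℝ} (hy : S.InC y) {η : ℝ} (hη : 0 < η) :
    ∃ b : ι × Bool, |y - S.c b| < η := by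
  by_contra hne
  push Not at hne
  obtain ⟨y1, a, h1, h2⟩ := S.dense (y + η / 10) (η / 20) (by positivity)
  obtain ⟨y2, b, h3, h4⟩ := S.dense (y - η / 10) (η / 20) (by positivity)
  have k1 := hne a
  have k2 := hne b
  have k3 := hy a
  have k4 := hy b
  rw [abs_lt] at h1 h2 h3 h4
  have a1 : y ≤ S.c a - S.r a.1 := by rcases le_abs.1 k3 with h | h <;> linarith
  have a2 : S.c b + S.r b.1 ≤ y := by rcases le_abs.1 k4 with h | h <;> linarith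
  have ha := S.r_pos a.1
  have hb := S.r_pos b.1
  rw [abs_of_nonpos (by linarith)] at k1
  rw [abs_of_nonneg (by linarith)] at k2
  have hab : a ≠ b := by
    rintro rfl; linarith
  have h5 := S.sep a b hab
  rw [abs_of_nonneg (by linarith)] at h5
  have : η / 2 ≤ min (S.r a.1) (S.r b.1) := le_min (by linarith) (by linarith)
  linarith

lemma lim_inC {y : ℝ} (hy : S.InC y) : S.Lim (y, 1) := by
  intro η hη
  obtain ⟨b, hb⟩ := S.center_near hy (η := min 1 (η / 3)) (lt_min one_pos (by positivity))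
  have h1 : |y - S.c b| < 1 := hb.trans_le (min_le_left _ _)
  have h2 : |y - S.c b| < η / 3 := hb.trans_le (min_le_right _ _)
  have h3 := hy b
  have h0 := S.r_pos b.1
  refine ⟨lt b, ?_⟩
  unfold ρ
  rw [act_lt, act_lt]
  have hs := sg_sq b
  simp only [dt, nsq, mul_zero, sub_zero, mul_one, zero_sub, one_mul]
  set s := sg b
  set r := S.r b.1
  set c := S.c b
  set d := S.c (bar b)
  have e1 : (y * (s * (1 / r)) - s * (c / r)) ^ 2 +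
      (y * (s * (-d / r)) - s * ((c * -d - r ^ 2) / r)) ^ 2 =
      ((y - c) ^ 2 + (r ^ 2 - d * (y - c)) ^ 2) / r ^ 2 := by
    have : (y * (s * (1 / r)) - s * (c / r)) ^ 2 +
      (y * (s * (-d / r)) - s * ((c * -d - r ^ 2) / r)) ^ 2 =
      (s * s) * (((y - c) ^ 2 + (r ^ 2 - d * (y - c)) ^ 2) / r ^ 2) := by field_simp; ring
    rw [this, hs, one_mul]
  have e2 : (s * (1 / r)) ^ 2 + (s * (-d / r)) ^ 2 = (1 + d ^ 2) / r ^ 2 := by
    have : (s * (1 / r)) ^ 2 + (s * (-d / r)) ^ 2 = (s * s) * ((1 + d ^ 2) / r ^ 2) := by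
      field_simp
    rw [this, hs, one_mul]
  rw [e1]
  have k1 : (y - c) ^ 2 ≤ η / 3 := by
    rw [← sq_abs]; nlinarith [abs_nonneg (y - c)]
  have k2 : r ^ 2 ≤ (y - c) ^ 2 := by
    rw [← sq_abs (y - c)]; exact pow_le_pow_left₀ h0.le h3 2
  have k3 : r ^ 2 ≤ 1 := by have := S.r_le b.1; nlinarith
  have k4 : (r ^ 2) ^ 2 ≤ η / 3 := by nlinarith [sq_nonneg r]
  have k5 : (y - c) ^ 2 + (r ^ 2 - d * (y - c)) ^ 2 ≤ η * (1 + d ^ 2) := by
    have : d ^ 2 * (y - c) ^ 2 ≤ d ^ 2 * (η / 3) := mul_le_mul_of_nonneg_left k1 (sq_nonneg d)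
    nlinarith [sq_nonneg (r ^ 2 + d * (y - c)), mul_nonneg hη.le (sq_nonneg d)]
  have k6 : ((y - c) ^ 2 + (r ^ 2 - d * (y - c)) ^ 2) / r ^ 2 ≤ η * ((1 + d ^ 2) / r ^ 2) := by
    rw [← mul_div_assoc]; exact div_le_div_of_nonneg_right k5 (by positivity)
  refine k6.trans (mul_le_mul_of_nonneg_left ?_ hη.le)
  rw [← e2]
  nlinarith [sq_nonneg (s * (c / r)), sq_nonneg (s * ((c * -d - r ^ 2) / r))]

def Good (Q : ℝ × ℝ → ℝ) (ε κ : ℝ) : Prop :=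
  ∃ (Q' : ℝ × ℝ → ℝ) (A : Bool → Set ((ℝ × ℝ) × (ℝ × ℝ))),
    (∀ p, 0 ≤ Q' p) ∧ (∀ p q, dt p q ^ 2 ≤ Q' p * Q' q) ∧
    (∀ b, ∀ x ∈ A b, S.Rel x.1 x.2 ∧ S.Lim x.1) ∧
    (∀ b, ∀ x ∈ A b, ∀ y ∈ A b,
      κ * (dt x.1 y.1 ^ 2 * (Q' x.2 * Q' y.2)) ≤ dt x.2 y.2 ^ 2 * (Q x.1 * Q y.1)) ∧
    (∀ p, ∃ b, ∃ x ∈ A b, dt p x.1 ^ 2 ≤ ε * (Q p * Q x.1))

lemma act_inv_act (f : FreeGroup ι →* SL2) (w : FreeGroup ι) (p : ℝ × ℝ) :
    act (f w) (act (f w⁻¹) p) = p := by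
  rw [← act_mul, ← map_mul, mul_inv_cancel, map_one, act_one]

lemma good_act {Q : ℝ × ℝ → ℝ} {ε κ : ℝ} (h : S.Good Q ε κ) (w : FreeGroup ι) :
    S.Good (fun p => Q (act (S.ρ w) p)) ε κ := by
  obtain ⟨Q', A, h1, h2, h3, h4, h5⟩ := h
  refine ⟨fun p => Q' (act (S.ρ' w) p),
    fun b => (fun x => (act (S.ρ w⁻¹) x.1, act (S.ρ' w⁻¹) x.2)) '' A b,
    fun p => h1 _, fun p q => ?_, ?_, ?_, fun p => ?_⟩
  · rw [← dt_act (S.ρ' w)]; exact h2 _ _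
  · rintro b _ ⟨x, hx, rfl⟩
    exact ⟨S.rel_rho _ (h3 b x hx).1, S.lim_act _ (h3 b x hx).2⟩
  · rintro b _ ⟨x, hx, rfl⟩ _ ⟨y, hy, rfl⟩
    simp only [act_inv_act, dt_act]
    exact h4 b x hx y hy
  · obtain ⟨b, x, hx, h6⟩ := h5 (act (S.ρ w) p)
    refine ⟨b, _, ⟨x, hx, rfl⟩, ?_⟩
    simp only [act_inv_act]
    rw [← dt_act (S.ρ w), act_inv_act]
    exact h6

lemma good_cmp {Q Q1 : ℝ × ℝ → ℝ} {ε κ ε1 κ1 K : ℝ} (h : S.Good Q1 ε1 κ1)
    (hQ : ∀ p, 0 ≤ Q p) (hQ1 : ∀ p, 0 ≤ Q1 p) (hK : 0 < K) (hle : ∀ p, Q1 p ≤ K * Q p)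
    (hε1 : 0 ≤ ε1) (hε : ε1 * K ^ 2 ≤ ε) (hκ : κ * K ^ 2 ≤ κ1) : S.Good Q ε κ := by
  obtain ⟨Q', A, h1, h2, h3, h4, h5⟩ := h
  have hm : ∀ p q, Q1 p * Q1 q ≤ K ^ 2 * (Q p * Q q) := by
    intro p q
    have := mul_le_mul (hle p) (hle q) (hQ1 q) (mul_nonneg hK.le (hQ p))
    linarith
  refine ⟨Q', A, h1, h2, h3, fun b x hx y hy => ?_, fun p => ?_⟩
  · have k1 := h4 b x hx y hy
    have k2 := mul_le_mul_of_nonneg_left (hm x.1 y.1) (sq_nonneg (dt x.2 y.2))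
    have k3 : 0 ≤ dt x.1 y.1 ^ 2 * (Q' x.2 * Q' y.2) :=
      mul_nonneg (sq_nonneg _) (mul_nonneg (h1 _) (h1 _))
    have k4 := mul_le_mul_of_nonneg_right hκ k3
    have k5 : K ^ 2 * (κ * (dt x.1 y.1 ^ 2 * (Q' x.2 * Q' y.2))) ≤
        K ^ 2 * (dt x.2 y.2 ^ 2 * (Q x.1 * Q y.1)) := by linarith
    exact le_of_mul_le_mul_left k5 (by positivity)
  · obtain ⟨b, x, hx, h6⟩ := h5 p
    refine ⟨b, x, hx, h6.trans ?_⟩
    have k1 := mul_le_mul_of_nonneg_left (hm p x.1) hε1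
    have k2 := mul_le_mul_of_nonneg_right hε (mul_nonneg (hQ p) (hQ x.1))
    linarith

def AC : Set ((ℝ × ℝ) × (ℝ × ℝ)) := {x | ∃ y, S.InC y ∧ x = ((y, 1), (S.H y, 1))}

lemma AC_rel {x : (ℝ × ℝ) × (ℝ × ℝ)} (hx : x ∈ S.AC) : S.Rel x.1 x.2 ∧ S.Lim x.1 := by
  obtain ⟨y, hy, rfl⟩ := hx
  refine ⟨Or.inr ⟨one_ne_zero, one_ne_zero, ?_⟩, S.lim_inC hy⟩
  simp [S.h_K.2 y hy]

lemma H_sq_le (x y : ℝ) : (S.H x - S.H y) ^ 2 ≤ (x - y) ^ 2 := by
  rcases le_total x y with h | h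
  · have := S.H_lo x y h; have := S.H_hi x y h; nlinarith
  · have := S.H_lo y x h; have := S.H_hi y x h; nlinarith

lemma le_H_sq (x y : ℝ) : 1 / 4 * (x - y) ^ 2 ≤ (S.H x - S.H y) ^ 2 := by
  rcases le_total x y with h | h
  · have := S.H_lo x y h; nlinarith
  · have := S.H_lo y x h; nlinarith

lemma AC_cmp {u v : ℝ} (hv : 0 < v) {x y : (ℝ × ℝ) × (ℝ × ℝ)} (hx : x ∈ S.AC) (hy : y ∈ S.AC) :
    1 / 4 * (dt x.1 y.1 ^ 2 * (Qf (S.H u) v x.2 * Qf (S.H u) v y.2)) ≤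
      dt x.2 y.2 ^ 2 * (Qf u v x.1 * Qf u v y.1) := by
  obtain ⟨a, _, rfl⟩ := hx
  obtain ⟨b, _, rfl⟩ := hy
  have k : ∀ z, Qf (S.H u) v (S.H z, 1) ≤ Qf u v (z, 1) := by
    intro z
    unfold Qf
    apply div_le_div_of_nonneg_right _ hv.le
    have := S.H_sq_le z u
    simp only [mul_one]; linarith
  have k1 := mul_le_mul (k a) (k b) (Qf_nonneg hv _) (Qf_nonneg hv _)
  have k2 := S.le_H_sq a b
  have k3 := mul_le_mul k2 k1 (mul_nonneg (Qf_nonneg hv _) (Qf_nonneg hv _)) (sq_nonneg _)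
  simp only [dt, mul_one, one_mul]
  linarith

lemma good_far {u v s : ℝ} (hv : 0 < v) (hs : 0 < s) (h : ∀ b, S.Far u v s b) :
    S.Good (Qf u v) (1 / s ^ 2) (1 / 4) := by
  refine ⟨Qf (S.H u) v, fun _ => S.AC, Qf_nonneg hv, dt_sq_le hv, fun _ x hx => S.AC_rel hx,
    fun _ x hx y hy => S.AC_cmp hv hx hy, fun p => ?_⟩
  obtain ⟨y, hy, h1⟩ := S.approx hv hs p (fun _ b _ => h b)
  exact ⟨true, _, ⟨y, hy, rfl⟩, h1⟩

lemma wall_out {u v : ℝ} (hv : 0 < v) {a : ι × Bool}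
    (hw : (u - S.c a) ^ 2 + v ^ 2 = S.r a.1 ^ 2) (p : ℝ × ℝ)
    (hp : p.2 ≠ 0 → S.r a.1 ≤ |p.1 / p.2 - S.c a|) :
    ∃ y, S.InC y ∧ dt p (y, 1) ^ 2 ≤ 1 / 1999999 ^ 2 * (Qf u v p * Qf u v (y, 1)) := by
  apply S.approx hv (by norm_num) p
  intro h2 b hb
  apply S.far_of_below _ hw.le
  rintro rfl
  exact absurd (hp h2) (not_le.2 hb)

lemma good_wall {u v : ℝ} (hv : 0 < v) {a : ι × Bool}
    (hw : (u - S.c a) ^ 2 + v ^ 2 = S.r a.1 ^ 2) :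
    S.Good (Qf u v) (1 / 1999999 ^ 2) (1 / 4) := by
  have h0 := S.r_pos a.1
  have hu : |u - S.c a| ≤ S.r a.1 := by
    apply le_of_sq_le' h0.le; rw [sq_abs]; nlinarith
  have hu' : |S.c (bar a) - (u - S.c a) - S.c (bar a)| ≤ S.r (bar a).1 := by
    rw [sub_sub_cancel_left, abs_neg]; exact hu
  have hH : S.H u - S.c' a = u - S.c a := by rw [S.H_gap a u hu]; simp [c']
  have hH' : S.H (S.c (bar a) - (u - S.c a)) = S.c' (bar a) - (u - S.c a) := by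
    rw [S.H_gap (bar a) _ hu']; simp [c']; ring
  have q1 : ∀ p, Qf u v p = Qf (S.c (bar a) - (u - S.c a)) v (act (S.ρ (lt a)⁻¹) p) := by
    intro p
    rw [Qf_lt S.c S.r S.r_pos a hv p, hw, ← lt_bar]
    congr 1
    · field_simp
    · field_simp
  have q2 : ∀ p, Qf (S.H u) v p =
      Qf (S.H (S.c (bar a) - (u - S.c a))) v (act (S.ρ' (lt a)⁻¹) p) := by
    intro p
    rw [Qf_lt S.c' S.r S.r_pos a hv p, hH, hw, ← lt_bar, hH']
    congr 1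
    · field_simp
    · field_simp
  have inv1 : ∀ (f : FreeGroup ι →* SL2) (p : ℝ × ℝ), act (f (lt a)⁻¹) (act (f (lt a)) p) = p := by
    intro f p
    have := act_inv_act f (lt a)⁻¹ p
    rwa [inv_inv] at this
  refine ⟨Qf (S.H u) v, fun b => if b then S.AC else
      (fun x => (act (S.ρ (lt a)) x.1, act (S.ρ' (lt a)) x.2)) '' S.AC,
    Qf_nonneg hv, dt_sq_le hv, ?_, ?_, fun p => ?_⟩
  · intro b x hx
    cases b
    · obtain ⟨z, hz, rfl⟩ := hx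
      exact ⟨S.rel_rho _ (S.AC_rel hz).1, S.lim_act _ (S.AC_rel hz).2⟩
    · exact S.AC_rel hx
  · intro b x hx y hy
    cases b
    · obtain ⟨z, hz, rfl⟩ := hx
      obtain ⟨z', hz', rfl⟩ := hy
      simp only [dt_act]
      rw [q1, q1 (act _ z'.1), q2, q2 (act _ z'.2)]
      simp only [inv1]
      exact S.AC_cmp hv hz hz'
    · exact S.AC_cmp hv hx hy
  · by_cases hp : p.2 ≠ 0 → S.r a.1 ≤ |p.1 / p.2 - S.c a|
    · obtain ⟨y, hy, h1⟩ := S.wall_out hv hw p hp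
      exact ⟨true, _, ⟨y, hy, rfl⟩, h1⟩
    · push Not at hp
      obtain ⟨hp1, hp2⟩ := hp
      have hw' : (S.c (bar a) - (u - S.c a) - S.c (bar a)) ^ 2 + v ^ 2 = S.r (bar a).1 ^ 2 := by
        simp only [bar_fst]; rw [← hw]; ring
      obtain ⟨y, hy, h1⟩ := S.wall_out hv hw' (act (S.ρ (lt a)⁻¹) p) (by
        rw [← lt_bar]
        unfold ρ
        rw [act_lt]
        simp only [bar_bar, bar_fst]
        intro hne
        have hs := sg_ne (bar a)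
        have hX : p.1 - S.c a * p.2 ≠ 0 := by
          intro h; apply hne; rw [h]; simp
        have hY : p.1 / p.2 - S.c a ≠ 0 := by
          intro h; apply hX; field_simp at h; linarith
        have e : sg (bar a) * ((S.c (bar a) * (p.1 - S.c a * p.2) - S.r a.1 ^ 2 * p.2) / S.r a.1) /
            (sg (bar a) * ((p.1 - S.c a * p.2) / S.r a.1)) - S.c (bar a) =
            -(S.r a.1 ^ 2 / (p.1 / p.2 - S.c a)) := by
          have : p.1 / p.2 - S.c a = (p.1 - S.c a * p.2) / p.2 := by field_simp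
          rw [this]; field_simp; ring
        rw [e, abs_neg, abs_div, abs_of_pos (by positivity), le_div_iff₀ (abs_pos.2 hY)]
        nlinarith)
      refine ⟨false, _, ⟨_, ⟨y, hy, rfl⟩, rfl⟩, ?_⟩
      simp only
      rw [q1, q1 (act _ _), inv1, ← dt_act (S.ρ (lt a)⁻¹), inv1]
      exact h1

def InD (u v : ℝ) : Prop := ∀ a : ι × Bool, S.r a.1 ^ 2 ≤ (u - S.c a) ^ 2 + v ^ 2

lemma good_D {u v : ℝ} (hv : 0 < v) (h : S.InD u v) :
    S.Good (Qf u v) (1 / 10000) (1 / (4 * 10002 ^ 2)) := by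
  by_cases hF : ∀ b, S.Far u v 100 b
  · exact S.good_cmp (S.good_far hv (by norm_num) hF) (Qf_nonneg hv) (Qf_nonneg hv) one_pos
      (fun p => by rw [one_mul]) (by norm_num) (by norm_num) (by norm_num)
  · push Not at hF
    obtain ⟨a, ha⟩ := hF
    unfold Far at ha
    push Not at ha
    have h0 := S.r_pos a.1
    have h1 := h a
    obtain ⟨R, hR⟩ : ∃ R, R = √((u - S.c a) ^ 2 + v ^ 2) := ⟨_, rfl⟩
    have hR2 : R ^ 2 = (u - S.c a) ^ 2 + v ^ 2 := by rw [hR, Real.sq_sqrt (by positivity)]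
    have hR0 : 0 < R := by rw [hR]; exact Real.sqrt_pos.2 (by positivity)
    have hrR : S.r a.1 ≤ R := le_of_sq_le' hR0.le (by rw [hR2]; exact h1)
    have hv1 : 0 < S.r a.1 * v / R := by positivity
    have hw : (S.c a + S.r a.1 * (u - S.c a) / R - S.c a) ^ 2 + (S.r a.1 * v / R) ^ 2 =
        S.r a.1 ^ 2 := by
      field_simp
      rw [hR2]; ring
    refine S.good_cmp (K := 10002) (S.good_wall hv1 hw) (Qf_nonneg hv) (Qf_nonneg hv1)
      (by norm_num) (fun p => (Qf_cmp (u := u) hv hv1 p).trans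
        (mul_le_mul_of_nonneg_right ?_ (Qf_nonneg hv p))) (by norm_num) (by norm_num) (by norm_num)
    set r := S.r a.1
    have e : ((u - (S.c a + r * (u - S.c a) / R)) ^ 2 + v ^ 2 + (r * v / R) ^ 2) /
        (v * (r * v / R)) = 2 + (R - r) ^ 2 * R / (r * v ^ 2) := by
      have e1 : (u - S.c a) ^ 2 = R ^ 2 - v ^ 2 := by linarith
      have e2 : (u - (S.c a + r * (u - S.c a) / R)) ^ 2 = (u - S.c a) ^ 2 * (R - r) ^ 2 / R ^ 2 := by
        field_simp; ring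
      rw [e2, e1]; field_simp; ring
    rw [e]
    have k1 : (R - r) * (R + r) ≤ 200 * r * v := by nlinarith
    have k2 := pow_le_pow_left₀ (mul_nonneg (by linarith) (by linarith)) k1 2
    have k3 : (R - r) ^ 2 * (4 * R * r) ≤ (R - r) ^ 2 * (R + r) ^ 2 :=
      mul_le_mul_of_nonneg_left (by nlinarith [sq_nonneg (R - r)]) (sq_nonneg _)
    have k4 : (R - r) ^ 2 * R / (r * v ^ 2) ≤ 10000 := by
      rw [div_le_iff₀ (by positivity)]
      have : r * ((R - r) ^ 2 * R) ≤ r * (10000 * (r * v ^ 2)) := by nlinarith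
      exact le_of_mul_le_mul_left this h0
    linarith

lemma reduce_aux (v0 : ℝ) (hv0 : 0 < v0) : ∀ (n : ℕ) (u v : ℝ), v0 ≤ v → 1 ≤ v + n * v0 ^ 2 →
    ∃ (w : FreeGroup ι) (u1 v1 : ℝ), 0 < v1 ∧ S.InD u1 v1 ∧
      ∀ p, Qf u v p = Qf u1 v1 (act (S.ρ w) p) := by
  intro n
  induction n with
  | zero =>
    intro u v h1 h2
    refine ⟨1, u, v, by linarith, fun a => ?_, fun p => by rw [map_one, act_one]⟩
    have := S.r_le a.1
    have := S.r_pos a.1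
    simp only [Nat.cast_zero, zero_mul, add_zero] at h2
    nlinarith [sq_nonneg (u - S.c a)]
  | succ n ih =>
    intro u v h1 h2
    have hv : 0 < v := by linarith
    by_cases hD : S.InD u v
    · exact ⟨1, u, v, hv, hD, fun p => by rw [map_one, act_one]⟩
    unfold InD at hD
    push Not at hD
    obtain ⟨a, ha⟩ := hD
    have h0 := S.r_pos a.1
    have hq := Qf_lt S.c S.r S.r_pos a (u := u) hv
    obtain ⟨P, hP⟩ : ∃ P, P = (u - S.c a) ^ 2 + v ^ 2 := ⟨_, rfl⟩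
    have hP0 : 0 < P := by rw [hP]; positivity
    rw [← hP] at hq ha
    have hv1 : 0 < S.r a.1 ^ 2 * v / P := by positivity
    by_cases hD1 : S.InD (S.c (bar a) - S.r a.1 ^ 2 * (u - S.c a) / P) (S.r a.1 ^ 2 * v / P)
    · exact ⟨lt (bar a), _, _, hv1, hD1, hq⟩
    unfold InD at hD1
    push Not at hD1
    obtain ⟨b, hb⟩ := hD1
    have e : (S.c (bar a) - S.r a.1 ^ 2 * (u - S.c a) / P - S.c (bar a)) ^ 2 +
        (S.r a.1 ^ 2 * v / P) ^ 2 = S.r a.1 ^ 2 * (S.r a.1 ^ 2 / P) := by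
      field_simp
      rw [hP]; ring
    have k0 : 1 < S.r a.1 ^ 2 / P := by rw [lt_div_iff₀ hP0]; linarith
    have hab : bar a ≠ b := by
      rintro rfl
      rw [e] at hb
      simp only [bar_fst] at hb
      nlinarith [mul_pos h0 h0]
    have hF := S.far_of_below hab hb.le
    unfold Far at hF
    rw [e] at hF
    simp only [bar_fst] at hF
    have e2 : S.r a.1 ^ 2 * v / P = v * (S.r a.1 ^ 2 / P) := by ring
    obtain ⟨t, ht⟩ : ∃ t, t = S.r a.1 ^ 2 / P := ⟨_, rfl⟩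
    rw [e2, ← ht] at hF
    rw [← ht] at k0 e2
    have k1 : v0 ≤ v * t := by nlinarith
    have hr1 := S.r_le a.1
    have k2 : 1 + v0 ≤ t := by
      have a1 : S.r a.1 * (2 * (v * t) * 1999999) ≤ S.r a.1 * (S.r a.1 * (t - 1)) := by linarith
      have a2 := le_of_mul_le_mul_left a1 h0
      have a3 : S.r a.1 * (t - 1) ≤ 1 * (t - 1) :=
        mul_le_mul_of_nonneg_right hr1 (by linarith)
      linarith
    have k3 : v + v0 ^ 2 ≤ v * t := by nlinarith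
    obtain ⟨w, u1, v1, a1, a2, a3⟩ := ih (S.c (bar a) - S.r a.1 ^ 2 * (u - S.c a) / P)
      (S.r a.1 ^ 2 * v / P) (by rw [e2]; exact k1) (by rw [e2]; push_cast at h2; linarith)
    refine ⟨w * lt (bar a), u1, v1, a1, a2, fun p => ?_⟩
    rw [map_mul, act_mul, hq, a3]; rfl

theorem good_all (u : ℝ) {v : ℝ} (hv : 0 < v) :
    S.Good (Qf u v) (1 / 10000) (1 / (4 * 10002 ^ 2)) := by
  obtain ⟨n, hn⟩ := exists_nat_ge (1 / v ^ 2)
  rw [div_le_iff₀ (by positivity)] at hn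
  obtain ⟨w, u1, v1, a1, a2, a3⟩ := S.reduce_aux v hv n u v le_rfl (by linarith)
  have := S.good_act (S.good_D a1 a2) w
  have e : Qf u v = fun p => Qf u1 v1 (act (S.ρ w) p) := funext a3
  rw [e]; exact this

end Sys

end Pool.Agent.Lib.MP_23eee6_gt
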