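import Pool.Agent.Lib.MP_23eee6_gt.Geo

set_option autoImplicit false

namespace Pool.Agent.Lib.MP_23eee6_gt

open Filter Topology

namespace Sys

variable {ι : Type} (S : Sys ι)

lemma sample {x t s : ℝ} (ht : 0 < t) (hs : s ^ 2 ≤ 4) {P q : ℝ × ℝ} (hrel : S.Rel P q)
    (h : dt (x + s * t, 1) P ^ 2 ≤ 1 / 10000 * (Qf x t (x + s * t, 1) * Qf x t P)) :
    P.2 ≠ 0 ∧ q.2 ≠ 0 ∧ q.1 / q.2 = S.h (P.1 / P.2) ∧ |P.1 / P.2 - (x + s * t)| ≤ t / 10 := by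
  obtain ⟨X, hX⟩ : ∃ X, X = P.1 - x * P.2 := ⟨_, rfl⟩
  obtain ⟨Y, hY⟩ : ∃ Y, Y = t * P.2 := ⟨_, rfl⟩
  have e1 : dt (x + s * t, 1) P ^ 2 = (X - s * Y) ^ 2 := by rw [hX, hY]; unfold dt; ring
  have e2 : Qf x t (x + s * t, 1) * Qf x t P = (s ^ 2 + 1) * (X ^ 2 + Y ^ 2) := by
    rw [hX, hY]; unfold Qf; field_simp; ring
  rw [e1, e2] at h
  have k1 : (s ^ 2 + 1) * (X ^ 2 + Y ^ 2) ≤ 5 * (X ^ 2 + Y ^ 2) :=
    mul_le_mul_of_nonneg_right (by linarith) (by positivity)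
  have k2 : s ^ 2 * Y ^ 2 ≤ 4 * Y ^ 2 := mul_le_mul_of_nonneg_right hs (by positivity)
  have k3 : X ^ 2 ≤ 2 * (X - s * Y) ^ 2 + 8 * Y ^ 2 := by nlinarith [sq_nonneg (X - 2 * s * Y)]
  have k4 : (X - s * Y) ^ 2 ≤ (Y / 10) ^ 2 := by nlinarith [sq_nonneg Y]
  have hP : P.2 ≠ 0 := by
    intro h0
    have : Y = 0 := by rw [hY, h0, mul_zero]
    rw [this] at k4
    have : X = 0 := by nlinarith
    rcases hrel with ⟨_, _, h3, _⟩ | ⟨h3, _⟩
    · apply h3; rw [h0] at hX; linarith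
    · exact h3 h0
  rcases hrel with ⟨h1, _⟩ | ⟨_, h2, h3⟩
  · exact absurd h1 hP
  refine ⟨hP, h2, h3, ?_⟩
  apply le_of_sq_le' (by positivity)
  rw [sq_abs]
  have e3 : P.1 / P.2 - (x + s * t) = (X - s * Y) / P.2 := by rw [hX, hY]; field_simp; ring
  rw [e3, div_pow, div_le_iff₀ (by positivity)]
  rw [hY] at k4 ⊢
  nlinarith

lemma sep_pair {x t κ : ℝ} (ht : 0 < t) (hκ : 0 < κ) {P R : ℝ × ℝ} {α β γ : ℝ} (hP : P.2 ≠ 0)
    (hR : R.2 ≠ 0) (h1 : |P.1 / P.2 - x| ≤ 2 * t) (h2 : |R.1 / R.2 - x| ≤ 2 * t)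
    (h3 : t / 20 ≤ R.1 / R.2 - P.1 / P.2) (hα : 0 ≤ α) (hβ : 0 ≤ β)
    (h : κ * (dt P R ^ 2 * (α * β)) ≤ γ ^ 2 * (Qf x t P * Qf x t R)) :
    κ / 10000 * (α * β) ≤ γ ^ 2 := by
  obtain ⟨d, hd⟩ : ∃ d, d = P.1 / P.2 := ⟨_, rfl⟩
  obtain ⟨e, he⟩ : ∃ e, e = R.1 / R.2 := ⟨_, rfl⟩
  have e1 : P.1 = d * P.2 := by rw [hd]; field_simp
  have e2 : R.1 = e * R.2 := by rw [he]; field_simp
  rw [← hd] at h1 h3
  rw [← he] at h2 h3
  have q1 : Qf x t P ≤ 5 * t * P.2 ^ 2 := by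
    unfold Qf
    rw [div_le_iff₀ ht, e1]
    have : (d - x) ^ 2 ≤ (2 * t) ^ 2 := by rw [← sq_abs]; exact pow_le_pow_left₀ (abs_nonneg _) h1 2
    nlinarith [mul_le_mul_of_nonneg_right this (sq_nonneg P.2)]
  have q2 : Qf x t R ≤ 5 * t * R.2 ^ 2 := by
    unfold Qf
    rw [div_le_iff₀ ht, e2]
    have : (e - x) ^ 2 ≤ (2 * t) ^ 2 := by rw [← sq_abs]; exact pow_le_pow_left₀ (abs_nonneg _) h2 2
    nlinarith [mul_le_mul_of_nonneg_right this (sq_nonneg R.2)]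
  have q3 := mul_le_mul q1 q2 (Qf_nonneg ht _) (by positivity)
  have q4 : (t / 20) ^ 2 * (P.2 ^ 2 * R.2 ^ 2) ≤ dt P R ^ 2 := by
    have : dt P R ^ 2 = (e - d) ^ 2 * (P.2 ^ 2 * R.2 ^ 2) := by unfold dt; rw [e1, e2]; ring
    rw [this]
    exact mul_le_mul_of_nonneg_right (pow_le_pow_left₀ (by positivity) h3 2) (by positivity)
  have q5 := mul_le_mul_of_nonneg_left (mul_le_mul_of_nonneg_right q4 (mul_nonneg hα hβ)) hκ.le
  have q6 := mul_le_mul_of_nonneg_left q3 (sq_nonneg γ)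
  have q7 : (25 * t ^ 2 * (P.2 ^ 2 * R.2 ^ 2)) * (κ / 10000 * (α * β)) ≤
      (25 * t ^ 2 * (P.2 ^ 2 * R.2 ^ 2)) * γ ^ 2 := by nlinarith
  exact le_of_mul_le_mul_left q7 (by positivity)

lemma pair {x t κ α : ℝ} (ht : 0 < t) (hκ : 0 < κ) (hα1 : -2 ≤ α) (hα2 : α ≤ 1)
    {Q' : ℝ × ℝ → ℝ} {A : Bool → Set ((ℝ × ℝ) × (ℝ × ℝ))} (h1 : ∀ p, 0 ≤ Q' p)
    (h3 : ∀ b, ∀ x ∈ A b, S.Rel x.1 x.2 ∧ S.Lim x.1)
    (h4 : ∀ b, ∀ z ∈ A b, ∀ y ∈ A b,
      κ * (dt z.1 y.1 ^ 2 * (Q' z.2 * Q' y.2)) ≤ dt z.2 y.2 ^ 2 * (Qf x t z.1 * Qf x t y.1))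
    (h5 : ∀ p, ∃ b, ∃ z ∈ A b, dt p z.1 ^ 2 ≤ 1 / 10000 * (Qf x t p * Qf x t z.1)) :
    ∃ (d1 d2 : ℝ) (q1 q2 : ℝ × ℝ), x + α * t ≤ d1 ∧ d1 < d2 ∧ d2 ≤ x + (α + 1) * t ∧
      q1.2 ≠ 0 ∧ q2.2 ≠ 0 ∧ q1.1 / q1.2 = S.h d1 ∧ q2.1 / q2.2 = S.h d2 ∧
      κ / 10000 * (Q' q1 * Q' q2) ≤ dt q1 q2 ^ 2 := by
  have key : ∀ (s1 s2 : ℝ) (b : Bool), α + 1 / 4 ≤ s1 → s1 + 1 / 4 ≤ s2 → s2 ≤ α + 3 / 4 →
      ∀ z ∈ A b, ∀ y ∈ A b,
      dt (x + s1 * t, 1) z.1 ^ 2 ≤ 1 / 10000 * (Qf x t (x + s1 * t, 1) * Qf x t z.1) →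
      dt (x + s2 * t, 1) y.1 ^ 2 ≤ 1 / 10000 * (Qf x t (x + s2 * t, 1) * Qf x t y.1) →
      ∃ (d1 d2 : ℝ) (q1 q2 : ℝ × ℝ), x + α * t ≤ d1 ∧ d1 < d2 ∧ d2 ≤ x + (α + 1) * t ∧
      q1.2 ≠ 0 ∧ q2.2 ≠ 0 ∧ q1.1 / q1.2 = S.h d1 ∧ q2.1 / q2.2 = S.h d2 ∧
      κ / 10000 * (Q' q1 * Q' q2) ≤ dt q1 q2 ^ 2 := by
    intro s1 s2 b a1 a2 a3 z hz y hy b1 b2
    obtain ⟨c1, c2, c3, c4⟩ := S.sample ht (s := s1) (by nlinarith) (h3 b z hz).1 b1
    obtain ⟨d1, d2, d3, d4⟩ := S.sample ht (s := s2) (by nlinarith) (h3 b y hy).1 b2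
    rw [abs_le] at c4 d4
    have m1 := mul_le_mul_of_nonneg_right a1 ht.le
    have m2 := mul_le_mul_of_nonneg_right a2 ht.le
    have m3 := mul_le_mul_of_nonneg_right a3 ht.le
    have m4 := mul_le_mul_of_nonneg_right hα1 ht.le
    have m5 := mul_le_mul_of_nonneg_right hα2 ht.le
    refine ⟨_, _, z.2, y.2, by linarith, by linarith, by linarith, c2, d2, c3, d3, ?_⟩
    exact sep_pair ht hκ c1 d1 (by rw [abs_le]; constructor <;> linarith)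
      (by rw [abs_le]; constructor <;> linarith) (by linarith) (h1 _) (h1 _) (h4 b z hz y hy)
  obtain ⟨b1, z1, hz1, k1⟩ := h5 (x + (α + 1 / 4) * t, 1)
  obtain ⟨b2, z2, hz2, k2⟩ := h5 (x + (α + 1 / 2) * t, 1)
  obtain ⟨b3, z3, hz3, k3⟩ := h5 (x + (α + 3 / 4) * t, 1)
  by_cases e12 : b1 = b2
  · subst e12
    exact key _ _ b1 le_rfl (by linarith) (by linarith) z1 hz1 z2 hz2 k1 k2
  by_cases e23 : b2 = b3
  · subst e23
    exact key _ _ b2 (by linarith) (by linarith) le_rfl z2 hz2 z3 hz3 k2 k3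
  have e13 : b1 = b3 := by
    revert e12 e23
    cases b1 <;> cases b2 <;> cases b3 <;> decide
  subst e13
  exact key _ _ b1 le_rfl (by linarith) le_rfl z1 hz1 z3 hz3 k1 k3

noncomputable def δ0 : ℝ := 1 / (4 * 10002 ^ 2) / 10000

lemma δ0_pos : 0 < δ0 := by unfold δ0; norm_num

lemma dt_ratio {p q : ℝ × ℝ} (hp : p.2 ≠ 0) (hq : q.2 ≠ 0) :
    dt p q = p.2 * q.2 * (p.1 / p.2 - q.1 / q.2) := by
  unfold dt; field_simp

lemma Q'_pos {Q' : ℝ × ℝ → ℝ} (h1 : ∀ p, 0 ≤ Q' p) (h2 : ∀ p q, dt p q ^ 2 ≤ Q' p * Q' q)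
    {q : ℝ × ℝ} (hq : q.2 ≠ 0) : 0 < Q' q := by
  rcases (h1 q).lt_or_eq with h | h
  · exact h
  · have := h2 (1, 0) q
    rw [← h] at this
    simp only [dt, one_mul, zero_mul, sub_zero, mul_zero] at this
    have : 0 < q.2 ^ 2 := by positivity
    linarith

lemma cross {x t α β : ℝ} (ht : 0 < t) (hα : -2 ≤ α) (hαβ : α + 1 ≤ β) (hβ : β ≤ 1) :
    ∃ h1 h2 h3 h4 : ℝ, S.h (x + α * t) ≤ h1 ∧ h1 < h2 ∧ h2 ≤ S.h (x + (α + 1) * t) ∧
      S.h (x + β * t) ≤ h3 ∧ h3 < h4 ∧ h4 ≤ S.h (x + (β + 1) * t) ∧ h2 ≤ h3 ∧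
      δ0 * ((h3 - h2) * (h4 - h1)) ≤ (h2 - h1) * (h4 - h3) := by
  obtain ⟨Q', A, g1, g2, g3, g4, g5⟩ := S.good_all x ht
  obtain ⟨d1, d2, q1, q2, a1, a2, a3, a4, a5, a6, a7, a8⟩ :=
    S.pair ht (by norm_num) hα (by linarith) g1 g3 g4 g5
  obtain ⟨d3, d4, q3, q4, b1, b2, b3, b4, b5, b6, b7, b8⟩ :=
    S.pair ht (by norm_num) (α := β) (by linarith) hβ g1 g3 g4 g5
  have hm := S.h_K.1
  change δ0 * _ ≤ _ at a8 b8
  have p1 := Q'_pos g1 g2 a4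
  have p2 := Q'_pos g1 g2 a5
  have p3 := Q'_pos g1 g2 b4
  have p4 := Q'_pos g1 g2 b5
  have hδ := δ0_pos
  have k1 := g2 q2 q3
  have k2 := g2 q1 q4
  rw [dt_ratio a4 a5, a6, a7] at a8
  rw [dt_ratio b4 b5, b6, b7] at b8
  rw [dt_ratio a5 b4, a7, b6] at k1
  rw [dt_ratio a4 b5, a6, b7] at k2
  have n1 : S.h d1 < S.h d2 := by
    refine lt_of_le_of_ne (hm a2.le) fun e => ?_
    rw [e, sub_self, mul_zero] at a8
    have : 0 < δ0 * (Q' q1 * Q' q2) := by positivity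
    rw [zero_pow two_ne_zero] at a8
    linarith
  have n2 : S.h d3 < S.h d4 := by
    refine lt_of_le_of_ne (hm b2.le) fun e => ?_
    rw [e, sub_self, mul_zero] at b8
    have : 0 < δ0 * (Q' q3 * Q' q4) := by positivity
    rw [zero_pow two_ne_zero] at b8
    linarith
  have n3 : S.h d2 ≤ S.h d3 := hm (by
    have := mul_le_mul_of_nonneg_right hαβ ht.le
    linarith)
  refine ⟨S.h d1, S.h d2, S.h d3, S.h d4, hm a1, n1, hm a3, hm b1, n2, hm b3, n3, ?_⟩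
  apply le_of_sq_le' (mul_nonneg (by linarith) (by linarith))
  have m1 := mul_le_mul k1 k2 (sq_nonneg _) (by positivity)
  have m2 := mul_le_mul a8 b8 (by positivity) (sq_nonneg _)
  have m3 := mul_le_mul_of_nonneg_left m1 (sq_nonneg δ0)
  have m4 : (q1.2 * q2.2 * q3.2 * q4.2) ^ 2 *
      (δ0 * ((S.h d3 - S.h d2) * (S.h d4 - S.h d1))) ^ 2 ≤
      (q1.2 * q2.2 * q3.2 * q4.2) ^ 2 * ((S.h d2 - S.h d1) * (S.h d4 - S.h d3)) ^ 2 := by
    calc _ = δ0 ^ 2 * ((q2.2 * q3.2 * (S.h d2 - S.h d3)) ^ 2 *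
          (q1.2 * q4.2 * (S.h d1 - S.h d4)) ^ 2) := by ring
      _ ≤ δ0 ^ 2 * (Q' q2 * Q' q3 * (Q' q1 * Q' q4)) := m3
      _ = δ0 * (Q' q1 * Q' q2) * (δ0 * (Q' q3 * Q' q4)) := by ring
      _ ≤ _ := m2
      _ = _ := by ring
  exact le_of_mul_le_mul_left m4 (by positivity)

theorem h_strictMono : StrictMono S.h := by
  intro a b hab
  obtain ⟨h1, h2, h3, h4, k1, k2, k3, _⟩ :=
    S.cross (x := a) (t := b - a) (α := 0) (β := 1) (by linarith) (by norm_num) (by norm_num) le_rfl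
  simp only [zero_mul, add_zero, zero_add, one_mul, add_sub_cancel] at k1 k3
  linarith

theorem h_qs (x t : ℝ) (ht : 0 < t) :
    S.h (x + t) - S.h x ≤ 1 / δ0 * (S.h x - S.h (x - t)) ∧
      S.h x - S.h (x - t) ≤ 1 / δ0 * (S.h (x + t) - S.h x) := by
  have hδ := δ0_pos
  constructor
  · obtain ⟨h1, h2, h3, h4, k1, k2, k3, k4, k5, _, k7, k8⟩ :=
      S.cross (x := x) (α := -1) (β := 1) ht (by norm_num) (by norm_num) le_rfl
    have e1 : x + -1 * t = x - t := by ring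
    have e2 : x + (-1 + 1) * t = x := by ring
    rw [e1] at k1
    rw [e2] at k3
    rw [one_mul] at k4
    rw [one_div, inv_mul_eq_div, le_div_iff₀ hδ]
    have a1 : (h3 - h2) * (h4 - h3) ≤ (h3 - h2) * (h4 - h1) :=
      mul_le_mul_of_nonneg_left (by linarith) (by linarith)
    have a2 := mul_le_mul_of_nonneg_left a1 hδ.le
    have a3 : (δ0 * (h3 - h2)) * (h4 - h3) ≤ (h2 - h1) * (h4 - h3) := by linarith
    have a4 := le_of_mul_le_mul_right a3 (by linarith)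
    nlinarith
  · obtain ⟨h1, h2, h3, h4, _, k2, k3, k4, k5, k6, k7, k8⟩ :=
      S.cross (x := x) (α := -2) (β := 0) ht (by norm_num) (by norm_num) (by norm_num)
    have e1 : x + (-2 + 1) * t = x - t := by ring
    have e2 : x + 0 * t = x := by ring
    have e3 : x + (0 + 1) * t = x + t := by ring
    rw [e1] at k3
    rw [e2] at k4
    rw [e3] at k6
    rw [one_div, inv_mul_eq_div, le_div_iff₀ hδ]
    have a1 : (h3 - h2) * (h2 - h1) ≤ (h3 - h2) * (h4 - h1) :=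
      mul_le_mul_of_nonneg_left (by linarith) (by linarith)
    have a2 := mul_le_mul_of_nonneg_left a1 hδ.le
    have a3 : (δ0 * (h3 - h2)) * (h2 - h1) ≤ (h4 - h3) * (h2 - h1) := by linarith
    have a4 := le_of_mul_le_mul_right a3 (by linarith)
    nlinarith

theorem h_continuous : Continuous S.h := by
  have hm := S.h_K.1
  rw [continuous_iff_continuousAt]
  intro x
  rw [continuousAt_iff_continuous_left'_right']
  have t1 : Tendsto (fun t : ℝ => x + t) (𝓝[>] 0) (𝓝[>] x) := by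
    apply tendsto_nhdsWithin_iff.2 ⟨?_, ?_⟩
    · have : Tendsto (fun t : ℝ => x + t) (𝓝 0) (𝓝 (x + 0)) :=
        (continuous_const.add continuous_id).tendsto 0
      rw [add_zero] at this
      exact this.mono_left nhdsWithin_le_nhds
    · filter_upwards [self_mem_nhdsWithin] with t ht
      simpa using ht
  have t2 : Tendsto (fun t : ℝ => x + t + t) (𝓝[>] 0) (𝓝[>] x) := by
    apply tendsto_nhdsWithin_iff.2 ⟨?_, ?_⟩
    · have : Tendsto (fun t : ℝ => x + t + t) (𝓝 0) (𝓝 (x + 0 + 0)) :=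
        ((continuous_const.add continuous_id).add continuous_id).tendsto 0
      rw [add_zero, add_zero] at this
      exact this.mono_left nhdsWithin_le_nhds
    · filter_upwards [self_mem_nhdsWithin] with t ht
      have : (0 : ℝ) < t := ht
      simp only [Set.mem_Ioi]; linarith
  have t3 : Tendsto (fun t : ℝ => x - t) (𝓝[>] 0) (𝓝[<] x) := by
    apply tendsto_nhdsWithin_iff.2 ⟨?_, ?_⟩
    · have : Tendsto (fun t : ℝ => x - t) (𝓝 0) (𝓝 (x - 0)) :=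
        (continuous_const.sub continuous_id).tendsto 0
      rw [sub_zero] at this
      exact this.mono_left nhdsWithin_le_nhds
    · filter_upwards [self_mem_nhdsWithin] with t ht
      simpa using ht
  have t4 : Tendsto (fun t : ℝ => x - t - t) (𝓝[>] 0) (𝓝[<] x) := by
    apply tendsto_nhdsWithin_iff.2 ⟨?_, ?_⟩
    · have : Tendsto (fun t : ℝ => x - t - t) (𝓝 0) (𝓝 (x - 0 - 0)) :=
        ((continuous_const.sub continuous_id).sub continuous_id).tendsto 0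
      rw [sub_zero, sub_zero] at this
      exact this.mono_left nhdsWithin_le_nhds
    · filter_upwards [self_mem_nhdsWithin] with t ht
      have : (0 : ℝ) < t := ht
      simp only [Set.mem_Iio]; linarith
  constructor
  · have l1 := hm.tendsto_nhdsLT x
    set L := sSup (S.h '' Set.Iio x)
    have u1 : L ≤ S.h x :=
      le_of_tendsto l1 (by filter_upwards [self_mem_nhdsWithin] with y hy using hm (le_of_lt hy))
    have u2 : S.h x - L ≤ 1 / δ0 * (L - L) := by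
      refine le_of_tendsto_of_tendsto (tendsto_const_nhds.sub (l1.comp t3))
        (((l1.comp t3).sub (l1.comp t4)).const_mul (1 / δ0)) ?_
      filter_upwards [self_mem_nhdsWithin] with t ht
      have := (S.h_qs (x - t) t ht).1
      simpa using this
    have : L = S.h x := by simp only [sub_self, mul_zero] at u2; linarith
    rw [this] at l1
    exact l1
  · have l1 := hm.tendsto_nhdsGT x
    set L := sInf (S.h '' Set.Ioi x)
    have u1 : S.h x ≤ L :=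
      ge_of_tendsto l1 (by filter_upwards [self_mem_nhdsWithin] with y hy using hm (le_of_lt hy))
    have u2 : L - S.h x ≤ 1 / δ0 * (L - L) := by
      refine le_of_tendsto_of_tendsto ((l1.comp t1).sub tendsto_const_nhds)
        (((l1.comp t2).sub (l1.comp t1)).const_mul (1 / δ0)) ?_
      filter_upwards [self_mem_nhdsWithin] with t ht
      have := (S.h_qs (x + t) t ht).2
      simpa using this
    have : L = S.h x := by simp only [sub_self, mul_zero] at u2; linarith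
    rw [this] at l1
    exact l1

theorem h_surjective : Function.Surjective S.h := by
  apply S.h_continuous.surjective
  · rw [tendsto_atTop_atTop]
    intro b
    refine ⟨2 * |b - S.H 0| + 2, fun x hx => ?_⟩
    have h1 := S.le_K S.h_K x
    have h2 := S.H_lo 0 (x - 2) (by linarith [abs_nonneg (b - S.H 0)])
    linarith [le_abs_self (b - S.H 0)]
  · rw [tendsto_atBot_atBot]
    intro b
    refine ⟨-(2 * |b - S.H 0| + 2), fun x hx => ?_⟩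
    have h1 := S.K_le S.h_K x
    have h2 := S.H_lo (x + 2) 0 (by linarith [abs_nonneg (b - S.H 0)])
    linarith [neg_abs_le (b - S.H 0)]

theorem h_not_affine : ¬ ∃ a b : ℝ, ∀ x : ℝ, S.h x = a * x + b := by
  rintro ⟨a, b, h⟩
  obtain ⟨x, y, hx, hy, hne⟩ := S.H_ne
  obtain ⟨_, k, _, _⟩ := S.dense 0 1 one_pos
  have h1 := S.h_K.2 _ (S.inC_right k)
  have h2 := S.h_K.2 _ (S.inC_left k)
  rw [h, H_right] at h1
  rw [h, H_left] at h2
  have h0 := S.r_pos k.1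
  have ha : a = 1 := by
    have : (a - 1) * S.r k.1 = 0 := by linarith
    rcases mul_eq_zero.1 this with h3 | h3 <;> linarith
  apply hne
  rw [← S.h_K.2 x hx, ← S.h_K.2 y hy, h, h, ha]; ring

lemma lim_dense (x : ℝ) {t : ℝ} (ht : 0 < t) : ∃ y, |y - x| ≤ t / 10 ∧ S.Lim (y, 1) := by
  obtain ⟨Q', A, _, _, g3, _, g5⟩ := S.good_all x ht
  obtain ⟨b, z, hz, k⟩ := g5 (x + 0 * t, 1)
  obtain ⟨c1, _, _, c4⟩ := S.sample ht (s := 0) (by norm_num) (g3 b z hz).1 k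
  refine ⟨z.1.1 / z.1.2, by simpa using c4, fun η hη => ?_⟩
  obtain ⟨w, hw⟩ := (g3 b z hz).2 (η * z.1.2 ^ 2) (by positivity)
  refine ⟨w, ?_⟩
  have e : ∀ q, dt (z.1.1 / z.1.2, 1) q = dt z.1 q / z.1.2 := by
    intro q; unfold dt; field_simp
  rw [e, e, div_pow, div_pow, ← add_div, div_le_iff₀ (by positivity)]
  linarith

lemma near_of_lim {y : ℝ} (h : S.Lim (y, 1)) {ε : ℝ} (hε : 0 < ε) : ∃ w : FreeGroup ι,
    ‖(y : ℂ) - ((((S.ρ w : SL2) : Matrix (Fin 2) (Fin 2) ℝ) 0 0 : ℂ) * Complex.I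
        + (((S.ρ w : SL2) : Matrix (Fin 2) (Fin 2) ℝ) 0 1 : ℂ)) /
      ((((S.ρ w : SL2) : Matrix (Fin 2) (Fin 2) ℝ) 1 0 : ℂ) * Complex.I
        + (((S.ρ w : SL2) : Matrix (Fin 2) (Fin 2) ℝ) 1 1 : ℂ))‖ ≤ ε := by
  obtain ⟨w, hw⟩ := h (min (1 / 4) (ε ^ 2 / (2 * (2 * y ^ 2 + 1))))
    (lt_min (by norm_num) (by positivity))
  refine ⟨w, ?_⟩
  have hd := det_entries (S.ρ w)
  simp only [dt, act, nsq, mul_one, mul_zero, add_zero, zero_add, one_mul] at hw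
  set a := ((S.ρ w : SL2) : Matrix (Fin 2) (Fin 2) ℝ) 0 0
  set b := ((S.ρ w : SL2) : Matrix (Fin 2) (Fin 2) ℝ) 0 1
  set c := ((S.ρ w : SL2) : Matrix (Fin 2) (Fin 2) ℝ) 1 0
  set d := ((S.ρ w : SL2) : Matrix (Fin 2) (Fin 2) ℝ) 1 1
  obtain ⟨η, hη⟩ : ∃ η, η = min (1 / 4) (ε ^ 2 / (2 * (2 * y ^ 2 + 1))) := ⟨_, rfl⟩
  rw [← hη] at hw
  have η1 : η ≤ 1 / 4 := hη ▸ min_le_left _ _
  have η2 : η * (2 * (2 * y ^ 2 + 1)) ≤ ε ^ 2 := by
    rw [← le_div_iff₀ (by positivity)]; exact hη ▸ min_le_right _ _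
  have η0 : 0 < η := hη ▸ lt_min (by norm_num) (by positivity)
  have hcd : 0 < c ^ 2 + d ^ 2 := by
    by_contra hn
    have h1 : c = 0 := by nlinarith
    have h2 : d = 0 := by nlinarith
    rw [h1, h2] at hd; simp at hd
  have hne : (c : ℂ) * Complex.I + d ≠ 0 := by
    intro h0
    have h1 := congrArg Complex.re h0
    have h2 := congrArg Complex.im h0
    simp at h1 h2
    rw [h1, h2] at hcd; simp at hcd
  have e : (y : ℂ) - (a * Complex.I + b) / (c * Complex.I + d) =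
      (((y * d - b : ℝ) : ℂ) + ((y * c - a : ℝ) : ℂ) * Complex.I) / (d + c * Complex.I) := by
    rw [add_comm (d : ℂ), eq_div_iff hne, sub_mul, div_mul_cancel₀ _ hne]
    push_cast; ring
  rw [e, norm_div, Complex.norm_add_mul_I, Complex.norm_add_mul_I, ← Real.sqrt_div' _ (by positivity),
    Real.sqrt_le_iff]
  refine ⟨hε.le, ?_⟩
  rw [div_le_iff₀ (by linarith)]
  have k1 : a ^ 2 + b ^ 2 ≤ 2 * y ^ 2 * (c ^ 2 + d ^ 2) + 2 * ((y * c - a) ^ 2 + (y * d - b) ^ 2) := by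
    nlinarith [sq_nonneg (2 * y * c - a), sq_nonneg (2 * y * d - b)]
  have k2 := mul_le_mul_of_nonneg_left k1 η0.le
  have k3 := mul_le_mul_of_nonneg_right η1
    (add_nonneg (sq_nonneg (y * c - a)) (sq_nonneg (y * d - b)))
  have k4 := mul_le_mul_of_nonneg_right η2 hcd.le
  nlinarith

end Sys

end Pool.Agent.Lib.MP_23eee6_gt
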