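import Pool.Agent.Lib.MP_23eee6_gt.Tile
import Pool.Agent.Lib.MP_23eee6_gt.QS
import Pool.Agent.Lib.MP_23eee6_gt.Gaps

set_option autoImplicit false

namespace Pool.Agent.Lib.MP_23eee6_gt.Tile

open UpperHalfPlane Matrix Filter Topology

def hor (F : ℝ → ℝ) (z : ℍ) : ℍ := mk ⟨F z.re, z.im⟩ z.im_pos

lemma hor_re (F : ℝ → ℝ) (z : ℍ) : (hor F z).re = F z.re := rfl
lemma hor_im (F : ℝ → ℝ) (z : ℍ) : (hor F z).im = z.im := rfl

lemma hor_dist (F : ℝ → ℝ) {K : ℝ} (hK : 1 ≤ K) (h : ∀ x y, |F x - F y| ≤ K * |x - y|) (z u : ℍ) :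
    Real.sinh (dist (hor F z) (hor F u) / 2) ≤ K * Real.sinh (dist z u / 2) := by
  rw [sinh_half_dist, sinh_half_dist, hor_im, hor_im, ← mul_div_assoc]
  have hz := z.im_pos
  have hu := u.im_pos
  apply div_le_div_of_nonneg_right _ (by positivity)
  apply abs_le_of_sq_le_sq' _ (by positivity) |>.2
  rw [mul_pow, Complex.dist_eq, Complex.dist_eq, ← Complex.normSq_eq_norm_sq,
    ← Complex.normSq_eq_norm_sq, Complex.normSq_apply, Complex.normSq_apply]
  simp only [Complex.sub_re, Complex.sub_im, coe_re, coe_im, hor_re, hor_im]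
  have h1 := pow_le_pow_left₀ (abs_nonneg _) (h z.re u.re) 2
  rw [mul_pow, sq_abs, sq_abs] at h1
  have h2 : 1 ≤ K ^ 2 := by nlinarith
  nlinarith [mul_self_nonneg (z.im - u.im)]

lemma hor_one (F : ℝ → ℝ) (h : ∀ x y, |F x - F y| ≤ 1 * |x - y|) (z u : ℍ) :
    dist (hor F z) (hor F u) ≤ 1 * dist z u := by
  have := hor_dist F le_rfl h z u
  rw [one_mul, Real.sinh_le_sinh] at this
  linarith

lemma hor_two (F : ℝ → ℝ) (h : ∀ x y, |F x - F y| ≤ 2 * |x - y|) (z u : ℍ) :
    dist (hor F z) (hor F u) ≤ 2 * dist z u := by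
  have h1 := hor_dist F one_le_two h z u
  have h2 : 2 * Real.sinh (dist z u / 2) ≤ Real.sinh (2 * (dist z u / 2)) := by
    rw [Real.sinh_two_mul]
    have := Real.one_le_cosh (dist z u / 2)
    have h3 : 0 ≤ Real.sinh (dist z u / 2) := Real.sinh_nonneg_iff.2 (by positivity)
    nlinarith
  have := h1.trans h2
  rw [Real.sinh_le_sinh] at this
  linarith

variable {ι : Type} {c c' : ι × Bool → ℝ} {r : ι → ℝ} (hr : ∀ k, 0 < r k) {F : ℝ → ℝ}

lemma hor_gap (hg : ∀ a x, |x - c a| ≤ r a.1 → F x = c' a + (x - c a)) {a : ι × Bool} {z : ℍ}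
    (h : |z.re - c a| ≤ r a.1) : (hor F z : ℂ) - c' a = z - c a := by
  apply Complex.ext
  · simp [hor_re, hg a _ h]
  · simp [hor_im]

lemma hor_wall (hg : ∀ a x, |x - c a| ≤ r a.1 → F x = c' a + (x - c a)) (a : ι × Bool) (z : ℍ)
    (h : ‖(z : ℂ) - c (bar a)‖ = r a.1) :
    hor F (rho c r hr (lt a) • z) = rho c' r hr (lt a) • hor F z := by
  have h1 := norm_lt c r hr a z
  rw [h, sq] at h1
  have h2 := mul_right_cancel₀ (hr a.1).ne' h1
  have h3 := hor_gap hg (a := a) (z := rho c r hr (lt a) • z) ((abs_re_lt _ _).le.trans h2.le)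
  have h4 := hor_gap hg (a := bar a) (z := z) ((abs_re_lt _ _).le.trans h.le)
  apply UpperHalfPlane.ext
  rw [coe_lt c', h4, ← sub_add_cancel (hor F (rho c r hr (lt a) • z) : ℂ) (c' a), h3, coe_lt]
  ring

include hr in
lemma hor_dom (hm : Monotone F) (hg : ∀ a x, |x - c a| ≤ r a.1 → F x = c' a + (x - c a))
    {z : ℍ} (hz : Dom c r z) : Dom c' r (hor F z) := by
  intro a
  have h0 := hr a.1
  by_cases h : |z.re - c a| ≤ r a.1
  · rw [hor_gap hg h]; exact hz a
  · refine le_trans ?_ (abs_re_lt _ _).le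
    rw [hor_re]
    push Not at h
    rcases lt_abs.1 h with h | h
    · have h1 := hm (show c a + r a.1 ≤ z.re by linarith)
      rw [hg a _ (by simp [abs_of_pos h0])] at h1
      exact le_abs.2 (Or.inl (by linarith))
    · have h1 := hm (show z.re ≤ c a - r a.1 by linarith)
      rw [hg a (c a - r a.1) (by simp [abs_of_pos h0])] at h1
      exact le_abs.2 (Or.inr (by linarith))

theorem exists_w (S : Sys ι) : ∃ w : ℍ ≃ₜ ℍ, (∀ z, Dom S.c S.r z → w z = hor S.H z) ∧
    (∀ g z, w (S.ρ g • z) = S.ρ' g • w z) ∧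
    ∀ z u, dist (w z) (w u) ≤ dist z u ∧ dist z u ≤ 2 * dist (w z) (w u) := by
  have hA : ∀ x y, |S.H x - S.H y| ≤ 1 * |x - y| ∧ |x - y| ≤ 2 * |S.H x - S.H y| := by
    intro x y
    rcases le_total x y with h | h
    · have h1 := S.H_lo x y h
      have h2 := S.H_hi x y h
      rw [abs_of_nonpos (by linarith), abs_of_nonpos (by linarith)]
      constructor <;> linarith
    · have h1 := S.H_lo y x h
      have h2 := S.H_hi y x h
      rw [abs_of_nonneg (by linarith), abs_of_nonneg (by linarith)]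
      constructor <;> linarith
  have hcont : Continuous S.H :=
    (LipschitzWith.of_dist_le_mul (K := 1) fun x y => by simpa [Real.dist_eq] using (hA x y).1).continuous
  have hsurj : Function.Surjective S.H := by
    apply hcont.surjective
    · rw [tendsto_atTop_atTop]
      intro b
      refine ⟨2 * |b - S.H 0|, fun x hx => ?_⟩
      have h2 := S.H_lo 0 x (by linarith [abs_nonneg (b - S.H 0)])
      linarith [le_abs_self (b - S.H 0)]
    · rw [tendsto_atBot_atBot]
      intro b
      refine ⟨-(2 * |b - S.H 0|), fun x hx => ?_⟩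
      have h2 := S.H_lo x 0 (by linarith [abs_nonneg (b - S.H 0)])
      linarith [neg_abs_le (b - S.H 0)]
  choose G hG using hsurj
  have hGH : ∀ x, G (S.H x) = x := by
    intro x
    have := (hA (G (S.H x)) x).2
    rw [hG, sub_self, abs_zero, mul_zero] at this
    exact sub_eq_zero.1 (abs_nonpos_iff.1 this)
  have hGm : Monotone G := by
    intro x y h
    by_contra hc
    push Not at hc
    have := S.H_lo _ _ hc.le
    rw [hG, hG] at this
    linarith
  have g1 : ∀ a x, |x - S.c a| ≤ S.r a.1 → S.H x = S.c' a + (x - S.c a) := fun a x h => S.H_gap a x h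
  have g2 : ∀ a x, |x - S.c' a| ≤ S.r a.1 → G x = S.c a + (x - S.c' a) := by
    intro a x h
    have := g1 a (S.c a + (x - S.c' a)) (by simpa using h)
    rw [← hGH (S.c a + (x - S.c' a)), this]
    congr 1
    ring
  obtain ⟨w, w1, w2, w3⟩ := extend S.r_pos S.r_le S.sep0 S.ρ' (hor S.H) 1
    (hor_wall S.r_pos g1) (hor_one _ fun x y => (hA x y).1)
  obtain ⟨v, v1, v2, v3⟩ := extend S.r_pos S.r_le S.sep0' S.ρ (hor G) 2
    (hor_wall S.r_pos g2) (hor_two _ fun x y => by simpa [hG] using (hA (G x) (G y)).2)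
  have vw : ∀ z, v (w z) = z := by
    intro z
    obtain ⟨g, hg⟩ := cover S.r_pos S.r_le S.sep0 z
    have h1 := v1 _ (hor_dom S.r_pos S.H_mono g1 hg)
    have h2 : hor G (hor S.H (rho S.c S.r S.r_pos g • z)) = rho S.c S.r S.r_pos g • z :=
      ext_re_im (hGH _) rfl
    rw [h2, ← w1 _ hg, w2] at h1
    have h3 := v2 g (w z)
    exact smul_left_cancel (S.ρ g) (h3.symm.trans h1)
  have wv : ∀ z, w (v z) = z := by
    intro z
    obtain ⟨g, hg⟩ := cover S.r_pos S.r_le S.sep0' z
    have h1 := w1 _ (hor_dom S.r_pos hGm g2 hg)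
    have h2 : hor S.H (hor G (rho S.c' S.r S.r_pos g • z)) = rho S.c' S.r S.r_pos g • z :=
      ext_re_im (hG _) rfl
    rw [h2, ← v1 _ hg, v2] at h1
    have h3 := w2 g (v z)
    exact smul_left_cancel (S.ρ' g) (h3.symm.trans h1)
  refine ⟨⟨⟨w, v, vw, wv⟩,
    (LipschitzWith.of_dist_le_mul (K := 1) fun x y => by simpa using w3 x y).continuous,
    (LipschitzWith.of_dist_le_mul (K := 2) fun x y => by simpa using v3 x y).continuous⟩,
    w1, w2, fun z u => ⟨by simpa using w3 z u, ?_⟩⟩
  have := v3 (w z) (w u)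
  rwa [vw, vw] at this

lemma euc_le {z u : ℍ} (h : dist u z ≤ 1) : ‖(u : ℂ) - z‖ ≤ 2 * z.im * dist u z := by
  have h1 := dist_coe_le u z
  have h2 := Real.abs_exp_sub_one_le (x := dist u z) (by rwa [abs_of_nonneg dist_nonneg])
  rw [abs_of_nonneg (dist_nonneg (x := u) (y := z))] at h2
  have h3 := le_abs_self (Real.exp (dist u z) - 1)
  rw [Complex.dist_eq] at h1
  have := z.im_pos
  nlinarith

lemma le_euc {z u : ℍ} (h : dist u z ≤ 1) : z.im * dist u z ≤ 2 * ‖(u : ℂ) - z‖ := by
  have h1 := le_dist_coe u z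
  rw [Complex.dist_eq] at h1
  have h0 : 0 ≤ dist u z := dist_nonneg
  have h2 := Real.add_one_le_exp (dist u z)
  have h3 : Real.exp (-dist u z) * Real.exp (dist u z) = 1 := by rw [← Real.exp_add]; simp
  have h4 := Real.exp_pos (-dist u z)
  have h5 : dist u z ≤ 2 * (1 - Real.exp (-dist u z)) := by nlinarith
  have := z.im_pos
  nlinarith

theorem qc_of_bilip (w : ℍ → ℍ)
    (h : ∀ z u, dist (w z) (w u) ≤ dist z u ∧ dist z u ≤ 2 * dist (w z) (w u)) (z : ℍ) :
    ∀ᶠ t in 𝓝[>] (0 : ℝ), ∀ u v : ℍ, ‖(u : ℂ) - z‖ = t → ‖(v : ℂ) - z‖ = t →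
      ‖(w u : ℂ) - w z‖ ≤ 32 * ‖(w v : ℂ) - w z‖ := by
  have hz := z.im_pos
  have hwz := (w z).im_pos
  have key : ∀ u : ℍ, ‖(u : ℂ) - z‖ < z.im * (1 - Real.exp (-1)) → dist u z ≤ 1 := by
    intro u hu
    by_contra hc
    push Not at hc
    have h1 := le_dist_coe u z
    rw [Complex.dist_eq] at h1
    have h2 : Real.exp (-dist u z) ≤ Real.exp (-1) := Real.exp_le_exp.2 (by linarith)
    nlinarith
  have hpos : 0 < z.im * (1 - Real.exp (-1)) := by
    have : Real.exp (-1) < 1 := Real.exp_lt_one_iff.2 (by norm_num)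
    exact mul_pos hz (by linarith)
  filter_upwards [mem_nhdsWithin_of_mem_nhds (Iio_mem_nhds hpos)] with t ht u v hu hv
  have d1 := key u (hu ▸ ht)
  have d2 := key v (hv ▸ ht)
  have a1 := euc_le ((h u z).1.trans d1)
  have a2 := (h u z).1
  have a3 := le_euc d1
  have a4 := euc_le d2
  have a5 := (h v z).2
  have a6 := le_euc ((h v z).1.trans d2)
  rw [hu] at a3
  rw [hv] at a4
  have b1 : dist u z ≤ 4 * dist v z := by
    have : z.im * dist u z ≤ z.im * (4 * dist v z) := by linarith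
    exact le_of_mul_le_mul_left this hz
  have b2 : dist (w u) (w z) ≤ 8 * dist (w v) (w z) := by linarith
  nlinarith

theorem not_moebius (S : Sys ι) (w : ℍ → ℍ) (hw : ∀ z, Dom S.c S.r z → w z = hor S.H z)
    (a b c d : ℝ) (hdet : a * d - b * c ≠ 0)
    (h : ∀ x : ℝ, c * x + d ≠ 0 → Tendsto (fun z : ℍ => (w z : ℂ))
      (comap (fun z : ℍ => (z : ℂ)) (𝓝 (x : ℂ))) (𝓝 (((a * x + b) / (c * x + d) : ℝ) : ℂ))) :
    False := by
  have key : ∀ x, S.InC x → c * x + d ≠ 0 → S.H x = (a * x + b) / (c * x + d) := by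
    intro x hx hne
    let γ : ℝ → ℍ := fun y => mk ⟨x, Real.exp y⟩ (Real.exp_pos y)
    have lim : ∀ p : ℝ, Tendsto (fun y : ℝ => (p : ℂ) + (Real.exp y : ℝ) * Complex.I) atBot (𝓝 p) := by
      intro p
      have := ((Complex.continuous_ofReal.tendsto 0).comp Real.tendsto_exp_atBot).mul_const Complex.I
      simpa using this.const_add (p : ℂ)
    have t1 : Tendsto γ atBot (comap (fun z : ℍ => (z : ℂ)) (𝓝 (x : ℂ))) := by
      rw [tendsto_comap_iff]
      refine (lim x).congr fun y => ?_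
      apply Complex.ext <;> simp [γ, -Complex.ofReal_exp]
    have t2 := (h x hne).comp t1
    have t3 : Tendsto ((fun z : ℍ => (w z : ℂ)) ∘ γ) atBot (𝓝 (S.H x : ℂ)) := by
      refine (lim (S.H x)).congr fun y => ?_
      have hd : Dom S.c S.r (γ y) := fun k => (hx k).trans (abs_re_lt (γ y) _).le
      simp only [Function.comp_apply, hw _ hd]
      apply Complex.ext <;> simp [γ, hor, -Complex.ofReal_exp]
    exact_mod_cast tendsto_nhds_unique t3 t2
  by_cases hc : c = 0
  · subst hc
    have hd : d ≠ 0 := by rintro rfl; simp at hdet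
    have key' : ∀ x, S.InC x → S.H x = a / d * x + b / d := by
      intro x hx
      rw [key x hx (by simpa using hd), zero_mul, zero_add]
      ring
    obtain ⟨x, y, hx, hy, hne⟩ := S.H_ne
    obtain ⟨_, k, _, _⟩ := S.dense 0 1 one_pos
    have h1 := key' _ (S.inC_right k)
    have h2 := key' _ (S.inC_left k)
    rw [S.H_right] at h1
    rw [S.H_left] at h2
    have h0 := S.r_pos k.1
    have ha : a / d = 1 := by
      have : (a / d - 1) * S.r k.1 = 0 := by linarith
      rcases mul_eq_zero.1 this with h3 | h3 <;> linarith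
    apply hne
    rw [key' x hx, key' y hy, ha]; ring
  · obtain ⟨x, hx, hx2⟩ := S.exists_inC_ge
      (max ((1 + |d|) / |c|) (2 * (|a / c| + |b - a * d / c| + |S.H 0|) + 1))
    have hcp : 0 < |c| := abs_pos.2 hc
    have x1 := (le_max_left _ _).trans hx2
    have x2 := (le_max_right _ _).trans hx2
    have x0 : 0 ≤ x := le_trans (by positivity) x1
    rw [div_le_iff₀ hcp] at x1
    have h1 : 1 ≤ |c * x + d| := by
      have := abs_sub (c * x + d) d
      rw [add_sub_cancel_right, abs_mul, abs_of_nonneg x0] at this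
      linarith
    have hne : c * x + d ≠ 0 := by
      intro e; rw [e, abs_zero] at h1; linarith
    have h2 := key x hx hne
    have e : (a * x + b) / (c * x + d) = a / c + (b - a * d / c) / (c * x + d) := by
      rw [div_add_div _ _ hc hne, div_eq_div_iff hne (mul_ne_zero hc hne)]
      field_simp
      ring
    have h3 : |(b - a * d / c) / (c * x + d)| ≤ |b - a * d / c| := by
      rw [abs_div]
      exact div_le_self (abs_nonneg _) h1
    have h4 := S.H_lo 0 x x0
    have h5 := le_abs_self ((b - a * d / c) / (c * x + d))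
    have h6 := le_abs_self (a / c)
    have h7 := neg_abs_le (S.H 0)
    rw [e] at h2
    linarith

lemma discrete_range (hr1 : ∀ k, r k ≤ 1) (hs : Sep c r) : DiscreteTopology (rho c r hr).range := by
  rw [discreteTopology_iff_isOpen_singleton_one]
  have hc : Continuous fun g : (rho c r hr).range =>
      |((g : SL2) : Matrix (Fin 2) (Fin 2) ℝ) 1 0| := by
    apply Continuous.abs
    exact (continuous_apply 0).comp
      (Matrix.SpecialLinearGroup.continuous_apply _ continuous_subtype_val 1)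
  have : ({1} : Set (rho c r hr).range) =
      {g : (rho c r hr).range | |((g : SL2) : Matrix (Fin 2) (Fin 2) ℝ) 1 0| < 1} := by
    ext ⟨g, k, rfl⟩
    simp only [Set.mem_singleton_iff, Set.mem_ofPred_eq]
    constructor
    · intro h
      have h1 : rho c r hr k = 1 := congrArg Subtype.val h
      rw [h1]
      simp
    · intro h
      by_cases hk : k = 1
      · subst hk
        exact Subtype.ext (map_one _)
      · exact absurd (entry_ge c r hr hr1 hs k hk) (not_le.2 h)
  rw [this]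
  exact isOpen_lt hc continuous_const

end Pool.Agent.Lib.MP_23eee6_gt.Tile
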