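import Pool.Agent.Lib.MP_23eee6_gt.RConj

set_option autoImplicit false

namespace Pool.Agent.Lib.MP_23eee6_gt.Rig

open MatrixGroups MeasureTheory Filter Topology Set

/-- a decomposition along which traces add up without cancellation -/
def Split (Δ : Subgroup SL(2, ℝ)) (g : SL(2, ℝ)) : Prop :=
  ∃ a ∈ Δ, |tr g| = |tr a| * |tr (a⁻¹ * g)| + |tr (a * (a⁻¹ * g)⁻¹)|

lemma core_real {p s v μ : ℝ} (h1 : 0 < p * s) (h2 : p * s = 1 - v)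
    (h4 : s ^ 2 ≤ p ^ 2) (h5 : p ^ 2 ≤ μ ^ 2 * s ^ 2) (h6 : 0 < μ)
    (h7 : 2 * μ ≤ p ^ 2 + s ^ 2 * μ ^ 2 - v * (μ ^ 2 + 1)) : v * (p + s) ^ 2 < 1 := by
  have hs : s ≠ 0 := right_ne_zero_of_mul h1.ne'
  obtain ⟨t, rfl⟩ : ∃ t, p = t * s := ⟨p / s, by field_simp⟩
  have hs2 : 0 < s ^ 2 := by positivity
  have t0 : 0 < t := by
    by_contra hn
    push Not at hn
    nlinarith
  have t1 : 1 ≤ t := by
    have : 1 ≤ t ^ 2 := by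
      refine le_of_mul_le_mul_right ?_ hs2
      nlinarith
    nlinarith
  have t2 : t ≤ μ := by
    have : t ^ 2 ≤ μ ^ 2 := by
      refine le_of_mul_le_mul_right ?_ hs2
      nlinarith
    exact (pow_le_pow_iff_left₀ t0.le h6.le two_ne_zero).1 this
  have u : t * s ^ 2 = 1 - v := by linear_combination h2
  have a1 : v * (t + 1) * (t + μ ^ 2) ≤ (μ - t) ^ 2 := by
    have := mul_le_mul_of_nonneg_left h7 t0.le
    have e : t * ((t * s) ^ 2 + s ^ 2 * μ ^ 2 - v * (μ ^ 2 + 1)) =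
        (t ^ 2 + μ ^ 2) * (1 - v) - v * t * (μ ^ 2 + 1) := by
      linear_combination (t ^ 2 + μ ^ 2) * u
    rw [e] at this
    nlinarith
  have a2 : v * (t + 1) < 1 := by
    by_contra hn
    push Not at hn
    have : 1 * (t + μ ^ 2) ≤ v * (t + 1) * (t + μ ^ 2) :=
      mul_le_mul_of_nonneg_right hn (by positivity)
    nlinarith
  refine lt_of_mul_lt_mul_left (a := t) ?_ t0.le
  have e : t * (v * (t * s + s) ^ 2) = v * (t + 1) * (t + 1 - v * (t + 1)) := by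
    linear_combination v * (t + 1) ^ 2 * u
  rw [e]
  nlinarith [mul_pos (sub_pos.2 a2) (sub_pos.2 (lt_of_lt_of_le a2 t1))]

section
variable {Δ : Subgroup SL(2, ℝ)} {g : SL(2, ℝ)}

lemma step_half (hΔ : ∀ k ∈ Δ, 2 ≤ |tr k|) (hg : g ∈ Δ) (g1 : 1 < g 0 0 ^ 2) (g2 : g 0 1 = 0)
    (g3 : g 1 0 = 0) {k : SL(2, ℝ)} (hk : k ∈ Δ) (k1 : 0 < k 0 0 * k 1 1) (k2 : k 0 0 * k 1 1 < 1)
    (k3 : k 1 1 ^ 2 ≤ k 0 0 ^ 2) (k4 : k 0 0 ^ 2 ≤ g 0 0 ^ 2 * k 1 1 ^ 2) :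
    Split Δ g ∨ ∃ a ∈ Δ, 0 < a 0 0 * a 1 1 ∧ 4 * (1 - k 0 0 * k 1 1) ≤ 1 - a 0 0 * a 1 1 := by
  have dg := det1 g
  have dk := det1 k
  rw [g2, zero_mul, sub_zero] at dg
  have l0 : g 0 0 ≠ 0 := left_ne_zero_of_mul_eq_one dg
  have ew : g 0 0 * tr (k * (k⁻¹ * g)⁻¹) = k 0 0 ^ 2 + k 1 1 ^ 2 * g 0 0 ^ 2 -
      (1 - k 0 0 * k 1 1) * (g 0 0 ^ 2 + 1) := by
    simp only [tr, mul00, mul01, mul10, mul11, inv00, inv01, inv10, inv11, g2, g3]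
    linear_combination (k 0 0 ^ 2 + k 0 1 * k 1 0) * dg - (g 0 0 ^ 2 + 1) * dk
  by_cases hW : g 0 0 * tr (k * (k⁻¹ * g)⁻¹) ≤ 0
  · left
    refine ⟨k, hk, ?_⟩
    have f := tr_fricke k (k⁻¹ * g)
    rw [mul_inv_cancel_left] at f
    have ez : 0 < g 0 0 * tr g := by
      unfold tr; nlinarith
    have exy : 0 < g 0 0 * (tr k * tr (k⁻¹ * g)) := by
      have : g 0 0 * (tr k * tr (k⁻¹ * g)) = (k 0 0 + k 1 1) * (k 1 1 * g 0 0 ^ 2 + k 0 0) := by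
        simp only [tr, mul00, mul11, inv00, inv01, inv10, inv11, g2, g3]
        linear_combination (k 0 0 + k 1 1) * k 0 0 * dg
      rw [this]
      nlinarith [sq_nonneg (k 0 0), mul_nonneg (sq_nonneg (k 1 1)) (sq_nonneg (g 0 0)),
        mul_nonneg k1.le (sq_nonneg (g 0 0))]
    apply mul_left_cancel₀ (abs_ne_zero.2 l0)
    rw [← abs_mul (tr k), mul_add, ← abs_mul, ← abs_mul, ← abs_mul, abs_of_pos ez, abs_of_pos exy,
      abs_of_nonpos hW, ← f]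
    ring
  · right
    push Not at hW
    have a1 : 2 * |g 0 0| ≤ g 0 0 * tr (k * (k⁻¹ * g)⁻¹) := by
      rw [← abs_of_pos hW, abs_mul]
      have := hΔ _ (Δ.mul_mem hk (Δ.inv_mem (Δ.mul_mem (Δ.inv_mem hk) hg)))
      nlinarith [abs_nonneg (g 0 0)]
    have a2 := core_real (v := 1 - k 0 0 * k 1 1) (μ := |g 0 0|) k1 (by ring) k3
      (by rw [sq_abs]; exact k4) (abs_pos.2 l0) (by rw [sq_abs, ← ew]; exact a1)
    have a3 : (k * k) 0 0 * (k * k) 1 1 = 1 - (1 - k 0 0 * k 1 1) * (k 0 0 + k 1 1) ^ 2 := by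
      have := det1 (k * k)
      rw [mul01, mul10] at this
      linear_combination this - (k 0 0 + k 1 1) ^ 2 * dk
    have a4 : 4 ≤ (k 0 0 + k 1 1) ^ 2 := by
      have := hΔ k hk
      unfold tr at this
      rw [← sq_abs]; nlinarith
    refine ⟨k * k, Δ.mul_mem hk hk, ?_, ?_⟩
    · rw [a3]; linarith
    · rw [a3]; nlinarith

lemma zpow_diag (g2 : g 0 1 = 0) (g3 : g 1 0 = 0) (n : ℤ) :
    (g ^ n) 0 0 = g 0 0 ^ n ∧ (g ^ n) 0 1 = 0 ∧ (g ^ n) 1 0 = 0 := by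
  have dg := det1 g
  rw [g2, zero_mul, sub_zero] at dg
  have l0 : g 0 0 ≠ 0 := left_ne_zero_of_mul_eq_one dg
  induction n using Int.induction_on with
  | zero => simp
  | succ n ih =>
    rw [zpow_add_one, mul00, mul01, mul10, ih.1, ih.2.1, ih.2.2, g2, g3, zpow_add_one₀ l0]
    simp
  | pred n ih =>
    rw [zpow_sub_one, mul00, mul01, mul10, ih.1, ih.2.1, ih.2.2, inv00, inv01, inv10, g2, g3,
      zpow_sub_one₀ l0, eq_inv_of_mul_eq_one_right dg]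
    simp

lemma step_all (hΔ : ∀ k ∈ Δ, 2 ≤ |tr k|) (hg : g ∈ Δ) (g1 : 1 < g 0 0 ^ 2) (g2 : g 0 1 = 0)
    (g3 : g 1 0 = 0) {k : SL(2, ℝ)} (hk : k ∈ Δ) (k1 : 0 < k 0 0 * k 1 1)
    (k2 : k 0 0 * k 1 1 < 1) :
    Split Δ g ∨ ∃ a ∈ Δ, 0 < a 0 0 * a 1 1 ∧ 4 * (1 - k 0 0 * k 1 1) ≤ 1 - a 0 0 * a 1 1 := by
  have dg := det1 g
  rw [g2, zero_mul, sub_zero] at dg
  have l0 : g 0 0 ≠ 0 := left_ne_zero_of_mul_eq_one dg
  have p0 : k 0 0 ≠ 0 := left_ne_zero_of_mul k1.ne'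
  have s0 : k 1 1 ≠ 0 := right_ne_zero_of_mul k1.ne'
  obtain ⟨c, hc, c1, c2, c3⟩ : ∃ c ∈ Δ, c 0 0 * c 1 1 = k 0 0 * k 1 1 ∧ c 1 1 ^ 2 ≤ c 0 0 ^ 2 ∧
      c 0 0 ^ 2 ≤ g 0 0 ^ 4 * c 1 1 ^ 2 := by
    obtain ⟨n, n1, n2⟩ := exists_mem_Ico_zpow (x := k 0 0 ^ 2 / k 1 1 ^ 2) (y := g 0 0 ^ 4)
      (by positivity) (by nlinarith)
    obtain ⟨z1, z2, z3⟩ := zpow_diag g2 g3 n
    have dz := det1 (g ^ n)
    rw [z2, zero_mul, sub_zero] at dz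
    have e : (g 0 0 ^ 4) ^ n = (g ^ n) 0 0 ^ 4 := by
      rw [z1, ← zpow_natCast, ← zpow_natCast, ← zpow_mul, ← zpow_mul, mul_comm]
    rw [zpow_add_one₀ (by positivity), e, div_lt_iff₀ (by positivity)] at n2
    rw [e, le_div_iff₀ (by positivity)] at n1
    have q : (g ^ n) 0 0 ^ 2 * (g ^ n) 1 1 ^ 2 = 1 := by rw [← mul_pow, dz, one_pow]
    refine ⟨(g ^ n)⁻¹ * k, Δ.mul_mem (Δ.inv_mem (Δ.zpow_mem hg n)) hk, ?_, ?_, ?_⟩ <;>
      simp only [mul00, mul11, inv00, inv01, inv10, inv11, z2, z3, neg_zero, zero_mul, add_zero,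
        zero_add]
    · linear_combination (k 0 0 * k 1 1) * dz
    · have := mul_le_mul_of_nonneg_left n1 (sq_nonneg ((g ^ n) 1 1))
      have e2 : (g ^ n) 1 1 ^ 2 * ((g ^ n) 0 0 ^ 4 * k 1 1 ^ 2) = ((g ^ n) 0 0 * k 1 1) ^ 2 := by
        linear_combination ((g ^ n) 0 0 * k 1 1) ^ 2 * q
      rw [e2] at this
      rwa [mul_pow ((g ^ n) 1 1)]
    · have := mul_le_mul_of_nonneg_left n2.le (sq_nonneg ((g ^ n) 1 1))
      have e2 : (g ^ n) 1 1 ^ 2 * ((g ^ n) 0 0 ^ 4 * g 0 0 ^ 4 * k 1 1 ^ 2) =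
          g 0 0 ^ 4 * ((g ^ n) 0 0 * k 1 1) ^ 2 := by
        linear_combination g 0 0 ^ 4 * ((g ^ n) 0 0 * k 1 1) ^ 2 * q
      rw [e2] at this
      rwa [mul_pow ((g ^ n) 1 1)]
  rw [← c1] at k1 k2 ⊢
  rcases le_total (c 0 0 ^ 2) (g 0 0 ^ 2 * c 1 1 ^ 2) with h | h
  · exact step_half hΔ hg g1 g2 g3 hc k1 k2 c2 h
  · have b0 : (c⁻¹ * g) 0 0 = c 1 1 * g 0 0 := by rw [mul00, inv00, g3]; ring
    have b1 : (c⁻¹ * g) 1 1 = c 0 0 * g 1 1 := by rw [mul11, inv11, g2]; ring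
    have b2 : (c⁻¹ * g) 0 0 * (c⁻¹ * g) 1 1 = c 0 0 * c 1 1 := by
      rw [b0, b1]; linear_combination (c 0 0 * c 1 1) * dg
    have q : g 0 0 ^ 2 * g 1 1 ^ 2 = 1 := by rw [← mul_pow, dg, one_pow]
    rw [← b2] at k1 k2 ⊢
    refine step_half hΔ hg g1 g2 g3 (Δ.mul_mem (Δ.inv_mem hc) hg) k1 k2 ?_ ?_
    · rw [b0, b1]
      have := mul_le_mul_of_nonneg_left c3 (sq_nonneg (g 1 1))
      have e2 : g 1 1 ^ 2 * (g 0 0 ^ 4 * c 1 1 ^ 2) = (c 1 1 * g 0 0) ^ 2 := by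
        linear_combination (c 1 1 * g 0 0) ^ 2 * q
      rw [e2] at this
      nlinarith
    · rw [b0, b1]
      have e2 : g 0 0 ^ 2 * (c 0 0 * g 1 1) ^ 2 = c 0 0 ^ 2 := by
        linear_combination c 0 0 ^ 2 * q
      rw [e2]
      nlinarith

lemma split_diag (hΔ : ∀ k ∈ Δ, 2 ≤ |tr k|) (hg : g ∈ Δ) (g1 : 1 < g 0 0 ^ 2) (g2 : g 0 1 = 0)
    (g3 : g 1 0 = 0) (n : ℕ) : ∀ k ∈ Δ, 0 < k 0 0 * k 1 1 → k 0 0 * k 1 1 < 1 →
      1 ≤ 4 ^ n * (1 - k 0 0 * k 1 1) → Split Δ g := by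
  induction n with
  | zero => intro k _ k1 _ k3; rw [pow_zero] at k3; linarith
  | succ n ih =>
    intro k hk k1 k2 k3
    rcases step_all hΔ hg g1 g2 g3 hk k1 k2 with h | ⟨a, ha, a1, a2⟩
    · exact h
    · refine ih a ha a1 (by linarith) (k3.trans ?_)
      rw [pow_succ, mul_assoc]
      exact mul_le_mul_of_nonneg_left a2 (by positivity)

lemma cross_diag (g2 : g 0 1 = 0) (g3 : g 1 0 = 0) {k : SL(2, ℝ)}
    (h : tr (g * (k * g * k⁻¹) * g⁻¹ * (k * g * k⁻¹)⁻¹) < 2) :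
    0 < k 0 0 * k 1 1 ∧ k 0 0 * k 1 1 < 1 := by
  have dg := det1 g
  rw [g2, zero_mul, sub_zero] at dg
  have dk := det1 k
  have e1 : ∀ a : SL(2, ℝ), tr (g * a * g⁻¹ * a⁻¹) = 2 - a 0 1 * a 1 0 * (g 0 0 - g 1 1) ^ 2 := by
    intro a
    have da := det1 a
    simp only [tr, mul00, mul01, mul10, mul11, inv00, inv01, inv10, inv11, g2, g3]
    linear_combination 2 * da + (2 * a 0 0 * a 1 1 - 2 * a 0 1 * a 1 0) * dg
  have e2 : (k * g * k⁻¹) 0 1 * (k * g * k⁻¹) 1 0 =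
      k 0 0 * k 1 1 * (1 - k 0 0 * k 1 1) * (g 0 0 - g 1 1) ^ 2 := by
    simp only [mul00, mul01, mul10, mul11, inv00, inv01, inv10, inv11, g2, g3]
    linear_combination (k 0 0 * k 1 1) * (g 0 0 - g 1 1) ^ 2 * dk
  rw [e1, e2] at h
  have e3 : 0 < k 0 0 * k 1 1 * (1 - k 0 0 * k 1 1) := by
    by_contra hn
    push Not at hn
    nlinarith [mul_nonneg (neg_nonneg.2 hn) (sq_nonneg ((g 0 0 - g 1 1) ^ 2))]
  constructor <;> nlinarith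

lemma split_of_not_simple (hΔ : ∀ k ∈ Δ, 2 ≤ |tr k|) (hg : g ∈ Δ) (ht : 2 < |tr g|)
    (hn : ¬ IsSimple Δ g) : Split Δ g := by
  obtain ⟨M, g1, g2, g3⟩ := exists_diag ht
  obtain ⟨k, hk, hlt⟩ : ∃ k ∈ Δ, tr (g * (k * g * k⁻¹) * g⁻¹ * (k * g * k⁻¹)⁻¹) < 2 := by
    by_contra hc
    push Not at hc
    exact hn ⟨ht, hc⟩
  obtain ⟨k1, k2⟩ := cross_diag g2 g3 (k := M * k * M⁻¹) (by
    rw [← tr_conj M] at hlt
    convert hlt using 2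
    group)
  obtain ⟨n, hn⟩ := pow_unbounded_of_one_lt
    (1 / (1 - (M * k * M⁻¹) 0 0 * (M * k * M⁻¹) 1 1)) (y := (4 : ℝ)) (by norm_num)
  rw [div_lt_iff₀ (by linarith)] at hn
  obtain ⟨_, ⟨a, ha, rfl⟩, e⟩ := split_diag (Δ := Δ.map (MulAut.conj M).toMonoidHom)
    (by rintro _ ⟨c, hc, rfl⟩; change 2 ≤ |tr (M * c * M⁻¹)|; rw [tr_conj]; exact hΔ c hc)
    ⟨g, hg, rfl⟩ g1 g2 g3 n _ ⟨k, hk, rfl⟩ k1 k2 hn.le
  refine ⟨a, ha, ?_⟩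
  change |tr (M * g * M⁻¹)| = |tr (M * a * M⁻¹)| * |tr ((M * a * M⁻¹)⁻¹ * (M * g * M⁻¹))| +
    |tr (M * a * M⁻¹ * ((M * a * M⁻¹)⁻¹ * (M * g * M⁻¹))⁻¹)| at e
  have e1 : (M * a * M⁻¹)⁻¹ * (M * g * M⁻¹) = M * (a⁻¹ * g) * M⁻¹ := by group
  have e2 : M * a * M⁻¹ * (M * (a⁻¹ * g) * M⁻¹)⁻¹ = M * (a * (a⁻¹ * g)⁻¹) * M⁻¹ := by group
  rwa [e1, e2, tr_conj, tr_conj, tr_conj, tr_conj] at e

end

lemma abs_tr_pm {a b : SL(2, ℝ)} (h : a = b ∨ a = -b) : |tr a| = |tr b| := by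
  rcases h with rfl | rfl
  · rfl
  · rw [tr_neg, abs_neg]

/-- if no simple closed geodesic is lengthened, no closed geodesic is -/
theorem simple_all {Γ : Subgroup SL(2, ℝ)} (hΓ : FinB Γ) (h2 : ∀ k ∈ Γ, 2 ≤ |tr k|) {h : ℝ → ℝ}
    (hm : StrictMono h) (hs : Function.Surjective h) {σ : SL(2, ℝ) → SL(2, ℝ)}
    (hσ : ∀ g ∈ Γ, Conj h g (σ g)) (hS : ∀ g ∈ Γ, IsSimple Γ g → |tr (σ g)| ≤ |tr g|) :
    ∀ g ∈ Γ, |tr (σ g)| ≤ |tr g| := by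
  have key : ∀ n : ℕ, ∀ g ∈ Γ, |tr g| ≤ n → |tr (σ g)| ≤ |tr g| := by
    intro n
    induction n with
    | zero => intro g hg h0; have := h2 g hg; norm_num at h0; rw [h0] at this; norm_num at this
    | succ n ih =>
      intro g hg hn
      push_cast at hn
      rcases le_or_gt |tr g| 2 with ht | ht
      · exact (conj_parab hm hs (hσ g hg) ht).trans (h2 g hg)
      by_cases hsim : IsSimple Γ g
      · exact hS g hg hsim
      obtain ⟨a, ha, e⟩ := split_of_not_simple h2 hg ht hsim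
      have hb : a⁻¹ * g ∈ Γ := Γ.mul_mem (Γ.inv_mem ha) hg
      have hw : a * (a⁻¹ * g)⁻¹ ∈ Γ := Γ.mul_mem ha (Γ.inv_mem hb)
      set b := a⁻¹ * g with hbd
      have x2 := h2 a ha
      have y2 := h2 b hb
      have w2 := h2 _ hw
      have i1 := ih a ha (by nlinarith)
      have i2 := ih b hb (by nlinarith)
      have i3 := ih _ hw (by nlinarith)
      have m1 : |tr (σ g)| = |tr (σ a * σ b)| := by
        refine abs_tr_pm (conj_mul hΓ hm.injective ha hb (hσ a ha) (hσ b hb) ?_)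
        rw [hbd, mul_inv_cancel_left]; exact hσ g hg
      have m2 : |tr (σ a * (σ b)⁻¹)| = |tr (σ (a * b⁻¹))| := by
        apply abs_tr_pm
        rcases conj_mul hΓ hm.injective hw hb (hσ _ hw) (hσ b hb) (m := σ a)
          (by rw [inv_mul_cancel_right]; exact hσ a ha) with e1 | e1
        · left; rw [e1, mul_inv_cancel_right]
        · right; rw [e1, neg_mul, mul_inv_cancel_right]
      rw [m1, eq_sub_of_add_eq (tr_fricke (σ a) (σ b)), e]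
      refine (abs_sub _ _).trans ?_
      rw [abs_mul, m2]
      exact add_le_add (mul_le_mul i1 i2 (abs_nonneg _) (abs_nonneg _)) i3
  intro g hg
  obtain ⟨n, hn⟩ := exists_nat_ge |tr g|
  exact key n g hg hn

end Pool.Agent.Lib.MP_23eee6_gt.Rig
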