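import Pool.Agent.Lib.MP_23eee6_gt.RZoom
import Pool.Agent.Lib.MP_23eee6_gt.RSimple

set_option autoImplicit false

namespace Pool.Agent.Lib.MP_23eee6_gt.Rig

open MatrixGroups MeasureTheory Filter Topology Set

variable {Γ : Subgroup SL(2, ℝ)} {h : ℝ → ℝ} {σ : SL(2, ℝ) → SL(2, ℝ)}

lemma mono_ge {f Φ φ : ℝ → ℝ} {s t : ℝ} (hst : s ≤ t) (hf : MonotoneOn f (Icc s t))
    (hΦ : ∀ y ∈ Icc s t, HasDerivAt Φ (φ y) y) (hφ : ContinuousOn φ (Icc s t))
    (hle : ∀ᵐ y, y ∈ Icc s t → φ y ≤ deriv f y) : Φ t - Φ s ≤ f t - f s := by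
  rw [← uIcc_of_le hst] at hf hΦ hφ
  have h1 := hf.intervalIntegral_deriv_mem_uIcc
  have h2 : f s ≤ f t := hf left_mem_uIcc right_mem_uIcc hst
  rw [uIcc_of_le (sub_nonneg.2 h2)] at h1
  rw [← intervalIntegral.integral_eq_sub_of_hasDerivAt hΦ hφ.intervalIntegrable]
  refine le_trans ?_ h1.2
  exact intervalIntegral.integral_mono_ae_restrict hst hφ.intervalIntegrable
    hf.intervalIntegrable_deriv ((ae_restrict_iff' measurableSet_Icc).2 hle)

lemma side (hm : StrictMono h) {x s t : ℝ} (hx : 0 < deriv h x)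
    (H : ∀ᵐ y, 0 < deriv h y ∧ FF h x y ≤ 1) (hst : s ≤ t) (hs : x < s ∨ t < x) :
    1 / (deriv h x * (s - x)) - 1 / (deriv h x * (t - x)) ≤ 1 / (h s - h x) - 1 / (h t - h x) := by
  have n1 : ∀ u ∈ Icc s t, u - x ≠ 0 := fun u hu e => by
    rcases hs with a | a <;> linarith [hu.1, hu.2]
  have n2 : ∀ u ∈ Icc s t, h u - h x ≠ 0 := fun u hu =>
    sub_ne_zero.2 (hm.injective.ne (sub_ne_zero.1 (n1 u hu)))
  have := mono_ge (f := fun u => -(h u - h x)⁻¹) (Φ := fun u => -(deriv h x * (u - x))⁻¹)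
    (φ := fun u => 1 / (deriv h x * (u - x) ^ 2)) hst ?_ ?_ ?_ ?_
  · simp only [one_div]
    linarith
  · intro u hu v hv huv
    have a1 : h u - h x ≤ h v - h x := by linarith [hm.monotone huv]
    refine neg_le_neg ?_
    rcases hs with a | a
    · exact inv_anti₀ (sub_pos.2 (hm (a.trans_le hu.1))) a1
    · exact (inv_le_inv_of_neg (sub_neg.2 (hm (hv.2.trans_lt a)))
        (sub_neg.2 (hm (hu.2.trans_lt a)))).2 a1
  · intro u hu
    have a1 : HasDerivAt (fun u => deriv h x * (u - x)) (deriv h x * 1) u :=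
      ((hasDerivAt_id u).sub_const x).const_mul _
    have a2 := n1 u hu
    refine (a1.inv (mul_ne_zero hx.ne' a2)).neg.congr_deriv ?_
    field_simp
  · exact ContinuousOn.div continuousOn_const (by fun_prop) fun u hu =>
      mul_ne_zero hx.ne' (pow_ne_zero _ (n1 u hu))
  · filter_upwards [H] with u ⟨u1, u2⟩ hu
    have a1 := (((differentiableAt_of_deriv_ne_zero u1.ne').hasDerivAt.sub_const (h x)).inv
      (n2 u hu)).neg
    have a2 : deriv (fun u => -(h u - h x)⁻¹) u = - (-deriv h u / (h u - h x) ^ 2) := a1.deriv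
    have a3 := n1 u hu
    have a4 := n2 u hu
    have a5 : x - u ≠ 0 := fun e => a3 (by linarith)
    unfold FF at u2
    rw [div_le_one (by positivity)] at u2
    rw [a2, neg_div, neg_neg, div_le_div_iff₀ (by positivity) (by positivity)]
    nlinarith

lemma quot_le (hm : StrictMono h) {x : ℝ} (hx : 0 < deriv h x)
    (H : ∀ᵐ y, 0 < deriv h y ∧ FF h x y ≤ 1) :
    (∀ y, x < y → h y - h x ≤ deriv h x * (y - x)) ∧
      ∀ y, y < x → h x - h y ≤ deriv h x * (x - y) := by
  have T : Tendsto (fun u : ℝ => 1 / (deriv h x * u)) atTop (𝓝 0) :=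
    tendsto_const_nhds.div_atTop (tendsto_id.const_mul_atTop hx)
  constructor
  · intro y hy
    have p1 : 0 < h y - h x := sub_pos.2 (hm hy)
    have p2 : 0 < deriv h x * (y - x) := mul_pos hx (sub_pos.2 hy)
    rw [← one_div_le_one_div p2 p1]
    have a1 := (tendsto_const_nhds (x := 1 / (h y - h x))).add T
    rw [add_zero] at a1
    refine ge_of_tendsto a1 ?_
    filter_upwards [eventually_ge_atTop (y - x)] with u hu
    have a2 := side hm hx H (s := y) (t := x + u) (by linarith) (Or.inl hy)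
    have a3 : 0 < 1 / (h (x + u) - h x) := one_div_pos.2 (sub_pos.2 (hm (by linarith)))
    rw [add_sub_cancel_left] at a2
    linarith
  · intro y hy
    have p1 : 0 < h x - h y := sub_pos.2 (hm hy)
    have p2 : 0 < deriv h x * (x - y) := mul_pos hx (sub_pos.2 hy)
    rw [← one_div_le_one_div p2 p1]
    have a1 := (tendsto_const_nhds (x := 1 / (h x - h y))).add T
    rw [add_zero] at a1
    refine ge_of_tendsto a1 ?_
    filter_upwards [eventually_ge_atTop (x - y)] with u hu
    have a2 := side hm hx H (s := x - u) (t := y) (by linarith) (Or.inr hy)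
    have a3 : 1 / (h (x - u) - h x) < 0 := one_div_neg.2 (sub_neg.2 (hm (by linarith)))
    have e1 : 1 / (deriv h x * (x - u - x)) = -(1 / (deriv h x * u)) := by
      rw [show x - u - x = -u by ring, mul_neg, one_div_neg_eq_neg_one_div]
    have e2 : 1 / (deriv h x * (y - x)) = -(1 / (deriv h x * (x - y))) := by
      rw [show y - x = -(x - y) by ring, mul_neg, one_div_neg_eq_neg_one_div]
    have e3 : 1 / (h y - h x) = -(1 / (h x - h y)) := by
      rw [show h y - h x = -(h x - h y) by ring, one_div_neg_eq_neg_one_div]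
    rw [e1, e2, e3] at a2
    linarith

lemma affine_of_FF (hm : StrictMono h)
    (H : ∀ᵐ x, 0 < deriv h x ∧ ∀ᵐ y, 0 < deriv h y ∧ FF h x y ≤ 1) :
    ∃ p q : ℝ, ∀ x, h x = p * x + q := by
  have key : ∀ a b c : ℝ, a < c → c < b → h c = h a + (h b - h a) / (b - a) * (c - a) := by
    intro a b c ac cb
    have ab : 0 < b - a := by linarith
    obtain ⟨Q, hQ⟩ : ∃ Q, Q = (h b - h a) / (b - a) := ⟨_, rfl⟩
    have hQ' : Q * (b - a) = h b - h a := by rw [hQ]; field_simp
    have low : ∀ s t, a ≤ s → s ≤ t → t ≤ b → Q * t - Q * s ≤ h t - h s := by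
      intro s t h1 h2 h3
      refine mono_ge (Φ := fun u => Q * u) (φ := fun _ => Q) h2 (hm.monotone.monotoneOn _)
        (fun y _ => by simpa using (hasDerivAt_id y).const_mul Q) continuousOn_const ?_
      filter_upwards [H, (countable_singleton a).ae_notMem volume,
        (countable_singleton b).ae_notMem volume] with x hx xa xb hx2
      obtain ⟨q1, q2⟩ := quot_le hm hx.1 hx.2
      have r1 := q1 b (lt_of_le_of_ne (hx2.2.trans h3) xb)
      have r2 := q2 a (lt_of_le_of_ne (h1.trans hx2.1) (Ne.symm xa))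
      refine le_of_mul_le_mul_right ?_ ab
      linarith
    have l1 := low a c le_rfl ac.le cb.le
    have l2 := low c b ac.le cb.le le_rfl
    rw [← hQ]
    linarith
  refine ⟨h 1 - h 0, h 0, fun x => ?_⟩
  have x1 := le_abs_self x
  have x2 := neg_abs_le x
  have x0 := abs_nonneg x
  have k0 := key (-|x| - 2) (|x| + 2) 0 (by linarith) (by linarith)
  have k1 := key (-|x| - 2) (|x| + 2) 1 (by linarith) (by linarith)
  have k2 := key (-|x| - 2) (|x| + 2) x (by linarith) (by linarith)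
  linear_combination k2 - x * k1 - (1 - x) * k0

theorem rigid_mono (hd : DiscreteTopology Γ) (ht : ∀ g ∈ Γ, IsOfFinOrder g → g = 1 ∨ g = -1)
    (hc : IsConservative Γ) (hm : StrictMono h) (hs : Function.Surjective h)
    (H : ∀ g ∈ Γ, ∃ g', Conj h g g' ∧ (IsSimple Γ g → |tr g'| ≤ |tr g|)) :
    ∃ p q : ℝ, ∀ x, h x = p * x + q := by
  choose! σ h1 h2 using H
  have hF := finB_of_discrete Γ hd
  exact affine_of_FF hm (Data.FF_le_one ⟨hF, hc, hm, hs, h1,
    simple_all hF (fun k hk => two_le_tr hF ht hk) hm hs h1 h2⟩)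

theorem rigid (hd : DiscreteTopology Γ) (ht : ∀ g ∈ Γ, IsOfFinOrder g → g = 1 ∨ g = -1)
    (hc : IsConservative Γ) (h : ℝ ≃ₜ ℝ)
    (H : ∀ g ∈ Γ, ∃ g', Conj h g g' ∧ (IsSimple Γ g → |tr g'| ≤ |tr g|)) :
    ∃ p q : ℝ, ∀ x, h x = p * x + q := by
  rcases h.continuous.strictMono_of_inj h.injective with hm | hm
  · exact rigid_mono hd ht hc hm h.surjective H
  · obtain ⟨p, q, hpq⟩ := rigid_mono (h := fun x => -h x) hd ht hc hm.neg
      (neg_surjective.comp h.surjective) fun g hg => by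
        obtain ⟨g', c, t⟩ := H g hg
        refine ⟨mk4 (g' 0 0) (-g' 0 1) (-g' 1 0) (g' 1 1) (by linear_combination det1 g'),
          fun x hx => ?_, t⟩
        obtain ⟨c1, c2⟩ := c x hx
        unfold den at c1
        simp only [den, mob, mk00, mk01, mk10, mk11, neg_mul_neg]
        refine ⟨c1, ?_⟩
        change -h (mob g x) = _
        rw [c2, mob, ← neg_div]
        congr 1
        ring
    exact ⟨-p, -q, fun x => by linear_combination -hpq x⟩

end Pool.Agent.Lib.MP_23eee6_gt.Rig
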