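import Pool.Agent.Lib.MP_23eee6_gt.RDefs

set_option autoImplicit false

namespace Pool.Agent.Lib.MP_23eee6_gt.Rig

open MatrixGroups MeasureTheory

lemma det1 (g : SL(2, ℝ)) : g 0 0 * g 1 1 - g 0 1 * g 1 0 = 1 := by
  have := g.det_coe
  rwa [Matrix.det_fin_two] at this

lemma mul00 (g k : SL(2, ℝ)) : (g * k) 0 0 = g 0 0 * k 0 0 + g 0 1 * k 1 0 := by
  simp [Matrix.mul_apply, Fin.sum_univ_two]
lemma mul01 (g k : SL(2, ℝ)) : (g * k) 0 1 = g 0 0 * k 0 1 + g 0 1 * k 1 1 := by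
  simp [Matrix.mul_apply, Fin.sum_univ_two]
lemma mul10 (g k : SL(2, ℝ)) : (g * k) 1 0 = g 1 0 * k 0 0 + g 1 1 * k 1 0 := by
  simp [Matrix.mul_apply, Fin.sum_univ_two]
lemma mul11 (g k : SL(2, ℝ)) : (g * k) 1 1 = g 1 0 * k 0 1 + g 1 1 * k 1 1 := by
  simp [Matrix.mul_apply, Fin.sum_univ_two]
lemma inv00 (g : SL(2, ℝ)) : g⁻¹ 0 0 = g 1 1 := by
  simp [Matrix.SpecialLinearGroup.coe_inv, Matrix.adjugate_fin_two]
lemma inv01 (g : SL(2, ℝ)) : g⁻¹ 0 1 = - g 0 1 := by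
  simp [Matrix.SpecialLinearGroup.coe_inv, Matrix.adjugate_fin_two]
lemma inv10 (g : SL(2, ℝ)) : g⁻¹ 1 0 = - g 1 0 := by
  simp [Matrix.SpecialLinearGroup.coe_inv, Matrix.adjugate_fin_two]
lemma inv11 (g : SL(2, ℝ)) : g⁻¹ 1 1 = g 0 0 := by
  simp [Matrix.SpecialLinearGroup.coe_inv, Matrix.adjugate_fin_two]
lemma neg_ap (g : SL(2, ℝ)) (i j : Fin 2) : (-g) i j = - g i j := by
  simp
lemma one00 : (1 : SL(2, ℝ)) 0 0 = 1 := by simp
lemma one01 : (1 : SL(2, ℝ)) 0 1 = 0 := by simp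
lemma one10 : (1 : SL(2, ℝ)) 1 0 = 0 := by simp
lemma one11 : (1 : SL(2, ℝ)) 1 1 = 1 := by simp

lemma ext4 {g k : SL(2, ℝ)} (h1 : g 0 0 = k 0 0) (h2 : g 0 1 = k 0 1) (h3 : g 1 0 = k 1 0)
    (h4 : g 1 1 = k 1 1) : g = k := by
  ext i j
  fin_cases i <;> fin_cases j <;> assumption

/-- a matrix from its entries -/
def mk4 (a b c d : ℝ) (h : a * d - b * c = 1) : SL(2, ℝ) :=
  ⟨!![a, b; c, d], by rw [Matrix.det_fin_two_of]; exact h⟩

lemma mk00 (a b c d : ℝ) (h : a * d - b * c = 1) : mk4 a b c d h 0 0 = a := rfl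
lemma mk01 (a b c d : ℝ) (h : a * d - b * c = 1) : mk4 a b c d h 0 1 = b := rfl
lemma mk10 (a b c d : ℝ) (h : a * d - b * c = 1) : mk4 a b c d h 1 0 = c := rfl
lemma mk11 (a b c d : ℝ) (h : a * d - b * c = 1) : mk4 a b c d h 1 1 = d := rfl

lemma pm_one {g : SL(2, ℝ)} (hb : g 0 1 = 0) (hc : g 1 0 = 0) (had : g 0 0 = g 1 1) :
    g = 1 ∨ g = -1 := by
  have h := det1 g
  rw [hb, ← had] at h
  have : (g 0 0 - 1) * (g 0 0 + 1) = 0 := by linear_combination h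
  rcases mul_eq_zero.1 this with h1 | h1
  · left
    refine ext4 ?_ ?_ ?_ ?_
    · rw [one00]; linarith
    · rw [one01, hb]
    · rw [one10, hc]
    · rw [one11]; linarith
  · right
    refine ext4 ?_ ?_ ?_ ?_
    · rw [neg_ap, one00]; linarith
    · rw [neg_ap, one01, hb, neg_zero]
    · rw [neg_ap, one10, hc, neg_zero]
    · rw [neg_ap, one11]; linarith

/-- the numerator -/
def num (g : SL(2, ℝ)) (x : ℝ) : ℝ := g 0 0 * x + g 0 1

lemma mob_eq (g : SL(2, ℝ)) (x : ℝ) : mob g x = num g x / den g x := rfl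

lemma mob_den {g : SL(2, ℝ)} {x : ℝ} (h : den g x ≠ 0) : mob g x * den g x = num g x := by
  rw [mob_eq]; field_simp

lemma den_mul {k : SL(2, ℝ)} {x : ℝ} (g : SL(2, ℝ)) (h : den k x ≠ 0) :
    den (g * k) x = den g (mob k x) * den k x := by
  have := mob_den h
  unfold den num at *
  rw [mul10, mul11]
  linear_combination (-g 1 0) * this

lemma num_mul {k : SL(2, ℝ)} {x : ℝ} (g : SL(2, ℝ)) (h : den k x ≠ 0) :
    num (g * k) x = num g (mob k x) * den k x := by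
  have := mob_den h
  unfold den num at *
  rw [mul00, mul01]
  linear_combination (-g 0 0) * this

lemma mob_mul {k : SL(2, ℝ)} {x : ℝ} (g : SL(2, ℝ)) (h : den k x ≠ 0) :
    mob (g * k) x = mob g (mob k x) := by
  rw [mob_eq, mob_eq g, den_mul g h, num_mul g h, mul_div_mul_right _ _ h]

lemma den_one (x : ℝ) : den 1 x = 1 := by simp [den]
lemma mob_one (x : ℝ) : mob 1 x = x := by simp [mob]
lemma den_neg (g : SL(2, ℝ)) (x : ℝ) : den (-g) x = - den g x := by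
  unfold den; rw [neg_ap, neg_ap]; ring
lemma num_neg (g : SL(2, ℝ)) (x : ℝ) : num (-g) x = - num g x := by
  unfold num; rw [neg_ap, neg_ap]; ring
lemma mob_neg (g : SL(2, ℝ)) (x : ℝ) : mob (-g) x = mob g x := by
  rw [mob_eq, mob_eq, den_neg, num_neg, neg_div_neg_eq]

lemma den_inv {g : SL(2, ℝ)} {x : ℝ} (h : den g x ≠ 0) : den g⁻¹ (mob g x) * den g x = 1 := by
  rw [← den_mul _ h, inv_mul_cancel, den_one]

lemma den_inv_ne {g : SL(2, ℝ)} {x : ℝ} (h : den g x ≠ 0) : den g⁻¹ (mob g x) ≠ 0 :=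
  left_ne_zero_of_mul_eq_one (den_inv h)

lemma mob_inv {g : SL(2, ℝ)} {x : ℝ} (h : den g x ≠ 0) : mob g⁻¹ (mob g x) = x := by
  rw [← mob_mul _ h, inv_mul_cancel, mob_one]

lemma den_inv' {g : SL(2, ℝ)} {x : ℝ} (h : den g⁻¹ x ≠ 0) : den g (mob g⁻¹ x) * den g⁻¹ x = 1 := by
  have := den_inv h
  rwa [inv_inv] at this

lemma den_inv_ne' {g : SL(2, ℝ)} {x : ℝ} (h : den g⁻¹ x ≠ 0) : den g (mob g⁻¹ x) ≠ 0 :=
  left_ne_zero_of_mul_eq_one (den_inv' h)

lemma mob_inv' {g : SL(2, ℝ)} {x : ℝ} (h : den g⁻¹ x ≠ 0) : mob g (mob g⁻¹ x) = x := by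
  have := mob_inv h
  rwa [inv_inv] at this

lemma mob_sub {g : SL(2, ℝ)} {x y : ℝ} (hx : den g x ≠ 0) (hy : den g y ≠ 0) :
    (mob g x - mob g y) * (den g x * den g y) = x - y := by
  have h1 := mob_den hx
  have h2 := mob_den hy
  have h3 := det1 g
  unfold den num at *
  linear_combination (g 1 0 * y + g 1 1) * h1 - (g 1 0 * x + g 1 1) * h2 + (x - y) * h3

lemma mob_inj {g : SL(2, ℝ)} {x y : ℝ} (hx : den g x ≠ 0) (hy : den g y ≠ 0)
    (h : mob g x = mob g y) : x = y := by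
  have := mob_sub hx hy
  rw [h, sub_self, zero_mul] at this
  linarith

lemma continuous_den (g : SL(2, ℝ)) : Continuous (den g) := by
  unfold den; fun_prop

lemma measurable_mob (g : SL(2, ℝ)) : Measurable (mob g) := by
  unfold mob; fun_prop

lemma hasDerivAt_mob {g : SL(2, ℝ)} {x : ℝ} (hx : den g x ≠ 0) :
    HasDerivAt (mob g) (1 / den g x ^ 2) x := by
  have h1 : HasDerivAt (fun y : ℝ => g 0 0 * y + g 0 1) (g 0 0) x := by
    simpa using ((hasDerivAt_id x).const_mul (g 0 0)).add_const (g 0 1)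
  have h2 : HasDerivAt (fun y : ℝ => g 1 0 * y + g 1 1) (g 1 0) x := by
    simpa using ((hasDerivAt_id x).const_mul (g 1 0)).add_const (g 1 1)
  have h3 := h1.div h2 hx
  have h4 := det1 g
  refine h3.congr_deriv ?_
  unfold den
  congr 1
  linear_combination h4

lemma tr_mul_comm (g k : SL(2, ℝ)) : tr (g * k) = tr (k * g) := by
  unfold tr; rw [mul00, mul11, mul00, mul11]; ring

lemma tr_conj (k g : SL(2, ℝ)) : tr (k * g * k⁻¹) = tr g := by
  rw [tr_mul_comm, ← mul_assoc, inv_mul_cancel, one_mul]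

lemma tr_neg (g : SL(2, ℝ)) : tr (-g) = - tr g := by
  unfold tr; rw [neg_ap, neg_ap]; ring

lemma tr_fricke (g k : SL(2, ℝ)) : tr (g * k) + tr (g * k⁻¹) = tr g * tr k := by
  unfold tr; rw [mul00, mul11, mul00, mul11, inv00, inv01, inv10, inv11]; ring

/-- squared Frobenius norm -/
def sq4 (g : SL(2, ℝ)) : ℝ := g 0 0 ^ 2 + g 0 1 ^ 2 + g 1 0 ^ 2 + g 1 1 ^ 2

lemma two_le_sq4 (g : SL(2, ℝ)) : 2 ≤ sq4 g := by
  have := det1 g
  unfold sq4
  nlinarith [sq_nonneg (g 0 0 - g 1 1), sq_nonneg (g 0 1 + g 1 0)]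

lemma sq4_pos (g : SL(2, ℝ)) : 0 < sq4 g := lt_of_lt_of_le two_pos (two_le_sq4 g)

lemma sq4_inv (g : SL(2, ℝ)) : sq4 g⁻¹ = sq4 g := by
  unfold sq4; rw [inv00, inv01, inv10, inv11]; ring

lemma sq4_neg (g : SL(2, ℝ)) : sq4 (-g) = sq4 g := by
  unfold sq4; simp only [neg_ap]; ring

lemma sq4_mul (g k : SL(2, ℝ)) : sq4 (g * k) ≤ sq4 g * sq4 k := by
  unfold sq4
  rw [mul00, mul01, mul10, mul11]
  nlinarith [sq_nonneg (g 0 0 * k 1 0 - g 0 1 * k 0 0), sq_nonneg (g 0 0 * k 1 1 - g 0 1 * k 0 1),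
    sq_nonneg (g 1 0 * k 1 0 - g 1 1 * k 0 0), sq_nonneg (g 1 0 * k 1 1 - g 1 1 * k 0 1)]

lemma tr_sq_le (g : SL(2, ℝ)) : tr g ^ 2 ≤ 2 * sq4 g := by
  unfold tr sq4
  nlinarith [sq_nonneg (g 0 0 - g 1 1), sq_nonneg (g 0 1), sq_nonneg (g 1 0)]

/-- squared chordal distance -/
noncomputable def X2 (x y : ℝ) : ℝ := (x - y) ^ 2 / ((1 + x ^ 2) * (1 + y ^ 2))

/-- squared stretch of the vector `(x, 1)` -/
noncomputable def N2 (g : SL(2, ℝ)) (x : ℝ) : ℝ := (num g x ^ 2 + den g x ^ 2) / (1 + x ^ 2)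

lemma X2_nonneg (x y : ℝ) : 0 ≤ X2 x y := by unfold X2; positivity

lemma X2_pos {x y : ℝ} (h : x ≠ y) : 0 < X2 x y := by
  have := sub_ne_zero.2 h
  unfold X2; positivity

lemma X2_comm (x y : ℝ) : X2 x y = X2 y x := by unfold X2; ring

lemma X2_le_one (x y : ℝ) : X2 x y ≤ 1 := by
  unfold X2
  rw [div_le_one (by positivity)]
  nlinarith [sq_nonneg (1 + x * y)]

lemma X2_tri (x y z : ℝ) : X2 x y ≤ 2 * (X2 z x + X2 z y) := by
  unfold X2
  rw [div_add_div _ _ (by positivity) (by positivity), ← mul_div_assoc,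
    div_le_div_iff₀ (by positivity) (by positivity)]
  have h1 : (x - y) ^ 2 * (1 + z ^ 2) ≤
      2 * ((z - x) ^ 2 * (1 + y ^ 2) + (z - y) ^ 2 * (1 + x ^ 2)) := by
    have e : (x - y) * (1 + z ^ 2) = (x - z) * (1 + y * z) + (z - y) * (1 + x * z) := by ring
    have a1 : (1 + y * z) ^ 2 ≤ (1 + y ^ 2) * (1 + z ^ 2) := by nlinarith [sq_nonneg (y - z)]
    have a2 : (1 + x * z) ^ 2 ≤ (1 + x ^ 2) * (1 + z ^ 2) := by nlinarith [sq_nonneg (x - z)]
    have a3 : ((x - y) * (1 + z ^ 2)) ^ 2 ≤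
        2 * ((x - z) ^ 2 * (1 + y * z) ^ 2 + (z - y) ^ 2 * (1 + x * z) ^ 2) := by
      rw [e]; nlinarith [sq_nonneg ((x - z) * (1 + y * z) - (z - y) * (1 + x * z))]
    have a4 := mul_le_mul_of_nonneg_left a1 (sq_nonneg (x - z))
    have a5 := mul_le_mul_of_nonneg_left a2 (sq_nonneg (z - y))
    have hz : 0 < 1 + z ^ 2 := by positivity
    refine le_of_mul_le_mul_right ?_ hz
    nlinarith
  have h2 : 0 ≤ (1 + x ^ 2) * (1 + y ^ 2) * (1 + z ^ 2) := by positivity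
  have h3 := mul_le_mul_of_nonneg_left h1 h2
  nlinarith

lemma N2_nonneg (g : SL(2, ℝ)) (x : ℝ) : 0 ≤ N2 g x := by unfold N2; positivity

lemma N2_neg (g : SL(2, ℝ)) (x : ℝ) : N2 (-g) x = N2 g x := by
  unfold N2; rw [num_neg, den_neg]; ring

lemma N2_le (g : SL(2, ℝ)) (x : ℝ) : N2 g x ≤ sq4 g := by
  unfold N2 sq4 num den
  rw [div_le_iff₀ (by positivity)]
  nlinarith [sq_nonneg (g 0 0 - g 0 1 * x), sq_nonneg (g 1 0 - g 1 1 * x)]

lemma N2_eq {g : SL(2, ℝ)} {x : ℝ} (h : den g x ≠ 0) :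
    N2 g x = (1 + mob g x ^ 2) * den g x ^ 2 / (1 + x ^ 2) := by
  unfold N2
  rw [← mob_den h]; ring

lemma N2_inv {g : SL(2, ℝ)} {x : ℝ} (h : den g x ≠ 0) : N2 g⁻¹ (mob g x) * N2 g x = 1 := by
  have h1 := den_inv h
  rw [N2_eq (den_inv_ne h), N2_eq h, mob_inv h]
  field_simp
  linear_combination (den g⁻¹ (mob g x) * den g x + 1) * h1

lemma X2_mob {g : SL(2, ℝ)} {x y : ℝ} (hx : den g x ≠ 0) (hy : den g y ≠ 0) :
    X2 (mob g x) (mob g y) * (N2 g x * N2 g y) = X2 x y := by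
  have h1 := mob_sub hx hy
  rw [N2_eq hx, N2_eq hy]
  unfold X2
  rw [← h1]
  field_simp

lemma sq4_X2 (g : SL(2, ℝ)) (x y : ℝ) : sq4 g * X2 x y ≤ 2 * (N2 g x + N2 g y) := by
  unfold X2 N2
  rw [div_add_div _ _ (by positivity) (by positivity), ← mul_div_assoc, ← mul_div_assoc]
  refine div_le_div_of_nonneg_right ?_ (by positivity)
  have e : sq4 g * (x - y) ^ 2 = (num g x - num g y) ^ 2 + (den g x - den g y) ^ 2 +
      (x * num g y - y * num g x) ^ 2 + (x * den g y - y * den g x) ^ 2 := by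
    unfold sq4 num den; ring
  rw [e]
  nlinarith [sq_nonneg (num g x + num g y), sq_nonneg (den g x + den g y),
    sq_nonneg (x * num g y + y * num g x), sq_nonneg (x * den g y + y * den g x)]

lemma quad_finite {α β γ : ℝ} (h : ¬ (α = 0 ∧ β = 0 ∧ γ = 0)) :
    {x : ℝ | α * x ^ 2 + β * x + γ = 0}.Finite := by
  have hp : (Polynomial.C α * Polynomial.X ^ 2 + Polynomial.C β * Polynomial.X + Polynomial.C γ :
      Polynomial ℝ) ≠ 0 := by
    intro h0
    apply h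
    have h2 := congrArg (fun p : Polynomial ℝ => p.coeff 2) h0
    have h1 := congrArg (fun p : Polynomial ℝ => p.coeff 1) h0
    have h3 := congrArg (fun p : Polynomial ℝ => p.coeff 0) h0
    simp [Polynomial.coeff_X, Polynomial.coeff_C] at h1 h2 h3
    exact ⟨h2, h1, h3⟩
  refine (Polynomial.finite_setOfPred_isRoot hp).subset fun x hx => ?_
  simpa [Polynomial.IsRoot] using hx

lemma pole_finite (g : SL(2, ℝ)) : {x : ℝ | den g x = 0}.Finite := by
  refine (quad_finite (α := 0) (β := g 1 0) (γ := g 1 1) ?_).subset fun x hx => ?_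
  · rintro ⟨-, h1, h2⟩
    have := det1 g
    rw [h1, h2] at this
    simp at this
  · simpa [den] using hx

lemma fix_finite {g : SL(2, ℝ)} (h1 : g ≠ 1) (h2 : g ≠ -1) :
    {x : ℝ | den g x ≠ 0 ∧ mob g x = x}.Finite := by
  refine (quad_finite (α := g 1 0) (β := g 1 1 - g 0 0) (γ := - g 0 1) ?_).subset fun x hx => ?_
  · rintro ⟨a1, a2, a3⟩
    rcases pm_one (g := g) (by linarith) a1 (by linarith) with h | h
    · exact h1 h
    · exact h2 h
  · have := mob_den hx.1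
    rw [hx.2] at this
    unfold den num at this
    simp only [Set.mem_ofPred_eq]
    linear_combination this

lemma null_preimage (g : SL(2, ℝ)) {N : Set ℝ} (hN : volume N = 0) :
    volume {x | den g x ≠ 0 ∧ mob g x ∈ N} = 0 := by
  have h1 : volume (mob g⁻¹ '' (N ∩ {y | den g⁻¹ y ≠ 0})) = 0 := by
    apply addHaar_image_eq_zero_of_differentiableOn_of_addHaar_eq_zero
    · intro y hy
      exact (hasDerivAt_mob hy.2).differentiableAt.differentiableWithinAt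
    · exact measure_mono_null Set.inter_subset_left hN
  refine measure_mono_null (fun x hx => ?_) h1
  exact ⟨mob g x, ⟨hx.2, den_inv_ne hx.1⟩, mob_inv hx.1⟩

end Pool.Agent.Lib.MP_23eee6_gt.Rig
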