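import Pool.Agent.Lib.MP_23eee6_gt.RDisc

set_option autoImplicit false

namespace Pool.Agent.Lib.MP_23eee6_gt.Rig

open MatrixGroups MeasureTheory Filter Topology Set

lemma mob_unique {S : Set ℝ} (hS : S.Infinite) {g k : SL(2, ℝ)}
    (h : ∀ y ∈ S, den g y ≠ 0 ∧ den k y ≠ 0 ∧ mob g y = mob k y) : g = k ∨ g = -k := by
  have : k⁻¹ * g = 1 ∨ k⁻¹ * g = -1 := by
    by_contra hn
    push Not at hn
    refine hS ((fix_finite hn.1 hn.2).subset fun y hy => ?_)
    obtain ⟨a1, a2, a3⟩ := h y hy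
    refine ⟨?_, ?_⟩
    · rw [den_mul _ a1, a3]
      exact mul_ne_zero (den_inv_ne a2) a1
    · rw [mob_mul _ a1, a3, mob_inv a2]
  rcases this with e | e
  · left; exact (inv_mul_eq_one.1 e).symm
  · right
    rw [inv_mul_eq_iff_eq_mul] at e
    rw [e, mul_neg, mul_one]

variable {h : ℝ → ℝ}

lemma conj_mul {Γ : Subgroup SL(2, ℝ)} (hΓ : FinB Γ) (hi : Function.Injective h)
    {g k g' k' m : SL(2, ℝ)} (hg : g ∈ Γ) (hk : k ∈ Γ) (c1 : Conj h g g') (c2 : Conj h k k')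
    (c3 : Conj h (g * k) m) : m = g' * k' ∨ m = -(g' * k') := by
  refine mob_unique ((Om_infinite hΓ).image hi.injOn) ?_
  rintro _ ⟨x, hx, rfl⟩
  obtain ⟨a1, a2⟩ := c2 x (hx k hk)
  obtain ⟨b1, b2⟩ := c1 _ (Om_mob hk hx g hg)
  obtain ⟨d1, d2⟩ := c3 x (hx _ (Γ.mul_mem hg hk))
  refine ⟨d1, ?_, ?_⟩
  · rw [den_mul _ a1, ← a2]
    exact mul_ne_zero b1 a1
  · rw [← d2, mob_mul _ (hx k hk), mob_mul _ a1, ← a2, b2]

lemma conj_one (hs : Function.Surjective h) {m : SL(2, ℝ)} (c : Conj h 1 m) :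
    m = 1 ∨ m = -1 := by
  refine mob_unique infinite_univ fun y _ => ?_
  obtain ⟨x, rfl⟩ := hs y
  obtain ⟨a1, a2⟩ := c x (by rw [den_one]; exact one_ne_zero)
  exact ⟨a1, by rw [den_one]; exact one_ne_zero, by rw [← a2, mob_one, mob_one]⟩

lemma den_ne_of_tri {g : SL(2, ℝ)} (h0 : g 1 0 = 0) (x : ℝ) : den g x ≠ 0 := by
  have d := det1 g
  unfold den
  rw [h0] at d ⊢
  intro e
  simp only [zero_mul, zero_add] at e
  rw [e] at d
  simp at d

lemma conj_c (hm : StrictMono h) (hs : Function.Surjective h) {g g' : SL(2, ℝ)}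
    (c : Conj h g g') : g 1 0 = 0 ↔ g' 1 0 = 0 := by
  constructor
  · intro h0
    by_contra h1
    obtain ⟨x, hx⟩ := hs (-g' 1 1 / g' 1 0)
    apply (c x (den_ne_of_tri h0 x)).1
    rw [hx]; unfold den; field_simp; ring
  · intro h0
    by_contra h1
    set x0 := -g 1 1 / g 1 0 with hx0
    have e1 : den g (x0 - 1) = - g 1 0 := by rw [hx0]; unfold den; field_simp; ring
    have e2 : den g (x0 + 1) = g 1 0 := by rw [hx0]; unfold den; field_simp; ring
    have n1 : den g (x0 - 1) ≠ 0 := by rw [e1]; exact neg_ne_zero.2 h1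
    have n2 : den g (x0 + 1) ≠ 0 := by rw [e2]; exact h1
    have s := mob_sub n1 n2
    rw [e1, e2] at s
    have p : 0 < g 1 0 ^ 2 := by positivity
    have l1 : mob g (x0 + 1) < mob g (x0 - 1) := by nlinarith
    have l2 := hm l1
    rw [(c _ n1).2, (c _ n2).2, mob_tri h0, mob_tri h0] at l2
    have l3 : h (x0 - 1) < h (x0 + 1) := hm (by linarith)
    nlinarith [sq_nonneg (g' 0 0)]

lemma conj_pole (hm : StrictMono h) (hs : Function.Surjective h) {g g' : SL(2, ℝ)}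
    (c : Conj h g g') {x : ℝ} (hx : den g' (h x) ≠ 0) : den g x ≠ 0 := by
  intro h0
  have h1 : g 1 0 ≠ 0 := fun e => den_ne_of_tri e x h0
  have h2 : g' 1 0 ≠ 0 := fun e => h1 ((conj_c hm hs c).2 e)
  obtain ⟨y, hy⟩ := hs (-g' 1 1 / g' 1 0)
  have h3 : den g' (h y) = 0 := by rw [hy]; unfold den; field_simp; ring
  have h4 : den g y = 0 := by
    by_contra hn
    exact (c y hn).1 h3
  have : y = x := by
    unfold den at h0 h4
    exact mul_left_cancel₀ h1 (by linarith)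
  exact hx (this ▸ h3)

lemma conj_fix (hm : StrictMono h) (hs : Function.Surjective h) {g g' : SL(2, ℝ)}
    (c : Conj h g g') {x : ℝ} (h1 : g' 0 0 * h x + g' 0 1 = h x * (g' 1 0 * h x + g' 1 1)) :
    g 0 0 * x + g 0 1 = x * (g 1 0 * x + g 1 1) := by
  have d := det1 g'
  have a1 : den g' (h x) ≠ 0 := by
    intro e
    unfold den at e
    rw [e, mul_zero] at h1
    have : (1 : ℝ) = 0 := by linear_combination -d + g' 0 0 * e - g' 1 0 * h1
    exact one_ne_zero this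
  have a2 := conj_pole hm hs c a1
  have a3 : mob g' (h x) = h x := by
    rw [mob_eq, div_eq_iff a1]; exact h1
  have a4 := hm.injective ((c x a2).2.trans a3)
  have a5 := mob_den a2
  rw [a4] at a5
  exact a5.symm

lemma conj_parab (hm : StrictMono h) (hs : Function.Surjective h) {g g' : SL(2, ℝ)}
    (c : Conj h g g') (ht : |tr g| ≤ 2) : |tr g'| ≤ 2 := by
  by_contra hn
  push Not at hn
  have t1 : tr g ^ 2 ≤ 4 := by
    rw [← sq_abs]; nlinarith [abs_nonneg (tr g)]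
  have t2 : 4 < tr g' ^ 2 := by
    rw [← sq_abs]; nlinarith
  have d := det1 g
  have d' := det1 g'
  unfold tr at t1 t2
  by_cases h0 : g' 1 0 = 0
  · have h1 := (conj_c hm hs c).2 h0
    rw [h1] at d
    rw [h0] at d'
    have a1 : g 0 0 = g 1 1 := by
      have : (g 0 0 - g 1 1) ^ 2 ≤ 0 := by nlinarith
      have := pow_eq_zero_iff (two_ne_zero) |>.1 (le_antisymm this (sq_nonneg _))
      linarith
    have a2 : g' 1 1 - g' 0 0 ≠ 0 := by
      intro e
      have : g' 1 1 = g' 0 0 := by linarith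
      rw [this] at d' t2
      nlinarith
    obtain ⟨x, hx⟩ := hs (g' 0 1 / (g' 1 1 - g' 0 0))
    have a3 := conj_fix hm hs c (x := x) (by rw [hx, h0]; field_simp; ring)
    rw [h1, a1] at a3
    have a4 : g 0 1 = 0 := by linarith
    have a5 : ∀ y, g' 0 0 * y + g' 0 1 = y * g' 1 1 := by
      intro y
      obtain ⟨z, rfl⟩ := hs y
      have b1 := (c z (den_ne_of_tri h1 z)).2
      have b2 : mob g z = z := by
        rw [mob_eq, div_eq_iff (den_ne_of_tri h1 z)]
        unfold num den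
        rw [h1, a1, a4]; ring
      have b3 := mob_den (den_ne_of_tri h0 (h z))
      rw [← b1, b2] at b3
      unfold num den at b3
      rw [h0] at b3
      linarith
    have := a5 0
    have := a5 1
    exact a2 (by linarith)
  · have h1 : g 1 0 ≠ 0 := fun e => h0 ((conj_c hm hs c).1 e)
    obtain ⟨s, hs0, hs2⟩ : ∃ s : ℝ, 0 < s ∧ s ^ 2 = (g' 0 0 + g' 1 1) ^ 2 - 4 :=
      ⟨√((g' 0 0 + g' 1 1) ^ 2 - 4), Real.sqrt_pos.2 (by linarith), Real.sq_sqrt (by linarith)⟩
    obtain ⟨x, hx⟩ := hs ((g' 0 0 - g' 1 1 + s) / (2 * g' 1 0))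
    obtain ⟨y, hy⟩ := hs ((g' 0 0 - g' 1 1 - s) / (2 * g' 1 0))
    have a1 := conj_fix hm hs c (x := x) (by
      rw [hx]; field_simp; linear_combination -hs2 - 4 * d')
    have a2 := conj_fix hm hs c (x := y) (by
      rw [hy]; field_simp; linear_combination -hs2 - 4 * d')
    have a3 : x - y ≠ 0 := by
      intro e
      have : x = y := by linarith
      rw [this, hy, div_left_inj' (mul_ne_zero two_ne_zero h0)] at hx
      linarith
    have a4 : g 0 0 - g 1 1 = g 1 0 * (x + y) := by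
      apply mul_left_cancel₀ a3
      linear_combination a1 - a2
    have a5 : g 0 1 = - (g 1 0 * x * y) := by linear_combination a1 - x * a4
    have a6 : (g 0 0 + g 1 1) ^ 2 - 4 = (g 1 0 * (x - y)) ^ 2 := by
      linear_combination 4 * d + (g 0 0 - g 1 1 + g 1 0 * (x + y)) * a4 + 4 * g 1 0 * a5
    have a7 : 0 < (g 1 0 * (x - y)) ^ 2 := by positivity
    linarith

lemma diag_aux (g : SL(2, ℝ)) {l m p q r s : ℝ} (hD : p * s - q * r ≠ 0)
    (h1 : p * g 0 0 + q * g 1 0 = l * p) (h2 : p * g 0 1 + q * g 1 1 = l * q)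
    (h3 : r * g 0 0 + s * g 1 0 = m * r) (h4 : r * g 0 1 + s * g 1 1 = m * s) :
    ∃ M : SL(2, ℝ), (M * g * M⁻¹) 0 0 = l ∧ (M * g * M⁻¹) 0 1 = 0 ∧ (M * g * M⁻¹) 1 0 = 0 := by
  refine ⟨mk4 (p / (p * s - q * r)) (q / (p * s - q * r)) r s (by field_simp), ?_, ?_, ?_⟩ <;>
    simp only [mk00, mk01, mk10, mk11, mul00, mul01, mul10, mul11, inv00, inv01, inv10, inv11]
  · field_simp
    linear_combination s * h1 - r * h2
  · field_simp
    linear_combination (-q) * h1 + p * h2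
  · linear_combination s * h3 - r * h4

lemma exists_diag {g : SL(2, ℝ)} (ht : 2 < |tr g|) : ∃ M : SL(2, ℝ),
    1 < (M * g * M⁻¹) 0 0 ^ 2 ∧ (M * g * M⁻¹) 0 1 = 0 ∧ (M * g * M⁻¹) 1 0 = 0 := by
  have t2 : 4 < tr g ^ 2 := by
    rw [← sq_abs]; nlinarith
  have d := det1 g
  obtain ⟨l, m, hl, e1, e2⟩ : ∃ l m : ℝ, 1 < l ^ 2 ∧ l + m = tr g ∧ l * m = 1 := by
    obtain ⟨s, hs0, hs2⟩ : ∃ s : ℝ, 0 < s ∧ s ^ 2 = tr g ^ 2 - 4 :=
      ⟨√(tr g ^ 2 - 4), Real.sqrt_pos.2 (by linarith), Real.sq_sqrt (by linarith)⟩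
    rcases lt_abs.1 ht with a | a
    · exact ⟨(tr g + s) / 2, (tr g - s) / 2, by nlinarith, by ring, by linear_combination -hs2 / 4⟩
    · exact ⟨(tr g - s) / 2, (tr g + s) / 2, by nlinarith, by ring, by linear_combination -hs2 / 4⟩
  unfold tr at e1 t2
  by_cases hD : (l - g 1 1) * (m - g 0 0) - g 0 1 * g 1 0 = 0
  · have hD2 : g 1 0 * g 0 1 - (l - g 0 0) * (m - g 1 1) ≠ 0 := by
      intro e
      have : (g 0 0 + g 1 1) ^ 2 = 4 := by
        linear_combination e - hD + 2 * d + 2 * e2 - (g 0 0 + g 1 1) * e1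
      linarith
    obtain ⟨M, a1, a2, a3⟩ := diag_aux g (l := l) (m := m) hD2 (by ring)
      (by linear_combination -d - l * e1 + e2) (by linear_combination -d - m * e1 + e2) (by ring)
    exact ⟨M, by rw [a1]; exact hl, a2, a3⟩
  · obtain ⟨M, a1, a2, a3⟩ := diag_aux g (l := l) (m := m) hD
      (by linear_combination -d - l * e1 + e2) (by ring) (by ring)
      (by linear_combination -d - m * e1 + e2)
    exact ⟨M, by rw [a1]; exact hl, a2, a3⟩

end Pool.Agent.Lib.MP_23eee6_gt.Rig
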