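import Mathlib

set_option autoImplicit false

namespace Pool.Agent.Lib.MP_23eee6_gt.Rig

open MatrixGroups MeasureTheory

/-- The denominator `c x + d` of the Moebius map of `g`. -/
def den (g : SL(2, ℝ)) (x : ℝ) : ℝ := g 1 0 * x + g 1 1

/-- The Moebius map `(a x + b) / (c x + d)` of `g` on the real line. -/
noncomputable def mob (g : SL(2, ℝ)) (x : ℝ) : ℝ := (g 0 0 * x + g 0 1) / (g 1 0 * x + g 1 1)

/-- The trace `a + d`. -/
def tr (g : SL(2, ℝ)) : ℝ := g 0 0 + g 1 1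

/-- `h` conjugates the boundary action of `g` to that of `g'`. -/
def Conj (h : ℝ → ℝ) (g g' : SL(2, ℝ)) : Prop :=
  ∀ x : ℝ, den g x ≠ 0 → den g' (h x) ≠ 0 ∧ h (mob g x) = mob g' (h x)

/-- `g` is hyperbolic and its axis crosses the axis of no conjugate of `g` in `Γ`:
`g` is a power of an element representing a simple closed geodesic. -/
def IsSimple (Γ : Subgroup SL(2, ℝ)) (g : SL(2, ℝ)) : Prop :=
  2 < |tr g| ∧ ∀ k ∈ Γ, 2 ≤ tr (g * (k * g * k⁻¹) * g⁻¹ * (k * g * k⁻¹)⁻¹)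

/-- `W` is disjoint from its images under the elements of `Γ` other than `1` and `-1`. -/
def IsWandering (Γ : Subgroup SL(2, ℝ)) (W : Set ℝ) : Prop :=
  ∀ g ∈ Γ, g ≠ 1 → g ≠ -1 → ∀ x ∈ W, den g x ≠ 0 → mob g x ∉ W

/-- The action of `Γ` on the circle at infinity is conservative for Lebesgue measure. -/
def IsConservative (Γ : Subgroup SL(2, ℝ)) : Prop :=
  ∀ W : Set ℝ, MeasurableSet W → IsWandering Γ W → volume W = 0

end Pool.Agent.Lib.MP_23eee6_gt.Rig
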