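import Pool.Agent.Lib.MP_23eee6_gt.RBasic

set_option autoImplicit false

namespace Pool.Agent.Lib.MP_23eee6_gt.Rig

open MatrixGroups MeasureTheory Filter Topology Set

/-- norm balls of the group are finite -/
def FinB (Γ : Subgroup SL(2, ℝ)) : Prop := ∀ R : ℝ, {g | g ∈ Γ ∧ sq4 g ≤ R}.Finite

lemma finB_of_discrete (Γ : Subgroup SL(2, ℝ)) (hd : DiscreteTopology Γ) : FinB Γ := by
  intro R
  have : T2Space SL(2, ℝ) := Matrix.SpecialLinearGroup.isClosedEmbedding_val.isEmbedding.t2Space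
  have hK : IsCompact (Set.pi univ fun _ : Fin 2 => Set.pi univ fun _ : Fin 2 =>
      Icc (-(R + 1)) (R + 1)) :=
    isCompact_univ_pi fun _ => isCompact_univ_pi fun _ => isCompact_Icc
  have hK2 := (Matrix.SpecialLinearGroup.isClosedEmbedding_val (n := Fin 2)
    (R := ℝ)).isCompact_preimage hK
  have h1 := Γ.tendsto_coe_cofinite_of_discrete (isDiscrete_iff_discreteTopology.mpr hd)
    hK2.compl_mem_cocompact
  rw [mem_map, mem_cofinite] at h1
  refine (h1.image Subtype.val).subset fun g hg => ⟨⟨g, hg.1⟩, fun hn => hn ?_, rfl⟩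
  intro i _ j _
  have h2 : g i j ^ 2 ≤ R := by
    refine le_trans ?_ hg.2
    unfold sq4
    have := sq_nonneg (g 0 0)
    have := sq_nonneg (g 0 1)
    have := sq_nonneg (g 1 0)
    have := sq_nonneg (g 1 1)
    fin_cases i <;> fin_cases j <;> simp <;> linarith
  change g i j ∈ Icc _ _
  constructor <;> nlinarith [sq_nonneg (g i j - 1), sq_nonneg (g i j + 1), sq_nonneg (g i j)]

lemma FinB.countable {Γ : Subgroup SL(2, ℝ)} (h : FinB Γ) : (Γ : Set SL(2, ℝ)).Countable := by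
  refine (countable_iUnion fun n : ℕ => (h n).countable).mono fun g hg => ?_
  obtain ⟨n, hn⟩ := exists_nat_ge (sq4 g)
  exact mem_iUnion.2 ⟨n, hg, hn⟩

lemma pow_entries (g : SL(2, ℝ)) (n : ℕ) : ∃ α β : ℝ, (g ^ n) 0 0 = α + β * g 0 0 ∧
    (g ^ n) 0 1 = β * g 0 1 ∧ (g ^ n) 1 0 = β * g 1 0 ∧ (g ^ n) 1 1 = α + β * g 1 1 := by
  induction n with
  | zero => exact ⟨1, 0, by simp, by simp, by simp, by simp⟩
  | succ n ih =>
    obtain ⟨α, β, h1, h2, h3, h4⟩ := ih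
    have h := det1 g
    refine ⟨-β, α + β * (g 0 0 + g 1 1), ?_, ?_, ?_, ?_⟩
    · rw [pow_succ, mul00, h1, h2]; linear_combination (-β) * h
    · rw [pow_succ, mul01, h1, h2]; ring
    · rw [pow_succ, mul10, h3, h4]; ring
    · rw [pow_succ, mul11, h3, h4]; linear_combination (-β) * h

lemma two_le_tr {Γ : Subgroup SL(2, ℝ)} (h : FinB Γ)
    (ht : ∀ g ∈ Γ, IsOfFinOrder g → g = 1 ∨ g = -1) {g : SL(2, ℝ)} (hg : g ∈ Γ) :
    2 ≤ |tr g| := by
  by_contra hlt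
  push Not at hlt
  have hfin : IsOfFinOrder g := by
    by_contra hn
    have hinj := injective_pow_iff_not_isOfFinOrder.2 hn
    have hδ : 0 < 1 - |tr g| / 2 := by linarith
    refine infinite_of_injective_forall_mem hinj (s := {k | k ∈ Γ ∧
      sq4 k ≤ (4 + 2 * sq4 g) / (1 - |tr g| / 2)}) (fun n => ⟨Γ.pow_mem hg n, ?_⟩) (h _)
    obtain ⟨α, β, h1, h2, h3, h4⟩ := pow_entries g n
    have d1 := det1 g
    have d2 := det1 (g ^ n)
    rw [h1, h2, h3, h4] at d2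
    have e1 : α ^ 2 + α * β * tr g + β ^ 2 = 1 := by
      unfold tr; linear_combination d2 - β ^ 2 * d1
    have e2 : -(α * β * tr g) ≤ (α ^ 2 + β ^ 2) * (|tr g| / 2) := by
      have a1 : -(α * β * tr g) ≤ |α * β| * |tr g| := by rw [← abs_mul]; exact neg_le_abs _
      have a2 : |α * β| ≤ (α ^ 2 + β ^ 2) / 2 := by
        rw [abs_le]; constructor <;> nlinarith [sq_nonneg (α + β), sq_nonneg (α - β)]
      nlinarith [abs_nonneg (tr g)]
    have e3 : sq4 (g ^ n) ≤ (α ^ 2 + β ^ 2) * (4 + 2 * sq4 g) := by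
      have := sq4_pos g
      unfold sq4 at *
      rw [h1, h2, h3, h4]
      nlinarith [sq_nonneg (α - β * g 0 0), sq_nonneg (α - β * g 1 1), sq_nonneg β,
        sq_nonneg (β * g 0 1), sq_nonneg (β * g 1 0), mul_nonneg (sq_nonneg α) this.le]
    rw [le_div_iff₀ hδ]
    have e4 : (α ^ 2 + β ^ 2) * (1 - |tr g| / 2) ≤ 1 := by linarith
    have e5 : 0 ≤ 4 + 2 * sq4 g := by have := sq4_pos g; linarith
    nlinarith [mul_le_mul_of_nonneg_right e3 hδ.le, mul_le_mul_of_nonneg_right e4 e5]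
  rcases ht g hg hfin with rfl | rfl
  · norm_num [tr] at hlt
  · rw [tr_neg, abs_neg] at hlt
    norm_num [tr] at hlt

/-- points where no element has a pole -/
def Om (Γ : Subgroup SL(2, ℝ)) : Set ℝ := {x | ∀ g ∈ Γ, den g x ≠ 0}

lemma Om_compl {Γ : Subgroup SL(2, ℝ)} (h : FinB Γ) : (Om Γ)ᶜ.Countable := by
  refine (h.countable.biUnion fun g _ => (pole_finite g).countable).mono fun x hx => ?_
  simp only [Om, mem_compl_iff, mem_ofPred_eq, not_forall, not_not] at hx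
  obtain ⟨g, hg, hx⟩ := hx
  exact mem_biUnion hg hx

lemma Om_meas {Γ : Subgroup SL(2, ℝ)} (h : FinB Γ) : MeasurableSet (Om Γ) :=
  (Om_compl h).measurableSet.of_compl

lemma Om_ae {Γ : Subgroup SL(2, ℝ)} (h : FinB Γ) : ∀ᵐ x, x ∈ Om Γ :=
  (Om_compl h).measure_zero volume

lemma Om_infinite {Γ : Subgroup SL(2, ℝ)} (h : FinB Γ) : (Om Γ).Infinite := by
  intro hf
  have := hf.countable.union (Om_compl h)
  rw [union_compl_self] at this
  exact not_countable_univ this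

lemma Om_mob {Γ : Subgroup SL(2, ℝ)} {g : SL(2, ℝ)} (hg : g ∈ Γ) {x : ℝ} (hx : x ∈ Om Γ) :
    mob g x ∈ Om Γ := by
  intro k hk h0
  apply hx _ (Γ.mul_mem hk hg)
  rw [den_mul _ (hx g hg), h0, zero_mul]

/-- a set that only boundedly many elements bring back to itself is null -/
lemma null_of_fw {Γ : Subgroup SL(2, ℝ)} (h : FinB Γ) (hc : IsConservative Γ) {B : Set ℝ}
    (hB : MeasurableSet B) (R : ℝ)
    (hR : ∀ g ∈ Γ, ∀ x ∈ B, x ∈ Om Γ → mob g x ∈ B → sq4 g ≤ R) : volume B = 0 := by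
  set T := {g | g ∈ Γ ∧ sq4 g ≤ R} ∩ {g | g ≠ 1 ∧ g ≠ -1} with hT
  have hTf : T.Finite := (h R).inter_of_left _
  set Z := ⋃ g ∈ T, {x : ℝ | den g x ≠ 0 ∧ mob g x = x} with hZ
  have hZf : Z.Finite := hTf.biUnion fun g hg => fix_finite hg.2.1 hg.2.2
  have hm : MeasurableSet ((B ∩ Om Γ) \ Z) := (hB.inter (Om_meas h)).diff hZf.measurableSet
  have key : volume ((B ∩ Om Γ) \ Z) = 0 := by
    apply measure_null_of_locally_null
    intro x hx
    have h1 : ∀ g ∈ T, ∀ᶠ p : ℝ × ℝ in 𝓝 (x, x), mob g p.1 ≠ p.2 := by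
      intro g hg
      have hne : mob g x ≠ x := fun e => hx.2 (mem_biUnion hg ⟨hx.1.2 g hg.1.1, e⟩)
      have c1 : ContinuousAt (fun p : ℝ × ℝ => mob g p.1 - p.2) (x, x) :=
        (ContinuousAt.comp (f := Prod.fst) (g := mob g)
          (hasDerivAt_mob (hx.1.2 g hg.1.1)).continuousAt continuousAt_fst).sub continuousAt_snd
      filter_upwards [c1.eventually_ne (sub_ne_zero.2 hne)] with p hp
      exact sub_ne_zero.1 hp
    have h2 := (eventually_all_finite hTf).2 h1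
    rw [nhds_prod_eq] at h2
    obtain ⟨U, hU, h3⟩ :=
      (eventually_prod_self_iff (r := fun a b : ℝ => ∀ g ∈ T, mob g a ≠ b)).1 h2
    obtain ⟨V, hVU, hVo, hxV⟩ := mem_nhds_iff.1 hU
    refine ⟨V ∩ ((B ∩ Om Γ) \ Z), ?_, hc _ (hVo.measurableSet.inter hm) ?_⟩
    · exact inter_mem (mem_nhdsWithin_of_mem_nhds (hVo.mem_nhds hxV)) self_mem_nhdsWithin
    · intro g hg g1 g2 y hy _ hy2
      exact h3 y (hVU hy.1) _ (hVU hy2.1) g
        ⟨⟨hg, hR g hg y hy.2.1.1 hy.2.1.2 hy2.2.1.1⟩, g1, g2⟩ rfl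
  refine measure_mono_null (t := ((B ∩ Om Γ) \ Z) ∪ ((Om Γ)ᶜ ∪ Z)) (fun x hx => ?_) ?_
  · by_cases a1 : x ∈ Om Γ
    · by_cases a2 : x ∈ Z
      · exact Or.inr (Or.inr a2)
      · exact Or.inl ⟨⟨hx, a1⟩, a2⟩
    · exact Or.inr (Or.inl a1)
  · exact measure_union_null key (((Om_compl h).union hZf.countable).measure_zero _)

lemma mob_tri {g : SL(2, ℝ)} (h : g 1 0 = 0) (y : ℝ) :
    mob g y = g 0 0 ^ 2 * y + g 0 0 * g 0 1 := by
  have d := det1 g
  rw [h] at d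
  have hd : g 1 1 ≠ 0 := by
    intro e; rw [e] at d; simp at d
  unfold mob
  rw [h, div_eq_iff (by simpa using hd)]
  linear_combination (-(g 0 0 * y + g 0 1)) * d

lemma tri_fw {Δ : Subgroup SL(2, ℝ)} (h : FinB Δ) (h0 : ∀ g ∈ Δ, g 1 0 = 0) :
    ∃ α β R : ℝ, α < β ∧ ∀ g ∈ Δ, ∀ y ∈ Ioo α β, mob g y ∈ Ioo α β → sq4 g ≤ R := by
  have hd : ∀ g ∈ Δ, g 0 0 * g 1 1 = 1 := fun g hg => by
    have d := det1 g
    rw [h0 g hg] at d
    linarith
  by_cases hall : ∀ g ∈ Δ, g 0 0 ^ 2 = 1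
  · refine ⟨0, 1, 3, one_pos, fun g hg y hy hy2 => ?_⟩
    rw [mob_tri (h0 g hg), hall g hg] at hy2
    have a1 := hall g hg
    have a2 := hall g⁻¹ (Δ.inv_mem hg)
    rw [inv00] at a2
    have a3 : (g 0 0 * g 0 1) ^ 2 ≤ 1 := by
      rw [sq_le_one_iff_abs_le_one, abs_le]
      constructor <;> linarith [hy.1, hy.2, hy2.1, hy2.2]
    rw [mul_pow, a1, one_mul] at a3
    unfold sq4
    rw [h0 g hg]
    linarith
  · obtain ⟨g, hg, ha⟩ : ∃ g ∈ Δ, g 0 0 ^ 2 < 1 := by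
      push Not at hall
      obtain ⟨g, hg, ha⟩ := hall
      rcases lt_or_gt_of_ne ha with a | a
      · exact ⟨g, hg, a⟩
      · refine ⟨g⁻¹, Δ.inv_mem hg, ?_⟩
        rw [inv00]
        have : g 0 0 ^ 2 * g 1 1 ^ 2 = 1 := by rw [← mul_pow, hd g hg, one_pow]
        by_contra hge
        push Not at hge
        nlinarith
    have ha0 : 0 < g 0 0 ^ 2 := by
      have := left_ne_zero_of_mul_eq_one (hd g hg)
      positivity
    obtain ⟨p, hp⟩ : ∃ p : ℝ, g 0 0 * g 0 1 = p * (1 - g 0 0 ^ 2) :=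
      ⟨g 0 0 * g 0 1 / (1 - g 0 0 ^ 2), by rw [div_mul_cancel₀ _ (by linarith)]⟩
    have hfix : ∀ k ∈ Δ, k 0 0 * k 0 1 = p * (1 - k 0 0 ^ 2) := by
      intro k hk
      by_contra hne
      set τ := (1 - g 0 0 ^ 2) * (p * (1 - k 0 0 ^ 2) - k 0 0 * k 0 1) with hτ
      have hτ0 : τ ≠ 0 := mul_ne_zero (by linarith) (sub_ne_zero.2 (Ne.symm hne))
      have dg := hd g hg
      have dk := hd k hk
      have hmem : ∀ n : ℕ, mk4 1 ((g 0 0 ^ 2) ^ n * τ) 0 1 (by ring) ∈ Δ := by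
        intro n
        induction n with
        | zero =>
          convert Δ.mul_mem (Δ.mul_mem hg hk) (Δ.mul_mem (Δ.inv_mem hg) (Δ.inv_mem hk)) using 1
          refine ext4 ?_ ?_ ?_ ?_ <;>
            simp only [mk00, mk01, mk10, mk11, mul00, mul01, mul10, mul11, inv00, inv01, inv10,
              inv11, h0 g hg, h0 k hk]
          · linear_combination (-(k 0 0 * k 1 1)) * dg - dk
          · rw [hτ]
            linear_combination (k 0 0 * k 0 1) * dg - (g 0 0 * g 0 1) * dk - (1 - k 0 0 ^ 2) * hp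
          · ring
          · linear_combination (-(k 0 0 * k 1 1)) * dg - dk
        | succ n ih =>
          convert Δ.mul_mem (Δ.mul_mem hg ih) (Δ.inv_mem hg) using 1
          refine ext4 ?_ ?_ ?_ ?_ <;>
            simp only [mk00, mk01, mk10, mk11, mul00, mul01, mul10, mul11, inv00, inv01, inv10,
              inv11, h0 g hg]
          · linear_combination -dg
          · ring
          · ring
          · linear_combination -dg
      refine infinite_of_injective_forall_mem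
        (f := fun n : ℕ => mk4 1 ((g 0 0 ^ 2) ^ n * τ) 0 1 (by ring))
        (s := {k | k ∈ Δ ∧ sq4 k ≤ 2 + τ ^ 2}) ?_ (fun n => ⟨hmem n, ?_⟩) (h _)
      · intro m n hmn
        have := congrArg (fun k : SL(2, ℝ) => k 0 1) hmn
        simp only [mk01] at this
        exact pow_right_injective₀ ha0 ha.ne (mul_right_cancel₀ hτ0 this)
      · unfold sq4
        simp only [mk00, mk01, mk10, mk11]
        have b1 : (g 0 0 ^ 2) ^ n ≤ 1 := pow_le_one₀ ha0.le ha.le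
        have b2 : 0 ≤ (g 0 0 ^ 2) ^ n := by positivity
        have b3 : ((g 0 0 ^ 2) ^ n) ^ 2 ≤ 1 := by nlinarith
        rw [mul_pow]
        nlinarith [sq_nonneg τ]
    refine ⟨p + 1, p + 2, 4 + 8 * p ^ 2, by linarith, fun k hk y hy hy2 => ?_⟩
    rw [mob_tri (h0 k hk), hfix k hk] at hy2
    have dk := hd k hk
    have a0 : 0 ≤ k 0 0 ^ 2 := sq_nonneg _
    have a1 : k 0 0 ^ 2 ≤ 2 := by nlinarith [hy.1, hy2.2]
    have a2 : 1 ≤ 2 * k 0 0 ^ 2 := by nlinarith [hy.2, hy2.1]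
    have a3 : k 0 0 ^ 2 * k 1 1 ^ 2 = 1 := by rw [← mul_pow, dk, one_pow]
    have a4 : k 1 1 ^ 2 ≤ 2 := by nlinarith [sq_nonneg (k 1 1)]
    have a5 : k 0 1 = p * (k 1 1 - k 0 0) := by
      linear_combination (k 1 1) * hfix k hk - (k 0 1 + p * k 0 0) * dk
    have a6 : (k 1 1 - k 0 0) ^ 2 ≤ 8 := by nlinarith [sq_nonneg (k 1 1 + k 0 0)]
    unfold sq4
    rw [h0 k hk, a5, mul_pow]
    nlinarith [sq_nonneg p]

lemma FinB.conj {Γ : Subgroup SL(2, ℝ)} (h : FinB Γ) (M : SL(2, ℝ)) :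
    FinB (Γ.map (MulAut.conj M).toMonoidHom) := by
  intro R
  refine ((h (sq4 M * R * sq4 M)).image fun g => M * g * M⁻¹).subset ?_
  rintro _ ⟨⟨g, hg, rfl⟩, hR⟩
  refine ⟨g, ⟨hg, ?_⟩, rfl⟩
  change sq4 (M * g * M⁻¹) ≤ R at hR
  have e : g = M⁻¹ * (M * g * M⁻¹) * M := by group
  have h1 := sq4_mul (M⁻¹ * (M * g * M⁻¹)) M
  have h2 := sq4_mul M⁻¹ (M * g * M⁻¹)
  rw [← e] at h1
  rw [sq4_inv] at h2
  have := sq4_pos M
  calc sq4 g ≤ _ := h1
    _ ≤ sq4 M * R * sq4 M := by gcongr; exact h2.trans (by gcongr)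

/-- a conservative discrete group fixes no point of the circle -/
lemma no_fix {Γ : Subgroup SL(2, ℝ)} (h : FinB Γ) (hc : IsConservative Γ) (M : SL(2, ℝ)) :
    ¬ ∀ g ∈ Γ, (M * g * M⁻¹) 1 0 = 0 := by
  intro h0
  obtain ⟨α, β, R, hαβ, hR⟩ := tri_fw (h.conj M) (by rintro _ ⟨g, hg, rfl⟩; exact h0 g hg)
  set B := {x | den M x ≠ 0 ∧ mob M x ∈ Ioo α β} with hB
  have hm : MeasurableSet B :=
    ((continuous_den M).measurable (measurableSet_singleton 0).compl).inter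
      (measurable_mob M measurableSet_Ioo)
  have h1 : volume B = 0 := by
    refine null_of_fw h hc hm (sq4 M * R * sq4 M) fun g hg x hx hx2 hx3 => ?_
    have e1 : mob (M * g * M⁻¹) (mob M x) = mob M (mob g x) := by
      rw [mob_mul _ (den_inv_ne hx.1), mob_inv hx.1, mob_mul _ (hx2 g hg)]
    have h2 : sq4 (M * g * M⁻¹) ≤ R := hR _ ⟨g, hg, rfl⟩ _ hx.2 (e1 ▸ hx3.2)
    have e : g = M⁻¹ * (M * g * M⁻¹) * M := by group
    have h3 := sq4_mul (M⁻¹ * (M * g * M⁻¹)) M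
    have h4 := sq4_mul M⁻¹ (M * g * M⁻¹)
    rw [← e] at h3
    rw [sq4_inv] at h4
    have := sq4_pos M
    calc sq4 g ≤ _ := h3
      _ ≤ sq4 M * R * sq4 M := by gcongr; exact h4.trans (by gcongr)
  have h2 := measure_union_null (null_preimage M⁻¹ h1) ((pole_finite M⁻¹).measure_zero volume)
  have h3 : volume (Ioo α β) = 0 := by
    refine measure_mono_null (fun y hy => ?_) h2
    by_cases hy0 : den M⁻¹ y = 0
    · exact Or.inr hy0
    · exact Or.inl ⟨hy0, den_inv_ne' hy0, by rw [mob_inv' hy0]; exact hy⟩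
  rw [Real.volume_Ioo, ENNReal.ofReal_eq_zero] at h3
  linarith

end Pool.Agent.Lib.MP_23eee6_gt.Rig
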