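import Pool.Agent.Lib.MP_23eee6_gt.RConj

set_option autoImplicit false

namespace Pool.Agent.Lib.MP_23eee6_gt.Rig

open MatrixGroups MeasureTheory Filter Topology Set

/-- the standing data: an increasing boundary conjugacy that increases no trace -/
structure Data (Γ : Subgroup SL(2, ℝ)) (h : ℝ → ℝ) (σ : SL(2, ℝ) → SL(2, ℝ)) : Prop where
  fin : FinB Γ
  cons : IsConservative Γ
  mono : StrictMono h
  surj : Function.Surjective h
  conj : ∀ g ∈ Γ, Conj h g (σ g)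
  trle : ∀ g ∈ Γ, |tr (σ g)| ≤ |tr g|

variable {Γ : Subgroup SL(2, ℝ)} {h : ℝ → ℝ} {σ : SL(2, ℝ) → SL(2, ℝ)}

lemma eq_zero_of_sq_le {x c : ℝ} (hx : ∀ n : ℕ, x ^ 2 * ((n : ℝ) + 1) ≤ c) : x = 0 := by
  by_contra h0
  have hp : 0 < x ^ 2 := by positivity
  obtain ⟨n, hn⟩ := exists_nat_gt (c / x ^ 2)
  rw [div_lt_iff₀ hp] at hn
  have := hx n
  nlinarith

theorem Data.dom (D : Data Γ h σ) : ∃ C : ℝ, 0 < C ∧ ∀ g ∈ Γ, sq4 (σ g) ≤ C * sq4 g := by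
  by_contra hn
  push Not at hn
  let t : ℕ → Set (ℝ × ℝ × ℝ × ℝ) := fun n =>
    {B | B.1 ^ 2 + B.2.1 ^ 2 + B.2.2.1 ^ 2 + B.2.2.2 ^ 2 = 1} ∩
    ({B | (B.1 * B.2.2.2 - B.2.1 * B.2.2.1) ^ 2 * ((n : ℝ) + 1) ≤ 1} ∩
    ⋂ s ∈ Γ, {B | (B.1 * σ s 0 0 + B.2.1 * σ s 1 0 + B.2.2.1 * σ s 0 1 + B.2.2.2 * σ s 1 1) ^ 2 *
      ((n : ℝ) + 1) ≤ 2 * sq4 s})
  have hcl : ∀ n, IsClosed (t n) := fun n =>
    (isClosed_eq (by fun_prop) continuous_const).inter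
      ((isClosed_le (by fun_prop) continuous_const).inter
        (isClosed_biInter fun s _ => isClosed_le (by fun_prop) continuous_const))
  have hcp : IsCompact (t 0) := by
    refine (isCompact_Icc (a := ((-1 : ℝ), (-1 : ℝ), (-1 : ℝ), (-1 : ℝ)))
      (b := ((1 : ℝ), (1 : ℝ), (1 : ℝ), (1 : ℝ)))).of_isClosed_subset (hcl 0) ?_
    rintro ⟨a, b, c, d⟩ ⟨h1, -⟩
    simp only [mem_ofPred_eq] at h1
    simp only [mem_Icc, Prod.mk_le_mk]
    have := sq_nonneg a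
    have := sq_nonneg b
    have := sq_nonneg c
    have := sq_nonneg d
    refine ⟨⟨?_, ?_, ?_, ?_⟩, ⟨?_, ?_, ?_, ?_⟩⟩ <;> nlinarith
  have hdec : ∀ n, t (n + 1) ⊆ t n := by
    rintro n B ⟨h1, h2, h3⟩
    refine ⟨h1, ?_, mem_iInter₂.2 fun s hs => ?_⟩
    · simp only [mem_ofPred_eq] at h2 ⊢
      refine le_trans ?_ h2
      push_cast; gcongr; linarith
    · have h4 := mem_iInter₂.1 h3 s hs
      simp only [mem_ofPred_eq] at h4 ⊢
      refine le_trans ?_ h4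
      push_cast; gcongr; linarith
  have hne : ∀ n, (t n).Nonempty := by
    intro n
    obtain ⟨g, hg, hlt⟩ := hn ((n : ℝ) + 1) (by positivity)
    obtain ⟨r, r0, r2⟩ : ∃ r : ℝ, 0 < r ∧ r ^ 2 = sq4 (σ g) :=
      ⟨√(sq4 (σ g)), Real.sqrt_pos.2 (sq4_pos _), Real.sq_sqrt (sq4_pos _).le⟩
    have g2 := two_le_sq4 g
    have n0 : (0 : ℝ) ≤ n := n.cast_nonneg
    refine ⟨(σ g 0 0 / r, σ g 0 1 / r, σ g 1 0 / r, σ g 1 1 / r), ?_, ?_,
      mem_iInter₂.2 fun s hs => ?_⟩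
    · simp only [mem_ofPred_eq]
      field_simp
      rw [r2]; rfl
    · simp only [mem_ofPred_eq]
      have e : σ g 0 0 / r * (σ g 1 1 / r) - σ g 0 1 / r * (σ g 1 0 / r) = 1 / r ^ 2 := by
        field_simp
        exact det1 _
      rw [e, div_pow, div_mul_eq_mul_div, div_le_one (by positivity), r2]
      have : (n : ℝ) + 1 ≤ sq4 (σ g) := by nlinarith
      nlinarith
    · simp only [mem_ofPred_eq]
      have e : σ g 0 0 / r * σ s 0 0 + σ g 0 1 / r * σ s 1 0 + σ g 1 0 / r * σ s 0 1 +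
          σ g 1 1 / r * σ s 1 1 = tr (σ g * σ s) / r := by
        unfold tr; rw [mul00, mul11]; ring
      have a1 : |tr (σ g * σ s)| ≤ |tr (g * s)| := by
        refine le_trans (le_of_eq ?_) (D.trle _ (Γ.mul_mem hg hs))
        rcases conj_mul D.fin D.mono.injective hg hs (D.conj g hg) (D.conj s hs)
          (D.conj _ (Γ.mul_mem hg hs)) with e1 | e1
        · rw [e1]
        · rw [e1, tr_neg, abs_neg]
      have a2 := (sq_le_sq.2 a1).trans (tr_sq_le (g * s))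
      have a3 := sq4_mul g s
      have a4 := sq4_pos s
      rw [e, div_pow, div_mul_eq_mul_div, div_le_iff₀ (by positivity), r2]
      calc _ ≤ 2 * (sq4 g * sq4 s) * ((n : ℝ) + 1) := by gcongr; linarith
        _ = 2 * sq4 s * (((n : ℝ) + 1) * sq4 g) := by ring
        _ ≤ _ := by gcongr
  obtain ⟨⟨a, b, c, d⟩, hB⟩ :=
    IsCompact.nonempty_iInter_of_sequence_nonempty_isCompact_isClosed t hdec hne hcp hcl
  rw [mem_iInter] at hB
  have b1 : a ^ 2 + b ^ 2 + c ^ 2 + d ^ 2 = 1 := (hB 0).1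
  have b2 : a * d - b * c = 0 := eq_zero_of_sq_le fun n => (hB n).2.1
  have b3 : ∀ s ∈ Γ, a * σ s 0 0 + b * σ s 1 0 + c * σ s 0 1 + d * σ s 1 1 = 0 := fun s hs =>
    eq_zero_of_sq_le fun n => mem_iInter₂.1 (hB n).2.2 s hs
  have b4 : d = -a := by
    have := b3 1 Γ.one_mem
    rcases conj_one D.surj (D.conj 1 Γ.one_mem) with e | e <;> rw [e] at this <;>
      simp only [neg_ap, one00, one01, one10, one11] at this <;> linarith
  subst b4
  by_cases c0 : c = 0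
  · subst c0
    have a0 : a = 0 := by nlinarith
    subst a0
    have b0 : b ≠ 0 := by rintro rfl; simp at b1
    refine no_fix D.fin D.cons 1 fun g hg => ?_
    rw [inv_one, mul_one, one_mul, conj_c D.mono D.surj (D.conj g hg)]
    have := b3 g hg
    simpa [b0] using this
  · obtain ⟨x, hx⟩ := D.surj (a / c)
    refine no_fix D.fin D.cons (mk4 0 (-1) 1 (-x) (by ring)) fun g hg => ?_
    have := conj_fix D.mono D.surj (D.conj g hg) (x := x) (by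
      rw [hx]; field_simp
      linear_combination c * b3 g hg + σ g 1 0 * b2)
    simp only [mul10, mul11, inv00, inv10, mk10, mk11]
    linear_combination -this

lemma Data.inv (D : Data Γ h σ) {g : SL(2, ℝ)} (hg : g ∈ Γ) :
    σ g⁻¹ = (σ g)⁻¹ ∨ σ g⁻¹ = -(σ g)⁻¹ := by
  have h1 := conj_mul D.fin D.mono.injective (Γ.inv_mem hg) hg (D.conj _ (Γ.inv_mem hg))
    (D.conj g hg) (m := 1) (by
      rw [inv_mul_cancel]
      intro x _
      exact ⟨by rw [den_one]; exact one_ne_zero, by rw [mob_one, mob_one]⟩)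
  rcases h1 with e | e
  · left; exact eq_inv_of_mul_eq_one_left e.symm
  · right
    rw [← neg_mul] at e
    rw [← eq_inv_of_mul_eq_one_left e.symm, neg_neg]

lemma pigeon {p1 p2 p3 q1 q2 q3 a : ℝ} (h1 : 2 * a ≤ p1 + p2) (h2 : 2 * a ≤ p1 + p3)
    (h3 : 2 * a ≤ p2 + p3) {b : ℝ} (k1 : 2 * b ≤ q1 + q2) (k2 : 2 * b ≤ q1 + q3)
    (k3 : 2 * b ≤ q2 + q3) : (a ≤ p1 ∧ b ≤ q1) ∨ (a ≤ p2 ∧ b ≤ q2) ∨ (a ≤ p3 ∧ b ≤ q3) := by
  rcases le_or_gt a p1 with a1 | a1 <;> rcases le_or_gt a p2 with a2 | a2 <;>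
    rcases le_or_gt a p3 with a3 | a3 <;> rcases le_or_gt b q1 with b1 | b1 <;>
    rcases le_or_gt b q2 with b2 | b2 <;> rcases le_or_gt b q3 with b3 | b3 <;>
    first
      | exact Or.inl ⟨a1, b1⟩
      | exact Or.inr (Or.inl ⟨a2, b2⟩)
      | exact Or.inr (Or.inr ⟨a3, b3⟩)
      | (exfalso; linarith)

/-- comparison of the two boundary stretches through one difference quotient of `h` -/
theorem Data.lemD (D : Data Γ h σ) : ∃ K : ℝ, 0 < K ∧ ∀ g ∈ Γ, ∀ x ∈ Om Γ, ∃ p : ℝ,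
    X2 x p * sq4 g ≤ K * N2 g x ∧ N2 (σ g) (h x) ≤ K * sq4 g * X2 (h x) (h p) := by
  obtain ⟨C, C0, hC⟩ := D.dom
  obtain ⟨u, hu⟩ := (Om_infinite D.fin).nonempty
  obtain ⟨v, hv, hvu⟩ := (Om_infinite D.fin).exists_notMem_finset {u}
  obtain ⟨w, hw, hwu⟩ := (Om_infinite D.fin).exists_notMem_finset {u, v}
  simp only [Finset.mem_singleton, Finset.mem_insert, not_or] at hvu hwu
  have hi := D.mono.injective
  obtain ⟨κ, κ0, k1, k2, k3, k4, k5, k6⟩ : ∃ κ : ℝ, 0 < κ ∧ κ ≤ X2 u v ∧ κ ≤ X2 u w ∧ κ ≤ X2 v w ∧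
      κ ≤ X2 (h u) (h v) ∧ κ ≤ X2 (h u) (h w) ∧ κ ≤ X2 (h v) (h w) := by
    refine ⟨min (min (X2 u v) (min (X2 u w) (X2 v w)))
      (min (X2 (h u) (h v)) (min (X2 (h u) (h w)) (X2 (h v) (h w)))), ?_, ?_, ?_, ?_, ?_, ?_, ?_⟩
    · simp only [lt_min_iff]
      exact ⟨⟨X2_pos (Ne.symm hvu), X2_pos (Ne.symm hwu.1), X2_pos (Ne.symm hwu.2)⟩,
        X2_pos (hi.ne (Ne.symm hvu)), X2_pos (hi.ne (Ne.symm hwu.1)), X2_pos (hi.ne (Ne.symm hwu.2))⟩
    all_goals simp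
  refine ⟨4 * (C + 1) / κ, by positivity, fun g hg x hx => ?_⟩
  have S0 := sq4_pos g
  obtain ⟨ξ, hξ, x1, x2⟩ : ∃ ξ ∈ Om Γ, κ * sq4 g / 4 ≤ N2 g⁻¹ ξ ∧
      κ / 4 ≤ X2 (h (mob g x)) (h ξ) := by
    have f : ∀ a b, κ ≤ X2 a b → 2 * (κ * sq4 g / 4) ≤ N2 g⁻¹ a + N2 g⁻¹ b := by
      intro a b hab
      have := sq4_X2 g⁻¹ a b
      rw [sq4_inv] at this
      nlinarith
    have f' : ∀ a b, κ ≤ X2 a b → 2 * (κ / 4) ≤ X2 (h (mob g x)) a + X2 (h (mob g x)) b := by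
      intro a b hab
      have := X2_tri a b (h (mob g x))
      linarith
    rcases pigeon (f _ _ k1) (f _ _ k2) (f _ _ k3) (f' _ _ k4) (f' _ _ k5) (f' _ _ k6) with
      e | e | e
    · exact ⟨u, hu, e⟩
    · exact ⟨v, hv, e⟩
    · exact ⟨w, hw, e⟩
  have hp : mob g⁻¹ ξ ∈ Om Γ := Om_mob (Γ.inv_mem hg) hξ
  have e0 : mob g (mob g⁻¹ ξ) = ξ := mob_inv' (hξ _ (Γ.inv_mem hg))
  set p := mob g⁻¹ ξ with hpd
  refine ⟨p, ?_, ?_⟩
  · have a1 := X2_mob (hx g hg) (hp g hg)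
    have a2 := N2_inv (hp g hg)
    rw [e0] at a1 a2
    have a3 := X2_le_one (mob g x) ξ
    have a4 := N2_nonneg g x
    have a5 := N2_nonneg g p
    have a6 : κ * sq4 g / 4 * N2 g p ≤ 1 := by
      rw [← a2]; exact mul_le_mul_of_nonneg_right x1 a5
    have a7 : X2 x p ≤ N2 g x * N2 g p := by
      rw [← a1]; exact mul_le_of_le_one_left (mul_nonneg a4 a5) a3
    rw [div_mul_eq_mul_div, le_div_iff₀ κ0]
    calc X2 x p * sq4 g * κ ≤ N2 g x * N2 g p * sq4 g * κ := by gcongr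
      _ = 4 * N2 g x * (κ * sq4 g / 4 * N2 g p) := by ring
      _ ≤ 4 * N2 g x * 1 := by gcongr
      _ ≤ _ := by nlinarith
  · obtain ⟨c1, c2⟩ := D.conj g hg x (hx g hg)
    obtain ⟨c3, c4⟩ := D.conj g hg p (hp g hg)
    have a1 := X2_mob c1 c3
    have a2 := N2_inv c3
    rw [← c2, ← c4, e0] at a1
    have a3 : N2 (σ g)⁻¹ (mob (σ g) (h p)) ≤ C * sq4 g := by
      refine (N2_le _ _).trans ?_
      rw [sq4_inv]; exact hC g hg
    have a4 := N2_nonneg (σ g) (h x)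
    have a5 := N2_nonneg (σ g) (h p)
    have a6 : 1 ≤ C * sq4 g * N2 (σ g) (h p) := by
      rw [← a2]; exact mul_le_mul_of_nonneg_right a3 a5
    have a7 : κ / 4 * (N2 (σ g) (h x) * N2 (σ g) (h p)) ≤ X2 (h x) (h p) := by
      rw [← a1]; exact mul_le_mul_of_nonneg_right x2 (mul_nonneg a4 a5)
    have a8 := X2_nonneg (h x) (h p)
    rw [div_mul_eq_mul_div, div_mul_eq_mul_div, le_div_iff₀ κ0]
    calc N2 (σ g) (h x) * κ ≤ N2 (σ g) (h x) * κ * (C * sq4 g * N2 (σ g) (h p)) :=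
          le_mul_of_one_le_right (by positivity) a6
      _ = 4 * C * sq4 g * (κ / 4 * (N2 (σ g) (h x) * N2 (σ g) (h p))) := by ring
      _ ≤ 4 * C * sq4 g * X2 (h x) (h p) := by gcongr
      _ ≤ _ := by gcongr; linarith

end Pool.Agent.Lib.MP_23eee6_gt.Rig
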