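import Pool.Agent.Lib.MP_23eee6_gt.RDom

set_option autoImplicit false

namespace Pool.Agent.Lib.MP_23eee6_gt.Rig

open MatrixGroups MeasureTheory Filter Topology Set

variable {Γ : Subgroup SL(2, ℝ)} {h : ℝ → ℝ} {σ : SL(2, ℝ) → SL(2, ℝ)}

lemma loc0 {D c x : ℝ} (hd : HasDerivAt h D x) (hc : |D| < c) :
    ∃ η : ℝ, 0 < η ∧ ∀ p, |p - x| < η → |h p - h x| ≤ c * |p - x| := by
  have h1 := (hasDerivAt_iff_isLittleO.1 hd).def (sub_pos.2 hc)
  obtain ⟨η, η0, hη⟩ := Metric.eventually_nhds_iff.1 h1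
  refine ⟨η, η0, fun p hp => ?_⟩
  have h2 := hη (y := p) (by rwa [Real.dist_eq])
  simp only [Real.norm_eq_abs, smul_eq_mul] at h2
  have h3 : |h p - h x| ≤ |h p - h x - (p - x) * D| + |(p - x) * D| := by
    have := abs_add_le (h p - h x - (p - x) * D) ((p - x) * D)
    rwa [sub_add_cancel] at this
  rw [abs_mul] at h3
  linarith

lemma one_add_sq_le (x p : ℝ) : 1 + p ^ 2 ≤ 2 * (1 + x ^ 2) * (1 + (p - x) ^ 2) := by
  nlinarith [sq_nonneg (p - 2 * x), sq_nonneg (x * (p - x)), sq_nonneg (p - x), sq_nonneg x]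

lemma loc1 {D c x : ℝ} (hd : HasDerivAt h D x) (hc : |D| < c) :
    ∃ δ : ℝ, 0 < δ ∧ ∀ p, X2 x p < δ → X2 (h x) (h p) ≤ 4 * c ^ 2 * (1 + x ^ 2) ^ 2 * X2 x p := by
  obtain ⟨η, η0, hη⟩ := loc0 hd hc
  wlog η1 : η ≤ 1 generalizing η
  · exact this 1 one_pos (fun p hp => hη p (by linarith)) le_rfl
  refine ⟨η ^ 2 / (4 * (1 + x ^ 2) ^ 2), by positivity, fun p hp => ?_⟩
  have a0 := one_add_sq_le x p
  have n0 : 0 < 1 + x ^ 2 := by positivity
  have a1 : (p - x) ^ 2 < η ^ 2 := by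
    unfold X2 at hp
    rw [div_lt_div_iff₀ (by positivity) (by positivity)] at hp
    have b1 : η ^ 2 * ((1 + x ^ 2) * (1 + p ^ 2)) ≤
        η ^ 2 * ((1 + x ^ 2) * (2 * (1 + x ^ 2) * (1 + (p - x) ^ 2))) := by gcongr
    have b2 : 2 * (p - x) ^ 2 < η ^ 2 * (1 + (p - x) ^ 2) := by
      refine lt_of_mul_lt_mul_right (a := 2 * (1 + x ^ 2) ^ 2) ?_ (by positivity)
      nlinarith
    have b3 : η ^ 2 ≤ 1 := by nlinarith
    nlinarith [mul_le_mul_of_nonneg_right b3 (sq_nonneg (p - x))]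
  have a2 : |p - x| < η := abs_lt_of_sq_lt_sq a1 η0.le
  have a3 : (h p - h x) ^ 2 ≤ c ^ 2 * (p - x) ^ 2 := by
    rw [← mul_pow, sq_le_sq, abs_mul, abs_of_pos (lt_of_le_of_lt (abs_nonneg D) hc)]
    exact hη p a2
  have a4 : 1 + p ^ 2 ≤ 4 * (1 + x ^ 2) := by
    have b3 : (p - x) ^ 2 ≤ 1 := by nlinarith
    nlinarith [mul_le_mul_of_nonneg_left b3 n0.le]
  have a5 : X2 (h x) (h p) ≤ (h p - h x) ^ 2 := by
    unfold X2
    rw [div_le_iff₀ (by positivity)]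
    nlinarith [sq_nonneg (h p - h x), mul_nonneg (sq_nonneg (h p - h x)) (sq_nonneg (h x)),
      mul_nonneg (sq_nonneg (h p - h x)) (sq_nonneg (h p)),
      mul_nonneg (sq_nonneg (h p - h x)) (mul_nonneg (sq_nonneg (h x)) (sq_nonneg (h p)))]
  refine a5.trans (a3.trans ?_)
  unfold X2
  rw [← mul_div_assoc, le_div_iff₀ (by positivity)]
  calc c ^ 2 * (p - x) ^ 2 * ((1 + x ^ 2) * (1 + p ^ 2)) ≤
      c ^ 2 * (p - x) ^ 2 * ((1 + x ^ 2) * (4 * (1 + x ^ 2))) := by gcongr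
    _ = _ := by ring

/-- points with a global chordal Lipschitz bound -/
def Lip (h : ℝ → ℝ) (L : ℝ) : Set ℝ := {x | ∀ p, X2 (h x) (h p) ≤ L * X2 x p}

lemma continuous_X2 {f : ℝ → ℝ} (hf : Continuous f) (y : ℝ) : Continuous fun x => X2 (f x) y := by
  unfold X2
  exact Continuous.div (by fun_prop) (by fun_prop) fun x => by positivity

lemma isClosed_Lip (hc : Continuous h) (L : ℝ) : IsClosed (Lip h L) := by
  rw [Lip, ofPred_forall]
  exact isClosed_iInter fun p => isClosed_le (continuous_X2 hc _)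
    (continuous_const.mul (continuous_X2 continuous_id _))

lemma ev_Lip {D x : ℝ} (hd : HasDerivAt h D x) : ∀ᶠ L : ℕ in atTop, x ∈ Lip h L := by
  obtain ⟨δ, δ0, hδ⟩ := loc1 hd (lt_add_one |D|)
  filter_upwards [tendsto_natCast_atTop_atTop.eventually_ge_atTop
    (4 * (|D| + 1) ^ 2 * (1 + x ^ 2) ^ 2), tendsto_natCast_atTop_atTop.eventually_ge_atTop (1 / δ)]
    with L h1 h2 p
  rcases lt_or_ge (X2 x p) δ with a | a
  · exact (hδ p a).trans (mul_le_mul_of_nonneg_right h1 (X2_nonneg _ _))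
  · rw [div_le_iff₀ δ0] at h2
    refine (X2_le_one _ _).trans (h2.trans ?_)
    gcongr

lemma Data.cont (D : Data Γ h σ) : Continuous h := D.mono.monotone.continuous_of_surjective D.surj

lemma Data.N2_inv (D : Data Γ h σ) {g : SL(2, ℝ)} (hg : g ∈ Γ) {x : ℝ} (hx : x ∈ Om Γ) :
    N2 (σ g⁻¹) (h (mob g x)) * N2 (σ g) (h x) = 1 := by
  obtain ⟨c1, c2⟩ := D.conj g hg x (hx g hg)
  rw [← Rig.N2_inv c1, c2]
  rcases D.inv hg with e | e
  · rw [e]
  · rw [e, N2_neg]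

theorem Data.comp (D : Data Γ h σ) : ∃ K : ℝ, 0 < K ∧ ∀ g ∈ Γ, ∀ x ∈ Om Γ, ∀ r : ℝ, 0 ≤ r →
    (∀ p, X2 x p * sq4 g ≤ K * N2 g x → X2 (h x) (h p) ≤ r * X2 x p) →
    N2 (σ g) (h x) ≤ K ^ 2 * r * N2 g x := by
  obtain ⟨K, K0, hK⟩ := D.lemD
  refine ⟨K, K0, fun g hg x hx r r0 hr => ?_⟩
  obtain ⟨p, p1, p2⟩ := hK g hg x hx
  have := sq4_pos g
  calc _ ≤ K * sq4 g * X2 (h x) (h p) := p2
    _ ≤ K * sq4 g * (r * X2 x p) := by gcongr; exact hr p p1
    _ = K * r * (X2 x p * sq4 g) := by ring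
    _ ≤ K * r * (K * N2 g x) := by gcongr
    _ = _ := by ring

/-- the derivative of the conjugacy is positive almost everywhere -/
theorem Data.pos_ae (D : Data Γ h σ) : ∀ᵐ x, 0 < deriv h x := by
  obtain ⟨K, K0, hK⟩ := D.comp
  let B : ℕ → ℕ → Set ℝ := fun L n => Lip h L ∩
    {x | ∀ p, X2 x p < 1 / ((n : ℝ) + 1) → X2 (h x) (h p) ≤ 1 / (2 * K ^ 4 * (L + 1)) * X2 x p}
  have hB : ∀ L n, volume (B L n) = 0 := by
    intro L n
    have aux : ∀ g ∈ Γ, ∀ x ∈ B L n, x ∈ Om Γ → mob g x ∈ B L n → N2 g x ≤ 1 →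
        sq4 g ≤ K * (n + 1) := by
      intro g hg x hx hx2 hx3 hN
      by_contra hlt
      push Not at hlt
      have a1 := hK g hg x hx2 _ (by positivity) fun p hp => hx.2 p (by
        rw [lt_div_iff₀ (by positivity)]
        by_contra hn
        push Not at hn
        have b1 : K * N2 g x ≤ K * 1 := by gcongr
        have b2 : 0 < X2 x p := by
          by_contra b3
          have := le_antisymm (not_lt.1 b3) (X2_nonneg x p)
          rw [this] at hn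
          linarith
        nlinarith [mul_lt_mul_of_pos_left hlt b2])
      have a2 := hK g⁻¹ (Γ.inv_mem hg) _ (Om_mob hg hx2) L L.cast_nonneg fun p _ => hx3.1 p
      have a3 := D.N2_inv hg hx2
      have a4 := Rig.N2_inv (hx2 g hg)
      have a5 := mul_le_mul a2 a1 (N2_nonneg _ _)
        (mul_nonneg (by positivity) (N2_nonneg _ _))
      have e : K ^ 2 * L * N2 g⁻¹ (mob g x) * (K ^ 2 * (1 / (2 * K ^ 4 * (L + 1))) * N2 g x) =
          L / (2 * (L + 1)) * (N2 g⁻¹ (mob g x) * N2 g x) := by field_simp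
      rw [a3, e, a4, mul_one, le_div_iff₀ (by positivity)] at a5
      have : (0 : ℝ) ≤ L := L.cast_nonneg
      linarith
    refine null_of_fw D.fin D.cons ?_ (K * (n + 1)) fun g hg x hx hx2 hx3 => ?_
    · refine ((isClosed_Lip D.cont _).inter ?_).measurableSet
      rw [ofPred_forall]
      refine isClosed_iInter fun p => ?_
      simp only [imp_iff_not_or, not_lt, ofPred_or]
      exact (isClosed_le continuous_const (continuous_X2 continuous_id _)).union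
        (isClosed_le (continuous_X2 D.cont _)
          (continuous_const.mul (continuous_X2 continuous_id _)))
    · rcases le_total (N2 g x) 1 with a | a
      · exact aux g hg x hx hx2 hx3 a
      · rw [← sq4_inv]
        refine aux g⁻¹ (Γ.inv_mem hg) _ hx3 (Om_mob hg hx2) (by rwa [mob_inv (hx2 g hg)]) ?_
        have := Rig.N2_inv (hx2 g hg)
        nlinarith [N2_nonneg g⁻¹ (mob g x)]
  have h1 : ∀ᵐ x, ∀ L n, x ∉ B L n := by
    rw [ae_all_iff]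
    intro L
    rw [ae_all_iff]
    intro n
    exact measure_eq_zero_iff_ae_notMem.1 (hB L n)
  filter_upwards [h1, D.mono.monotone.ae_differentiableAt] with x h1 h2
  refine lt_of_le_of_ne D.mono.monotone.deriv_nonneg fun h0 => ?_
  have hd := h2.hasDerivAt
  rw [← h0] at hd
  obtain ⟨L, hL⟩ := (ev_Lip hd).exists
  obtain ⟨c, c0, hc⟩ : ∃ c : ℝ, 0 < c ∧
      4 * c ^ 2 * (1 + x ^ 2) ^ 2 = 1 / (2 * K ^ 4 * (L + 1)) := by
    refine ⟨√(1 / (2 * K ^ 4 * (L + 1))) / (2 * (1 + x ^ 2)), by positivity, ?_⟩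
    rw [div_pow, Real.sq_sqrt (by positivity)]
    field_simp
    norm_num
  obtain ⟨δ, δ0, hδ⟩ := loc1 hd (c := c) (by rwa [abs_zero])
  obtain ⟨n, hn⟩ := exists_nat_one_div_lt δ0
  exact h1 L n ⟨hL, fun p hp => hc ▸ hδ p (hp.trans hn)⟩

lemma Data.deriv_mob (D : Data Γ h σ) {g : SL(2, ℝ)} (hg : g ∈ Γ) {x : ℝ} (hx : x ∈ Om Γ)
    (hd : 0 < deriv h x) :
    deriv h (mob g x) = deriv h x * den g x ^ 2 / den (σ g) (h x) ^ 2 := by
  have h0 := hx g hg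
  have h1 := den_inv_ne h0
  have h2 := (D.conj g hg x h0).1
  have d1 := hasDerivAt_mob h1
  have d2 : HasDerivAt h (deriv h x) (mob g⁻¹ (mob g x)) := by
    rw [mob_inv h0]; exact (differentiableAt_of_deriv_ne_zero hd.ne').hasDerivAt
  have d3 : HasDerivAt (mob (σ g)) (1 / den (σ g) (h x) ^ 2) ((h ∘ mob g⁻¹) (mob g x)) := by
    rw [Function.comp_apply, mob_inv h0]; exact hasDerivAt_mob h2
  have d4 := d3.comp (mob g x) (d2.comp (mob g x) d1)
  have d5 : h =ᶠ[𝓝 (mob g x)] mob (σ g) ∘ h ∘ mob g⁻¹ := by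
    filter_upwards [(continuous_den g⁻¹).continuousAt.eventually_ne h1] with y hy
    have := (D.conj g hg _ (den_inv_ne' hy)).2
    rwa [mob_inv' hy] at this
  rw [(d4.congr_of_eventuallyEq d5).deriv, eq_one_div_of_mul_eq_one_left (den_inv h0)]
  field_simp

/-- the two-point invariant -/
noncomputable def FF (h : ℝ → ℝ) (x y : ℝ) : ℝ :=
  (h x - h y) ^ 2 / ((x - y) ^ 2 * (deriv h x * deriv h y))

/-- good points -/
def G0 (Γ : Subgroup SL(2, ℝ)) (h : ℝ → ℝ) : Set ℝ := {x | x ∈ Om Γ ∧ 0 < deriv h x}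

lemma Data.G0_mob (D : Data Γ h σ) {g : SL(2, ℝ)} (hg : g ∈ Γ) {x : ℝ} (hx : x ∈ G0 Γ h) :
    mob g x ∈ G0 Γ h := by
  refine ⟨Om_mob hg hx.1, ?_⟩
  rw [D.deriv_mob hg hx.1 hx.2]
  have h0 := hx.1 g hg
  have h2 := (D.conj g hg x h0).1
  have := hx.2
  positivity

lemma Data.FF_mob (D : Data Γ h σ) {g : SL(2, ℝ)} (hg : g ∈ Γ) {x y : ℝ} (hx : x ∈ G0 Γ h)
    (hy : y ∈ G0 Γ h) : FF h (mob g x) (mob g y) = FF h x y := by
  have x0 := hx.1 g hg
  have y0 := hy.1 g hg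
  obtain ⟨x1, x2⟩ := D.conj g hg x x0
  obtain ⟨y1, y2⟩ := D.conj g hg y y0
  unfold FF
  rw [D.deriv_mob hg hx.1 hx.2, D.deriv_mob hg hy.1 hy.2, x2, y2, ← mob_sub x0 y0, ← mob_sub x1 y1]
  rcases eq_or_ne (mob g x - mob g y) 0 with e | e
  · simp [e]
  · have := hx.2.ne'
    have := hy.2.ne'
    field_simp

theorem Data.pieces (D : Data Γ h σ) : ∃ X : ℕ → Set ℝ, (∀ L, MeasurableSet (X L)) ∧
    (∀ L, X L ⊆ G0 Γ h) ∧ (∀ L, ∀ g ∈ Γ, ∀ x ∈ X L, mob g x ∈ X L) ∧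
    (∀ L, ∃ c : ℝ, ∀ x ∈ X L, ∀ y ∈ X L, FF h x y ≤ c) ∧ ∀ᵐ x, ∀ᶠ L in atTop, x ∈ X L := by
  obtain ⟨K, K0, hK⟩ := D.comp
  let E : ℕ → Set ℝ := fun L => G0 Γ h ∩ (Lip h L ∩
    {x | 1 + h x ^ 2 ≤ L * (deriv h x * (1 + x ^ 2))})
  have hc := D.cont
  have hE : ∀ L, MeasurableSet (E L) := fun L =>
    ((Om_meas D.fin).inter (measurableSet_lt measurable_const (measurable_deriv h))).inter
      ((isClosed_Lip hc L).measurableSet.inter (measurableSet_le (by fun_prop)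
        (measurable_const.mul ((measurable_deriv h).mul (by fun_prop)))))
  have hG : ∀ L, Om Γ ∩ ⋃ g ∈ (Γ : Set SL(2, ℝ)), mob g ⁻¹' E L ⊆ G0 Γ h := by
    rintro L x ⟨hx, hx2⟩
    obtain ⟨g, hg, hx3⟩ := mem_iUnion₂.1 hx2
    have := D.G0_mob (Γ.inv_mem hg) hx3.1
    rwa [mob_inv (hx g hg)] at this
  refine ⟨fun L => Om Γ ∩ ⋃ g ∈ (Γ : Set SL(2, ℝ)), mob g ⁻¹' E L, fun L => ?_, hG, ?_, fun L => ?_,
    ?_⟩
  · exact (Om_meas D.fin).inter
      (MeasurableSet.biUnion D.fin.countable fun g _ => measurable_mob g (hE L))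
  · rintro L k hk x ⟨hx, hx2⟩
    obtain ⟨g, hg, hx3⟩ := mem_iUnion₂.1 hx2
    refine ⟨Om_mob hk hx, mem_iUnion₂.2 ⟨g * k⁻¹, Γ.mul_mem hg (Γ.inv_mem hk), ?_⟩⟩
    rwa [mem_preimage, mob_mul _ (den_inv_ne (hx k hk)), mob_inv (hx k hk)]
  · refine ⟨K ^ 2 * L ^ 4, fun x hx y hy => ?_⟩
    obtain ⟨g, hg, x3⟩ := mem_iUnion₂.1 hx.2
    obtain ⟨k, hk, y3⟩ := mem_iUnion₂.1 hy.2
    have hm : g * k⁻¹ ∈ Γ := Γ.mul_mem hg (Γ.inv_mem hk)
    have e : mob g y = mob (g * k⁻¹) (mob k y) := by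
      rw [mob_mul _ (den_inv_ne (hy.1 k hk)), mob_inv (hy.1 k hk)]
    rw [← D.FF_mob hg (hG L hx) (hG L hy), e]
    rw [mem_preimage] at x3 y3
    generalize mob g x = u at x3
    generalize mob k y = v at y3
    generalize g * k⁻¹ = m at hm
    have L0 : (0 : ℝ) ≤ L := L.cast_nonneg
    have v0 := y3.1.1 m hm
    obtain ⟨v1, v2⟩ := D.conj m hm v v0
    have z0 := (D.G0_mob hm y3.1).2
    have u0 := x3.1.2
    have a1 : 1 + h (mob m v) ^ 2 ≤ K ^ 2 * L ^ 2 * (deriv h (mob m v) * (1 + mob m v ^ 2)) := by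
      have b1 := hK m hm v y3.1.1 L L0 fun p _ => y3.2.1 p
      have b2 : 1 + h v ^ 2 ≤ L * (deriv h v * (1 + v ^ 2)) := y3.2.2
      rw [N2_eq v0, N2_eq v1, ← v2, div_le_iff₀ (by positivity)] at b1
      rw [D.deriv_mob hm y3.1.1 y3.1.2]
      have b3 : 0 < den (σ m) (h v) ^ 2 := by positivity
      refine le_of_mul_le_mul_right (b1.trans ?_) b3
      calc _ ≤ K ^ 2 * L * ((1 + mob m v ^ 2) * den m v ^ 2 / (1 + v ^ 2)) *
            (L * (deriv h v * (1 + v ^ 2))) := by gcongr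
        _ = _ := by field_simp
    generalize mob m v = z at a1 z0
    have a2 : 1 + h u ^ 2 ≤ L * (deriv h u * (1 + u ^ 2)) := x3.2.2
    have a3 := x3.2.1 z
    unfold X2 at a3
    rw [div_le_iff₀ (by positivity)] at a3
    unfold FF
    apply div_le_of_le_mul₀ (by positivity) (by positivity)
    calc _ ≤ _ := a3
      _ ≤ L * ((u - z) ^ 2 / ((1 + u ^ 2) * (1 + z ^ 2))) * ((L * (deriv h u * (1 + u ^ 2))) *
          (K ^ 2 * L ^ 2 * (deriv h z * (1 + z ^ 2)))) := by gcongr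
      _ = _ := by field_simp
  · filter_upwards [D.pos_ae, Om_ae D.fin] with x h1 h2
    filter_upwards [ev_Lip (differentiableAt_of_deriv_ne_zero h1.ne').hasDerivAt,
      tendsto_natCast_atTop_atTop.eventually_ge_atTop
        ((1 + h x ^ 2) / (deriv h x * (1 + x ^ 2)))] with L l1 l2
    refine ⟨h2, mem_iUnion₂.2 ⟨1, Γ.one_mem, ?_⟩⟩
    rw [mem_preimage, mob_one]
    exact ⟨⟨h2, h1⟩, l1, (div_le_iff₀ (by positivity)).1 l2⟩

end Pool.Agent.Lib.MP_23eee6_gt.Rig
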