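import Pool.Agent.Lib.MP_23eee6_gt.RPos

set_option autoImplicit false

namespace Pool.Agent.Lib.MP_23eee6_gt.Rig

open MatrixGroups MeasureTheory Filter Topology Set

variable {Γ : Subgroup SL(2, ℝ)} {h : ℝ → ℝ} {σ : SL(2, ℝ) → SL(2, ℝ)}

lemma zoom_core {x y z c ε M μ : ℝ} (c0 : 0 < c) (ε0 : 0 < ε) (ε1 : ε < 1) (μ1 : 1 ≤ μ)
    (hM : M * (1 + ε) ^ 4 ≤ c ^ 2 * (1 - ε) ^ 2) (dx : 0 < deriv h x) (dy : 0 < deriv h y)
    (dz : 0 < deriv h z) (h1 : deriv h x ≤ μ) (h2 : 1 / μ ≤ |x - y|) (h3 : 1 / μ ≤ |h x - h y|)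
    (h4 : |z - x| < ε / (2 * μ ^ 2)) (h5 : |h z - h x| ≤ (1 + ε) * deriv h x * |z - x|)
    (h6 : c < FF h x z) (h7 : c < FF h x y) (h8 : FF h z y ≤ M) : False := by
  unfold FF at h6 h7 h8
  have μ0 : 0 < μ := by linarith
  have i0 : 0 < 1 / μ := by positivity
  have xz : x - z ≠ 0 := by
    intro e
    rw [e] at h6
    simp at h6
    linarith
  have xy : x - y ≠ 0 := abs_pos.1 (lt_of_lt_of_le i0 h2)
  rw [lt_div_iff₀ (by positivity)] at h6 h7
  have s1 : c * deriv h z < (1 + ε) ^ 2 * deriv h x := by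
    have a1 : (h x - h z) ^ 2 ≤ ((1 + ε) * deriv h x * (x - z)) ^ 2 := by
      rw [sq_le_sq, abs_mul, abs_of_pos (by positivity : 0 < (1 + ε) * deriv h x), abs_sub_comm,
        abs_sub_comm x]
      exact h5
    refine lt_of_mul_lt_mul_right (a := (x - z) ^ 2 * deriv h x) ?_ (by positivity)
    nlinarith
  have t1 : 2 * μ * |z - x| ≤ ε * (1 / μ) := by
    rw [lt_div_iff₀ (by positivity)] at h4
    rw [mul_one_div, le_div_iff₀ μ0]
    linarith
  have t0 := abs_nonneg (z - x)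
  have s2 : |z - y| ≤ (1 + ε) * |x - y| := by
    have := abs_sub_le z x y
    nlinarith [mul_le_mul_of_nonneg_left h2 ε0.le]
  have s3 : (1 - ε) * |h x - h y| ≤ |h z - h y| := by
    have a1 := abs_sub_le (h x) (h z) (h y)
    rw [abs_sub_comm (h x) (h z)] at a1
    have a2 : (1 + ε) * deriv h x * |z - x| ≤ 2 * μ * |z - x| := by gcongr; linarith
    nlinarith [mul_le_mul_of_nonneg_left h3 ε0.le]
  have b0 : 0 < |h x - h y| := lt_of_lt_of_le i0 h3
  have e1 : 0 < 1 - ε := by linarith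
  have zy : z - y ≠ 0 := by
    intro e
    have : z = y := by linarith
    rw [this, sub_self, abs_zero] at s3
    nlinarith
  rw [div_le_iff₀ (by positivity)] at h8
  have s4 : (1 - ε) ^ 2 * (h x - h y) ^ 2 ≤ (h z - h y) ^ 2 := by
    rw [← sq_abs (h x - h y), ← sq_abs (h z - h y), ← mul_pow]
    gcongr
  have s5 : (z - y) ^ 2 ≤ (1 + ε) ^ 2 * (x - y) ^ 2 := by
    rw [← sq_abs (z - y), ← sq_abs (x - y), ← mul_pow]
    gcongr
  have M0 : 0 ≤ M := by
    by_contra hn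
    push Not at hn
    have a1 : M * ((z - y) ^ 2 * (deriv h z * deriv h y)) < 0 :=
      mul_neg_of_neg_of_pos hn (by positivity)
    nlinarith [sq_nonneg (h z - h y)]
  have : c * ((1 - ε) ^ 2 * (h x - h y) ^ 2) < c * ((1 - ε) ^ 2 * (h x - h y) ^ 2) :=
    calc _ ≤ c * (M * (((1 + ε) ^ 2 * (x - y) ^ 2) * (deriv h z * deriv h y))) := by
          refine mul_le_mul_of_nonneg_left (s4.trans (h8.trans ?_)) c0.le
          gcongr
      _ = M * ((1 + ε) ^ 2 * (x - y) ^ 2) * deriv h y * (c * deriv h z) := by ring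
      _ ≤ M * ((1 + ε) ^ 2 * (x - y) ^ 2) * deriv h y * ((1 + ε) ^ 2 * deriv h x) := by gcongr
      _ = M * (1 + ε) ^ 4 * ((x - y) ^ 2 * (deriv h x * deriv h y)) := by ring
      _ ≤ c ^ 2 * (1 - ε) ^ 2 * ((x - y) ^ 2 * (deriv h x * deriv h y)) := by gcongr
      _ = c * ((1 - ε) ^ 2 * (c * ((x - y) ^ 2 * (deriv h x * deriv h y)))) := by ring
      _ < _ := by gcongr
  exact lt_irrefl _ this

lemma bad_small {a c R μ : ℝ} (R0 : 0 < R) (μ0 : 0 < μ)
    (hn : ¬ (|c| ≤ 2 * R * μ ∧ |a| ≤ R + 2 * R * μ * μ)) :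
    volume {y : ℝ | |y| ≤ μ ∧ |-c * y + a| ≤ R} ≤ ENNReal.ofReal (1 / μ) := by
  rcases le_or_gt |c| (2 * R * μ) with h1 | h1
  · have h2 : R + 2 * R * μ * μ < |a| := by
      by_contra h3
      exact hn ⟨h1, not_lt.1 h3⟩
    have : {y : ℝ | |y| ≤ μ ∧ |-c * y + a| ≤ R} = ∅ := by
      refine eq_empty_of_forall_notMem fun y hy => ?_
      have a1 := abs_add_le (-c * y + a) (c * y)
      rw [abs_mul, show -c * y + a + c * y = a by ring] at a1
      have a2 : |c| * |y| ≤ 2 * R * μ * μ := mul_le_mul h1 hy.1 (abs_nonneg _) (by positivity)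
      linarith [hy.2]
    rw [this, measure_empty]
    exact zero_le
  · have c0 : 0 < |c| := lt_trans (by positivity) h1
    have c1 : c ≠ 0 := abs_pos.1 c0
    refine (measure_mono (t := Metric.closedBall (a / c) (R / |c|)) fun y hy => ?_).trans ?_
    · rw [Metric.mem_closedBall, Real.dist_eq, le_div_iff₀ c0, ← abs_mul, ← abs_neg]
      refine le_trans (le_of_eq ?_) hy.2
      congr 1
      field_simp
      ring
    · rw [Real.volume_closedBall]
      apply ENNReal.ofReal_le_ofReal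
      rw [← mul_div_assoc, div_le_div_iff₀ c0 μ0]
      linarith

lemma measurable_FF (hc : Continuous h) : Measurable fun q : ℝ × ℝ => FF h q.1 q.2 := by
  have := measurable_deriv h
  unfold FF
  fun_prop

theorem Data.zoom (D : Data Γ h σ) {X : Set ℝ} (hX : MeasurableSet X) (hG : X ⊆ G0 Γ h)
    (hI : ∀ g ∈ Γ, ∀ x ∈ X, mob g x ∈ X) {c ε M : ℝ} (c0 : 0 < c) (ε0 : 0 < ε) (ε1 : ε < 1)
    (hM : M * (1 + ε) ^ 4 ≤ c ^ 2 * (1 - ε) ^ 2)
    (H : ∀ᵐ x, x ∈ X → ∀ᵐ y, y ∈ X → FF h x y ≤ M) :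
    ∀ᵐ x, x ∈ X → ∀ᵐ y, y ∈ X → FF h x y ≤ c := by
  have hc := D.cont
  let PP : ℝ → Set (ℝ × ℝ) := fun μ => {q | q.2 ∈ X ∧ |q.2| ≤ μ ∧ 1 / μ ≤ |q.1 - q.2| ∧
    1 / μ ≤ |h q.1 - h q.2| ∧ c < FF h q.1 q.2}
  have hPP : ∀ μ, MeasurableSet (PP μ) := fun μ => by
    have m1 : MeasurableSet {q : ℝ × ℝ | |q.2| ≤ μ} :=
      measurableSet_le (by fun_prop) measurable_const
    have m2 : MeasurableSet {q : ℝ × ℝ | 1 / μ ≤ |q.1 - q.2|} :=
      measurableSet_le measurable_const (by fun_prop)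
    have m3 : MeasurableSet {q : ℝ × ℝ | 1 / μ ≤ |h q.1 - h q.2|} :=
      measurableSet_le measurable_const (by fun_prop)
    have m4 : MeasurableSet {q : ℝ × ℝ | c < FF h q.1 q.2} :=
      measurableSet_lt measurable_const (measurable_FF hc)
    exact (measurable_snd hX).inter (m1.inter (m2.inter (m3.inter m4)))
  let B : ℝ → Set ℝ := fun μ => {x | x ∈ X ∧ |x| ≤ μ ∧ deriv h x ≤ μ ∧
    (∀ p, |p - x| < 1 / μ → |h p - h x| ≤ (1 + ε) * deriv h x * |p - x|) ∧
    ENNReal.ofReal (1 / μ) < volume (Prod.mk x ⁻¹' PP μ)}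
  have hB : ∀ μ, 1 ≤ μ → volume (B μ) = 0 := by
    intro μ μ1
    have μ0 : 0 < μ := by linarith
    obtain ⟨η, hη⟩ : ∃ η, η = ε / (2 * μ ^ 2) := ⟨_, rfl⟩
    have η0 : 0 < η := by rw [hη]; positivity
    obtain ⟨R, hR⟩ : ∃ R, R = 2 * μ / η := ⟨_, rfl⟩
    have R0 : 0 < R := by rw [hR]; positivity
    have aux : ∀ g ∈ Γ, ∀ x ∈ B μ, mob g x ∈ B μ → |den g x| ≤ 1 →
        sq4 g ≤ (R + 2 * R * μ * μ) ^ 2 + (μ + (R + 2 * R * μ * μ) * μ) ^ 2 + (2 * R * μ) ^ 2 +
          (1 + 2 * R * μ * μ) ^ 2 := by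
      intro g hg x hx hgx hj
      have x0 : den g x ≠ 0 := (hG hx.1).1 g hg
      by_cases hb : |g 1 0| ≤ 2 * R * μ ∧ |g 0 0| ≤ R + 2 * R * μ * μ
      · have e1 : |g 1 1| ≤ 1 + 2 * R * μ * μ := by
          have : g 1 1 = den g x - g 1 0 * x := by unfold den; ring
          rw [this]
          refine (abs_sub _ _).trans ?_
          rw [abs_mul]
          exact add_le_add hj (mul_le_mul hb.1 hx.2.1 (abs_nonneg _) (by positivity))
        have e2 : |g 0 1| ≤ μ + (R + 2 * R * μ * μ) * μ := by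
          have : g 0 1 = mob g x * den g x - g 0 0 * x := by rw [mob_den x0]; unfold num; ring
          rw [this]
          refine (abs_sub _ _).trans ?_
          rw [abs_mul, abs_mul]
          refine add_le_add ?_ (mul_le_mul hb.2 hx.2.1 (abs_nonneg _) (by positivity))
          exact (mul_le_mul hgx.2.1 hj (abs_nonneg _) μ0.le).trans (by rw [mul_one])
        unfold sq4
        rw [← sq_abs (g 0 0), ← sq_abs (g 0 1), ← sq_abs (g 1 0), ← sq_abs (g 1 1)]
        have := hb.1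
        have := hb.2
        gcongr
      · exfalso
        obtain ⟨y', hy', y1, y2⟩ : ∃ y' ∈ Prod.mk (mob g x) ⁻¹' PP μ, R < |den g⁻¹ y'| ∧
            (mob g⁻¹ y' ∈ X → ∀ᵐ y, y ∈ X → FF h (mob g⁻¹ y') y ≤ M) := by
          by_contra hn
          refine absurd hgx.2.2.2.2 (not_lt.2 ?_)
          have n1 := null_preimage g⁻¹ (ae_iff.1 H)
          refine le_trans (measure_mono fun y hy => ?_) ((measure_union_le _ _).trans
            (add_le_add (bad_small R0 μ0 hb) n1.le |>.trans (add_zero _).le))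
          by_cases y1 : R < |den g⁻¹ y|
          · exact Or.inr ⟨abs_pos.1 (R0.trans y1), fun y2 => hn ⟨y, hy, y1, y2⟩⟩
          · refine Or.inl ⟨hy.2.1, ?_⟩
            unfold den at y1
            rw [inv10, inv11] at y1
            exact not_lt.1 y1
        have z0 : den g⁻¹ y' ≠ 0 := abs_pos.1 (R0.trans y1)
        have zX : mob g⁻¹ y' ∈ X := hI _ (Γ.inv_mem hg) _ hy'.1
        obtain ⟨y, hy, y3⟩ := Measure.exists_mem_of_measure_ne_zero_of_ae
          (lt_of_le_of_lt zero_le hx.2.2.2.2).ne' (ae_restrict_of_ae (y2 zX))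
        have z1 : |mob g⁻¹ y' - x| < η := by
          have a1 := congrArg abs (mob_sub z0 (den_inv_ne x0))
          rw [mob_inv x0, abs_mul, abs_mul] at a1
          have a2 := congrArg abs (den_inv x0)
          rw [abs_mul, abs_one] at a2
          have a3 : 1 ≤ |den g⁻¹ (mob g x)| := by nlinarith [abs_nonneg (den g⁻¹ (mob g x))]
          have a4 : |y' - mob g x| ≤ 2 * μ := by
            have := abs_sub y' (mob g x)
            linarith [hy'.2.1, hgx.2.1]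
          have a5 : η * R = 2 * μ := by rw [hR]; field_simp
          by_contra hn
          push Not at hn
          have a6 : η * R < |mob g⁻¹ y' - x| * (|den g⁻¹ y'| * |den g⁻¹ (mob g x)|) :=
            calc η * R < η * (|den g⁻¹ y'| * 1) := by rw [mul_one]; gcongr
              _ ≤ _ := by gcongr
          linarith
        have z2 : η ≤ 1 / μ := by
          rw [hη, div_le_div_iff₀ (by positivity) μ0]
          nlinarith
        refine zoom_core (x := x) (y := y) (z := mob g⁻¹ y') c0 ε0 ε1 μ1 hM (hG hx.1).2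
          (hG hy.1).2 (hG zX).2 hx.2.2.1 hy.2.2.1 hy.2.2.2.1 (hη ▸ z1)
          (hx.2.2.2.1 _ (z1.trans_le z2)) ?_ hy.2.2.2.2 (y3 hy.1)
        rw [← D.FF_mob hg (hG hx.1) (hG zX), mob_inv' z0]
        exact hy'.2.2.2.2
    refine null_of_fw D.fin D.cons ?_ ((R + 2 * R * μ * μ) ^ 2 + (μ + (R + 2 * R * μ * μ) * μ) ^ 2 +
      (2 * R * μ) ^ 2 + (1 + 2 * R * μ * μ) ^ 2) fun g hg x hx hx2 hx3 => ?_
    · have m1 : IsClosed {q : ℝ × ℝ | ∀ p, |p - q.1| < 1 / μ → |h p - h q.1| ≤ q.2 * |p - q.1|} := by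
        rw [ofPred_forall]
        refine isClosed_iInter fun p => ?_
        simp only [imp_iff_not_or, not_lt, ofPred_or]
        exact (isClosed_le continuous_const (by fun_prop)).union
          (isClosed_le (by fun_prop) (by fun_prop))
      have m2 : Measurable fun x => (x, (1 + ε) * deriv h x) :=
        measurable_id.prodMk (measurable_const.mul (measurable_deriv h))
      have m3 : MeasurableSet {x : ℝ | |x| ≤ μ} := measurableSet_le (by fun_prop) measurable_const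
      have m4 : MeasurableSet {x : ℝ | deriv h x ≤ μ} :=
        measurableSet_le (measurable_deriv h) measurable_const
      have m5 : MeasurableSet {x : ℝ | ENNReal.ofReal (1 / μ) < volume (Prod.mk x ⁻¹' PP μ)} :=
        measurableSet_lt measurable_const (measurable_measure_prodMk_left (hPP μ))
      exact hX.inter (m3.inter (m4.inter ((m2 m1.measurableSet).inter m5)))
    · rcases le_total |den g x| 1 with a | a
      · exact aux g hg x hx hx3 a
      · rw [← sq4_inv]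
        refine aux g⁻¹ (Γ.inv_mem hg) _ hx3 (by rwa [mob_inv (hx2 g hg)]) ?_
        have a2 := congrArg abs (den_inv (hx2 g hg))
        rw [abs_mul, abs_one] at a2
        nlinarith [abs_nonneg (den g⁻¹ (mob g x))]
  have h1 : ∀ᵐ x, ∀ m : ℕ, x ∉ B (m + 1) := ae_all_iff.2 fun m =>
    measure_eq_zero_iff_ae_notMem.1 (hB _ (by linarith [m.cast_nonneg (α := ℝ)]))
  filter_upwards [h1] with x h1 hx
  by_contra hn
  have T : Tendsto (fun m : ℕ => (m : ℝ) + 1) atTop atTop :=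
    tendsto_atTop_add_const_right _ _ tendsto_natCast_atTop_atTop
  have T2 : ∀ a : ℝ, 0 < a → ∀ᶠ m : ℕ in atTop, 1 / ((m : ℝ) + 1) < a := fun a a0 =>
    tendsto_one_div_add_atTop_nhds_zero_nat.eventually_lt_const a0
  obtain ⟨k, hk⟩ : ∃ k : ℕ, volume (Prod.mk x ⁻¹' PP (k + 1)) ≠ 0 := by
    by_contra hk
    push Not at hk
    apply hn
    filter_upwards [ae_all_iff.2 fun k => measure_eq_zero_iff_ae_notMem.1 (hk k)] with y hy yX
    by_contra hlt
    push Not at hlt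
    have xy : x ≠ y := by
      rintro rfl
      simp [FF] at hlt
      linarith
    obtain ⟨m, m1, m2, m3⟩ := ((T.eventually_ge_atTop |y|).and
      ((T2 _ (abs_pos.2 (sub_ne_zero.2 xy))).and
        (T2 _ (abs_pos.2 (sub_ne_zero.2 (D.mono.injective.ne xy)))))).exists
    exact hy m ⟨yX, m1, m2.le, m3.le, hlt⟩
  have d0 := (hG hx).2
  obtain ⟨η, η0, hη⟩ := loc0 (differentiableAt_of_deriv_ne_zero d0.ne').hasDerivAt
    (c := (1 + ε) * deriv h x) (by rw [abs_of_pos d0]; nlinarith)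
  have T3 : ∀ᶠ m : ℕ in atTop, ENNReal.ofReal (1 / ((m : ℝ) + 1)) <
      volume (Prod.mk x ⁻¹' PP (k + 1)) := by
    have := ENNReal.tendsto_ofReal tendsto_one_div_add_atTop_nhds_zero_nat
    rw [ENNReal.ofReal_zero] at this
    exact this.eventually_lt_const (pos_iff_ne_zero.2 hk)
  obtain ⟨m, m1, m2, m3, m4, m5⟩ := ((T.eventually_ge_atTop |x|).and
    ((T.eventually_ge_atTop (deriv h x)).and ((T2 _ η0).and (T3.and
      (eventually_ge_atTop k))))).exists
  refine h1 m ⟨hx, m1, m2, fun p hp => hη p (hp.trans m3), m4.trans_le (measure_mono fun y hy => ?_)⟩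
  have k1 : (k : ℝ) + 1 ≤ m + 1 := by gcongr
  have k2 : 1 / ((m : ℝ) + 1) ≤ 1 / (k + 1) := by gcongr
  exact ⟨hy.1, hy.2.1.trans k1, k2.trans hy.2.2.1, k2.trans hy.2.2.2.1, hy.2.2.2.2⟩

theorem Data.FF_le_one (D : Data Γ h σ) :
    ∀ᵐ x, 0 < deriv h x ∧ ∀ᵐ y, 0 < deriv h y ∧ FF h x y ≤ 1 := by
  obtain ⟨X, X1, X2, X3, X4, X5⟩ := D.pieces
  have key : ∀ L, ∀ n : ℕ, ∀ᵐ x, x ∈ X L → ∀ᵐ y, y ∈ X L → FF h x y ≤ 1 + 1 / ((n : ℝ) + 1) := by
    intro L n
    obtain ⟨c, hc⟩ : ∃ c : ℝ, c = 1 + 1 / ((n : ℝ) + 1) := ⟨_, rfl⟩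
    have c1 : 1 < c := by rw [hc, lt_add_iff_pos_right]; positivity
    rw [← hc]
    obtain ⟨ε, ε0, ε1, r1⟩ : ∃ ε : ℝ, 0 < ε ∧ ε < 1 ∧ 1 < c * (1 - ε) ^ 2 / (1 + ε) ^ 4 := by
      have a1 : ContinuousAt (fun ε : ℝ => c * (1 - ε) ^ 2 / (1 + ε) ^ 4) 0 :=
        ContinuousAt.div (by fun_prop) (by fun_prop) (by norm_num)
      have a2 : ∀ᶠ ε : ℝ in 𝓝 0, 1 < c * (1 - ε) ^ 2 / (1 + ε) ^ 4 :=
        a1.eventually_const_lt (by simpa using c1)
      obtain ⟨ε, e1, e2, e3⟩ := ((eventually_mem_nhdsWithin (a := (0 : ℝ)) (s := Ioi 0)).and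
        (((eventually_lt_nhds one_pos).and a2).filter_mono nhdsWithin_le_nhds)).exists
      exact ⟨ε, e1, e2, e3⟩
    obtain ⟨r, hr⟩ : ∃ r : ℝ, r = c * (1 - ε) ^ 2 / (1 + ε) ^ 4 := ⟨_, rfl⟩
    rw [← hr] at r1
    have hr' : r * (1 + ε) ^ 4 = c * (1 - ε) ^ 2 := by rw [hr]; field_simp
    have step : ∀ k : ℕ, (∀ᵐ x, x ∈ X L → ∀ᵐ y, y ∈ X L → FF h x y ≤ c * r ^ k) →
        ∀ᵐ x, x ∈ X L → ∀ᵐ y, y ∈ X L → FF h x y ≤ c := by
      intro k
      induction k with
      | zero => intro H; simpa using H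
      | succ k ih =>
        intro H
        have p1 : 1 ≤ r ^ k := one_le_pow₀ r1.le
        refine ih (D.zoom (X1 L) (X2 L) (X3 L) (by positivity) ε0 ε1 ?_ H)
        calc c * r ^ (k + 1) * (1 + ε) ^ 4 = c * r ^ k * (r * (1 + ε) ^ 4) := by ring
          _ = c * r ^ k * (c * 1) * (1 - ε) ^ 2 := by rw [hr']; ring
          _ ≤ c * r ^ k * (c * r ^ k) * (1 - ε) ^ 2 := by gcongr
          _ = _ := by ring
    obtain ⟨b, hb⟩ := X4 L
    obtain ⟨k, hk⟩ := pow_unbounded_of_one_lt b r1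
    refine step k (Eventually.of_forall fun x hx => Eventually.of_forall fun y hy => ?_)
    have : 0 < r ^ k := by positivity
    nlinarith [hb x hx y hy]
  filter_upwards [ae_all_iff.2 fun L => ae_all_iff.2 (key L), X5, D.pos_ae] with x h1 h2 h3
  refine ⟨h3, ?_⟩
  have h4 : ∀ᵐ y, ∀ L, ∀ n : ℕ, x ∈ X L → y ∈ X L → FF h x y ≤ 1 + 1 / ((n : ℝ) + 1) :=
    ae_all_iff.2 fun L => ae_all_iff.2 fun n => by
      by_cases hx : x ∈ X L
      · filter_upwards [h1 L n hx] with y hy _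
        exact hy
      · exact Eventually.of_forall fun y h0 => absurd h0 hx
  filter_upwards [h4, X5, D.pos_ae] with y y1 y2 y3
  refine ⟨y3, ?_⟩
  obtain ⟨L, l1, l2⟩ := (h2.and y2).exists
  refine le_of_forall_pos_le_add fun a a0 => ?_
  obtain ⟨n, hn⟩ := exists_nat_one_div_lt a0
  linarith [y1 L n l1 l2]

end Pool.Agent.Lib.MP_23eee6_gt.Rig
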