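import Pool.Agent.Lib.MP_23eee6_gt.RDisc

set_option autoImplicit false

namespace Pool.Agent.Lib.MP_23eee6_gt.Rig

open MatrixGroups MeasureTheory Filter Topology Set

variable {Γ : Subgroup SL(2, ℝ)}

lemma N2_mul {k : SL(2, ℝ)} {x : ℝ} (g : SL(2, ℝ)) (h : den k x ≠ 0) :
    N2 (g * k) x = N2 g (mob k x) * N2 k x := by
  rw [N2_eq h]
  unfold N2
  rw [den_mul g h, num_mul g h]
  field_simp

lemma N2_one (x : ℝ) : N2 1 x = 1 := by
  unfold N2 num
  rw [den_one, one00, one01]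
  field_simp
  ring

lemma continuous_N2 (g : SL(2, ℝ)) : Continuous (N2 g) := by
  unfold N2 num den
  exact Continuous.div (by fun_prop) (by fun_prop) fun x => by positivity

/-- the boundary at infinity of the Dirichlet domain centred at `i` -/
def Dir (Γ : Subgroup SL(2, ℝ)) : Set ℝ := {x | x ∈ Om Γ ∧ ∀ g ∈ Γ, 1 ≤ N2 g x}

lemma few_contract (hF : FinB Γ) {W : Set ℝ} (hW : MeasurableSet W) (hw : IsWandering Γ W)
    (s : ℝ) : ∀ᵐ x, {g : Γ | x ∈ W ∧ x ∈ Om Γ ∧ N2 g x ≤ 1 ∧ 0 < s * den g x}.Finite := by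
  let ρ : ℝ → ENNReal := fun x => ENNReal.ofReal (1 + x ^ 2)⁻¹
  let μ : Measure ℝ := volume.withDensity ρ
  have hfin : IsFiniteMeasure μ := isFiniteMeasure_withDensity_ofReal integrable_inv_one_add_sq.2
  have hρ : Measurable ρ := by fun_prop
  have hac : volume ≪ μ := withDensity_absolutelyContinuous' hρ.aemeasurable
    (Eventually.of_forall fun x => (ENNReal.ofReal_pos.2 (by positivity)).ne')
  let A : Γ → Set ℝ := fun g => {x | x ∈ W ∧ x ∈ Om Γ ∧ N2 g x ≤ 1 ∧ 0 < s * den g x}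
  have hA : ∀ g, MeasurableSet (A g) := fun g => by
    have m1 : MeasurableSet {x | N2 g x ≤ 1} :=
      measurableSet_le (continuous_N2 _).measurable measurable_const
    have m2 : MeasurableSet {x | 0 < s * den g x} :=
      measurableSet_lt measurable_const (measurable_const.mul (continuous_den _).measurable)
    exact hW.inter ((Om_meas hF).inter (m1.inter m2))
  have hinj : ∀ g : Γ, InjOn (mob g) (A g) := fun g x hx y hy e =>
    mob_inj (hx.2.1 g g.2) (hy.2.1 g g.2) e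
  have hA' : ∀ g : Γ, MeasurableSet (mob g '' A g) := fun g =>
    (hA g).image_of_measurable_injOn (measurable_mob g) (hinj g)
  have h1 : ∀ g : Γ, μ (A g) ≤ μ (mob g '' A g) := by
    intro g
    rw [withDensity_apply _ (hA g), withDensity_apply _ (hA' g),
      lintegral_image_eq_lintegral_abs_deriv_mul (hA g)
        (fun x hx => (hasDerivAt_mob (hx.2.1 g g.2)).hasDerivWithinAt) (hinj g)]
    refine setLIntegral_mono' (hA g) fun x hx => ?_
    have x0 := hx.2.1 g g.2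
    have x1 := hx.2.2.1
    rw [N2_eq x0, div_le_one (by positivity)] at x1
    simp only [ρ]
    rw [← ENNReal.ofReal_mul (abs_nonneg _), abs_of_pos (by positivity), one_div, ← mul_inv]
    apply ENNReal.ofReal_le_ofReal
    apply inv_anti₀ (by positivity)
    linarith
  have h2 : Pairwise (Function.onFun (AEDisjoint μ) fun g : Γ => mob g '' A g) := by
    intro g k hgk
    refine Disjoint.aedisjoint (disjoint_left.2 ?_)
    rintro _ ⟨x, hx, rfl⟩ ⟨y, hy, e⟩
    have x0 := hx.2.1 g g.2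
    have y0 := hy.2.1 k k.2
    have hm : (k : SL(2, ℝ))⁻¹ * g ∈ Γ := Γ.mul_mem (Γ.inv_mem k.2) g.2
    have e1 : mob ((k : SL(2, ℝ))⁻¹ * g) x = y := by rw [mob_mul _ x0, ← e, mob_inv y0]
    refine hw _ hm (fun e2 => hgk (Subtype.ext (inv_mul_eq_one.1 e2).symm)) (fun e2 => ?_) x hx.1
      (hx.2.1 _ hm) (e1 ▸ hy.1)
    rw [e2, mob_neg, mob_one] at e1
    rw [inv_mul_eq_iff_eq_mul, mul_neg, mul_one] at e2
    have a1 := hx.2.2.2
    have a2 := hy.2.2.2
    rw [e2, den_neg, e1] at a1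
    linarith
  have : Countable Γ := hF.countable.to_subtype
  refine hac.ae_le (ae_finite_setOfPred_mem (μ := μ) (s := A) (ne_top_of_le_ne_top ?_
    ((ENNReal.tsum_le_tsum h1).trans (tsum_measure_le_measure_univ
      (fun g => (hA' g).nullMeasurableSet) h2))))
  exact measure_ne_top μ _

theorem Dir_pos (hF : FinB Γ) (hc : ¬ IsConservative Γ) : volume (Dir Γ) ≠ 0 := by
  intro h0
  apply hc
  intro W hW hw
  have h1 : ∀ᵐ x, ∀ g ∈ (Γ : Set SL(2, ℝ)), ¬ (den g x ≠ 0 ∧ mob g x ∈ Dir Γ) :=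
    (ae_ball_iff hF.countable).2 fun g _ => measure_eq_zero_iff_ae_notMem.1 (null_preimage g h0)
  rw [measure_eq_zero_iff_ae_notMem]
  filter_upwards [h1, few_contract hF hW hw 1, few_contract hF hW hw (-1), Om_ae hF]
    with x x1 x2 x3 x4 hx
  have hfin : {g : Γ | N2 g x ≤ 1}.Finite := by
    refine (x2.union x3).subset fun g hg => ?_
    rcases lt_or_gt_of_ne (x4 g g.2) with a | a
    · exact Or.inr ⟨hx, x4, hg, by linarith⟩
    · exact Or.inl ⟨hx, x4, hg, by linarith⟩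
  obtain ⟨g, hg, hmin⟩ := exists_min_image _ (fun g : Γ => N2 g x) hfin ⟨1, (N2_one x).le⟩
  refine x1 g g.2 ⟨x4 g g.2, Om_mob g.2 x4, fun k hk => ?_⟩
  have a1 : N2 g x ≤ N2 (k * g) x := by
    rcases le_total (N2 (k * g) x) 1 with a | a
    · exact hmin ⟨k * g, Γ.mul_mem hk g.2⟩ a
    · exact le_trans hg a
  have a2 : 0 < N2 g x := by
    have := N2_inv (x4 g g.2)
    exact lt_of_le_of_ne (N2_nonneg _ _) (right_ne_zero_of_mul_eq_one this).symm
  rw [N2_mul _ (x4 g g.2)] at a1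
  exact le_of_mul_le_mul_right (by rwa [one_mul]) a2

lemma pm_of_sq4 {g : SL(2, ℝ)} (ht : 2 ≤ |tr g|) (h : sq4 g ≤ 2) : g = 1 ∨ g = -1 := by
  have d := det1 g
  have t : 4 ≤ tr g ^ 2 := by rw [← sq_abs]; nlinarith
  unfold tr at t
  unfold sq4 at h
  have z : ∀ u : ℝ, u ^ 2 ≤ 0 → u = 0 := fun u hu =>
    (pow_eq_zero_iff two_ne_zero).1 (le_antisymm hu (sq_nonneg u))
  have a0 := sq_nonneg (g 0 0 - g 1 1)
  have b0 := sq_nonneg (g 0 1)
  have c0 := sq_nonneg (g 1 0)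
  refine pm_one (z _ (by nlinarith)) (z _ (by nlinarith)) ?_
  have := z (g 0 0 - g 1 1) (by nlinarith)
  linarith

/-- the strict version -/
def Dir' (Γ : Subgroup SL(2, ℝ)) : Set ℝ := {x | x ∈ Om Γ ∧ ∀ g ∈ Γ, g ≠ 1 → g ≠ -1 → 1 < N2 g x}

lemma Dir'_meas (hF : FinB Γ) : MeasurableSet (Dir' Γ) := by
  have : Dir' Γ = Om Γ ∩ ⋂ g ∈ (Γ : Set SL(2, ℝ)) ∩ {g | g ≠ 1 ∧ g ≠ -1}, {x | 1 < N2 g x} := by
    ext x
    simp [Dir']
  rw [this]
  exact (Om_meas hF).inter (MeasurableSet.biInter (hF.countable.mono inter_subset_left)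
    fun g _ => measurableSet_lt measurable_const (continuous_N2 g).measurable)

theorem Dir'_pos (hF : FinB Γ) (h2 : ∀ k ∈ Γ, 2 ≤ |tr k|) (hc : ¬ IsConservative Γ) :
    volume (Dir' Γ) ≠ 0 := by
  intro h0
  apply Dir_pos hF hc
  have h1 : (⋃ g ∈ (Γ : Set SL(2, ℝ)) ∩ {g | g ≠ 1 ∧ g ≠ -1}, {x | N2 g x = 1}).Countable := by
    refine (hF.countable.mono inter_subset_left).biUnion fun g hg => Finite.countable ?_
    refine (quad_finite (α := g 0 0 ^ 2 + g 1 0 ^ 2 - 1) (β := 2 * (g 0 0 * g 0 1 + g 1 0 * g 1 1))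
      (γ := g 0 1 ^ 2 + g 1 1 ^ 2 - 1) ?_).subset fun x hx => ?_
    · rintro ⟨a1, -, a2⟩
      rcases pm_of_sq4 (h2 g hg.1) (by unfold sq4; linarith) with e | e
      · exact hg.2.1 e
      · exact hg.2.2 e
    · simp only [mem_ofPred_eq, N2, num, den] at hx ⊢
      rw [div_eq_one_iff_eq (by positivity)] at hx
      linear_combination hx
  refine measure_mono_null (fun x hx => ?_) (measure_union_null h0 (h1.measure_zero _))
  by_contra hn
  rw [mem_union, not_or] at hn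
  refine hn.1 ⟨hx.1, fun g hg g1 g2 => lt_of_le_of_ne (hx.2 g hg) fun e => hn.2 ?_⟩
  exact mem_biUnion (x := g) ⟨hg, g1, g2⟩ e.symm

end Pool.Agent.Lib.MP_23eee6_gt.Rig
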