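import Pool.Agent.Lib.MP_23eee6_gt.SHyp

set_option autoImplicit false

namespace Pool.Agent.Lib.MP_23eee6_gt.Rig

open MatrixGroups Filter Topology Set UpperHalfPlane

/-- Cayley transform -/
noncomputable def cay (z : ℂ) : ℂ := (z - Complex.I) / (z + Complex.I)

/-- inverse Cayley transform -/
noncomputable def cai (η : ℂ) : ℂ := Complex.I * (1 + η) / (1 - η)

lemma add_I_ne {z : ℂ} (hz : 0 ≤ z.im) : z + Complex.I ≠ 0 := by
  intro e
  have := congrArg Complex.im e
  simp at this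
  linarith

lemma one_sub_cay {z : ℂ} (hz : 0 ≤ z.im) : 1 - cay z ≠ 0 := by
  have h := add_I_ne hz
  have : 1 - cay z = 2 * Complex.I / (z + Complex.I) := by unfold cay; field_simp; ring
  rw [this]
  exact div_ne_zero (mul_ne_zero two_ne_zero Complex.I_ne_zero) h

lemma cai_cay {z : ℂ} (hz : 0 ≤ z.im) : cai (cay z) = z := by
  have h := add_I_ne hz
  unfold cai
  rw [div_eq_iff (one_sub_cay hz)]
  unfold cay
  field_simp
  ring

lemma cay_cai {η : ℂ} (h : 1 - η ≠ 0) : cay (cai η) = η := by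
  have e : cai η + Complex.I = 2 * Complex.I / (1 - η) := by unfold cai; field_simp; ring
  unfold cay
  rw [e, div_eq_iff (div_ne_zero (mul_ne_zero two_ne_zero Complex.I_ne_zero) h)]
  unfold cai
  field_simp
  ring

lemma im_cai {η : ℂ} (h : 1 - η ≠ 0) : (cai η).im * Complex.normSq (1 - η) = 1 - ‖η‖ ^ 2 := by
  have h2 : Complex.normSq (1 - η) ≠ 0 := by simpa using h
  unfold cai
  rw [Complex.div_im, Complex.sq_norm]
  field_simp
  simp [Complex.normSq_apply]
  ring

lemma cay_dist (a b : ℍ) : ‖cay a - cay b‖ * (Real.cosh (dist a I / 2) * Real.cosh (dist b I / 2)) =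
    Real.sinh (dist a b / 2) := by
  have ha := add_I_ne (z := a) a.im_pos.le
  have hb := add_I_ne (z := b) b.im_pos.le
  have e : cay a - cay b = 2 * Complex.I * (a - b) / ((a + Complex.I) * (b + Complex.I)) := by
    unfold cay; field_simp; ring
  have h1 := norm_ne_zero_iff.2 ha
  have h2 := norm_ne_zero_iff.2 hb
  have h3 := (Real.sqrt_pos.2 a.im_pos).ne'
  have h4 := (Real.sqrt_pos.2 b.im_pos).ne'
  rw [e, sinh_half_dist, cosh_half_dist, cosh_half_dist, Real.sqrt_mul a.im_pos.le b.im]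
  simp only [coe_I, Complex.conj_I, Complex.dist_eq, sub_neg_eq_add, I_im, mul_one, norm_div,
    norm_mul, Complex.norm_I, Complex.norm_ofNat]
  field_simp

lemma cay_norm (a : ℍ) : (1 - ‖cay a‖ ^ 2) * Real.cosh (dist a I / 2) ^ 2 = 1 := by
  have := cay_dist a I
  have e : cay (I : ℍ) = 0 := by simp [cay]
  rw [e, sub_zero, dist_self, zero_div, Real.cosh_zero, mul_one] at this
  have h := Real.cosh_sq (dist a I / 2)
  rw [← this] at h
  linear_combination h

lemma cosh_le_exp {x : ℝ} (hx : 0 ≤ x) : Real.cosh x * Real.exp (-x) ≤ 1 := by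
  have h1 := Real.cosh_add_sinh x
  have h2 : 0 ≤ Real.sinh x := Real.sinh_nonneg_iff.2 hx
  have h3 : Real.exp x * Real.exp (-x) = 1 := by rw [← Real.exp_add]; simp
  nlinarith [Real.exp_pos (-x)]

lemma exp_le_cosh (x : ℝ) : Real.exp x ≤ 2 * Real.cosh x := by
  rw [Real.cosh_eq]; linarith [Real.exp_pos (-x)]

lemma exp_le_sqrt (a : ℍ) : Real.exp (-(dist a I / 2)) ≤ √(1 - ‖cay a‖ ^ 2) := by
  apply Real.le_sqrt_of_sq_le
  have h1 := cosh_le_exp (x := dist a I / 2) (by positivity)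
  have h2 := Real.cosh_pos (dist a I / 2)
  have h3 := Real.exp_pos (-(dist a I / 2))
  refine le_of_mul_le_mul_right ?_ (pow_pos h2 2)
  rw [cay_norm, ← mul_pow, mul_comm]
  exact pow_le_one₀ (by positivity) h1

lemma exp_gromov (z u : ℍ) : Real.exp (-((dist z I + dist u I - dist z u) / 2)) ≤
    2 * ‖cay z - cay u‖ + √(1 - ‖cay z‖ ^ 2) := by
  have h1 := cosh_le_exp (x := dist z I / 2) (by positivity)
  have h2 := cosh_le_exp (x := dist u I / 2) (by positivity)
  have h3 : Real.exp (dist z u / 2) ≤ 2 * Real.sinh (dist z u / 2) + 1 := by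
    have : Real.exp (-(dist z u / 2)) ≤ 1 := Real.exp_le_one_iff.2 (by
      linarith [dist_nonneg (x := z) (y := u)])
    rw [Real.sinh_eq]; linarith
  have h4 : Real.exp (-(dist u I / 2)) ≤ 1 := Real.exp_le_one_iff.2 (by
    linarith [dist_nonneg (x := u) (y := I)])
  have e : Real.exp (-((dist z I + dist u I - dist z u) / 2)) = Real.exp (dist z u / 2) *
      (Real.exp (-(dist z I / 2)) * Real.exp (-(dist u I / 2))) := by
    rw [← Real.exp_add, ← Real.exp_add]; congr 1; ring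
  have p1 := Real.cosh_pos (dist z I / 2)
  have p2 := Real.cosh_pos (dist u I / 2)
  rw [e]
  calc _ ≤ (2 * Real.sinh (dist z u / 2) + 1) *
        (Real.exp (-(dist z I / 2)) * Real.exp (-(dist u I / 2))) := by gcongr
    _ = 2 * ‖cay z - cay u‖ * ((Real.cosh (dist z I / 2) * Real.exp (-(dist z I / 2))) *
        (Real.cosh (dist u I / 2) * Real.exp (-(dist u I / 2)))) +
        Real.exp (-(dist z I / 2)) * Real.exp (-(dist u I / 2)) := by rw [← cay_dist]; ring
    _ ≤ 2 * ‖cay z - cay u‖ * (1 * 1) + √(1 - ‖cay z‖ ^ 2) * 1 := by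
        gcongr
        exact exp_le_sqrt z
    _ = _ := by ring

/-- bi-Lipschitz maps -/
def Bil (w : ℍ → ℍ) : Prop :=
  ∀ z u, dist (w z) (w u) ≤ 2 * dist z u ∧ dist z u ≤ 2 * dist (w z) (w u)

variable {w : ℍ → ℍ}

lemma Bil.far (hw : Bil w) (a : ℍ) : dist a I / 2 - dist (w I) I ≤ dist (w a) I := by
  linarith [(hw a I).2, dist_triangle_right (w a) (w I) I]

lemma Bil.gromov (hw : Bil w) (z u : ℍ) : ‖cay (w z) - cay (w u)‖ ≤
    10 * (Real.sinh 1 * (2 * Real.exp (dist (w I) I / 2))) *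
      Real.exp (-((dist z I + dist u I - dist z u) / 2) / 4) := by
  obtain ⟨C, hC⟩ : ∃ C, C = Real.sinh 1 * (2 * Real.exp (dist (w I) I / 2)) := ⟨_, rfl⟩
  have s1 : 0 < Real.sinh 1 := Real.sinh_pos_iff.2 one_pos
  have C0 : 0 < C := by rw [hC]; positivity
  have short : ∀ a b : ℍ, dist a b ≤ 1 → ‖cay (w a) - cay (w b)‖ ≤ C * Real.exp (-dist a I / 4) := by
    intro a b hab
    have h1 := cay_dist (w a) (w b)
    have h2 : Real.sinh (dist (w a) (w b) / 2) ≤ Real.sinh 1 :=
      Real.sinh_le_sinh.2 (by linarith [(hw a b).1])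
    have h3 := Real.one_le_cosh (dist (w b) I / 2)
    have h4 := exp_le_cosh (dist (w a) I / 2)
    have h5 : 1 ≤ Real.exp (dist (w a) I / 2) *
        (Real.exp (dist (w I) I / 2) * Real.exp (-dist a I / 4)) := by
      rw [← Real.exp_add, ← Real.exp_add]
      exact Real.one_le_exp (by linarith [hw.far a])
    have p1 := Real.cosh_pos (dist (w a) I / 2)
    calc _ ≤ ‖cay (w a) - cay (w b)‖ * (Real.exp (dist (w a) I / 2) * 1 *
          (Real.exp (dist (w I) I / 2) * Real.exp (-dist a I / 4))) := by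
          rw [mul_one]; exact le_mul_of_one_le_right (norm_nonneg _) h5
      _ ≤ ‖cay (w a) - cay (w b)‖ * (2 * Real.cosh (dist (w a) I / 2) *
          Real.cosh (dist (w b) I / 2) *
          (Real.exp (dist (w I) I / 2) * Real.exp (-dist a I / 4))) := by gcongr
      _ = Real.sinh (dist (w a) (w b) / 2) * (2 * Real.exp (dist (w I) I / 2)) *
          Real.exp (-dist a I / 4) := by rw [← h1]; ring
      _ ≤ _ := by rw [hC]; gcongr
  have ray : ∀ n : ℕ, ∀ (G : ℝ) (a b : ℍ), dist a b ≤ n + 1 → G + dist a b ≤ dist b I →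
      ‖cay (w a) - cay (w b)‖ ≤ 5 * C * Real.exp (-G / 4) := by
    have base : ∀ (G : ℝ) (a b m : ℍ), dist a m ≤ 1 → G + dist a b ≤ dist b I →
        ‖cay (w a) - cay (w m)‖ ≤ C * Real.exp (-G / 4) := by
      intro G a b m h1 h2
      refine (short a m h1).trans ?_
      have := dist_triangle_left b I a
      gcongr
      linarith
    intro n
    induction n with
    | zero =>
      intro G a b h1 h2
      refine (base G a b b (by simpa using h1) h2).trans ?_
      gcongr
      linarith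
    | succ n ih =>
      intro G a b h1 h2
      rcases le_total (dist a b) 1 with h | h
      · refine (base G a b b h h2).trans ?_
        gcongr
        linarith
      obtain ⟨m, m1, m2⟩ := exists_between a b zero_le_one h
      push_cast at h1
      have a1 := base G a b m m1.le h2
      have a2 := ih (G + 1) m b (by linarith) (by linarith)
      have a3 : 5 * Real.exp (-(G + 1) / 4) ≤ 4 * Real.exp (-G / 4) := by
        have b1 : Real.exp (-G / 4) = Real.exp (-(G + 1) / 4) * Real.exp (1 / 4) := by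
          rw [← Real.exp_add]; congr 1; ring
        have b2 := Real.add_one_le_exp (1 / 4 : ℝ)
        rw [b1]
        nlinarith [Real.exp_pos (-(G + 1) / 4)]
      have a4 := norm_sub_le_norm_sub_add_norm_sub (cay (w a)) (cay (w m)) (cay (w b))
      nlinarith
  rw [← hC]
  obtain ⟨m, m1, m2⟩ := exists_between z u (t := (dist z I - dist u I + dist z u) / 2)
    (by linarith [dist_triangle_left u I z]) (by linarith [dist_triangle z u I])
  obtain ⟨n, hn⟩ := exists_nat_ge (dist z u)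
  have d1 := dist_nonneg (x := z) (y := m)
  have d2 := dist_nonneg (x := m) (y := u)
  have a1 := ray n ((dist z I + dist u I - dist z u) / 2) m z (by rw [dist_comm]; linarith)
    (by rw [dist_comm m]; linarith)
  have a2 := ray n ((dist z I + dist u I - dist z u) / 2) m u (by linarith) (by linarith)
  have a4 := norm_sub_le_norm_sub_add_norm_sub (cay (w z)) (cay (w m)) (cay (w u))
  rw [norm_sub_rev] at a1
  linarith

lemma Bil.hold (hw : Bil w) (z u : ℍ) : ‖cay (w z) - cay (w u)‖ ≤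
    10 * (Real.sinh 1 * (2 * Real.exp (dist (w I) I / 2))) *
      √√(2 * ‖cay z - cay u‖ + √(1 - ‖cay z‖ ^ 2)) := by
  have s1 : 0 < Real.sinh 1 := Real.sinh_pos_iff.2 one_pos
  refine (hw.gromov z u).trans (mul_le_mul_of_nonneg_left ?_ (by positivity))
  refine Real.le_sqrt_of_sq_le (Real.le_sqrt_of_sq_le (le_trans (le_of_eq ?_) (exp_gromov z u)))
  rw [← pow_mul, ← Real.exp_nat_mul]
  congr 1
  push_cast
  ring

/-- approach to a point of the unit circle -/
noncomputable def FG (ζ : ℂ) : Filter ℍ := comap (fun z : ℍ => cay z) (𝓝 ζ)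

/-- approach to a real point -/
noncomputable def FR (x : ℝ) : Filter ℍ := comap (fun z : ℍ => (z : ℂ)) (𝓝 (x : ℂ))

lemma FG_neBot {ζ : ℂ} (h : ‖ζ‖ = 1) : (FG ζ).NeBot := by
  refine comap_neBot fun t ht => ?_
  have T : Tendsto (fun r : ℝ => (r : ℂ) * ζ) (𝓝[<] 1) (𝓝 ζ) := by
    refine tendsto_nhdsWithin_of_tendsto_nhds ?_
    have : Continuous fun r : ℝ => (r : ℂ) * ζ := by fun_prop
    simpa using this.tendsto 1
  obtain ⟨r, r1, r2⟩ := ((T.eventually ht).and (Ioo_mem_nhdsLT one_pos)).exists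
  have n1 : ‖(r : ℂ) * ζ‖ < 1 := by
    rw [norm_mul, h, mul_one, Complex.norm_real, Real.norm_eq_abs, abs_of_pos r2.1]
    exact r2.2
  have n2 : 1 - (r : ℂ) * ζ ≠ 0 := by
    intro e
    rw [← sub_eq_zero.1 e, norm_one] at n1
    exact lt_irrefl _ n1
  have n3 : 0 < (cai (r * ζ)).im := by
    have a1 := im_cai n2
    have a2 : 0 < 1 - ‖(r : ℂ) * ζ‖ ^ 2 := by nlinarith [norm_nonneg ((r : ℂ) * ζ)]
    by_contra hn
    have := mul_nonpos_of_nonpos_of_nonneg (not_lt.1 hn) (Complex.normSq_nonneg (1 - r * ζ))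
    linarith
  exact ⟨⟨cai (r * ζ), n3⟩, by change cay (cai _) ∈ t; rwa [cay_cai n2]⟩

lemma FG_unique {ζ ξ : ℂ} (h : ‖ζ‖ = 1) (hle : Tendsto id (FG ζ) (FG ξ)) : ζ = ξ := by
  have := FG_neBot h
  exact tendsto_nhds_unique (l := FG ζ) (f := fun z : ℍ => cay z) tendsto_comap
    (tendsto_comap_iff.1 hle)

lemma norm_cay_real (x : ℝ) : ‖cay x‖ = 1 := by
  have h := add_I_ne (z := (x : ℂ)) (by simp)
  unfold cay
  rw [norm_div, div_eq_one_iff_eq (norm_ne_zero_iff.2 h), ← Complex.norm_conj]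
  simp

lemma FG_cay (x : ℝ) : FG (cay x) = FR x := by
  have h0 : 0 ≤ (x : ℂ).im := by simp
  apply le_antisymm
  · refine Tendsto.le_comap ?_
    have c : ContinuousAt cai (cay x) := by
      unfold cai
      exact ContinuousAt.div (by fun_prop) (by fun_prop) (one_sub_cay h0)
    have := c.tendsto.comp (tendsto_comap (f := fun z : ℍ => cay z))
    rw [cai_cay h0] at this
    exact this.congr fun z => cai_cay z.im_pos.le
  · refine Tendsto.le_comap ?_
    have c : ContinuousAt cay x := by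
      unfold cay
      exact ContinuousAt.div (by fun_prop) (by fun_prop) (add_I_ne h0)
    exact c.tendsto.comp tendsto_comap

lemma FR_neBot (x : ℝ) : (FR x).NeBot := FG_cay x ▸ FG_neBot (norm_cay_real x)

lemma exists_cay {ξ : ℂ} (h : ‖ξ‖ = 1) (h1 : ξ ≠ 1) : ∃ y : ℝ, cay y = ξ := by
  have n2 : 1 - ξ ≠ 0 := sub_ne_zero.2 h1.symm
  have a1 := im_cai n2
  rw [h, one_pow, sub_self, mul_eq_zero] at a1
  have a2 : (cai ξ).im = 0 := a1.resolve_right (by simpa using n2)
  refine ⟨(cai ξ).re, ?_⟩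
  rw [show ((cai ξ).re : ℂ) = cai ξ from Complex.ext (by simp) (by simp [a2]), cay_cai n2]

theorem Bil.ext (hw : Bil w) {ζ : ℂ} (h : ‖ζ‖ = 1) :
    ∃ ξ : ℂ, ‖ξ‖ = 1 ∧ Tendsto w (FG ζ) (FG ξ) := by
  have := FG_neBot h
  have T0 : Tendsto (fun z : ℍ => cay z) (FG ζ) (𝓝 ζ) := tendsto_comap
  have T1 : Tendsto (fun z : ℍ => √(1 - ‖cay z‖ ^ 2)) (FG ζ) (𝓝 0) := by
    have := ((T0.norm.pow 2).const_sub 1).sqrt
    simpa [h] using this
  obtain ⟨ξ, hξ⟩ : ∃ ξ, Tendsto (fun z : ℍ => cay (w z)) (FG ζ) (𝓝 ξ) := by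
    rw [← cauchy_map_iff_exists_tendsto, cauchy_map_iff',
      tendsto_uniformity_iff_dist_tendsto_zero]
    have T2 := (((((T0.comp tendsto_fst).sub (T0.comp tendsto_snd)).norm.const_mul 2).add
      (T1.comp tendsto_fst)).sqrt.sqrt).const_mul
      (10 * (Real.sinh 1 * (2 * Real.exp (dist (w I) I / 2))))
    simp only [sub_self, norm_zero, mul_zero, add_zero, Real.sqrt_zero] at T2
    refine squeeze_zero (fun _ => dist_nonneg) (fun p => ?_) T2
    rw [dist_eq_norm]
    exact hw.hold p.1 p.2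
  refine ⟨ξ, ?_, tendsto_comap_iff.2 hξ⟩
  have T3 := T1.const_mul (4 * Real.exp (dist (w I) I))
  rw [mul_zero] at T3
  have T4 : Tendsto (fun z : ℍ => 1 - ‖cay (w z)‖ ^ 2) (FG ζ) (𝓝 0) := by
    refine squeeze_zero (fun z => ?_) (fun z => ?_) T3
    · exact nonneg_of_mul_nonneg_left ((cay_norm (w z)).symm ▸ zero_le_one)
        (pow_pos (Real.cosh_pos _) 2)
    · have a1 := cay_norm (w z)
      have a2 := exp_le_cosh (dist (w z) I / 2)
      have a3 : 1 ≤ Real.exp (dist (w z) I / 2) ^ 2 *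
          (Real.exp (dist (w I) I) * Real.exp (-(dist z I / 2))) := by
        rw [← Real.exp_nat_mul, ← Real.exp_add, ← Real.exp_add]
        refine Real.one_le_exp ?_
        push_cast
        linarith [hw.far z]
      have a4 := exp_le_sqrt z
      have p := Real.cosh_pos (dist (w z) I / 2)
      refine le_of_mul_le_mul_right ?_ (pow_pos p 2)
      rw [a1]
      calc (1 : ℝ) ≤ _ := a3
        _ ≤ (2 * Real.cosh (dist (w z) I / 2)) ^ 2 *
          (Real.exp (dist (w I) I) * √(1 - ‖cay z‖ ^ 2)) := by gcongr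
        _ = _ := by ring
  have a := tendsto_nhds_unique T4 ((hξ.norm.pow 2).const_sub 1)
  exact (pow_eq_one_iff_of_nonneg (norm_nonneg ξ) two_ne_zero).1 (by linarith)

lemma cont_bdry {h : ℝ → ℝ} (H : ∀ x, Tendsto w (FR x) (FR (h x))) : Continuous h := by
  refine Metric.continuous_iff.2 fun x ε ε0 => ?_
  have h1 := (Metric.tendsto_nhds.1 (tendsto_comap_iff.1 (H x))) (ε / 2) (half_pos ε0)
  obtain ⟨δ, δ0, hδ⟩ := Metric.eventually_nhds_iff.1 (eventually_comap.1 h1)
  refine ⟨δ, δ0, fun y hy => ?_⟩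
  have := FR_neBot y
  have h2 : ∀ᶠ z : ℍ in FR y, dist (z : ℂ) x < δ :=
    ((tendsto_comap (f := fun z : ℍ => (z : ℂ))).dist tendsto_const_nhds).eventually_lt_const
      (by rwa [Complex.dist_of_im_eq (by simp)])
  have h3 := le_of_tendsto ((tendsto_comap_iff.1 (H y)).dist (tendsto_const_nhds (x := (h x : ℂ))))
    (h2.mono fun z hz => (hδ hz z rfl).le)
  rw [Complex.dist_of_im_eq (by simp)] at h3
  exact lt_of_le_of_lt h3 (half_lt_self ε0)

lemma Bil.half (hw : Bil w) {v : ℍ → ℍ} (hv : ∀ z, v (w z) = z) (T : Tendsto v (FG 1) (FG 1))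
    (x : ℝ) : ∃ y : ℝ, Tendsto w (FR x) (FR y) := by
  obtain ⟨ξ, h1, h2⟩ := hw.ext (norm_cay_real x)
  have h3 : ξ ≠ 1 := by
    rintro rfl
    have := FG_unique (norm_cay_real x) ((T.comp h2).congr hv)
    exact one_sub_cay (z := (x : ℂ)) (by simp) (by rw [this, sub_self])
  obtain ⟨y, rfl⟩ := exists_cay h1 h3
  exact ⟨y, by rwa [FG_cay, FG_cay] at h2⟩

lemma FR_unique {x y : ℝ} (h : Tendsto id (FR x) (FR y)) : x = y := by
  have := FR_neBot x
  exact Complex.ofReal_injective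
    (tendsto_nhds_unique (l := FR x) (f := fun z : ℍ => (z : ℂ)) tendsto_comap
      (tendsto_comap_iff.1 h))

lemma bdry_fix (w : ℍ ≃ₜ ℍ) (hw : Bil w) (T : Tendsto w (FG 1) (FG 1)) :
    ∃ h : ℝ ≃ₜ ℝ, ∀ x, Tendsto w (FR x) (FR (h x)) := by
  have hv : Bil w.symm := fun z u => by
    have := hw (w.symm z) (w.symm u)
    simp only [Homeomorph.apply_symm_apply] at this
    exact this.symm
  obtain ⟨ξ, -, T'⟩ := hv.ext (ζ := 1) norm_one
  obtain rfl : 1 = ξ := FG_unique norm_one ((T'.comp T).congr w.symm_apply_apply)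
  choose h hh using hw.half w.symm_apply_apply T'
  choose k hk using hv.half w.apply_symm_apply T
  exact ⟨⟨⟨h, k, fun x => (FR_unique (((hk _).comp (hh x)).congr w.symm_apply_apply)).symm,
    fun x => (FR_unique (((hh _).comp (hk x)).congr w.apply_symm_apply)).symm⟩,
    cont_bdry hh, cont_bdry hk⟩, hh⟩

theorem bdry (w : ℍ ≃ₜ ℍ) (hw : Bil w) : ∃ (N : SL(2, ℝ)) (h : ℝ ≃ₜ ℝ),
    ∀ x, Tendsto (fun z => N • w z) (FR x) (FR (h x)) := by
  obtain ⟨N, hN⟩ : ∃ N : SL(2, ℝ), Tendsto (fun z => N • w z) (FG 1) (FG 1) := by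
    obtain ⟨ξ, h1, h2⟩ := hw.ext (ζ := 1) norm_one
    by_cases h3 : ξ = 1
    · exact ⟨1, by simpa [h3] using h2⟩
    obtain ⟨y, rfl⟩ := exists_cay h1 h3
    rw [FG_cay] at h2
    refine ⟨mk4 0 (-1) 1 (-y) (by ring), Tendsto.comp (g := fun z : ℍ => _ • z) ?_ h2⟩
    refine tendsto_comap_iff.2 ?_
    have c : ContinuousAt (fun z : ℂ => (-1 - Complex.I * (z - y)) / (-1 + Complex.I * (z - y))) y :=
      ContinuousAt.div (by fun_prop) (by fun_prop) (by simp)
    have := c.tendsto.comp (tendsto_comap (f := fun z : ℍ => (z : ℂ)))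
    simp only [sub_self, mul_zero, sub_zero, add_zero, div_self (show (-1 : ℂ) ≠ 0 by norm_num)] at this
    refine this.congr fun z => ?_
    have e := smul_den (mk4 0 (-1) 1 (-y) (by ring)) z
    have n := cden_ne (mk4 0 (-1) 1 (-y) (by ring)) z
    simp only [mk00, mk01, mk10, mk11] at e n
    push_cast at e n
    simp only [Function.comp_apply, cay]
    symm
    rw [← mul_div_mul_right _ _ n, sub_mul, add_mul, e]
    congr 1 <;> ring
  obtain ⟨h, hh⟩ := bdry_fix (w.trans (Homeomorph.smul N)) (fun z u => by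
    change dist (N • w z) (N • w u) ≤ _ ∧ _ ≤ 2 * dist (N • w z) (N • w u)
    rw [dist_smul]
    exact hw z u) hN
  exact ⟨N, h, hh⟩

end Pool.Agent.Lib.MP_23eee6_gt.Rig
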