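import Pool.Agent.Lib.MP_23eee6_gt.SHyp

set_option autoImplicit false

namespace Pool.Agent.Lib.MP_23eee6_gt.Rig

open MatrixGroups Filter Topology Set UpperHalfPlane

/-- data for the equivariant gluing of a collapse supported inside a Dirichlet domain -/
structure GD (Γ : Subgroup SL(2, ℝ)) (p : ℍ) (S : Set ℍ) (c : ℍ ≃ₜ ℍ) : Prop where
  fin : ∀ R : ℝ, {g | g ∈ Γ ∧ dist p (g • p) ≤ R}.Finite
  stab : ∀ g ∈ Γ, g • p = p → ∀ z : ℍ, g • z = z
  closed : IsClosed S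
  strict : ∀ z ∈ S, ∀ g ∈ Γ, g • p ≠ p → dist z p < dist z (g • p)
  c1 : ∀ z u, dist (c z) (c u) ≤ dist z u
  c2 : ∀ z u, dist z u ≤ 2 * dist (c z) (c u)
  c3 : ∀ Y : Set ℍ, IsPreconnected Y → Disjoint Y S → ∃ T : SL(2, ℝ), ∀ y ∈ Y, c y = T • y

/-- translates of the support -/
def St (S : Set ℍ) (g : SL(2, ℝ)) : Set ℍ := {z | g⁻¹ • z ∈ S}

/-- Dirichlet domains -/
def Dom (Γ : Subgroup SL(2, ℝ)) (p : ℍ) (g : SL(2, ℝ)) : Set ℍ :=
  {z | ∀ k ∈ Γ, dist z (g • p) ≤ dist z (k • p)}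

variable {Γ : Subgroup SL(2, ℝ)} {p : ℍ} {S : Set ℍ} {c : ℍ ≃ₜ ℍ}

lemma GD.St_lt (G : GD Γ p S c) {g k : SL(2, ℝ)} (hg : g ∈ Γ) (hk : k ∈ Γ) {z : ℍ}
    (hz : z ∈ St S g) (hne : k • p ≠ g • p) : dist z (g • p) < dist z (k • p) := by
  have := G.strict _ hz _ (Γ.mul_mem (Γ.inv_mem hg) hk) (by
    rwa [mul_smul, Ne, inv_smul_eq_iff])
  rwa [mul_smul, dist_smul, ← dist_smul g, smul_inv_smul] at this

lemma GD.St_sub (G : GD Γ p S c) {g : SL(2, ℝ)} (hg : g ∈ Γ) : St S g ⊆ Dom Γ p g := by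
  intro z hz k hk
  by_cases e : k • p = g • p
  · rw [e]
  · exact (G.St_lt hg hk hz e).le

lemma GD.disj (G : GD Γ p S c) {g k : SL(2, ℝ)} (hg : g ∈ Γ) (hk : k ∈ Γ) (hne : k • p ≠ g • p) :
    Disjoint (Dom Γ p k) (St S g) :=
  disjoint_left.2 fun _ h1 h2 => absurd (G.St_lt hg hk h2 hne) (not_lt.2 (h1 g hg))

lemma GD.same (G : GD Γ p S c) {g k : SL(2, ℝ)} (hg : g ∈ Γ) (hk : k ∈ Γ) (e : g • p = k • p)
    (z : ℍ) : g⁻¹ • z = k⁻¹ • z := by
  have := G.stab _ (Γ.mul_mem (Γ.inv_mem hk) hg) (by rw [mul_smul, e, inv_smul_smul]) (g⁻¹ • z)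
  rw [mul_smul, smul_inv_smul] at this
  exact this.symm

lemma Dom_pre (g : SL(2, ℝ)) : IsPreconnected (Dom Γ p g) := by
  refine star (q := g • p) fun z hz m hm k hk => ?_
  have := hz k hk
  linarith [dist_triangle z m (k • p)]

lemma Dom_mem (g : SL(2, ℝ)) : g • p ∈ Dom Γ p g := fun k _ => by
  rw [dist_self]; exact dist_nonneg

lemma pre_smul {Y : Set ℍ} (hY : IsPreconnected Y) (A : SL(2, ℝ)) {W : ℍ → ℍ} (hW : Continuous W) :
    IsPreconnected ((fun y => A • W y) '' Y) :=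
  hY.image _ (hW.const_smul A).continuousOn

/-- invariant of the finite stages -/
structure Inv (p : ℍ) (S : Set ℍ) (c : ℍ ≃ₜ ℍ) (e : ℕ → SL(2, ℝ)) (n : ℕ) (W : ℍ ≃ₜ ℍ) : Prop where
  lip : ∀ z u, dist (W z) (W u) ≤ dist z u
  i1 : ∀ Y : Set ℍ, IsPreconnected Y → (∀ j < n, Disjoint Y (St S (e j))) →
    ∃ T : SL(2, ℝ), ∀ y ∈ Y, W y = T • y
  i2 : ∀ i < n, ∀ Y : Set ℍ, IsPreconnected Y →
    (∀ j < n, e j • p ≠ e i • p → Disjoint Y (St S (e j))) →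
    ∃ T : SL(2, ℝ), ∀ y ∈ Y, W y = T • c ((e i)⁻¹ • y)

lemma GD.step (G : GD Γ p S c) {e : ℕ → SL(2, ℝ)} (he : ∀ n, e n ∈ Γ) (n : ℕ) (W : ℍ ≃ₜ ℍ)
    (I : Inv p S c e n W) : ∃ W', Inv p S c e (n + 1) W' ∧
      (∀ Y : Set ℍ, IsPreconnected Y → p ∈ Y → Disjoint Y (St S (e n)) → ∀ y ∈ Y, W' y = W y) ∧
      ((∃ j < n, e j • p = e n • p) → W' = W) := by
  by_cases hs : ∃ j < n, e j • p = e n • p
  · obtain ⟨i0, hi0, e0⟩ := hs
    refine ⟨W, ⟨I.lip, fun Y hY h => I.i1 Y hY fun j hj => h j (by omega), fun i hi Y hY h => ?_⟩,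
      fun _ _ _ _ _ _ => rfl, fun _ => rfl⟩
    rcases Nat.lt_succ_iff_lt_or_eq.1 hi with hi | rfl
    · exact I.i2 i hi Y hY fun j hj => h j (by omega)
    · obtain ⟨T, hT⟩ := I.i2 i0 hi0 Y hY fun j hj hne => h j (by omega) (e0 ▸ hne)
      exact ⟨T, fun y hy => by rw [hT y hy, G.same (he i0) (he i) e0]⟩
  push Not at hs
  set g := e n with hg
  set U : Set ℍ := {z | ∀ j < n, z ∉ St S (e j)} with hU
  have hDU : Dom Γ p g ⊆ U := fun z hz j hj =>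
    disjoint_left.1 (G.disj (he j) (he n) (hs j hj).symm) hz
  obtain ⟨A, hA⟩ := I.i1 (connectedComponentIn U (g • p)) isPreconnected_connectedComponentIn
    fun j hj => disjoint_left.2 fun z hz => connectedComponentIn_subset _ _ hz j hj
  have hDC := (Dom_pre (Γ := Γ) (p := p) g).subset_connectedComponentIn (Dom_mem g) hDU
  have K : ∀ Y : Set ℍ, IsPreconnected Y → Disjoint Y (St S g) → ∃ T : SL(2, ℝ), ∀ y ∈ Y,
      (A * g) • c ((A * g)⁻¹ • W y) = T • W y := by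
    intro Y hY hd
    obtain ⟨T, hT⟩ := G.c3 _ (pre_smul hY (A * g)⁻¹ W.continuous) (disjoint_left.2 (by
      rintro _ ⟨y, hy, rfl⟩ hs
      have a1 : g • (A * g)⁻¹ • W y ∈ St S g := by
        change g⁻¹ • g • (A * g)⁻¹ • W y ∈ S
        rwa [inv_smul_smul]
      have a2 := hA _ (hDC (G.St_sub (he n) a1))
      rw [← mul_smul A g, smul_inv_smul] at a2
      exact disjoint_left.1 hd hy (W.injective a2 ▸ a1)))
    exact ⟨A * g * T * (A * g)⁻¹, fun y hy => by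
      rw [hT _ ⟨y, hy, rfl⟩, mul_smul _ (A * g)⁻¹, mul_smul _ T]⟩
  obtain ⟨B, hB⟩ := K (connectedComponentIn (St S g)ᶜ p) isPreconnected_connectedComponentIn
    (disjoint_left.2 fun z hz => connectedComponentIn_subset _ _ hz)
  let W' : ℍ ≃ₜ ℍ := ((W.trans (Homeomorph.smul (A * g)⁻¹)).trans c).trans
    (Homeomorph.smul (B⁻¹ * (A * g)))
  have hW' : ∀ y, W' y = B⁻¹ • (A * g) • c ((A * g)⁻¹ • W y) := fun y =>
    mul_smul B⁻¹ (A * g) (c ((A * g)⁻¹ • W y))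
  have j1 : ∀ Y : Set ℍ, IsPreconnected Y → (∀ j < n + 1, Disjoint Y (St S (e j))) →
      ∃ T : SL(2, ℝ), ∀ y ∈ Y, W' y = T • y := by
    intro Y hY h
    obtain ⟨T1, h1⟩ := I.i1 Y hY fun j hj => h j (by omega)
    obtain ⟨T2, h2⟩ := K Y hY (h n (by omega))
    exact ⟨B⁻¹ * T2 * T1, fun y hy => by rw [hW', h2 y hy, h1 y hy, mul_smul, mul_smul]⟩
  refine ⟨W', ⟨fun z u => ?_, j1, fun i hi Y hY h => ?_⟩, fun Y hY hp hd y hy => ?_,
    fun ⟨j, hj, e0⟩ => absurd e0 (hs j hj)⟩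
  · rw [hW', hW', dist_smul, dist_smul]
    refine (G.c1 _ _).trans ?_
    rw [dist_smul]
    exact I.lip z u
  · rcases Nat.lt_succ_iff_lt_or_eq.1 hi with hi | rfl
    · obtain ⟨T1, h1⟩ := I.i2 i hi Y hY fun j hj => h j (by omega)
      obtain ⟨T2, h2⟩ := K Y hY (h n (by omega) (hs i hi).symm)
      exact ⟨B⁻¹ * T2 * T1, fun y hy => by rw [hW', h2 y hy, h1 y hy, mul_smul, mul_smul]⟩
    · by_cases hd : Disjoint Y (St S g)
      · obtain ⟨T1, h1⟩ := j1 Y hY fun j hj => by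
          rcases Nat.lt_succ_iff_lt_or_eq.1 hj with hj2 | rfl
          · exact h j hj (hs j hj2)
          · exact hd
        obtain ⟨T2, h2⟩ := G.c3 _ (pre_smul hY g⁻¹ continuous_id) (disjoint_left.2 (by
          rintro _ ⟨y, hy, rfl⟩ hs
          exact disjoint_left.1 hd hy hs))
        refine ⟨T1 * g * T2⁻¹, fun y hy => ?_⟩
        rw [h1 y hy, h2 (g⁻¹ • y) ⟨y, hy, rfl⟩, mul_smul, inv_smul_smul, mul_smul, smul_inv_smul]
      · obtain ⟨y0, y1, y2⟩ := not_disjoint_iff.1 hd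
        have a1 := (hY.union y0 y1 (G.St_sub (he i) y2) (Dom_pre g)).subset_connectedComponentIn
          (Or.inr (Dom_mem g)) (union_subset
            (fun z hz j hj => disjoint_left.1 (h j (by omega) (hs j hj)) hz) hDU)
        refine ⟨B⁻¹ * (A * g), fun y hy => ?_⟩
        rw [hW', hA y (a1 (Or.inl hy)), mul_inv_rev, mul_smul g⁻¹, inv_smul_smul, mul_smul B⁻¹]
  · rw [hW', hB y (hY.subset_connectedComponentIn hp (fun z hz => disjoint_left.1 hd hz) hy),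
      inv_smul_smul]

lemma GD.near (G : GD Γ p S c) (r : ℝ) :
    {g | g ∈ Γ ∧ ¬ Disjoint (Metric.ball p r) (St S g)}.Finite := by
  refine (G.fin (2 * r)).subset fun g hg => ⟨hg.1, ?_⟩
  obtain ⟨z, z1, z2⟩ := not_disjoint_iff.1 hg.2
  have := G.St_sub hg.1 z2 1 Γ.one_mem
  rw [one_smul] at this
  rw [Metric.mem_ball] at z1
  linarith [dist_triangle_left p (g • p) z]

lemma GD.loc (G : GD Γ p S c) (z : ℍ) : ∃ ε > 0, ∃ k ∈ Γ, ∀ g ∈ Γ, g • p ≠ k • p →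
    Disjoint (Metric.ball z ε) (St S g) := by
  obtain ⟨k, hk, h1⟩ : ∃ k ∈ Γ, ∀ g ∈ Γ, g • p ≠ k • p → z ∉ St S g := by
    by_cases h : ∃ k ∈ Γ, z ∈ St S k
    · obtain ⟨k, hk, hz⟩ := h
      exact ⟨k, hk, fun g hg hne => disjoint_left.1 (G.disj hg hk hne.symm) (G.St_sub hk hz)⟩
    · exact ⟨1, Γ.one_mem, fun g hg _ hz => h ⟨g, hg, hz⟩⟩
  have h2 : ∀ᶠ y in 𝓝 z, ∀ g ∈ {g | g ∈ Γ ∧ ¬ Disjoint (Metric.ball p (dist z p + 1)) (St S g)},
      g • p ≠ k • p → y ∉ St S g := by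
    refine (eventually_all_finite (G.near _)).2 fun g hg => ?_
    by_cases hne : g • p = k • p
    · exact Eventually.of_forall fun y h => absurd hne h
    · have : IsClosed (St S g) := G.closed.preimage (continuous_const_smul g⁻¹)
      filter_upwards [this.isOpen_compl.mem_nhds (h1 g hg.1 hne)] with y hy _
      exact hy
  obtain ⟨ε, ε0, hε⟩ := Metric.eventually_nhds_iff_ball.1
    (h2.and (Metric.isOpen_ball.mem_nhds (show z ∈ Metric.ball p (dist z p + 1) from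
      Metric.mem_ball.2 (lt_add_one _))))
  refine ⟨ε, ε0, k, hk, fun g hg hne => disjoint_left.2 fun y hy hy2 => ?_⟩
  exact (hε y hy).1 g ⟨hg, not_disjoint_iff.2 ⟨y, (hε y hy).2, hy2⟩⟩ hne hy2

lemma GD.inv_lip (G : GD Γ p S c) {e : ℕ → SL(2, ℝ)} (he : ∀ n, e n ∈ Γ) {n : ℕ} {W : ℍ ≃ₜ ℍ}
    (I : Inv p S c e n W) (z u : ℍ) : dist z u ≤ 2 * dist (W z) (W u) := by
  have := loc_glob (f := W.symm) (K := 2) (fun v => ?_) (W z) (W u)
  · simpa using this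
  obtain ⟨ε, ε0, k, hk, h1⟩ := G.loc (W.symm v)
  have h2 : ∀ y ∈ Metric.ball (W.symm v) ε, ∀ y' ∈ Metric.ball (W.symm v) ε,
      dist y y' ≤ 2 * dist (W y) (W y') := by
    intro y hy y' hy'
    by_cases h : ∃ i < n, e i • p = k • p
    · obtain ⟨i, hi, e0⟩ := h
      obtain ⟨T, hT⟩ := I.i2 i hi _ (ball_pre _ ε) fun j _ hne => h1 _ (he j) (e0 ▸ hne)
      rw [hT y hy, hT y' hy', dist_smul, ← dist_smul (e i)⁻¹ y]
      exact G.c2 _ _
    · obtain ⟨T, hT⟩ := I.i1 _ (ball_pre _ ε) fun j hj => h1 _ (he j) fun e0 => h ⟨j, hj, e0⟩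
      rw [hT y hy, hT y' hy', dist_smul]
      linarith [dist_nonneg (x := y) (y := y')]
  obtain ⟨δ, δ0, hδ⟩ := Metric.mem_nhds_iff.1
    (W.symm.continuous.continuousAt.preimage_mem_nhds (Metric.ball_mem_nhds (W.symm v) ε0))
  refine ⟨δ, δ0, fun a ha b hb => ?_⟩
  simpa using h2 _ (hδ ha) _ (hδ hb)

theorem GD.glue (G : GD Γ p S c) (hc : (Γ : Set SL(2, ℝ)).Countable) : ∃ w : ℍ ≃ₜ ℍ,
    (∀ z u, dist (w z) (w u) ≤ dist z u ∧ dist z u ≤ 2 * dist (w z) (w u)) ∧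
    (∃ T : SL(2, ℝ), ∀ z ∈ Dom Γ p 1, w z = T • c z) ∧
    ∀ g ∈ Γ, ∃ g' : SL(2, ℝ), ∀ z, w (g • z) = g' • w z := by
  obtain ⟨e, e0, he, hs⟩ : ∃ e : ℕ → SL(2, ℝ), e 0 = 1 ∧ (∀ n, e n ∈ Γ) ∧
      ∀ g ∈ Γ, ∃ n, e n = g := by
    obtain ⟨f, hf⟩ := hc.exists_eq_range ⟨1, Γ.one_mem⟩
    refine ⟨fun n => Nat.casesOn n 1 f, rfl, fun n => ?_, fun g hg => ?_⟩
    · cases n with
      | zero => exact Γ.one_mem
      | succ n => exact (hf ▸ mem_range_self n : f n ∈ (Γ : Set SL(2, ℝ)))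
    · obtain ⟨n, hn⟩ : g ∈ range f := hf ▸ hg
      exact ⟨n + 1, hn⟩
  choose! F F1 F2 F3 using G.step he
  let W : ℕ → ℍ ≃ₜ ℍ := fun n => Nat.rec (Homeomorph.refl ℍ) F n
  have hW : ∀ n, W (n + 1) = F n (W n) := fun n => rfl
  have I : ∀ n, Inv p S c e n (W n) := by
    intro n
    induction n with
    | zero => exact ⟨fun z u => le_rfl, fun Y _ _ => ⟨1, fun y _ => (one_smul _ y).symm⟩,
        fun i hi => absurd hi (Nat.not_lt_zero i)⟩
    | succ n ih => exact F1 n _ ih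
  choose! idx hidx using hs
  have stab : ∀ r, ∃ N, ∀ n ≥ N, ∀ z ∈ Metric.ball p r, W n z = W N z := by
    intro r
    obtain ⟨N, hN⟩ := ((G.near r).image idx).bddAbove
    refine ⟨N + 1, fun n hn z hz => ?_⟩
    induction n, hn using Nat.le_induction with
    | base => rfl
    | succ n hn ih =>
      rw [← ih, hW]
      by_cases hd : Disjoint (Metric.ball p r) (St S (e n))
      · exact F2 n _ (I n) _ (ball_pre p r) (Metric.mem_ball_self (Metric.pos_of_mem_ball hz)) hd z hz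
      · have : idx (e n) ≤ N := hN ⟨e n, ⟨he n, hd⟩, rfl⟩
        rw [F3 n _ (I n) ⟨idx (e n), by omega, by rw [hidx _ (he n)]⟩]
  have ex : ∀ z, ∃ u, ∀ᶠ n in atTop, W n z = u := fun z => by
    obtain ⟨N, hN⟩ := stab (dist z p + 1)
    exact ⟨W N z, eventually_atTop.2 ⟨N, fun n hn => hN n hn z (Metric.mem_ball.2 (lt_add_one _))⟩⟩
  choose w hw using ex
  have unif : ∀ r, ∀ᶠ n in atTop, ∀ z ∈ Metric.ball p r, W n z = w z := fun r => by
    obtain ⟨N, hN⟩ := stab r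
    refine eventually_atTop.2 ⟨N, fun n hn z hz => ?_⟩
    obtain ⟨m, m1, m2⟩ := ((hw z).and (eventually_ge_atTop N)).exists
    rw [hN n hn z hz, ← m1, hN m m2 z hz]
  have bil : ∀ z u, dist (w z) (w u) ≤ dist z u ∧ dist z u ≤ 2 * dist (w z) (w u) := by
    intro z u
    obtain ⟨n, n1, n2⟩ := ((hw z).and (hw u)).exists
    rw [← n1, ← n2]
    exact ⟨(I n).lip z u, G.inv_lip he (I n) z u⟩
  have inj : Function.Injective w := fun z u h => by
    have := (bil z u).2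
    rwa [h, dist_self, mul_zero, dist_le_zero] at this
  have surj : Function.Surjective w := fun u => by
    obtain ⟨n, n1, n2⟩ := ((unif (2 * dist u (w p) + 1)).and (hw p)).exists
    refine ⟨(W n).symm u, ?_⟩
    rw [← n1 _ ?_, Homeomorph.apply_symm_apply]
    have := G.inv_lip he (I n) ((W n).symm u) p
    rw [Homeomorph.apply_symm_apply, n2] at this
    exact Metric.mem_ball.2 (by linarith)
  let E : ℍ ≃ ℍ := Equiv.ofBijective w ⟨inj, surj⟩
  have c1 : Continuous w := (LipschitzWith.mk_one fun z u => (bil z u).1).continuous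
  have c2 : Continuous E.symm := by
    refine (LipschitzWith.of_dist_le_mul (K := 2) fun z u => ?_).continuous
    have := (bil (E.symm z) (E.symm u)).2
    rwa [show w (E.symm z) = z from E.apply_symm_apply z,
      show w (E.symm u) = u from E.apply_symm_apply u] at this
  have J : ∀ k ∈ Γ, ∀ z ε, (∀ g ∈ Γ, g • p ≠ k • p → Disjoint (Metric.ball z ε) (St S g)) →
      ∃ T : SL(2, ℝ), ∀ y ∈ Metric.ball z ε, w y = T • c (k⁻¹ • y) := by
    intro k hk z ε h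
    obtain ⟨n, n1, n2⟩ := ((unif (ε + dist z p)).and (eventually_gt_atTop (idx k))).exists
    obtain ⟨T, hT⟩ := (I n).i2 _ n2 _ (ball_pre z ε) fun j _ hne =>
      h _ (he j) (by rwa [hidx k hk] at hne)
    refine ⟨T, fun y hy => ?_⟩
    rw [← n1 y (Metric.ball_subset_ball' le_rfl hy), hT y hy, hidx k hk]
  refine ⟨⟨E, c1, c2⟩, bil, ?_, fun g hg => ?_⟩
  · obtain ⟨T, hT⟩ := (I 1).i2 0 one_pos _ (Dom_pre (Γ := Γ) (p := p) 1) fun j hj hne =>
      absurd (by rw [Nat.lt_one_iff.1 hj]) hne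
    refine ⟨T, fun z hz => ?_⟩
    have a1 : ∀ n ≥ 1, W n z = W 1 z := by
      intro n hn
      induction n, hn using Nat.le_induction with
      | base => rfl
      | succ n hn ih =>
        rw [← ih, hW]
        by_cases hd : e 0 • p = e n • p
        · rw [F3 n _ (I n) ⟨0, hn, hd⟩]
        · refine F2 n _ (I n) _ (Dom_pre 1) ?_ (G.disj (he n) Γ.one_mem (e0 ▸ hd)) z hz
          simpa using Dom_mem (Γ := Γ) (p := p) 1
    obtain ⟨n, n1, n2⟩ := ((hw z).and (eventually_ge_atTop 1)).exists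
    change w z = _
    rw [← n1, a1 n n2, hT z hz, e0, inv_one, one_smul]
  · refine glob_moeb (V := fun z => w (g • z)) (w := w) inj fun z => ?_
    obtain ⟨ε, ε0, k, hk, h1⟩ := G.loc z
    obtain ⟨T, hT⟩ := J k hk z ε h1
    obtain ⟨T', hT'⟩ := J (g * k) (Γ.mul_mem hg hk) (g • z) ε fun m hm hne => by
      have a1 := h1 _ (Γ.mul_mem (Γ.inv_mem hg) hm) (by
        rwa [mul_smul, Ne, inv_smul_eq_iff, ← mul_smul])
      refine disjoint_left.2 fun y hy hy2 => disjoint_left.1 a1 (show g⁻¹ • y ∈ _ from ?_) ?_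
      · rwa [Metric.mem_ball, ← dist_smul g, smul_inv_smul]
      · change (g⁻¹ * m)⁻¹ • g⁻¹ • y ∈ S
        rwa [mul_inv_rev, inv_inv, mul_smul, smul_inv_smul]
    refine ⟨T' * T⁻¹, ?_⟩
    filter_upwards [Metric.ball_mem_nhds z ε0] with y hy
    rw [hT' (g • y) (by rwa [Metric.mem_ball, dist_smul]), hT y hy, mul_smul T', inv_smul_smul,
      mul_inv_rev, mul_smul, inv_smul_smul]

end Pool.Agent.Lib.MP_23eee6_gt.Rig
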