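import Pool.Agent.Lib.MP_23eee6_gt.SBC
import Pool.Agent.Lib.MP_23eee6_gt.SGlue
import Pool.Agent.Lib.MP_23eee6_gt.SBdry

set_option autoImplicit false

namespace Pool.Agent.Lib.MP_23eee6_gt.Rig

open MatrixGroups MeasureTheory Filter Topology Set UpperHalfPlane

/-- distribution function of a set -/
noncomputable def psi (E : Set ℝ) (x : ℝ) : ℝ := volume.real (E ∩ Iic x)

lemma psi_sub {E : Set ℝ} (hE : IsCompact E) {x y : ℝ} (h : x ≤ y) :
    psi E y = psi E x + volume.real (E ∩ Ioc x y) := by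
  unfold psi
  rw [← Iic_union_Ioc_eq_Iic h, inter_union_distrib_left, measureReal_union
    ((Iic_disjoint_Ioc le_rfl).mono inter_subset_right inter_subset_right)
    (hE.measurableSet.inter measurableSet_Ioc)
    ((measure_mono inter_subset_left).trans_lt hE.measure_lt_top).ne
    ((measure_mono inter_subset_left).trans_lt hE.measure_lt_top).ne]

lemma psi_lip {E : Set ℝ} (hE : IsCompact E) {x y : ℝ} (h : x ≤ y) :
    psi E x ≤ psi E y ∧ psi E y - psi E x ≤ y - x := by
  rw [psi_sub hE h]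
  refine ⟨le_add_of_nonneg_right measureReal_nonneg, ?_⟩
  rw [add_sub_cancel_left, ← Real.volume_real_Ioc_of_le h]
  exact measureReal_mono inter_subset_right (by simp)

lemma psi_cont {E : Set ℝ} (hE : IsCompact E) : Continuous (psi E) := by
  refine (LipschitzWith.mk_one fun x y => ?_).continuous
  rw [Real.dist_eq, Real.dist_eq]
  rcases le_total x y with h | h
  · have := psi_lip hE h
    rw [abs_sub_comm, abs_sub_comm x, abs_of_nonneg (sub_nonneg.2 this.1),
      abs_of_nonneg (sub_nonneg.2 h)]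
    exact this.2
  · have := psi_lip hE h
    rw [abs_of_nonneg (sub_nonneg.2 this.1), abs_of_nonneg (sub_nonneg.2 h)]
    exact this.2

theorem collapse {K : Set ℝ} (hK : IsCompact K) (h0 : 0 < volume K) :
    ∃ (E : Set ℝ) (φ φ' : ℝ → ℝ), E ⊆ K ∧ IsClosed E ∧ (∀ x, φ' (φ x) = x) ∧ (∀ x, φ (φ' x) = x) ∧
      (∀ x y, |φ x - φ y| ≤ 1 * |x - y|) ∧ (∀ x y, |φ' x - φ' y| ≤ 2 * |x - y|) ∧
      (∀ x y, x ≤ y → Disjoint (Icc x y) E → φ y - y = φ x - x) ∧
      ∃ κ : ℝ, {x | x ∈ K ∧ φ x = x - κ}.Infinite ∧ ∃ x ∈ K, φ x ≠ x - κ := by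
  have v0 : 0 < volume.real K := ENNReal.toReal_pos h0.ne' hK.measure_lt_top.ne
  obtain ⟨t, ht⟩ : ∃ t, psi K t = volume.real K / 2 := by
    obtain ⟨a, ha⟩ := hK.bddBelow
    obtain ⟨b, hb⟩ := hK.bddAbove
    refine mem_range_of_exists_le_of_exists_ge (psi_cont hK) ⟨a - 1, ?_⟩ ⟨b, ?_⟩
    · have : K ∩ Iic (a - 1) = ∅ :=
        eq_empty_of_forall_notMem fun x hx => by linarith [ha hx.1, mem_Iic.1 hx.2]
      rw [psi, this, measureReal_empty]
      linarith
    · rw [psi, inter_eq_left.2 fun x hx => mem_Iic.2 (hb hx)]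
      linarith
  have hE : IsCompact (K ∩ Iic t) := hK.inter_right isClosed_Iic
  have vE : volume.real (K ∩ Iic t) = volume.real K / 2 := ht
  set E := K ∩ Iic t with hEd
  let φ : ℝ → ℝ := fun x => x - psi E x / 2
  have key : ∀ x y, x ≤ y → (y - x) / 2 ≤ φ y - φ x ∧ φ y - φ x ≤ y - x := fun x y h => by
    have := psi_lip hE h
    simp only [φ]
    constructor <;> linarith [this.1, this.2]
  have key2 : ∀ x y, |x - y| ≤ 2 * |φ x - φ y| ∧ |φ x - φ y| ≤ 1 * |x - y| := fun x y => by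
    rcases le_total x y with h | h
    · have := key x y h
      rw [abs_sub_comm, abs_sub_comm (φ x), abs_of_nonneg (sub_nonneg.2 h),
        abs_of_nonneg (by linarith : 0 ≤ φ y - φ x)]
      constructor <;> linarith
    · have := key y x h
      rw [abs_of_nonneg (sub_nonneg.2 h), abs_of_nonneg (by linarith : 0 ≤ φ x - φ y)]
      constructor <;> linarith
  have inj : Function.Injective φ := fun x y h => by
    have := (key2 x y).1
    rw [h, sub_self, abs_zero, mul_zero, abs_nonpos_iff] at this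
    linarith
  have surj : Function.Surjective φ := fun u => by
    have b1 : ∀ x, 0 ≤ psi E x := fun x => measureReal_nonneg
    have b2 : ∀ x, psi E x ≤ volume.real E := fun x =>
      measureReal_mono inter_subset_left hE.measure_lt_top.ne
    refine mem_range_of_exists_le_of_exists_ge
      (continuous_id.sub ((psi_cont hE).div_const 2) : Continuous φ) ⟨u, ?_⟩
      ⟨u + volume.real E, ?_⟩
    · simp only [φ]; linarith [b1 u]
    · simp only [φ]; linarith [b2 (u + volume.real E)]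
  let e := Equiv.ofBijective φ ⟨inj, surj⟩
  refine ⟨E, φ, e.symm, inter_subset_left, hE.isClosed, e.symm_apply_apply, e.apply_symm_apply,
    fun x y => (key2 x y).2, fun x y => ?_, fun x y h hd => ?_, volume.real E / 2, ?_, ?_⟩
  · have := (key2 (e.symm x) (e.symm y)).1
    rwa [show φ (e.symm x) = x from e.apply_symm_apply x,
      show φ (e.symm y) = y from e.apply_symm_apply y] at this
  · have : E ∩ Ioc x y = ∅ :=
      disjoint_iff_inter_eq_empty.1 (hd.symm.mono_right Ioc_subset_Icc_self)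
    simp only [φ]
    rw [psi_sub hE h, this, measureReal_empty]
    ring
  · intro hf
    have a1 : volume (K \ E) = 0 := by
      refine (hf.subset fun x hx => ⟨hx.1, ?_⟩).measure_zero _
      have : t < x := not_le.1 fun h => hx.2 ⟨hx.1, h⟩
      simp only [φ, psi]
      rw [inter_eq_left.2 fun y hy => mem_Iic.2 (le_trans hy.2 this.le)]
    have a2 := measureReal_sdiff_add_inter (μ := volume) (s := K) hE.measurableSet
      hK.measure_lt_top.ne
    rw [inter_eq_right.2 inter_subset_left, vE, measureReal_def, a1] at a2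
    simp at a2
    linarith
  · obtain ⟨x, hx, hmin⟩ := hE.exists_isLeast (nonempty_of_measureReal_ne_zero (μ := volume)
      (by rw [vE]; linarith))
    refine ⟨x, hx.1, ?_⟩
    have : psi E x = 0 := by
      rw [psi, measureReal_def, measure_mono_null (t := {x})
        (fun y hy => le_antisymm hy.2 (hmin hy.1)) (measure_singleton x), ENNReal.toReal_zero]
    simp only [φ]
    rw [this, vE]
    linarith

lemma tendsto_smul_FR {g : SL(2, ℝ)} {x : ℝ} (h : den g x ≠ 0) :
    Tendsto (fun z : ℍ => g • z) (FR x) (FR (mob g x)) := by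
  refine tendsto_comap_iff.2 ?_
  have n : ((g 1 0 : ℝ) : ℂ) * x + ((g 1 1 : ℝ) : ℂ) ≠ 0 := by exact_mod_cast h
  have c : ContinuousAt (fun z : ℂ => (((g 0 0 : ℝ) : ℂ) * z + ((g 0 1 : ℝ) : ℂ)) /
      (((g 1 0 : ℝ) : ℂ) * z + ((g 1 1 : ℝ) : ℂ))) x :=
    ContinuousAt.div (by fun_prop) (by fun_prop) n
  have := c.tendsto.comp (tendsto_comap (f := fun z : ℍ => (z : ℂ)))
  unfold mob
  push_cast
  exact this.congr fun z => (Tile.coe_smul g z).symm

lemma lim_rel {α : Type} {l : Filter α} [l.NeBot] {f : α → ℍ} {R : SL(2, ℝ)} {y y' : ℝ}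
    (h1 : Tendsto f l (FR y)) (h2 : Tendsto (fun a => R • f a) l (FR y')) :
    y' * den R y = num R y := by
  have a1 : Tendsto (fun a => (f a : ℂ)) l (𝓝 y) := tendsto_comap_iff.1 h1
  have a2 : Tendsto (fun a => ((R • f a : ℍ) : ℂ)) l (𝓝 y') := tendsto_comap_iff.1 h2
  have := tendsto_nhds_unique
    ((a2.mul ((a1.const_mul ((R 1 0 : ℝ) : ℂ)).add_const ((R 1 1 : ℝ) : ℂ))).congr
      fun a => smul_den R (f a)) ((a1.const_mul ((R 0 0 : ℝ) : ℂ)).add_const ((R 0 1 : ℝ) : ℂ))
  unfold den num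
  exact_mod_cast this

lemma conj_of_lim {w : ℍ → ℍ} {h : ℝ → ℝ} (H : ∀ x, Tendsto w (FR x) (FR (h x)))
    {g g' : SL(2, ℝ)} (e : ∀ z, w (g • z) = g' • w z) : Conj h g g' := by
  intro x hx
  have := FR_neBot x
  have a := lim_rel (H x) (((H _).comp (tendsto_smul_FR hx)).congr e)
  have n : den g' (h x) ≠ 0 := by
    intro e0
    rw [e0, mul_zero] at a
    have d := det1 g'
    unfold den num at *
    have : (1 : ℝ) = 0 := by linear_combination -d + g' 0 0 * e0 + g' 1 0 * a
    exact one_ne_zero this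
  exact ⟨n, by rw [mob_eq g', eq_div_iff n, a]⟩

lemma tendsto_vert (x : ℝ) :
    Tendsto (fun t : ℝ => (⟨⟨x, Real.exp t⟩, Real.exp_pos t⟩ : ℍ)) atBot (FR x) := by
  refine tendsto_comap_iff.2 ?_
  have := ((Complex.continuous_ofReal.tendsto 0).comp Real.tendsto_exp_atBot).mul_const
    Complex.I |>.const_add (x : ℂ)
  simp only [Complex.ofReal_zero, zero_mul, add_zero] at this
  exact this.congr fun t => (Complex.mk_eq_add_mul_I x (Real.exp t)).symm

variable {Γ : Subgroup SL(2, ℝ)}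

lemma cosh_strip (a : ℝ) (g : SL(2, ℝ)) (u : ℍ)
    (hu : den (mk4 0 (-1) 1 (-a) (by ring))⁻¹ u.re ≠ 0) :
    2 * u.im * Real.cosh (dist u ((mk4 0 (-1) 1 (-a) (by ring) * g) • I)) =
      N2 g⁻¹ (mob (mk4 0 (-1) 1 (-a) (by ring))⁻¹ u.re) *
        ((1 + mob (mk4 0 (-1) 1 (-a) (by ring))⁻¹ u.re ^ 2) *
          den (mk4 0 (-1) 1 (-a) (by ring))⁻¹ u.re ^ 2) +
      u.im ^ 2 * (N2 g⁻¹ a * (1 + a ^ 2)) := by
  rw [cosh_formula, mul_inv_rev, num_mul _ hu, den_mul _ hu, mul10, mul11, mk10, mk11]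
  unfold N2
  rw [div_mul_cancel₀ _ (by positivity), ← mul_assoc, div_mul_cancel₀ _ (by positivity)]
  congr 1
  · ring
  · unfold num den
    rw [inv00, inv01, inv10, inv11]
    ring

theorem exists_def (hF : FinB Γ) (h2 : ∀ k ∈ Γ, 2 ≤ |tr k|) (hc : ¬ IsConservative Γ) :
    ∃ (w : ℍ ≃ₜ ℍ) (h : ℝ ≃ₜ ℝ),
      (∀ z u, dist (w z) (w u) ≤ dist z u ∧ dist z u ≤ 2 * dist (w z) (w u)) ∧
      (∀ x, Tendsto w (FR x) (FR (h x))) ∧ (¬ ∃ p q : ℝ, ∀ x, h x = p * x + q) ∧
      ∀ g ∈ Γ, ∃ g' : SL(2, ℝ), ∀ z, w (g • z) = g' • w z := by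
  have hD := Dir'_pos hF h2 hc
  obtain ⟨a, ha⟩ := nonempty_of_measure_ne_zero hD
  have weak : ∀ x ∈ Dir' Γ, ∀ g ∈ Γ, 1 ≤ N2 g x := fun x hx g hg => by
    by_cases g1 : g = 1
    · rw [g1, N2_one]
    by_cases g2 : g = -1
    · rw [g2, N2_neg, N2_one]
    exact (hx.2 g hg g1 g2).le
  have form := cosh_strip a
  set M := mk4 0 (-1) 1 (-a) (by ring) with hM
  obtain ⟨K, hK0, hK, vK⟩ : ∃ K, K ⊆ {y | den M⁻¹ y ≠ 0 ∧ mob M⁻¹ y ∈ Dir' Γ} ∧ IsCompact K ∧
      0 < volume K := by
    refine MeasurableSet.exists_lt_isCompact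
      (((continuous_den M⁻¹).measurable (measurableSet_singleton 0).compl).inter
        (measurable_mob M⁻¹ (Dir'_meas hF))) (pos_iff_ne_zero.2 fun h0 => hD ?_)
    refine measure_mono_null (fun x hx => ?_)
      (measure_union_null (null_preimage M h0) ((pole_finite M).measure_zero volume))
    by_cases hx0 : den M x = 0
    · exact Or.inr hx0
    · exact Or.inl ⟨hx0, den_inv_ne hx0, by rw [mem_preimage, mob_inv hx0]; exact hx⟩
  have KI : ∀ z : ℍ, (M • z).re ∈ K → ∀ g ∈ Γ, dist z I ≤ dist z (g • I) ∧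
      (g • I ≠ I → dist z I < dist z (g • I)) := by
    intro z hz g hg
    obtain ⟨k1, k2⟩ := hK0 hz
    have f1 := form 1 _ k1
    have f2 := form g _ k1
    rw [mul_smul, dist_smul] at f1 f2
    rw [one_smul, inv_one, N2_one, N2_one] at f1
    have p1 := (M • z).im_pos
    have w1 := weak _ k2 _ (Γ.inv_mem hg)
    have w2 := weak _ ha _ (Γ.inv_mem hg)
    have p2 : 0 < (1 + mob M⁻¹ (M • z).re ^ 2) * den M⁻¹ (M • z).re ^ 2 := by positivity
    have p3 : (M • z).im ^ 2 * (1 * (1 + a ^ 2)) ≤ (M • z).im ^ 2 * (N2 g⁻¹ a * (1 + a ^ 2)) := by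
      gcongr
    constructor
    · rw [← abs_of_nonneg (dist_nonneg (x := z) (y := I)),
        ← abs_of_nonneg (dist_nonneg (x := z) (y := g • I)), ← Real.cosh_le_cosh]
      refine le_of_mul_le_mul_left ?_ (mul_pos two_pos p1)
      rw [f1, f2]
      nlinarith
    · intro hne
      have w3 := k2.2 _ (Γ.inv_mem hg)
        (fun e => hne (pm_smul (Or.inl (inv_eq_one.1 e)) I))
        (fun e => hne (pm_smul (Or.inr (by rw [← inv_inv g, e, inv_neg, inv_one])) I))
      rw [← abs_of_nonneg (dist_nonneg (x := z) (y := I)),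
        ← abs_of_nonneg (dist_nonneg (x := z) (y := g • I)), ← Real.cosh_lt_cosh]
      refine lt_of_mul_lt_mul_left ?_ (mul_pos two_pos p1).le
      rw [f1, f2]
      nlinarith
  obtain ⟨E, φ, φ', e1, e2, e3, e4, e5, e6, e7, κ, e8, x0, x1, x2⟩ := collapse hK vK
  have i1 : ∀ z, Tile.hor φ' (Tile.hor φ z) = z := fun z => ext_re_im (e3 _) rfl
  have i2 : ∀ z, Tile.hor φ (Tile.hor φ' z) = z := fun z => ext_re_im (e4 _) rfl
  let c0 : ℍ ≃ₜ ℍ := ⟨⟨Tile.hor φ, Tile.hor φ', i1, i2⟩,
    (LipschitzWith.of_dist_le_mul (K := 1) (Tile.hor_one φ e5)).continuous,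
    (LipschitzWith.of_dist_le_mul (K := 2) (Tile.hor_two φ' e6)).continuous⟩
  let c : ℍ ≃ₜ ℍ := ((Homeomorph.smul M).trans c0).trans (Homeomorph.smul M⁻¹)
  have hcz : ∀ z, c z = M⁻¹ • Tile.hor φ (M • z) := fun z => rfl
  have G : GD Γ I {z | (M • z).re ∈ E} c := by
    refine ⟨fun R => (hF (2 * Real.cosh R)).subset fun g hg => ⟨hg.1, ?_⟩, fun g hg e => ?_,
      e2.preimage (continuous_re.comp (continuous_const_smul M)),
      fun z hz g hg => (KI z (e1 hz) g hg).2, fun z u => ?_, fun z u => ?_, fun Y hY hd => ?_⟩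
    · rw [← cosh_I]
      have : Real.cosh (dist I (g • I)) ≤ Real.cosh R := by
        rw [Real.cosh_le_cosh, abs_of_nonneg dist_nonneg, abs_of_nonneg (dist_nonneg.trans hg.2)]
        exact hg.2
      linarith
    · refine pm_smul (pm_of_sq4 (h2 g hg) ?_)
      rw [← cosh_I, e, dist_self, Real.cosh_zero, mul_one]
    · rw [hcz, hcz, dist_smul, ← dist_smul M z u]
      simpa using Tile.hor_one φ e5 (M • z) (M • u)
    · rw [hcz, hcz, dist_smul, ← dist_smul M z u]
      have := Tile.hor_two φ' e6 (Tile.hor φ (M • z)) (Tile.hor φ (M • u))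
      rwa [i1, i1] at this
    · obtain ⟨τ, hτ⟩ : ∃ τ, ∀ y ∈ Y, φ (M • y).re = (M • y).re + τ := by
        rcases Y.eq_empty_or_nonempty with rfl | ⟨y0, hy0⟩
        · exact ⟨0, fun y hy => absurd hy (notMem_empty y)⟩
        have oc := (hY.image (fun y => (M • y).re)
          (continuous_re.comp (continuous_const_smul M)).continuousOn).ordConnected
        have b : ∀ y ∈ Y, ∀ y' ∈ Y, Disjoint (Icc (M • y).re (M • y').re) E := fun y hy y' hy' =>
          disjoint_left.2 fun s hs hs2 => by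
            obtain ⟨v, hv, rfl⟩ := oc.out ⟨y, hy, rfl⟩ ⟨y', hy', rfl⟩ hs
            exact disjoint_left.1 hd hv hs2
        refine ⟨φ (M • y0).re - (M • y0).re, fun y hy => ?_⟩
        rcases le_total (M • y).re (M • y0).re with h | h
        · linarith [e7 _ _ h (b y hy y0 hy0)]
        · linarith [e7 _ _ h (b y0 hy0 y hy)]
      refine ⟨M⁻¹ * mk4 1 τ 0 1 (by ring) * M, fun y hy => ?_⟩
      rw [hcz, mul_smul, mul_smul]
      congr 1
      apply UpperHalfPlane.ext
      rw [Tile.coe_smul]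
      simp only [mk00, mk01, mk10, mk11]
      refine Complex.ext ?_ ?_
      · simpa [Tile.hor_re] using hτ y hy
      · simp [Tile.hor_im]
  obtain ⟨w, w1, ⟨T, w2⟩, w3⟩ := G.glue hF.countable
  obtain ⟨N, h, hh⟩ := bdry w fun z u =>
    ⟨(w1 z u).1.trans (by linarith [dist_nonneg (x := z) (y := u)]), (w1 z u).2⟩
  refine ⟨w.trans (Homeomorph.smul N), h, fun z u => ?_, hh, ?_, fun g hg => ?_⟩
  · change dist (N • w z) (N • w u) ≤ _ ∧ _ ≤ 2 * dist (N • w z) (N • w u)
    rw [dist_smul]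
    exact w1 z u
  · rintro ⟨α, β, hab⟩
    have α0 : α ≠ 0 := by
      rintro rfl
      exact one_ne_zero (h.injective (show h 1 = h 0 by rw [hab, hab]; ring))
    set R := N * T * M⁻¹ with hR
    have rel : ∀ x ∈ K, (α * num M⁻¹ x + β * den M⁻¹ x) * den R (φ x) =
        num R (φ x) * den M⁻¹ x := by
      intro x hx
      have k1 := (hK0 hx).1
      have a1 := (hh _).comp ((tendsto_smul_FR k1).comp (tendsto_vert x))
      have a2 := lim_rel (R := R) (tendsto_vert (φ x)) (a1.congr fun t => by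
        simp only [Function.comp_apply]
        rw [w2, hcz, smul_inv_smul, hR, mul_smul, mul_smul]
        · rfl
        · intro k hk
          rw [one_smul]
          exact (KI _ (by rw [smul_inv_smul]; exact hx) k hk).1)
      rw [hab] at a2
      rw [← a2, ← mob_den k1]
      ring
    simp only [num, den, inv00, inv01, inv10, inv11, hM, mk00, mk01, mk10, mk11] at rel
    have d := det1 R
    have q : (α * a + β) * R 1 0 - R 0 0 = 0 ∧
        (α * a + β) * (R 1 1 - R 1 0 * κ) - α * R 1 0 + R 0 0 * κ - R 0 1 = 0 ∧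
        -(α * (R 1 1 - R 1 0 * κ)) = 0 := by
      by_contra hn
      refine e8 ((quad_finite hn).subset fun x hx => ?_)
      have := rel x hx.1
      rw [hx.2] at this
      simp only [mem_ofPred_eq]
      linear_combination -this
    obtain ⟨q1, q2, q3⟩ := q
    have q4 : R 1 1 = R 1 0 * κ := by
      have := (mul_eq_zero.1 (neg_eq_zero.1 q3)).resolve_left α0
      linarith
    have q5 : R 1 0 ≠ 0 := by
      intro e
      rw [q4, e] at d
      simp at d
    apply x2
    apply mul_left_cancel₀ (mul_ne_zero α0 q5)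
    linear_combination rel x0 x1 - α * q4 + x0 * (φ x0 + κ) * q1 + x0 * q2
  · obtain ⟨g', hg'⟩ := w3 g hg
    refine ⟨N * g' * N⁻¹, fun z => ?_⟩
    change N • w (g • z) = _ • N • w z
    rw [hg', mul_smul, mul_smul, inv_smul_smul]

end Pool.Agent.Lib.MP_23eee6_gt.Rig
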