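import Pool.Agent.Lib.MP_23eee6_gt.SQs
import Pool.Agent.Lib.MP_23eee6_gt.RAff

set_option autoImplicit false

namespace Pool.Agent.Lib.MP_23eee6_gt.Rig

open MatrixGroups Filter Topology Set UpperHalfPlane

/-- the conjugated group -/
def conjGroup (Γ : Subgroup SL(2, ℝ)) (w : ℍ → ℍ) : Subgroup SL(2, ℝ) where
  carrier := {g' | ∃ g ∈ Γ, ∀ z, w (g • z) = g' • w z}
  one_mem' := ⟨1, Γ.one_mem, fun z => by rw [one_smul, one_smul]⟩
  mul_mem' := by
    rintro a b ⟨g, hg, h1⟩ ⟨k, hk, h2⟩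
    exact ⟨g * k, Γ.mul_mem hg hk, fun z => by rw [mul_smul, h1, h2, mul_smul]⟩
  inv_mem' := by
    rintro a ⟨g, hg, h1⟩
    exact ⟨g⁻¹, Γ.inv_mem hg, fun z => by rw [eq_inv_smul_iff, ← h1, smul_inv_smul]⟩

lemma continuous_sq4 : Continuous sq4 := by
  have c : ∀ i j, Continuous fun g : SL(2, ℝ) => g i j := fun i j =>
    (continuous_apply j).comp (Matrix.SpecialLinearGroup.continuous_apply _ continuous_id i)
  unfold sq4
  exact ((((c 0 0).pow 2).add ((c 0 1).pow 2)).add ((c 1 0).pow 2)).add ((c 1 1).pow 2)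

lemma discrete_of_finite {Δ : Subgroup SL(2, ℝ)} (h : {g | g ∈ Δ ∧ sq4 g < 3}.Finite) :
    DiscreteTopology Δ := by
  rw [discreteTopology_iff_isOpen_singleton_one]
  have h1 : IsOpen {g : Δ | sq4 g < 3} :=
    isOpen_lt (continuous_sq4.comp continuous_subtype_val) continuous_const
  have h2 : {g : Δ | sq4 g < 3}.Finite :=
    (h.preimage Subtype.val_injective.injOn).subset fun g hg => ⟨g.2, hg⟩
  have h3 : ({1} : Set Δ) = {g : Δ | sq4 g < 3} \ ({g : Δ | sq4 g < 3} \ {1}) := by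
    rw [sdiff_sdiff_cancel_left]
    rintro _ rfl
    norm_num [sq4]
  rw [h3]
  exact h1.sdiff (h2.subset sdiff_subset).isClosed

lemma conjGroup_discrete {Γ : Subgroup SL(2, ℝ)} (hF : FinB Γ) (w : ℍ ≃ₜ ℍ)
    (hw : ∀ z u, dist z u ≤ 2 * dist (w z) (w u)) : DiscreteTopology (conjGroup Γ w) := by
  apply discrete_of_finite
  have key : ∀ g : SL(2, ℝ), {g' : SL(2, ℝ) | ∀ z, w (g • z) = g' • w z}.Finite := by
    intro g
    rcases eq_empty_or_nonempty {g' : SL(2, ℝ) | ∀ z, w (g • z) = g' • w z} with e | ⟨a, ha⟩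
    · rw [e]; exact finite_empty
    refine (toFinite {a, -a}).subset fun b hb => ?_
    obtain ⟨z, u, hzu⟩ := exists_pair_ne ℍ
    have f : ∀ z, (a⁻¹ * b) • w z = w z := fun z => by
      rw [mul_smul, ← hb z, ha z, inv_smul_smul]
    rcases two_fix (f z) (f u) (w.injective.ne hzu) with e | e
    · exact Or.inl (inv_mul_eq_one.1 e).symm
    · rw [inv_mul_eq_iff_eq_mul, mul_neg, mul_one] at e
      exact Or.inr e
  refine ((hF (2 * Real.cosh (2 * (2 * dist (w I) I + 2)))).biUnion fun g _ => key g).subset ?_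
  rintro a ⟨⟨g, hg, e⟩, ha⟩
  refine mem_biUnion (x := g) ⟨hg, ?_⟩ e
  have a1 : dist I (a • I) ≤ 2 := by
    rw [← cosh_I] at ha
    have b1 := exp_le_cosh (dist I (a • I))
    have b2 := Real.add_one_le_exp (dist I (a • I))
    linarith
  have a2 := hw I (g • I)
  rw [e] at a2
  have a3 := dist_triangle4 (w I) I (a • I) (a • w I)
  rw [dist_smul, dist_comm I (w I)] at a3
  rw [← cosh_I]
  have : Real.cosh (dist I (g • I)) ≤ Real.cosh (2 * (2 * dist (w I) I + 2)) := by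
    rw [Real.cosh_le_cosh, abs_of_nonneg dist_nonneg, abs_of_nonneg (by positivity)]
    linarith
  linarith

lemma conj_refl {h : ℝ → ℝ} {g g' : SL(2, ℝ)} (c : Conj h g g') :
    ∃ k : SL(2, ℝ), Conj (fun x => -h x) g k ∧ tr k = tr g' := by
  refine ⟨mk4 (g' 0 0) (-g' 0 1) (-g' 1 0) (g' 1 1) (by linear_combination det1 g'),
    fun x hx => ?_, rfl⟩
  obtain ⟨c1, c2⟩ := c x hx
  unfold den at c1
  simp only [den, mob, mk00, mk01, mk10, mk11, neg_mul_neg]
  refine ⟨c1, ?_⟩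
  change -h (mob g x) = _
  rw [c2, mob, ← neg_div]
  congr 1
  ring

lemma len_le {w : ℍ → ℍ} (hw : ∀ z u, dist (w z) (w u) ≤ dist z u) {g g' : SL(2, ℝ)}
    (e : ∀ z, w (g • z) = g' • w z) : ⨅ z : ℍ, dist z (g' • z) ≤ ⨅ z : ℍ, dist z (g • z) := by
  refine le_ciInf fun z => (ciInf_le ⟨0, ?_⟩ (w z)).trans ?_
  · rintro _ ⟨u, rfl⟩
    exact dist_nonneg
  · rw [← e]
    exact hw _ _

end Pool.Agent.Lib.MP_23eee6_gt.Rig
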