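import Pool.Agent.Lib.MP_23eee6_gt.RConj
import Pool.Agent.Lib.MP_23eee6_gt.QCMap

set_option autoImplicit false

namespace Pool.Agent.Lib.MP_23eee6_gt.Rig

open MatrixGroups Filter Topology Set UpperHalfPlane

lemma cden_ne (g : SL(2, ℝ)) (z : ℍ) : ((g 1 0 : ℝ) : ℂ) * z + ((g 1 1 : ℝ) : ℂ) ≠ 0 :=
  Tile.den_ne g z

lemma smul_den (g : SL(2, ℝ)) (z : ℍ) :
    ((g • z : ℍ) : ℂ) * (((g 1 0 : ℝ) : ℂ) * z + ((g 1 1 : ℝ) : ℂ)) =
      ((g 0 0 : ℝ) : ℂ) * z + ((g 0 1 : ℝ) : ℂ) := by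
  rw [Tile.coe_smul, div_mul_cancel₀ _ (cden_ne g z)]

lemma neg_smul' (g : SL(2, ℝ)) (z : ℍ) : (-g) • z = g • z := by
  apply UpperHalfPlane.ext
  rw [Tile.coe_smul, Tile.coe_smul]
  simp only [neg_ap, Complex.ofReal_neg]
  rw [← neg_div_neg_eq]
  congr 1 <;> ring

lemma pm_smul {g : SL(2, ℝ)} (h : g = 1 ∨ g = -1) (z : ℍ) : g • z = z := by
  rcases h with rfl | rfl
  · exact one_smul _ z
  · rw [neg_smul', one_smul]

lemma smul_I (k : SL(2, ℝ)) : (k • I).im * (k 1 0 ^ 2 + k 1 1 ^ 2) = 1 ∧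
    (k • I).re * (k 1 0 ^ 2 + k 1 1 ^ 2) = k 0 0 * k 1 0 + k 0 1 * k 1 1 := by
  have h := smul_den k I
  have h1 := congrArg Complex.re h
  have h2 := congrArg Complex.im h
  have d := det1 k
  simp at h1 h2
  constructor
  · linear_combination k 1 1 * h2 - k 1 0 * h1 + d
  · linear_combination k 1 0 * h2 + k 1 1 * h1

lemma cosh_formula (u : ℍ) (k : SL(2, ℝ)) : 2 * u.im * Real.cosh (dist u (k • I)) =
    num k⁻¹ u.re ^ 2 + den k⁻¹ u.re ^ 2 + u.im ^ 2 * (k 1 0 ^ 2 + k 1 1 ^ 2) := by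
  obtain ⟨h1, h2⟩ := smul_I k
  have d := det1 k
  have p1 := u.im_pos
  have p2 := (k • I).im_pos
  have p3 : k 1 0 ^ 2 + k 1 1 ^ 2 ≠ 0 := right_ne_zero_of_mul_eq_one h1
  rw [cosh_dist', eq_div_of_mul_eq p3 h1, eq_div_of_mul_eq p3 h2]
  unfold num den
  rw [inv00, inv01, inv10, inv11]
  field_simp
  linear_combination (-(k 0 0 * k 1 1 - k 0 1 * k 1 0) - 1) * d

lemma cosh_I (g : SL(2, ℝ)) : 2 * Real.cosh (dist I (g • I)) = sq4 g := by
  have := cosh_formula I g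
  simp only [I_im, I_re, num, den, inv00, inv01, inv10, inv11] at this
  unfold sq4
  linear_combination this

lemma exists_between (z u : ℍ) {t : ℝ} (h0 : 0 ≤ t) (h1 : t ≤ dist z u) :
    ∃ m : ℍ, dist z m = t ∧ dist m u = dist z u - t := by
  obtain ⟨γ, k1, k2, k3, k4⟩ := Tile.geod z u
  have hc : Continuous fun s => dist z (γ s) := continuous_const.dist k1
  obtain ⟨s, hs, e⟩ := intermediate_value_Icc (zero_le_one' ℝ) hc.continuousOn
    (show t ∈ Icc _ _ from ⟨by simpa [k2] using h0, by simpa [k3] using h1⟩)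
  exact ⟨γ s, e, by have := k4 s hs; simp only at e; linarith⟩

lemma star {s : Set ℍ} {q : ℍ}
    (h : ∀ z ∈ s, ∀ m, dist z m + dist m q = dist z q → m ∈ s) : IsPreconnected s := by
  refine isPreconnected_of_forall q fun z hz => ?_
  obtain ⟨γ, k1, k2, k3, k4⟩ := Tile.geod z q
  refine ⟨γ '' Icc 0 1, ?_, ⟨1, by simp, k3⟩, ⟨0, by simp, k2⟩,
    isPreconnected_Icc.image _ k1.continuousOn⟩
  rintro _ ⟨t, ht, rfl⟩
  exact h z hz _ (k4 t ht)

lemma ball_pre (q : ℍ) (r : ℝ) : IsPreconnected (Metric.ball q r) := by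
  refine star (q := q) fun z hz m hm => ?_
  rw [Metric.mem_ball] at hz ⊢
  linarith [dist_nonneg (x := z) (y := m)]

lemma loc_glob {f : ℍ → ℍ} {K : ℝ}
    (h : ∀ z, ∃ ε > 0, ∀ u ∈ Metric.ball z ε, ∀ v ∈ Metric.ball z ε,
      dist (f u) (f v) ≤ K * dist u v) (z u : ℍ) : dist (f z) (f u) ≤ K * dist z u := by
  choose ε ε0 hε using h
  obtain ⟨δ, δ0, hδ⟩ := lebesgue_number_lemma_of_metric (isCompact_closedBall z (dist z u))
    (c := fun x => Metric.ball x (ε x)) (fun _ => Metric.isOpen_ball)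
    fun x _ => mem_iUnion.2 ⟨x, Metric.mem_ball_self (ε0 x)⟩
  have key : ∀ n : ℕ, ∀ a b, dist z a + dist a b + dist b u ≤ dist z u → dist a b < 2 ^ n * δ →
      dist (f a) (f b) ≤ K * dist a b := by
    intro n
    induction n with
    | zero =>
      intro a b h1 h2
      obtain ⟨x, hx⟩ := hδ a (by
        rw [Metric.mem_closedBall, dist_comm]
        linarith [dist_nonneg (x := a) (y := b), dist_nonneg (x := b) (y := u)])
      refine hε x a (hx (Metric.mem_ball_self δ0)) b (hx ?_)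
      rw [Metric.mem_ball, dist_comm]
      simpa using h2
    | succ n ih =>
      intro a b h1 h2
      have d0 : 0 ≤ dist a b := dist_nonneg
      obtain ⟨m, m1, m2⟩ := exists_between a b (t := dist a b / 2) (by linarith) (by linarith)
      rw [pow_succ] at h2
      have i1 := ih a m (by linarith [dist_triangle m b u]) (by linarith)
      have i2 := ih m b (by linarith [dist_triangle z a m]) (by linarith)
      have := dist_triangle (f a) (f m) (f b)
      rw [m1] at i1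
      rw [m2] at i2
      linarith
  obtain ⟨n, hn⟩ := pow_unbounded_of_one_lt (dist z u / δ) (y := (2 : ℝ)) one_lt_two
  exact key n z u (by simp) ((div_lt_iff₀ δ0).1 hn)

lemma fix_eq {k : SL(2, ℝ)} {z : ℍ} (h : k • z = z) : k 1 1 - k 0 0 = -(2 * k 1 0 * z.re) ∧
    k 0 1 = -(k 1 0 * (z.re ^ 2 + z.im ^ 2)) := by
  have e := smul_den k z
  rw [h] at e
  have h1 := congrArg Complex.re e
  have h2 := congrArg Complex.im e
  simp at h1 h2
  have a : k 1 1 - k 0 0 = -(2 * k 1 0 * z.re) := by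
    apply mul_left_cancel₀ z.im_pos.ne'
    linear_combination h2
  exact ⟨a, by linear_combination -h1 + z.re * a⟩

lemma two_fix {k : SL(2, ℝ)} {z u : ℍ} (hz : k • z = z) (hu : k • u = u) (hne : z ≠ u) :
    k = 1 ∨ k = -1 := by
  obtain ⟨a1, a2⟩ := fix_eq hz
  obtain ⟨b1, b2⟩ := fix_eq hu
  have c0 : k 1 0 = 0 := by
    by_contra c0
    apply hne
    have e1 : z.re = u.re := mul_left_cancel₀ c0 (by linarith)
    have e2 : z.re ^ 2 + z.im ^ 2 = u.re ^ 2 + u.im ^ 2 := mul_left_cancel₀ c0 (by linarith)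
    refine ext_re_im e1 ((pow_left_inj₀ z.im_pos.le u.im_pos.le two_ne_zero).1 ?_)
    rw [e1] at e2
    linarith
  rw [c0] at a1 a2
  exact pm_one (by linarith) c0 (by linarith)

lemma glob_moeb {V w : ℍ → ℍ} (hw : Function.Injective w)
    (h : ∀ z, ∃ U : SL(2, ℝ), ∀ᶠ y in 𝓝 z, V y = U • w y) :
    ∃ U : SL(2, ℝ), ∀ z, V z = U • w z := by
  choose U hU using h
  have hl : IsLocallyConstant fun z => fun u : ℍ => U z • u := by
    rw [IsLocallyConstant.iff_eventually_eq]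
    intro z
    filter_upwards [(hU z).eventually_nhds] with y hy
    have h1 := hy.and (hU y)
    obtain ⟨y', e1, e2⟩ := ((eventually_mem_nhdsWithin (a := y) (s := {y}ᶜ)).and
      (h1.filter_mono nhdsWithin_le_nhds)).exists
    have e3 := h1.self_of_nhds
    have f : ∀ x, V x = U z • w x ∧ V x = U y • w x → ((U z)⁻¹ * U y) • w x = w x := by
      intro x hx
      rw [mul_smul, ← hx.2, hx.1, inv_smul_smul]
    funext u
    have := pm_smul (two_fix (f _ e2) (f _ e3) (hw.ne e1)) u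
    rw [mul_smul, inv_smul_eq_iff] at this
    exact this
  refine ⟨U I, fun z => ?_⟩
  rw [(hU z).self_of_nhds]
  exact congrFun (hl.apply_eq_of_preconnectedSpace z I) (w z)

lemma tr_le_cosh (g : SL(2, ℝ)) (z : ℍ) : tr g ^ 2 ≤ 2 * Real.cosh (dist z (g • z)) + 2 := by
  obtain ⟨k, rfl⟩ := MulAction.exists_smul_eq SL(2, ℝ) I z
  have e : dist (k • I) (g • k • I) = dist I ((k⁻¹ * g * k⁻¹⁻¹) • I) := by
    rw [← dist_smul k⁻¹, inv_smul_smul, inv_inv, mul_smul, mul_smul]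
  rw [e, cosh_I, ← tr_conj k⁻¹ g]
  generalize k⁻¹ * g * k⁻¹⁻¹ = m
  have := det1 m
  unfold tr sq4
  nlinarith [sq_nonneg (m 0 1 - m 1 0)]

lemma tr_le_of_len {g g' : SL(2, ℝ)} (hg : 2 < |tr g|)
    (h : ⨅ z : ℍ, dist z (g' • z) ≤ ⨅ z : ℍ, dist z (g • z)) : |tr g'| ≤ |tr g| := by
  obtain ⟨M, -, m2, m3⟩ := exists_diag hg
  obtain ⟨d, hd⟩ : ∃ d, d = dist (M⁻¹ • I) (g • M⁻¹ • I) := ⟨_, rfl⟩
  have d0 : 0 ≤ d := hd ▸ dist_nonneg
  have e1 : 2 * Real.cosh d + 2 = tr g ^ 2 := by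
    rw [hd, ← dist_smul M, smul_inv_smul, ← mul_smul, ← mul_smul, cosh_I, ← tr_conj M g]
    have := det1 (M * g * M⁻¹)
    unfold tr sq4
    rw [m2, m3] at *
    linear_combination -2 * this
  have e2 : ⨅ z : ℍ, dist z (g' • z) ≤ d := by
    refine h.trans (hd ▸ ciInf_le ⟨0, ?_⟩ (M⁻¹ • I))
    rintro _ ⟨u, rfl⟩
    exact dist_nonneg
  rw [← sq_le_sq, ← e1]
  have T : Tendsto (fun t => 2 * Real.cosh t + 2) (𝓝[>] d) (𝓝 (2 * Real.cosh d + 2)) :=
    tendsto_nhdsWithin_of_tendsto_nhds (Continuous.tendsto (by fun_prop) d)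
  refine ge_of_tendsto T ?_
  filter_upwards [self_mem_nhdsWithin] with t ht
  obtain ⟨z, hz⟩ := exists_lt_of_ciInf_lt (e2.trans_lt ht)
  refine (tr_le_cosh g' z).trans ?_
  have : Real.cosh (dist z (g' • z)) ≤ Real.cosh t := by
    rw [Real.cosh_le_cosh, abs_of_nonneg dist_nonneg, abs_of_nonneg (dist_nonneg.trans hz.le)]
    exact hz.le
  linarith

end Pool.Agent.Lib.MP_23eee6_gt.Rig
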