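import Pool.Agent.Lib.MP_23eee6_gt.SColl

set_option autoImplicit false

namespace Pool.Agent.Lib.MP_23eee6_gt.Rig

open MatrixGroups Filter Topology Set UpperHalfPlane

lemma cay_real (a b : ℝ) : ‖cay a - cay b‖ ^ 2 = 4 * X2 a b := by
  have ha := add_I_ne (z := (a : ℂ)) (by simp)
  have hb := add_I_ne (z := (b : ℂ)) (by simp)
  have e : cay a - cay b = 2 * Complex.I * (a - b) / ((a + Complex.I) * (b + Complex.I)) := by
    unfold cay; field_simp; ring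
  rw [e, norm_div, div_pow, norm_mul, norm_mul, norm_mul, mul_pow, mul_pow, mul_pow,
    Complex.sq_norm, Complex.sq_norm, Complex.sq_norm, Complex.sq_norm, Complex.sq_norm]
  unfold X2
  simp [Complex.normSq_apply]
  ring

lemma Bil.bd {w : ℍ → ℍ} (hw : Bil w) (hI : w I = I) {x y x' y' : ℝ}
    (h1 : Tendsto w (FR x) (FR y)) (h2 : Tendsto w (FR x') (FR y')) :
    ‖cay y - cay y'‖ ≤ 20 * Real.sinh 1 * √√(2 * ‖cay x - cay x'‖) := by
  have := FR_neBot x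
  have := FR_neBot x'
  have T : ∀ s : ℝ, Tendsto (fun z : ℍ => cay z) (FR s) (𝓝 (cay s)) := fun s =>
    FG_cay s ▸ tendsto_comap
  have T1 := (((T y).comp h1).comp (tendsto_fst (g := FR x'))).sub
    (((T y').comp h2).comp tendsto_snd) |>.norm
  have T2 := (((((((T x).comp (tendsto_fst (g := FR x'))).sub
    ((T x').comp tendsto_snd)).norm.const_mul 2).add
    ((((T x).comp tendsto_fst).norm.pow 2).const_sub 1).sqrt).sqrt.sqrt).const_mul
    (10 * (Real.sinh 1 * (2 * Real.exp (dist (w I) I / 2)))))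
  have := le_of_tendsto_of_tendsto' T1 T2 fun p => hw.hold p.1 p.2
  rw [hI, dist_self, zero_div, Real.exp_zero, norm_cay_real, one_pow, sub_self, Real.sqrt_zero,
    add_zero] at this
  linarith

lemma sep_unif : ∃ δ : ℝ, 0 < δ ∧ ∀ (w : ℍ ≃ₜ ℍ), Bil w → w I = I → ∀ x y x' y' : ℝ,
    Tendsto w (FR x) (FR y) → Tendsto w (FR x') (FR y') → 1 / 5 ≤ X2 x x' → δ ≤ X2 y y' := by
  have s1 : 0 < Real.sinh 1 := Real.sinh_pos_iff.2 one_pos
  refine ⟨(1 / (40 * Real.sinh 1)) ^ 8 / 16, by positivity, fun w hw hI x y x' y' h1 h2 h3 => ?_⟩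
  have hv : Bil w.symm := fun z u => by
    have := hw (w.symm z) (w.symm u)
    simp only [Homeomorph.apply_symm_apply] at this
    exact this.symm
  have inv : ∀ a b : ℝ, Tendsto w (FR a) (FR b) → Tendsto w.symm (FR b) (FR a) := by
    intro a b h
    obtain ⟨ξ, -, T⟩ := hv.ext (norm_cay_real b)
    rw [FG_cay] at T
    have := FG_unique (norm_cay_real a) (ξ := ξ)
      (by rw [FG_cay]; exact (T.comp h).congr w.symm_apply_apply)
    rwa [← this, FG_cay] at T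
  have a1 := hv.bd (by rw [Homeomorph.symm_apply_eq, hI]) (inv _ _ h1) (inv _ _ h2)
  have a2 : 1 / 2 ≤ ‖cay x - cay x'‖ := by
    refine (abs_le_of_sq_le_sq' ?_ (norm_nonneg _)).2
    rw [cay_real]; linarith
  have a3 : 1 / (40 * Real.sinh 1) ≤ √√(2 * ‖cay y - cay y'‖) := by
    rw [div_le_iff₀ (by positivity)]; linarith
  have a4 := pow_le_pow_left₀ (by positivity) a3 8
  have e : √√(2 * ‖cay y - cay y'‖) ^ 8 = 16 * X2 y y' := by
    rw [show 8 = 2 * (2 * 2) from rfl, pow_mul, Real.sq_sqrt (Real.sqrt_nonneg _), pow_mul,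
      Real.sq_sqrt (by positivity), mul_pow, cay_real]
    ring
  rw [e] at a4
  linarith

lemma ratio_le {δ a b c d e : ℝ} (δ0 : 0 < δ) (h1 : a < b) (h2 : b < c) (h3 : c < d) (h4 : d < e)
    (k1 : δ ≤ X2 a b) (k2 : δ ≤ X2 b c) (k3 : δ ≤ X2 c d) (k4 : δ ≤ X2 d e) :
    d - c ≤ 2 / δ ^ 2 * (c - b) ∧ c - b ≤ 2 / δ ^ 2 * (d - c) := by
  have δ1 : δ ≤ 1 := k1.trans (X2_le_one _ _)
  have low : ∀ u v : ℝ, u < v → δ ≤ X2 u v → δ ≤ v - u := by
    intro u v h k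
    unfold X2 at k
    rw [le_div_iff₀ (by positivity)] at k
    refine (abs_le_of_sq_le_sq' ?_ (by linarith)).2
    nlinarith [mul_nonneg δ0.le (sq_nonneg u), mul_nonneg δ0.le (sq_nonneg v),
      mul_nonneg δ0.le (mul_nonneg (sq_nonneg u) (sq_nonneg v))]
  have up : ∀ u v : ℝ, u < v → δ ≤ X2 u v → δ * u ≤ 1 := by
    intro u v h k
    by_contra hn
    push Not at hn
    have u0 : 0 < u := by
      by_contra h0
      nlinarith
    unfold X2 at k
    rw [le_div_iff₀ (by positivity)] at k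
    have b1 : δ * (1 + u ^ 2) ≤ 1 := by
      refine le_of_mul_le_mul_right (a := 1 + v ^ 2) ?_ (by positivity)
      nlinarith
    nlinarith
  have u1 := up d e h4 k4
  have u2 := up (-b) (-a) (by linarith) (by unfold X2 at k1 ⊢; convert k1 using 1; ring)
  have l1 := low b c h2 k2
  have l2 := low c d h3 k3
  constructor <;> rw [div_mul_eq_mul_div, le_div_iff₀ (by positivity)] <;> nlinarith

lemma aff_I (z : ℍ) : ∃ A : SL(2, ℝ), A • I = z ∧ A 1 0 = 0 ∧ ∀ s, mob A s = z.re + z.im * s := by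
  have h := (Real.sqrt_pos.2 z.im_pos).ne'
  have h0 : z.toSL2R 1 0 = 0 := by simp
  refine ⟨z.toSL2R, toSL2R_smul_I z, h0, fun s => ?_⟩
  rw [mob_tri h0]
  have e1 : z.toSL2R 0 0 = √z.im := by simp
  have e2 : z.toSL2R 0 1 = z.re / √z.im := by simp
  rw [e1, e2, Real.sq_sqrt z.im_pos.le]
  field_simp
  ring

theorem qs_of_bil (w : ℍ ≃ₜ ℍ) (hw : Bil w) {h : ℝ → ℝ} (H : ∀ x, Tendsto w (FR x) (FR (h x)))
    {σ : ℝ} (hσ : σ ^ 2 = 1) (hm : StrictMono fun x => σ * h x) :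
    ∃ M : ℝ, ∀ x t : ℝ, 0 < t → σ * h (x + t) - σ * h x ≤ M * (σ * h x - σ * h (x - t)) ∧
      σ * h x - σ * h (x - t) ≤ M * (σ * h (x + t) - σ * h x) := by
  obtain ⟨δ, δ0, hδ⟩ := sep_unif
  refine ⟨2 / δ ^ 2, fun x t t0 => ?_⟩
  obtain ⟨A, A1, A2, A3⟩ := aff_I ⟨⟨x, t⟩, t0⟩
  obtain ⟨B, B1, B2, -⟩ := aff_I (w (A • I))
  have B3 : B⁻¹ 1 0 = 0 := by rw [inv10, B2, neg_zero]
  have β0 : 0 < B⁻¹ 0 0 ^ 2 := by
    have d := det1 B⁻¹
    rw [B3, mul_zero, sub_zero] at d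
    have := left_ne_zero_of_mul_eq_one d
    positivity
  let v : ℍ ≃ₜ ℍ := ((Homeomorph.smul A).trans w).trans (Homeomorph.smul B⁻¹)
  have hv : ∀ z, v z = B⁻¹ • w (A • z) := fun z => rfl
  have T : ∀ s, Tendsto v (FR s) (FR (B⁻¹ 0 0 ^ 2 * h (x + t * s) + B⁻¹ 0 0 * B⁻¹ 0 1)) := by
    intro s
    have := (tendsto_smul_FR (den_ne_of_tri B3 _)).comp ((H _).comp
      (tendsto_smul_FR (den_ne_of_tri A2 s)))
    rwa [mob_tri B3, A3] at this
  have S : ∀ s s', 1 / 5 ≤ X2 s s' →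
      δ ≤ X2 (σ * (B⁻¹ 0 0 ^ 2 * h (x + t * s) + B⁻¹ 0 0 * B⁻¹ 0 1))
        (σ * (B⁻¹ 0 0 ^ 2 * h (x + t * s') + B⁻¹ 0 0 * B⁻¹ 0 1)) := by
    intro s s' hs
    have := hδ v (fun z u => by rw [hv, hv, dist_smul, ← dist_smul A z u]; exact hw _ _)
      (by rw [hv, ← B1, inv_smul_smul]) _ _ _ _ (T s) (T s') hs
    unfold X2 at this ⊢
    rwa [← mul_sub, mul_pow, mul_pow, mul_pow, hσ, one_mul, one_mul, one_mul]
  have L : ∀ s s', s < s' → σ * (B⁻¹ 0 0 ^ 2 * h (x + t * s) + B⁻¹ 0 0 * B⁻¹ 0 1) <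
      σ * (B⁻¹ 0 0 ^ 2 * h (x + t * s') + B⁻¹ 0 0 * B⁻¹ 0 1) := by
    intro s s' hs
    have := mul_lt_mul_of_pos_left (hm (show x + t * s < x + t * s' by nlinarith)) β0
    simp only at this
    linarith
  have R := ratio_le δ0 (L (-3) (-1) (by norm_num)) (L (-1) 0 (by norm_num)) (L 0 1 (by norm_num))
    (L 1 3 (by norm_num)) (S _ _ (by norm_num [X2])) (S _ _ (by norm_num [X2]))
    (S _ _ (by norm_num [X2])) (S _ _ (by norm_num [X2]))
  rw [mul_zero, add_zero, mul_one, mul_neg_one, ← sub_eq_add_neg] at R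
  constructor
  · refine le_of_mul_le_mul_left ?_ β0
    linarith [R.1]
  · refine le_of_mul_le_mul_left ?_ β0
    linarith [R.2]

end Pool.Agent.Lib.MP_23eee6_gt.Rig
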