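import Pool.Agent.Lib.MP_23eee6_gt.Basic

set_option autoImplicit false

namespace Pool.Agent.Lib.MP_23eee6_gt.Tile

open UpperHalfPlane Matrix

lemma coe_smul (g : SL2) (z : ℍ) : ((g • z : ℍ) : ℂ) =
    (((g : Matrix (Fin 2) (Fin 2) ℝ) 0 0 : ℂ) * z + ((g : Matrix (Fin 2) (Fin 2) ℝ) 0 1 : ℂ)) /
      (((g : Matrix (Fin 2) (Fin 2) ℝ) 1 0 : ℂ) * z + ((g : Matrix (Fin 2) (Fin 2) ℝ) 1 1 : ℂ)) := by
  rw [coe_specialLinearGroup_apply]
  rfl

lemma sub_ne (z : ℍ) (x : ℝ) : (z : ℂ) - x ≠ 0 := by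
  intro h
  have := congrArg Complex.im h
  simp at this
  exact z.im_ne_zero this

noncomputable def den (g : SL2) (z : ℍ) : ℂ :=
  ((g : Matrix (Fin 2) (Fin 2) ℝ) 1 0 : ℂ) * z + ((g : Matrix (Fin 2) (Fin 2) ℝ) 1 1 : ℂ)

lemma den_ne (g : SL2) (z : ℍ) : den g z ≠ 0 := by
  intro h
  have h1 := congrArg Complex.im h
  have h2 := congrArg Complex.re h
  simp [den] at h1 h2
  have h3 := det_entries g
  rcases h1 with h1 | h1
  · rw [h1] at h2 h3
    simp at h2
    rw [h2] at h3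
    simp at h3
  · exact z.im_ne_zero h1

lemma im_smul' (g : SL2) (z : ℍ) : (g • z).im * ‖den g z‖ ^ 2 = z.im := by
  have h0 := den_ne g z
  have h1 : (g • z).im = ((g • z : ℍ) : ℂ).im := rfl
  have h3 := det_entries g
  rw [h1, coe_smul, ← Complex.normSq_eq_norm_sq]
  change (_ / den g z).im * _ = _
  have h2 : Complex.normSq (den g z) ≠ 0 := by simpa using h0
  rw [Complex.div_im]
  field_simp
  simp [den]
  linear_combination (z.im) * h3

/-- geodesic segments -/
lemma geod_vert (z u : ℍ) (h : z.re = u.re) : ∃ γ : ℝ → ℍ, Continuous γ ∧ γ 0 = z ∧ γ 1 = u ∧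
    ∀ t ∈ Set.Icc (0 : ℝ) 1, dist z (γ t) + dist (γ t) u = dist z u := by
  let f : ℝ → ℍ := fun y => mk ⟨z.re, Real.exp y⟩ (Real.exp_pos y)
  have hf : Isometry f := isometry_vertical_line z.re
  have e1 : f (Real.log z.im) = z := by
    apply ext_re_im
    · rfl
    · exact Real.exp_log z.im_pos
  have e2 : f (Real.log u.im) = u := by
    apply ext_re_im
    · exact h
    · exact Real.exp_log u.im_pos
  refine ⟨fun t => f (Real.log z.im + t * (Real.log u.im - Real.log z.im)),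
    hf.continuous.comp (by fun_prop), by simpa using e1, by simpa using e2, fun t ht => ?_⟩
  obtain ⟨a, ha⟩ : ∃ a, a = Real.log z.im := ⟨_, rfl⟩
  obtain ⟨b, hb⟩ : ∃ b, b = Real.log u.im := ⟨_, rfl⟩
  rw [← ha] at e1
  rw [← hb] at e2
  simp only [← ha, ← hb]
  rw [← e1, ← e2, hf.dist_eq, hf.dist_eq, hf.dist_eq, Real.dist_eq, Real.dist_eq, Real.dist_eq]
  have k1 : a - (a + t * (b - a)) = t * (a - b) := by ring
  have k2 : a + t * (b - a) - b = (1 - t) * (a - b) := by ring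
  rw [k1, k2, abs_mul, abs_mul, abs_of_nonneg ht.1, abs_of_nonneg (sub_nonneg.2 ht.2)]
  ring

lemma exists_vert (z u : ℍ) : ∃ g : SL2, (g • z).re = (g • u).re := by
  by_cases h : z.re = u.re
  · exact ⟨1, by simpa using h⟩
  obtain ⟨p, hp⟩ : ∃ p : ℝ, p = (u.re ^ 2 + u.im ^ 2 - z.re ^ 2 - z.im ^ 2) / (2 * (u.re - z.re)) :=
    ⟨_, rfl⟩
  have hne : u.re - z.re ≠ 0 := fun e => h (by linarith)
  have hp' : (z.re - p) ^ 2 + z.im ^ 2 = (u.re - p) ^ 2 + u.im ^ 2 := by
    rw [hp]; field_simp; ring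
  obtain ⟨R, hR0, hR⟩ : ∃ R : ℝ, 0 < R ∧ R ^ 2 = (z.re - p) ^ 2 + z.im ^ 2 :=
    ⟨√((z.re - p) ^ 2 + z.im ^ 2), Real.sqrt_pos.2 (by have := z.im_pos; positivity),
      Real.sq_sqrt (by positivity)⟩
  let g : SL2 := ⟨!![0, -1; 1, -(p - R)], by rw [Matrix.det_fin_two_of]; ring⟩
  have key : ∀ v : ℍ, R ^ 2 = (v.re - p) ^ 2 + v.im ^ 2 → (g • v).re = -1 / (2 * R) := by
    intro v hv
    have h1 : (g • v).re = ((g • v : ℍ) : ℂ).re := rfl
    have hv0 := v.im_pos
    rw [h1, coe_smul]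
    simp only [g, Matrix.of_apply, Matrix.cons_val', Matrix.cons_val_zero, Matrix.cons_val_one,
      Matrix.cons_val_fin_one, Complex.div_re, Complex.normSq_apply]
    simp
    have h2 : (v.re + (R - p)) * (v.re + (R - p)) + v.im * v.im = 2 * R * (v.re + (R - p)) := by
      nlinarith
    have h3 : 0 < (v.re + (R - p)) * (v.re + (R - p)) + v.im * v.im := by
      nlinarith [mul_self_nonneg (v.re + (R - p)), mul_pos hv0 hv0]
    rw [div_eq_div_iff h3.ne' (by positivity), h2]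
    ring
  exact ⟨g, by rw [key z hR, key u (hR.trans hp')]⟩

lemma geod (z u : ℍ) : ∃ γ : ℝ → ℍ, Continuous γ ∧ γ 0 = z ∧ γ 1 = u ∧
    ∀ t ∈ Set.Icc (0 : ℝ) 1, dist z (γ t) + dist (γ t) u = dist z u := by
  obtain ⟨g, hg⟩ := exists_vert z u
  obtain ⟨γ, h1, h2, h3, h4⟩ := geod_vert _ _ hg
  refine ⟨fun t => g⁻¹ • γ t, (isometry_smul ℍ g⁻¹).continuous.comp h1, by simp [h2], by simp [h3],
    fun t ht => ?_⟩
  have := h4 t ht
  rw [← dist_smul g z, ← dist_smul g _ u, ← dist_smul g z u]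
  simpa using this

lemma cross (z u : ℍ) (x ρ : ℝ) (h1 : ρ ≤ ‖(z : ℂ) - x‖) (h2 : ‖(u : ℂ) - x‖ ≤ ρ) :
    ∃ m : ℍ, ‖(m : ℂ) - x‖ = ρ ∧ dist z m + dist m u = dist z u := by
  obtain ⟨γ, k1, k2, k3, k4⟩ := geod z u
  have hc : Continuous fun t => ‖(γ t : ℂ) - x‖ :=
    ((continuous_coe.comp k1).sub continuous_const).norm
  have := intermediate_value_Icc' (zero_le_one' ℝ) hc.continuousOn
  obtain ⟨t, ht, e⟩ := this (show ρ ∈ Set.Icc _ _ from ⟨by simpa [k3] using h2, by simpa [k2] using h1⟩)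
  exact ⟨γ t, e, k4 t ht⟩

variable {ι : Type} (c : ι × Bool → ℝ) (r : ι → ℝ) (hr : ∀ k, 0 < r k)

lemma coe_lt (a : ι × Bool) (z : ℍ) : ((rho c r hr (lt a) • z : ℍ) : ℂ) =
    c a - (r a.1 : ℂ) ^ 2 / (z - c (bar a)) := by
  have h0 : (r a.1 : ℂ) ≠ 0 := by exact_mod_cast (hr a.1).ne'
  have h1 : (sg a : ℂ) ≠ 0 := by exact_mod_cast sg_ne a
  have h2 := sub_ne z (c (bar a))
  rw [coe_smul, rho_lt]
  simp only [Matrix.of_apply, Matrix.cons_val', Matrix.cons_val_zero, Matrix.cons_val_one,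
    Matrix.cons_val_fin_one]
  push_cast
  have e : (sg a : ℂ) * (1 / (r a.1 : ℂ)) * z + sg a * (-(c (bar a) : ℂ) / r a.1) =
      sg a * (z - c (bar a)) / r a.1 := by ring
  rw [e]
  field_simp
  ring

lemma norm_lt (a : ι × Bool) (z : ℍ) :
    ‖((rho c r hr (lt a) • z : ℍ) : ℂ) - c a‖ * ‖(z : ℂ) - c (bar a)‖ = r a.1 ^ 2 := by
  have h2 := sub_ne z (c (bar a))
  rw [coe_lt, sub_sub_cancel_left, norm_neg, ← norm_mul, div_mul_cancel₀ _ h2, norm_pow,
    Complex.norm_real, Real.norm_eq_abs, sq_abs]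

lemma im_lt (a : ι × Bool) (z : ℍ) :
    (rho c r hr (lt a) • z).im * ‖(z : ℂ) - c (bar a)‖ ^ 2 = r a.1 ^ 2 * z.im := by
  have h := im_smul' (rho c r hr (lt a)) z
  have h0 := hr a.1
  have e : den (rho c r hr (lt a)) z = ((sg a / r a.1 : ℝ) : ℂ) * ((z : ℂ) - c (bar a)) := by
    rw [den, rho_lt]
    simp only [Matrix.of_apply, Matrix.cons_val', Matrix.cons_val_zero, Matrix.cons_val_one,
      Matrix.cons_val_fin_one]
    push_cast
    ring
  rw [e, norm_mul, Complex.norm_real, Real.norm_eq_abs, abs_div, abs_sg, abs_of_pos h0] at h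
  rw [← h]
  field_simp

def Dom (z : ℍ) : Prop := ∀ a : ι × Bool, r a.1 ≤ ‖(z : ℂ) - c a‖

def Sep : Prop := ∀ a b : ι × Bool, a ≠ b → r a.1 + r b.1 ≤ |c a - c b|

lemma abs_re_lt (z : ℍ) (x : ℝ) : |z.re - x| < ‖(z : ℂ) - x‖ := by
  have h : ((z : ℂ) - x).im ≠ 0 := by simpa using z.im_ne_zero
  have := Complex.abs_re_lt_norm.2 h
  simpa using this

variable {c r}

lemma out_of_in (hs : Sep c r) {a b : ι × Bool} (hab : a ≠ b) {z : ℍ}
    (h : ‖(z : ℂ) - c b‖ ≤ r b.1) : r a.1 < ‖(z : ℂ) - c a‖ := by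
  have h1 := abs_re_lt z (c a)
  have h2 := abs_re_lt z (c b)
  have h3 := hs a b hab
  have h4 : |c a - c b| ≤ |z.re - c b| + |z.re - c a| := by
    have := abs_sub (z.re - c b) (z.re - c a)
    rwa [show z.re - c b - (z.re - c a) = c a - c b by ring] at this
  linarith

lemma dom_of_wall (hs : Sep c r) {a : ι × Bool} {z : ℍ} (h : ‖(z : ℂ) - c a‖ = r a.1) :
    Dom c r z := by
  intro b
  by_cases hb : b = a
  · rw [hb, h]
  · exact (out_of_in hs hb h.le).le

lemma pp (hs : Sep c r) {z : ℍ} (hz : Dom c r z) : ∀ (L : List (ι × Bool)) (a : ι × Bool),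
    FreeGroup.IsReduced (a :: L) →
      ‖((rho c r hr (FreeGroup.mk (a :: L)) • z : ℍ) : ℂ) - c a‖ ≤ r a.1 ∧
      (L ≠ [] → ‖((rho c r hr (FreeGroup.mk (a :: L)) • z : ℍ) : ℂ) - c a‖ < r a.1) := by
  intro L
  induction L with
  | nil =>
    intro a _
    refine ⟨?_, fun h => absurd rfl h⟩
    have h1 := norm_lt c r hr a z
    have h2 := hz (bar a)
    have h0 := hr a.1
    simp only [bar_fst] at h2
    change ‖((rho c r hr (lt a) • z : ℍ) : ℂ) - c a‖ ≤ r a.1
    by_contra hc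
    push Not at hc
    nlinarith
  | cons b L ih =>
    intro a hred
    rw [FreeGroup.isReduced_cons_cons] at hred
    obtain ⟨h1, _⟩ := ih b hred.2
    have hne : bar a ≠ b := by
      intro h
      have h3 := hred.1 (by rw [← h]; rfl)
      rw [← h] at h3
      simp [bar] at h3
    have h2 := out_of_in hs hne h1
    simp only [bar_fst] at h2
    have h3 := norm_lt c r hr a (rho c r hr (FreeGroup.mk (b :: L)) • z)
    have h0 := hr a.1
    have key : ‖((rho c r hr (FreeGroup.mk (a :: b :: L)) • z : ℍ) : ℂ) - c a‖ < r a.1 := by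
      rw [mk_cons a, map_mul, mul_smul]
      by_contra hc
      push Not at hc
      nlinarith
    exact ⟨key.le, fun _ => key⟩

lemma cover (hr1 : ∀ k, r k ≤ 1) (hs : Sep c r) (z : ℍ) :
    ∃ g : FreeGroup ι, Dom c r (rho c r hr g • z) := by
  classical
  let S : Set (FreeGroup ι) := {g | z.im ≤ (rho c r hr g • z).im}
  have hz := z.im_pos
  have hb : ∀ g ∈ S, ‖den (rho c r hr g) z‖ ≤ 1 := by
    intro g hg
    have h1 := im_smul' (rho c r hr g) z
    have h2 : z.im ≤ (rho c r hr g • z).im := hg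
    by_contra hc
    push Not at hc
    have : 1 < ‖den (rho c r hr g) z‖ ^ 2 := by nlinarith
    nlinarith
  have hsep : ∀ g ∈ S, ∀ k ∈ S, g ≠ k →
      z.im ≤ ‖den (rho c r hr g) z - den (rho c r hr k) z‖ := by
    intro g hg k _ hne
    have h1 := entry_ge c r hr hr1 hs (k * g⁻¹) (by
      intro h; apply hne; rw [mul_inv_eq_one] at h; exact h.symm)
    rw [map_mul, map_inv, Matrix.SpecialLinearGroup.coe_mul, Matrix.SpecialLinearGroup.coe_inv,
      Matrix.adjugate_fin_two] at h1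
    simp only [Matrix.mul_apply, Fin.sum_univ_two, Matrix.of_apply, Matrix.cons_val',
      Matrix.cons_val_zero, Matrix.cons_val_one, Matrix.cons_val_fin_one] at h1
    obtain ⟨p, hp⟩ : ∃ p, p = den (rho c r hr g) z := ⟨_, rfl⟩
    obtain ⟨q, hq⟩ : ∃ q, q = den (rho c r hr k) z := ⟨_, rfl⟩
    have h2 := hb g hg
    have e : ((starRingEnd ℂ) p * (q - p)).im =
        ((rho c r hr k : Matrix (Fin 2) (Fin 2) ℝ) 1 0 * (rho c r hr g : Matrix (Fin 2) (Fin 2) ℝ) 1 1 +
          (rho c r hr k : Matrix (Fin 2) (Fin 2) ℝ) 1 1 *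
            -(rho c r hr g : Matrix (Fin 2) (Fin 2) ℝ) 1 0) * z.im := by
      rw [hp, hq]
      simp [den]
      ring
    rw [← hp] at h2
    rw [← hp, ← hq, norm_sub_rev]
    have h3 := Complex.abs_im_le_norm ((starRingEnd ℂ) p * (q - p))
    rw [e, abs_mul, abs_of_pos hz, norm_mul, Complex.norm_conj] at h3
    have h4 := norm_nonneg (q - p)
    nlinarith
  have hfin : S.Finite := by
    obtain ⟨t, ht, hcov⟩ := Metric.totallyBounded_iff.1
      (isCompact_closedBall (0 : ℂ) 1).totallyBounded (z.im / 2) (by positivity)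
    have hex : ∀ g : S, ∃ y : t, dist (den (rho c r hr g) z) y < z.im / 2 := by
      intro g
      have := hcov (show den (rho c r hr g) z ∈ Metric.closedBall (0 : ℂ) 1 by
        simpa using hb g g.2)
      simp only [Set.mem_iUnion, Metric.mem_ball] at this
      obtain ⟨y, hy, h⟩ := this
      exact ⟨⟨y, hy⟩, h⟩
    choose f hf using hex
    have : Finite t := ht
    refine Finite.of_injective f fun g k hgk => ?_
    by_contra hne
    have h1 := hsep g g.2 k k.2 (fun h => hne (Subtype.ext h))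
    have h2 := hf g
    have h3 := hf k
    rw [hgk] at h2
    have h4 := dist_triangle_right (den (rho c r hr g) z) (den (rho c r hr k) z) (f k : ℂ)
    rw [dist_eq_norm] at h4
    linarith
  obtain ⟨g, hg, hmax⟩ := Set.exists_max_image S (fun g => (rho c r hr g • z).im) hfin
    ⟨1, by simp [S]⟩
  refine ⟨g, fun a => ?_⟩
  by_contra hc
  push Not at hc
  have h1 := im_lt c r hr (bar a) (rho c r hr g • z)
  simp only [bar_bar, bar_fst] at h1
  rw [← mul_smul, ← map_mul] at h1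
  have h2 := (rho c r hr g • z).im_pos
  have h3 := (rho c r hr (lt (bar a) * g) • z).im_pos
  have h4 : ‖((rho c r hr g • z : ℍ) : ℂ) - c a‖ ^ 2 < r a.1 ^ 2 :=
    pow_lt_pow_left₀ hc (norm_nonneg _) two_ne_zero
  have h0 := hr a.1
  have h5 : (rho c r hr g • z).im < (rho c r hr (lt (bar a) * g) • z).im := by
    by_contra hc2
    push Not at hc2
    nlinarith [mul_pos h0 h0]
  have h6 := hmax (lt (bar a) * g) (le_trans hg h5.le)
  linarith

theorem extend (hr1 : ∀ k, r k ≤ 1) (hs : Sep c r) (ρ' : FreeGroup ι →* SL2) (φ : ℍ → ℍ) (K : ℝ)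
    (hW : ∀ (a : ι × Bool) (z : ℍ), ‖(z : ℂ) - c (bar a)‖ = r a.1 →
      φ (rho c r hr (lt a) • z) = ρ' (lt a) • φ z)
    (hL : ∀ z u, dist (φ z) (φ u) ≤ K * dist z u) :
    ∃ w : ℍ → ℍ, (∀ z, Dom c r z → w z = φ z) ∧
      (∀ g z, w (rho c r hr g • z) = ρ' g • w z) ∧ ∀ z u, dist (w z) (w u) ≤ K * dist z u := by
  classical
  have compat : ∀ (g : FreeGroup ι) (z : ℍ), Dom c r z → Dom c r (rho c r hr g • z) →
      φ (rho c r hr g • z) = ρ' g • φ z := by
    intro g z hz hg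
    have hred : FreeGroup.IsReduced g.toWord := FreeGroup.isReduced_toWord
    have hmk : FreeGroup.mk g.toWord = g := FreeGroup.mk_toWord
    generalize g.toWord = L at hred hmk
    subst hmk
    cases L with
    | nil => rw [← FreeGroup.one_eq_mk]; simp
    | cons a L =>
      obtain ⟨h1, h2⟩ := pp hr hs hz L a hred
      have h3 := hg a
      by_cases hL : L = []
      · subst hL
        apply hW a z
        have h4 := norm_lt c r hr a z
        have h5 : ‖((rho c r hr (lt a) • z : ℍ) : ℂ) - c a‖ = r a.1 := le_antisymm h1 h3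
        rw [h5, sq] at h4
        exact mul_left_cancel₀ (hr a.1).ne' h4
      · exact absurd (h2 hL) (not_lt.2 h3)
  choose G hG using cover hr hr1 hs
  let w : ℍ → ℍ := fun z => (ρ' (G z))⁻¹ • φ (rho c r hr (G z) • z)
  have weq : ∀ (g : FreeGroup ι) (z : ℍ), Dom c r (rho c r hr g • z) →
      w z = (ρ' g)⁻¹ • φ (rho c r hr g • z) := by
    intro g z hg
    have e : rho c r hr g • z = rho c r hr (g * (G z)⁻¹) • rho c r hr (G z) • z := by
      rw [← mul_smul, ← map_mul]; simp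
    rw [e, compat _ _ (hG z) (e ▸ hg), ← mul_smul, map_mul, map_inv]
    simp [w]
  have w1 : ∀ z, Dom c r z → w z = φ z := by
    intro z hz
    simpa using weq 1 z (by simpa using hz)
  have w2 : ∀ g z, w (rho c r hr g • z) = ρ' g • w z := by
    intro k z
    have e : rho c r hr (G z * k⁻¹) • rho c r hr k • z = rho c r hr (G z) • z := by
      rw [← mul_smul, ← map_mul]; simp
    rw [weq (G z * k⁻¹) _ (e ▸ hG z), e, map_mul, map_inv]
    simp [w, mul_smul]
  have w3 : ∀ (L : List (ι × Bool)), FreeGroup.IsReduced L → ∀ z u, Dom c r z → Dom c r u →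
      dist (w z) (w (rho c r hr (FreeGroup.mk L) • u)) ≤
        K * dist z (rho c r hr (FreeGroup.mk L) • u) := by
    intro L
    induction L with
    | nil =>
      intro _ z u hz hu
      rw [← FreeGroup.one_eq_mk, map_one, one_smul, w1 z hz, w1 u hu]
      exact hL z u
    | cons a L ih =>
      intro hred z u hz hu
      obtain ⟨m, hm, hd⟩ := cross z _ (c a) (r a.1) (hz a) (pp hr hs hu L a hred).1
      have hred' : FreeGroup.IsReduced L := List.IsChain.tail hred
      have hm' : ‖((rho c r hr (lt (bar a)) • m : ℍ) : ℂ) - c (bar a)‖ = r (bar a).1 := by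
        have h4 := norm_lt c r hr (bar a) m
        rw [bar_bar, hm, sq] at h4
        exact mul_right_cancel₀ (hr a.1).ne' h4
      have h1 := ih hred' _ u (dom_of_wall hs hm') hu
      have e : m = rho c r hr (lt a) • rho c r hr (lt (bar a)) • m := by
        rw [← mul_smul, ← map_mul, lt_bar]; simp
      have h2 : dist (w m) (w (rho c r hr (FreeGroup.mk (a :: L)) • u)) ≤
          K * dist m (rho c r hr (FreeGroup.mk (a :: L)) • u) := by
        rw [mk_cons a, map_mul, mul_smul, e, w2, w2 (lt a), dist_smul, dist_smul]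
        exact h1
      have h3 : dist (w z) (w m) ≤ K * dist z m := by
        rw [w1 z hz, w1 m (dom_of_wall hs hm)]
        exact hL z m
      have h4 := dist_triangle (w z) (w m) (w (rho c r hr (FreeGroup.mk (a :: L)) • u))
      rw [← hd]
      linarith
  refine ⟨w, w1, w2, fun z u => ?_⟩
  have h := w3 (G z * (G u)⁻¹).toWord FreeGroup.isReduced_toWord _ _ (hG z) (hG u)
  have e : rho c r hr (G z * (G u)⁻¹) • rho c r hr (G u) • u = rho c r hr (G z) • u := by
    rw [← mul_smul, ← map_mul]; simp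
  rwa [FreeGroup.mk_toWord, e, w2, w2, dist_smul, dist_smul] at h

end Pool.Agent.Lib.MP_23eee6_gt.Tile
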