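import Pool.Agent.Lib.MP_23eee6_gt.Basic

set_option autoImplicit false

namespace Pool.Agent.Lib.MP_23eee6_gt

open Matrix

abbrev M2 := Matrix (Fin 2) (Fin 2) ℝ

noncomputable def EE (x : ℝ × ℝ) : M2 := !![0, -x.1; 1 / x.1, x.2 / x.1]

noncomputable def PE (L : List (ℝ × ℝ)) : M2 := (L.map EE).prod

lemma PE_nil : PE [] = 1 := by simp [PE]
lemma PE_cons (x : ℝ × ℝ) (L : List (ℝ × ℝ)) : PE (x :: L) = EE x * PE L := by simp [PE]
lemma PE_append (A B : List (ℝ × ℝ)) : PE (A ++ B) = PE A * PE B := by simp [PE]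

def hd : List (ℝ × ℝ) → ℝ → ℝ
  | [], ρ => ρ
  | x :: _, _ => x.1

def Adm : List (ℝ × ℝ) → ℝ → Prop
  | [], _ => True
  | x :: L, ρ => 0 < x.1 ∧ x.1 + hd L ρ ≤ |x.2| ∧ Adm L ρ

lemma hd_nonneg {L : List (ℝ × ℝ)} {ρ : ℝ} (h : Adm L ρ) (hρ : 0 ≤ ρ) : 0 ≤ hd L ρ := by
  cases L with
  | nil => exact hρ
  | cons x L => exact h.1.le

lemma hd_append (A B : List (ℝ × ℝ)) (ρ : ℝ) : hd (A ++ B) ρ = hd A (hd B ρ) := by
  cases A <;> rfl

lemma adm_append (A B : List (ℝ × ℝ)) (ρ : ℝ) :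
    Adm (A ++ B) ρ ↔ Adm A (hd B ρ) ∧ Adm B ρ := by
  induction A with
  | nil => simp [Adm]
  | cons x A ih => simp only [List.cons_append, Adm, hd_append, ih, and_assoc]

lemma col_bound {L : List (ℝ × ℝ)} {ρ : ℝ} (h : Adm L ρ) (G : M2)
    (hG : |G 0 1| ≤ ρ * |G 1 1|) : |(PE L * G) 0 1| ≤ hd L ρ * |(PE L * G) 1 1| := by
  induction L with
  | nil => simpa [PE_nil, hd] using hG
  | cons x L ih =>
    obtain ⟨h0, h1, h2⟩ := h
    have ih' := ih h2
    rw [PE_cons, Matrix.mul_assoc]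
    set P := PE L * G
    have e1 : (EE x * P) 0 1 = -(x.1 * P 1 1) := by
      simp [EE, Matrix.mul_apply, Fin.sum_univ_two]
    have e2 : (EE x * P) 1 1 = (P 0 1 + x.2 * P 1 1) / x.1 := by
      simp [EE, Matrix.mul_apply, Fin.sum_univ_two]; ring
    rw [e1, e2, abs_neg, abs_mul, abs_of_pos h0, abs_div, abs_of_pos h0]
    change _ ≤ x.1 * _
    apply mul_le_mul_of_nonneg_left _ h0.le
    rw [le_div_iff₀ h0]
    have t := abs_sub_abs_le_abs_add (x.2 * P 1 1) (P 0 1)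
    rw [abs_mul, add_comm] at t
    have : (x.1 + hd L ρ) * |P 1 1| ≤ |x.2| * |P 1 1| :=
      mul_le_mul_of_nonneg_right h1 (abs_nonneg _)
    nlinarith

lemma row_bound {L : List (ℝ × ℝ)} {ρ : ℝ} (h : Adm L ρ) (G : M2)
    (hG : hd L ρ * |G 1 0| ≤ |G 1 1|) : ρ * |(G * PE L) 1 0| ≤ |(G * PE L) 1 1| := by
  induction L generalizing G with
  | nil => simpa [PE_nil, hd] using hG
  | cons x L ih =>
    obtain ⟨h0, h1, h2⟩ := h
    rw [PE_cons, ← Matrix.mul_assoc]
    apply ih h2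
    have e1 : (G * EE x) 1 0 = G 1 1 / x.1 := by
      simp [EE, Matrix.mul_apply, Fin.sum_univ_two]; ring
    have e2 : (G * EE x) 1 1 = (x.2 * G 1 1 - x.1 * (x.1 * G 1 0)) / x.1 := by
      simp [EE, Matrix.mul_apply, Fin.sum_univ_two]; field_simp; ring
    rw [e1, e2, abs_div, abs_div, abs_of_pos h0, ← mul_div_assoc]
    apply div_le_div_of_nonneg_right _ h0.le
    have t := abs_sub_abs_le_abs_sub (x.2 * G 1 1) (x.1 * (x.1 * G 1 0))
    rw [abs_mul, abs_mul, abs_mul, abs_of_pos h0] at t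
    have : (x.1 + hd L ρ) * |G 1 1| ≤ |x.2| * |G 1 1| :=
      mul_le_mul_of_nonneg_right h1 (abs_nonneg _)
    change x.1 * _ ≤ _ at hG
    have : x.1 * (x.1 * |G 1 0|) ≤ x.1 * |G 1 1| := mul_le_mul_of_nonneg_left hG h0.le
    nlinarith

def Shr (x y : ℝ × ℝ) : Prop :=
  x.1 = y.1 ∧ ((0 ≤ x.2 ∧ x.2 ≤ y.2) ∨ (y.2 ≤ x.2 ∧ x.2 ≤ 0))

lemma abs_affine_le (d d' t k : ℝ) (hk : |k| ≤ |d'| * |t|)
    (h : (0 ≤ d' ∧ d' ≤ d) ∨ (d ≤ d' ∧ d' ≤ 0)) : |d' * t + k| ≤ |d * t + k| := by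
  rw [← abs_mul] at hk
  rw [← sq_le_sq]
  have h1 : k ^ 2 ≤ (d' * t) ^ 2 := sq_le_sq.2 hk
  have h2 : 0 ≤ (d - d') * d' := by rcases h with h | h <;> nlinarith
  have h3 : d' ^ 2 ≤ d ^ 2 := by rcases h with h | h <;> nlinarith
  have h4 : (d * t + k) ^ 2 - (d' * t + k) ^ 2 = ((d - d') * t) * ((d + d') * t + 2 * k) := by ring
  by_cases hd0 : d' = 0
  · subst hd0
    have : k = 0 := by nlinarith
    subst this
    simp only [zero_mul, add_zero]; nlinarith [sq_nonneg (d * t)]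
  have h5 : 0 ≤ (d' * t) * (d' * t + k) := by nlinarith [sq_nonneg (d' * t + k)]
  have h6 : 0 < d' ^ 2 := by positivity
  have h7 : d' ^ 2 * (((d - d') * t) * ((d + d') * t + 2 * k)) =
      d' ^ 2 * ((d - d') * t) ^ 2 + 2 * ((d - d') * d') * ((d' * t) * (d' * t + k)) := by ring
  have h8 : 0 ≤ d' ^ 2 * (((d - d') * t) * ((d + d') * t + 2 * k)) := by
    rw [h7]; positivity
  have h9 := nonneg_of_mul_nonneg_right h8 h6
  linarith

lemma single_step (A B : List (ℝ × ℝ)) (x y : ℝ × ℝ) (hxy : Shr x y)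
    (h : Adm (A ++ x :: B) (hd A x.1)) :
    |Matrix.trace (PE (A ++ x :: B))| ≤ |Matrix.trace (PE (A ++ y :: B))| := by
  rw [adm_append] at h
  obtain ⟨hA, h0, h1, hB⟩ := h
  change Adm A x.1 at hA
  have hρ : 0 ≤ hd A x.1 := hd_nonneg hA h0.le
  have c1 := col_bound hA 1 (by simp [h0.le])
  have c2 := col_bound hB _ c1
  have r1 := row_bound hB 1 (by simp)
  have r2 := row_bound hA _ r1
  rw [Matrix.mul_one] at c2
  rw [Matrix.one_mul] at r2
  set G := PE B * PE A with hG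
  have tr : ∀ z : ℝ × ℝ, Matrix.trace (PE (A ++ z :: B)) = Matrix.trace (EE z * G) := by
    intro z
    rw [PE_append, PE_cons, Matrix.trace_mul_comm, Matrix.mul_assoc]
  have ev : ∀ z : ℝ × ℝ, z.1 = x.1 → Matrix.trace (EE z * G) =
      (z.2 * G 1 1 + (G 0 1 - x.1 * (x.1 * G 1 0))) / x.1 := by
    intro z hz
    rw [Matrix.trace_fin_two]
    simp only [Matrix.mul_apply, Fin.sum_univ_two]
    simp [EE, hz]
    field_simp; ring
  rw [tr, tr, ev x rfl, ev y hxy.1.symm, abs_div, abs_div]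
  apply div_le_div_of_nonneg_right _ (abs_nonneg _)
  apply abs_affine_le _ _ _ _ _ hxy.2
  have t := abs_sub (G 0 1) (x.1 * (x.1 * G 1 0))
  rw [abs_mul, abs_mul, abs_of_pos h0] at t
  have : (x.1 + hd B (hd A x.1)) * |G 1 1| ≤ |x.2| * |G 1 1| :=
    mul_le_mul_of_nonneg_right h1 (abs_nonneg _)
  have : x.1 * (x.1 * |G 1 0|) ≤ x.1 * |G 1 1| := mul_le_mul_of_nonneg_left r2 h0.le
  nlinarith

lemma shr_abs {x y : ℝ × ℝ} (h : Shr x y) : |x.2| ≤ |y.2| := by
  rcases h.2 with h | h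
  · rw [abs_of_nonneg h.1, abs_of_nonneg (h.1.trans h.2)]; exact h.2
  · rw [abs_of_nonpos h.2, abs_of_nonpos (h.1.trans h.2)]; linarith [h.1]

lemma hd_shr {B' B : List (ℝ × ℝ)} (h : List.Forall₂ Shr B' B) (ρ : ℝ) : hd B' ρ = hd B ρ := by
  cases h with
  | nil => rfl
  | cons h _ => exact h.1

lemma adm_shr {B' B : List (ℝ × ℝ)} (h : List.Forall₂ Shr B' B) (ρ : ℝ) (hB : Adm B' ρ) :
    Adm B ρ := by
  induction h with
  | nil => trivial
  | cons h1 h2 ih =>
    obtain ⟨a, b, c⟩ := hB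
    refine ⟨h1.1 ▸ a, ?_, ih c⟩
    rw [← h1.1, ← hd_shr h2]
    exact b.trans (shr_abs h1)

lemma trace_mono {B' B : List (ℝ × ℝ)} (h : List.Forall₂ Shr B' B) :
    ∀ A : List (ℝ × ℝ), Adm (A ++ B') (hd (A ++ B') 0) →
      |Matrix.trace (PE (A ++ B'))| ≤ |Matrix.trace (PE (A ++ B))| := by
  induction h with
  | nil => intro A _; exact le_rfl
  | @cons x y B' B h1 h2 ih =>
    intro A hA
    have e : ∀ C : List (ℝ × ℝ), A ++ x :: C = (A ++ [x]) ++ C := by intro C; simp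
    have s1 := ih (A ++ [x]) (by rw [← e]; exact hA)
    rw [← e, ← e] at s1
    refine s1.trans (single_step A B x y h1 ?_)
    have e2 : hd (A ++ x :: B') 0 = hd A x.1 := by rw [hd_append]; rfl
    rw [e2, adm_append] at hA
    rw [adm_append]
    refine ⟨hA.1, hA.2.1, ?_, adm_shr h2 _ hA.2.2.2⟩
    rw [← hd_shr h2]
    exact hA.2.2.1

variable {ι : Type}

def nxt (L : List (ι × Bool)) (b : ι × Bool) : ι × Bool :=
  match L with
  | [] => b
  | a :: _ => a

def es (c : ι × Bool → ℝ) (r : ι → ℝ) : List (ι × Bool) → ι × Bool → List (ℝ × ℝ)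
  | [], _ => []
  | a :: L, b => (r a.1, c (nxt L b) - c (bar a)) :: es c r L b

def TT (y : ℝ) : M2 := !![1, y; 0, 1]

lemma prod_conj (c : ι × Bool → ℝ) (r : ι → ℝ) (hr : ∀ k, 0 < r k) (L : List (ι × Bool))
    (b : ι × Bool) : ∃ s : ℝ, |s| = 1 ∧
      ((rho c r hr (FreeGroup.mk L) : SL2) : M2) * TT (c b) =
        s • (TT (c (nxt L b)) * PE (es c r L b)) := by
  induction L with
  | nil =>
    refine ⟨1, by simp, ?_⟩
    have : (FreeGroup.mk ([] : List (ι × Bool))) = 1 := rfl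
    simp [this, es, nxt, PE_nil]
  | cons a L ih =>
    obtain ⟨s, hs, h⟩ := ih
    refine ⟨sg a * s, by rw [abs_mul, abs_sg, hs, one_mul], ?_⟩
    rw [mk_cons, map_mul, Matrix.SpecialLinearGroup.coe_mul, Matrix.mul_assoc, h, es, PE_cons,
      Matrix.mul_smul, ← Matrix.mul_assoc, ← Matrix.mul_assoc, mul_comm (sg a) s, mul_smul]
    congr 1
    rw [← Matrix.smul_mul]
    congr 1
    rw [rho_lt]
    have := (hr a.1).ne'
    ext i j
    have e : nxt (a :: L) b = a := rfl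
    rw [e]
    generalize c (nxt L b) = z
    fin_cases i <;> fin_cases j <;>
      simp [TT, EE, Matrix.mul_apply, Fin.sum_univ_two, sg_ne] <;> field_simp <;> ring

lemma trace_eq (c : ι × Bool → ℝ) (r : ι → ℝ) (hr : ∀ k, 0 < r k) (a : ι × Bool)
    (L : List (ι × Bool)) :
    |Matrix.trace ((rho c r hr (FreeGroup.mk (a :: L)) : SL2) : M2)| =
      |Matrix.trace (PE (es c r (a :: L) a))| := by
  obtain ⟨s, hs, h⟩ := prod_conj c r hr (a :: L) a
  have hT : TT (c a) * TT (-c a) = 1 := by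
    ext i j; fin_cases i <;> fin_cases j <;> simp [TT, Matrix.mul_apply, Fin.sum_univ_two]
  have hT' : TT (-c a) * TT (c a) = 1 := by
    ext i j; fin_cases i <;> fin_cases j <;> simp [TT, Matrix.mul_apply, Fin.sum_univ_two]
  have : ((rho c r hr (FreeGroup.mk (a :: L)) : SL2) : M2) =
      s • (TT (c a) * PE (es c r (a :: L) a) * TT (-c a)) := by
    rw [← Matrix.smul_mul]
    change _ = (s • (TT (c (nxt (a :: L) a)) * _)) * _
    rw [← h, Matrix.mul_assoc, hT, Matrix.mul_one]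
  rw [this, Matrix.trace_smul, smul_eq_mul, abs_mul, hs, one_mul, Matrix.trace_mul_cycle, hT',
    Matrix.one_mul]

lemma hd_es (c : ι × Bool → ℝ) (r : ι → ℝ) (L : List (ι × Bool)) (b : ι × Bool) :
    hd (es c r L b) (r b.1) = r (nxt L b).1 := by
  cases L <;> rfl

lemma ne_of_red {a b : ι × Bool} (h : a.1 = b.1 → a.2 = b.2) : b ≠ bar a := by
  intro e
  have h3 := h (by rw [e]; rfl)
  rw [e] at h3
  simp [bar] at h3

lemma adm_es (c : ι × Bool → ℝ) (r : ι → ℝ) (hr : ∀ k, 0 < r k)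
    (hsep : ∀ a b : ι × Bool, a ≠ b → r a.1 + r b.1 ≤ |c a - c b|)
    (L : List (ι × Bool)) (b : ι × Bool) (h : FreeGroup.IsReduced (L ++ [b])) :
    Adm (es c r L b) (r b.1) := by
  induction L with
  | nil => trivial
  | cons a L ih =>
    have h1 : nxt L b ≠ bar a ∧ FreeGroup.IsReduced (L ++ [b]) := by
      cases L with
      | nil =>
        simp only [List.cons_append, List.nil_append, FreeGroup.isReduced_cons_cons] at h
        exact ⟨ne_of_red h.1, h.2⟩
      | cons d L =>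
        simp only [List.cons_append, FreeGroup.isReduced_cons_cons] at h
        exact ⟨ne_of_red h.1, h.2⟩
    refine ⟨hr _, ?_, ih h1.2⟩
    rw [hd_es]
    have := hsep _ _ h1.1
    simpa [add_comm] using this

lemma shr_es (c c' : ι × Bool → ℝ) (r : ι → ℝ)
    (hc : ∀ a b : ι × Bool, c a ≤ c b → 0 ≤ c' b - c' a ∧ c' b - c' a ≤ c b - c a)
    (L : List (ι × Bool)) (b : ι × Bool) :
    List.Forall₂ Shr (es c' r L b) (es c r L b) := by
  induction L with
  | nil => exact List.Forall₂.nil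
  | cons a L ih =>
    refine List.Forall₂.cons ⟨rfl, ?_⟩ ih
    rcases le_total (c (bar a)) (c (nxt L b)) with h | h
    · left; exact hc _ _ h
    · right
      obtain ⟨h1, h2⟩ := hc _ _ h
      constructor <;> linarith

theorem trace_le (c c' : ι × Bool → ℝ) (r : ι → ℝ) (hr : ∀ k, 0 < r k)
    (hsep : ∀ a b : ι × Bool, a ≠ b → r a.1 + r b.1 ≤ |c' a - c' b|)
    (hc : ∀ a b : ι × Bool, c a ≤ c b → 0 ≤ c' b - c' a ∧ c' b - c' a ≤ c b - c a)
    (w : FreeGroup ι) :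
    |Matrix.trace ((rho c' r hr w : SL2) : M2)| ≤ |Matrix.trace ((rho c r hr w : SL2) : M2)| := by
  classical
  set L := FreeGroup.reduceCyclically w.toWord with hL
  have hcyc : FreeGroup.IsCyclicallyReduced L :=
    FreeGroup.reduceCyclically.isCyclicallyReduced FreeGroup.isReduced_toWord
  have hw : ∃ u : FreeGroup ι, w = u * FreeGroup.mk L * u⁻¹ := by
    refine ⟨FreeGroup.mk (FreeGroup.reduceCyclically.conjugator w.toWord), ?_⟩
    rw [FreeGroup.inv_mk, FreeGroup.mul_mk, FreeGroup.mul_mk, hL,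
      FreeGroup.reduceCyclically.conj_conjugator_reduceCyclically, FreeGroup.mk_toWord]
  obtain ⟨u, hu⟩ := hw
  have htr : ∀ d : ι × Bool → ℝ, Matrix.trace ((rho d r hr w : SL2) : M2) =
      Matrix.trace ((rho d r hr (FreeGroup.mk L) : SL2) : M2) := by
    intro d
    rw [hu, map_mul, map_mul, Matrix.SpecialLinearGroup.coe_mul,
      Matrix.SpecialLinearGroup.coe_mul, Matrix.trace_mul_cycle,
      ← Matrix.SpecialLinearGroup.coe_mul, ← map_mul, inv_mul_cancel, map_one]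
    simp
  rw [htr, htr]
  cases hLL : L with
  | nil =>
    have : (FreeGroup.mk ([] : List (ι × Bool))) = 1 := rfl
    simp [this]
  | cons a L1 =>
    rw [trace_eq, trace_eq]
    have h := trace_mono (shr_es c c' r hc (a :: L1) a) [] (by
      have : hd ([] ++ es c' r (a :: L1) a) 0 = r a.1 := rfl
      rw [this, List.nil_append]
      apply adm_es c' r hr hsep
      rw [hLL] at hcyc
      have h2 := hcyc.flatten_replicate 2
      have h3 := h2.isReduced
      have e : (List.replicate 2 (a :: L1)).flatten = ((a :: L1) ++ [a]) ++ L1 := by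
        simp [List.replicate]
      rw [e] at h3
      exact List.IsChain.left_of_append h3)
    simpa using h

end Pool.Agent.Lib.MP_23eee6_gt
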